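import Pool.Agent.Stark.Stmts

/-!
# Stark's conjecture: inflation of the data `φ`, `Θ` and of the regulator
-/

open NumberField IsDedekindDomain
open scoped TensorProduct Classical

namespace StarkC.INFL

/-! ### Places -/

section Basic

variable {K N : Type} [Field K] [NumberField K] [Field N] [NumberField N] [Algebra K N]

theorem finite_above (v : HeightOneSpectrum (𝓞 K)) :
    {w : HeightOneSpectrum (𝓞 N) | w.under (𝓞 K) = v}.Finite := by
  have hm : v.asIdeal.IsMaximal := v.isMaximal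
  have h := IsDedekindDomain.primesOver_finite v.asIdeal (𝓞 N)
  refine (h.preimage (f := HeightOneSpectrum.asIdeal) ?_).subset ?_
  · intro a _ b _ hab
    exact HeightOneSpectrum.ext hab
  · intro w hw
    simp only [Set.mem_preimage]
    refine ⟨w.isPrime, ⟨?_⟩⟩
    have : w.under (𝓞 K) = v := hw
    rw [← this]
    rfl

theorem finite_aboveSet {S : Set (HeightOneSpectrum (𝓞 K))} (hS : S.Finite) :
    (aboveSet K N S).Finite := by
  have : aboveSet K N S = ⋃ v ∈ S, {w : HeightOneSpectrum (𝓞 N) | w.under (𝓞 K) = v} := by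
    ext w
    simp [aboveSet]
  rw [this]
  exact hS.biUnion fun v _ => finite_above v

theorem finAbs_eq_one_iff (w : HeightOneSpectrum (𝓞 N)) (x : N) :
    finAbs N w x = 1 ↔ w.valuation N x = 1 := by
  have h1 : finAbs N w x = ((WithZeroMulInt.toNNReal
      (HeightOneSpectrum.absNorm_ne_zero w) (w.valuation N x) : NNReal) : ℝ) := rfl
  rw [h1, NNReal.coe_eq_one, WithZeroMulInt.toNNReal_eq_one_iff]
  exact (HeightOneSpectrum.one_lt_absNorm_nnreal w).ne'

theorem finAbs_two_le (w : HeightOneSpectrum (𝓞 N)) : finAbs N w 2 ≤ 1 := by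
  have h := HeightOneSpectrum.adicAbv_natCast_le_one N w 2
  exact_mod_cast h

theorem one_lt_infAbs_two (w : InfinitePlace N) : 1 < infAbs N w 2 := by
  have h : w (2 : N) = 2 := by
    have := map_ofNat w.embedding 2
    rw [← InfinitePlace.norm_embedding_eq w 2, this]
    simp
  rw [infAbs, h]
  exact one_lt_pow₀ (by norm_num) (InfinitePlace.mult_ne_zero (w := w))

theorem exists_place (hS : Stmt_STB) (S : Set (HeightOneSpectrum (𝓞 K))) (g : N ≃ₐ[K] N)
    (v : HeightOneSpectrum (𝓞 N)) (hv : v ∉ aboveSet K N S) :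
    ∃ v' : HeightOneSpectrum (𝓞 N), v' ∉ aboveSet K N S ∧
      finAbs N v ∘ (g : N ≃+* N).symm = finAbs N v' := by
  have h := hS K N {v.under (𝓞 K)} g (finAbs N v) (Or.inr ⟨v, rfl, rfl⟩)
  rcases h with ⟨w, hw⟩ | ⟨v', hv', hw⟩
  · exfalso
    have h1 := one_lt_infAbs_two w
    rw [hw] at h1
    have h2 : (finAbs N v ∘ (g : N ≃+* N).symm) 2 = finAbs N v 2 := by
      rw [Function.comp_apply, map_ofNat]
    rw [h2] at h1
    exact absurd h1 (not_lt.2 (finAbs_two_le v))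
  · refine ⟨v', ?_, hw.symm⟩
    intro h3
    apply hv
    have h4 : v'.under (𝓞 K) = v.under (𝓞 K) := hv'
    show v.under (𝓞 K) ∈ S
    rw [← h4]
    exact h3

theorem coe_symm_symm (g : N ≃ₐ[K] N) :
    ((g.symm : N ≃ₐ[K] N) : N ≃+* N).symm = (g : N ≃+* N) := rfl

theorem unit_stable (hS : Stmt_STB) (S : Set (HeightOneSpectrum (𝓞 K))) (g : N ≃ₐ[K] N)
    (u : Nˣ) (hu : u ∈ (aboveSet K N S).unit N) :
    Units.map ((g : N ≃+* N) : N →* N) u ∈ (aboveSet K N S).unit N := by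
  intro v hv
  obtain ⟨v', hv', h⟩ := exists_place hS S g.symm v hv
  have h1 := hu v' hv'
  rw [← finAbs_eq_one_iff] at h1 ⊢
  rw [← h1, ← h]
  rfl

theorem actU_tmul (g : N ≃+* N) (c : ℚ) (u : Nˣ) :
    actU g (c ⊗ₜ[ℤ] Additive.ofMul u) = c ⊗ₜ[ℤ] Additive.ofMul (Units.map (g : N →* N) u) := by
  rw [actU, LinearMap.baseChange_tmul]
  rfl

theorem actU_mem (hS : Stmt_STB) (S : Set (HeightOneSpectrum (𝓞 K))) (g : N ≃ₐ[K] N)
    {x : ℚ ⊗[ℤ] Additive Nˣ} (hx : x ∈ QU N (aboveSet K N S)) :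
    actU (g : N ≃+* N) x ∈ QU N (aboveSet K N S) := by
  rw [QU] at hx
  induction hx using Submodule.span_induction with
  | mem x h =>
    obtain ⟨u, hu, rfl⟩ := h
    rw [actU_tmul]
    exact Submodule.subset_span ⟨_, unit_stable hS S g u hu, rfl⟩
  | zero => rw [map_zero]; exact Submodule.zero_mem _
  | add x y _ _ hx hy => rw [map_add]; exact Submodule.add_mem _ hx hy
  | smul a x _ hx => rw [map_smul]; exact Submodule.smul_mem _ _ hx

theorem actU_one (x : ℚ ⊗[ℤ] Additive Nˣ) : actU ((1 : N ≃ₐ[K] N) : N ≃+* N) x = x := by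
  induction x using TensorProduct.induction_on with
  | zero => rw [map_zero]
  | tmul c u => exact actU_tmul _ c (Additive.toMul u)
  | add x y hx hy => rw [map_add, hx, hy]

theorem actU_mul (g h : N ≃ₐ[K] N) (x : ℚ ⊗[ℤ] Additive Nˣ) :
    actU ((g * h : N ≃ₐ[K] N) : N ≃+* N) x =
      actU (g : N ≃+* N) (actU (h : N ≃+* N) x) := by
  induction x using TensorProduct.induction_on with
  | zero => rw [map_zero, map_zero, map_zero]
  | tmul c u =>
    have e1 := actU_tmul ((g * h : N ≃ₐ[K] N) : N ≃+* N) c (Additive.toMul u)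
    have e2 := actU_tmul (h : N ≃+* N) c (Additive.toMul u)
    have e3 := actU_tmul (g : N ≃+* N) c (Units.map ((h : N ≃+* N) : N →* N) (Additive.toMul u))
    rw [ofMul_toMul] at e1 e2
    rw [e1, e2, e3]
    rfl
  | add x y hx hy => rw [map_add, map_add, map_add, hx, hy]

theorem actQ_one (x : (N → ℝ) →₀ ℚ) : actQ ((1 : N ≃ₐ[K] N) : N ≃+* N) x = x := by
  show Finsupp.mapDomain (fun a : N → ℝ => a ∘ ((1 : N ≃ₐ[K] N) : N ≃+* N).symm) x = x
  have : (fun a : N → ℝ => a ∘ ((1 : N ≃ₐ[K] N) : N ≃+* N).symm) = id := by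
    funext a y
    rfl
  rw [this, Finsupp.mapDomain_id]

theorem actQ_mul (g h : N ≃ₐ[K] N) (x : (N → ℝ) →₀ ℚ) :
    actQ ((g * h : N ≃ₐ[K] N) : N ≃+* N) x =
      actQ (g : N ≃+* N) (actQ (h : N ≃+* N) x) := by
  show Finsupp.mapDomain (fun a : N → ℝ => a ∘ ((g * h : N ≃ₐ[K] N) : N ≃+* N).symm) x =
      Finsupp.mapDomain (fun a : N → ℝ => a ∘ (g : N ≃+* N).symm)
        (Finsupp.mapDomain (fun a : N → ℝ => a ∘ (h : N ≃+* N).symm) x)
  rw [← Finsupp.mapDomain_comp]
  rfl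

theorem actQ_mem {T : Set (HeightOneSpectrum (𝓞 N))} (hT : StableT K T) (g : N ≃ₐ[K] N)
    {x : (N → ℝ) →₀ ℚ} (hx : x ∈ XQ N T) : actQ (g : N ≃+* N) x ∈ XQ N T := by
  rw [XQ, Submodule.mem_inf] at hx ⊢
  constructor
  · rw [Finsupp.mem_supported] at hx ⊢
    intro a ha
    have h1 := Finsupp.mapDomain_support (f := fun a : N → ℝ => a ∘ (g : N ≃+* N).symm) (s := x)
      (Finset.mem_coe.1 ha)
    rw [Finset.mem_image] at h1
    obtain ⟨b, hb, rfl⟩ := h1
    exact hT g b (hx.1 (Finset.mem_coe.2 hb))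
  · rw [LinearMap.mem_ker] at hx ⊢
    rw [actQ, Finsupp.lmapDomain_apply, Finsupp.linearCombination_mapDomain]
    exact hx.2

/-- The representation of `Gal(N/K)` on `ℚ ⊗ X`. -/
noncomputable def repQ (T : Set (HeightOneSpectrum (𝓞 N))) (hT : StableT K T) :
    Representation ℚ (N ≃ₐ[K] N) (XQ N T) where
  toFun g := (actQ (g : N ≃+* N)).restrict (p := XQ N T) (q := XQ N T)
    (fun _ hx => actQ_mem hT g hx)
  map_one' := by
    ext1 x
    exact Subtype.ext (actQ_one x.1)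
  map_mul' g h := by
    ext1 x
    exact Subtype.ext (actQ_mul g h x.1)

theorem repQ_val (T : Set (HeightOneSpectrum (𝓞 N))) (hT : StableT K T) (g : N ≃ₐ[K] N)
    (x : XQ N T) : (repQ T hT g x : (N → ℝ) →₀ ℚ) = actQ (g : N ≃+* N) x := rfl

/-- The representation of `Gal(N/K)` on `ℚ ⊗ U`. -/
noncomputable def repU (hS : Stmt_STB) (S : Set (HeightOneSpectrum (𝓞 K))) :
    Representation ℚ (N ≃ₐ[K] N) (QU N (aboveSet K N S)) where
  toFun g := (actU (g : N ≃+* N)).restrict (p := QU N (aboveSet K N S))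
    (q := QU N (aboveSet K N S)) (fun _ hx => actU_mem hS S g hx)
  map_one' := by
    ext1 x
    exact Subtype.ext (actU_one x.1)
  map_mul' g h := by
    ext1 x
    exact Subtype.ext (actU_mul g h x.1)

theorem repU_val (hS : Stmt_STB) (S : Set (HeightOneSpectrum (𝓞 K))) (g : N ≃ₐ[K] N)
    (x : QU N (aboveSet K N S)) :
    (repU hS S g x : ℚ ⊗[ℤ] Additive Nˣ) = actU (g : N ≃+* N) x := rfl

/-! ### The inclusions into `ℂ ⊗ X` -/

theorem act_injective (g : N ≃+* N) : Function.Injective (fun a : N → ℝ => a ∘ g.symm) := by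
  intro a b h
  funext x
  have := congrFun h (g x)
  simpa using this

theorem lam_tmul (T : Set (HeightOneSpectrum (𝓞 N))) (c : ℚ) (u : Nˣ) :
    lam N T (c ⊗ₜ[ℤ] Additive.ofMul u) = c • lamHom N T (Additive.ofMul u) := by
  rw [lam, LinearMap.liftBaseChange_tmul]
  rfl

theorem lamHom_apply (T : Set (HeightOneSpectrum (𝓞 N))) (u : Nˣ) (a : N → ℝ) :
    lamHom N T (Additive.ofMul u) a =
      if a ∈ placeSet N T then -((Real.log (a (u : N)) : ℝ) : ℂ) else 0 := rfl

theorem stable_iff {T : Set (HeightOneSpectrum (𝓞 N))} (hT : StableT K T) (g : N ≃ₐ[K] N)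
    (a : N → ℝ) : a ∘ (g : N ≃+* N).symm ∈ placeSet N T ↔ a ∈ placeSet N T := by
  refine ⟨fun h => ?_, fun h => hT g a h⟩
  have h1 := hT g.symm _ h
  have h2 : (a ∘ (g : N ≃+* N).symm) ∘ ((g.symm : N ≃ₐ[K] N) : N ≃+* N).symm = a := by
    funext x
    simp only [Function.comp_apply]
    rw [coe_symm_symm]
    simp
  rw [h2] at h1
  exact h1

theorem lamHom_act {T : Set (HeightOneSpectrum (𝓞 N))} (hT : StableT K T) (g : N ≃ₐ[K] N)
    (u : Nˣ) : lamHom N T (Additive.ofMul (Units.map ((g : N ≃+* N) : N →* N) u)) =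
      actC (g : N ≃+* N) (lamHom N T (Additive.ofMul u)) := by
  ext b
  obtain ⟨a, rfl⟩ : ∃ a : N → ℝ, b = a ∘ (g : N ≃+* N).symm :=
    ⟨b ∘ (g : N ≃+* N), by funext x; simp⟩
  have h1 : actC (g : N ≃+* N) (lamHom N T (Additive.ofMul u)) (a ∘ (g : N ≃+* N).symm) =
      lamHom N T (Additive.ofMul u) a :=
    Finsupp.mapDomain_apply (act_injective (g : N ≃+* N)) _ _
  rw [h1, lamHom_apply, lamHom_apply]
  have h2 : (a ∘ (g : N ≃+* N).symm) ((Units.map ((g : N ≃+* N) : N →* N) u : Nˣ) : N) =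
      a (u : N) := by
    simp
  rw [h2]
  simp only [stable_iff hT g a]

theorem lam_act {T : Set (HeightOneSpectrum (𝓞 N))} (hT : StableT K T) (g : N ≃ₐ[K] N)
    (x : ℚ ⊗[ℤ] Additive Nˣ) :
    lam N T (actU (g : N ≃+* N) x) = actC (g : N ≃+* N) (lam N T x) := by
  induction x using TensorProduct.induction_on with
  | zero => simp only [map_zero]
  | tmul c u =>
    have e1 := actU_tmul (g : N ≃+* N) c (Additive.toMul u)
    have e2 := lam_tmul T c (Units.map ((g : N ≃+* N) : N →* N) (Additive.toMul u))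
    have e3 := lam_tmul T c (Additive.toMul u)
    rw [ofMul_toMul] at e1 e3
    rw [e1, e2, e3, lamHom_act hT, ofMul_toMul]
    have e4 : (c • lamHom N T u : (N → ℝ) →₀ ℂ) = (c : ℂ) • lamHom N T u := by
      ext a
      simp [Rat.smul_def]
    have e5 : (c • actC (g : N ≃+* N) (lamHom N T u) : (N → ℝ) →₀ ℂ) =
        (c : ℂ) • actC (g : N ≃+* N) (lamHom N T u) := by
      ext a
      simp [Rat.smul_def]
    rw [e4, e5, map_smul]
  | add x y hx hy => rw [map_add, map_add, map_add, map_add, hx, hy]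

theorem lam_mem (hU : Stmt_UNIT) {T : Set (HeightOneSpectrum (𝓞 N))} (hT : T.Finite)
    (x : QU N T) : lam N T x ∈ XCsub N T := by
  obtain ⟨n, b, c, h⟩ := hU N T hT
  rw [← b.sum_repr x]
  rw [Submodule.coe_sum, map_sum]
  refine Submodule.sum_mem _ fun i _ => ?_
  rw [Submodule.coe_smul, map_smul, ← h i]
  have e4 : ((b.repr x i) • (c i).val : (N → ℝ) →₀ ℂ) = ((b.repr x i : ℚ) : ℂ) • (c i).val := by
    ext a
    simp [Rat.smul_def]
  rw [e4]
  exact Submodule.smul_mem _ _ (c i).2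

/-- The map `ℚ ⊗ U → ℂ ⊗ X` given by `λ`. -/
noncomputable def jN (hU : Stmt_UNIT) (T : Set (HeightOneSpectrum (𝓞 N))) (hT : T.Finite) :
    QU N T →+ XC N T where
  toFun x := (⟨lam N T x, lam_mem hU hT x⟩ : ↥(XCsub N T))
  map_zero' := Subtype.ext (by
    show lam N T ((0 : QU N T) : ℚ ⊗[ℤ] Additive Nˣ) = 0
    rw [Submodule.coe_zero, map_zero])
  map_add' x y := Subtype.ext (by
    show lam N T ((x + y : QU N T) : ℚ ⊗[ℤ] Additive Nˣ) = lam N T x + lam N T y
    rw [Submodule.coe_add, map_add])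

theorem jN_val (hU : Stmt_UNIT) (T : Set (HeightOneSpectrum (𝓞 N))) (hT : T.Finite)
    (x : QU N T) : (jN hU T hT x).val = lam N T x := rfl

/-- Extension of scalars on formal combinations. -/
noncomputable def castQC (N : Type) : ((N → ℝ) →₀ ℚ) →+ ((N → ℝ) →₀ ℂ) :=
  Finsupp.mapRange.addMonoidHom (algebraMap ℚ ℂ : ℚ →+ ℂ)

theorem castQC_apply (N : Type) (x : (N → ℝ) →₀ ℚ) (a : N → ℝ) :
    castQC N x a = ((x a : ℚ) : ℂ) := rfl

theorem castQC_mem {T : Set (HeightOneSpectrum (𝓞 N))} (x : XQ N T) :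
    castQC N x ∈ XCsub N T := by
  obtain ⟨x, hx⟩ := x
  rw [XQ, Submodule.mem_inf] at hx
  rw [XCsub, Submodule.mem_inf]
  constructor
  · rw [Finsupp.mem_supported] at hx ⊢
    intro a ha
    apply hx.1
    rw [Finset.mem_coe, Finsupp.mem_support_iff] at ha ⊢
    intro h
    apply ha
    rw [castQC_apply]
    simp [h]
  · rw [LinearMap.mem_ker] at hx ⊢
    have h2 := hx.2
    rw [Finsupp.linearCombination_apply, Finsupp.sum] at h2
    have h3 : (castQC N x).support ⊆ x.support := by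
      intro a ha
      rw [Finsupp.mem_support_iff] at ha ⊢
      intro h
      apply ha
      rw [castQC_apply]
      simp [h]
    rw [Finsupp.linearCombination_apply, Finsupp.sum_of_support_subset _ h3 _ (by simp)]
    have h4 := congrArg (fun q : ℚ => (q : ℂ)) h2
    simp only [smul_eq_mul, mul_one, Rat.cast_sum, Rat.cast_zero] at h4
    simpa [castQC_apply] using h4

/-- The map `ℚ ⊗ X → ℂ ⊗ X`. -/
noncomputable def iN (T : Set (HeightOneSpectrum (𝓞 N))) : XQ N T →+ XC N T where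
  toFun x := (⟨castQC N x, castQC_mem x⟩ : ↥(XCsub N T))
  map_zero' := Subtype.ext (by
    show castQC N ((0 : XQ N T) : (N → ℝ) →₀ ℚ) = 0
    rw [Submodule.coe_zero, map_zero])
  map_add' x y := Subtype.ext (by
    show castQC N ((x + y : XQ N T) : (N → ℝ) →₀ ℚ) = castQC N x + castQC N y
    rw [Submodule.coe_add, map_add])

theorem iN_val (T : Set (HeightOneSpectrum (𝓞 N))) (x : XQ N T) (a : N → ℝ) :
    (iN T x).val a = (((x : (N → ℝ) →₀ ℚ) a : ℚ) : ℂ) := rfl

theorem castQC_act (g : N ≃+* N) (x : (N → ℝ) →₀ ℚ) :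
    castQC N (actQ g x) = actC g (castQC N x) := by
  ext b
  obtain ⟨a, rfl⟩ : ∃ a : N → ℝ, b = a ∘ g.symm := ⟨b ∘ g, by funext x; simp⟩
  have h1 : actC g (castQC N x) (a ∘ g.symm) = castQC N x a :=
    Finsupp.mapDomain_apply (act_injective g) _ _
  have h2 : actQ g x (a ∘ g.symm) = x a :=
    Finsupp.mapDomain_apply (act_injective g) _ _
  rw [h1, castQC_apply, castQC_apply, h2]

end Basic

/-! ### The regulator -/

section Regulator

variable {K L N : Type} [Field K] [NumberField K] [Field L] [NumberField L] [Field N]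
  [NumberField N] [Algebra K L] [Algebra K N] [Algebra L N] [IsScalarTower K L N] [IsGalois K L]
  [IsGalois K N]

theorem dual_res {V : Type} [AddCommGroup V] [Module ℂ V] (ρ : Representation ℂ (L ≃ₐ[K] L) V)
    (g : N ≃ₐ[K] N) (α : Module.Dual ℂ V) :
    Representation.dual (ρ.comp (AlgEquiv.restrictNormalHom L)) g α =
      ρ.dual (AlgEquiv.restrictNormalHom L g) α := by
  ext v
  simp [Representation.dual_apply]

theorem mem_homG_iff {TL : Set (HeightOneSpectrum (𝓞 L))} {TN : Set (HeightOneSpectrum (𝓞 N))}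
    (hTL : StableT K TL) (ιC : XC L TL →ₗ[ℂ] XC N TN) (hinj : Function.Injective ιC)
    (hequi : ∀ (g : N ≃ₐ[K] N) (x y : XC L TL),
        y.val = actC (AlgEquiv.restrictNormalHom L g : L ≃+* L) x.val →
        (ιC y).val = actC (g : N ≃+* N) (ιC x).val)
    {V : Type} [AddCommGroup V] [Module ℂ V] (ρ : Representation ℂ (L ≃ₐ[K] L) V)
    (f : Module.Dual ℂ V →ₗ[ℂ] XC L TL) :
    ιC ∘ₗ f ∈ homG TN (ρ.comp (AlgEquiv.restrictNormalHom L)) ↔ f ∈ homG TL ρ := by
  constructor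
  · intro h g α
    obtain ⟨g', rfl⟩ := AlgEquiv.restrictNormalHom_surjective (F := K) (K₁ := L) N g
    have h1 := h g' α
    rw [dual_res] at h1
    have h2 := hequi g' (f α) (repX K TL hTL (AlgEquiv.restrictNormalHom L g') (f α))
      (repX_val TL hTL _ _)
    rw [LinearMap.comp_apply, LinearMap.comp_apply, ← h2] at h1
    have h3 := hinj (Subtype.ext h1)
    rw [h3, repX_val]
  · intro h g α
    rw [dual_res, LinearMap.comp_apply, LinearMap.comp_apply]
    exact hequi g _ _ (h _ α)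

theorem reg_eq {TL : Set (HeightOneSpectrum (𝓞 L))} {TN : Set (HeightOneSpectrum (𝓞 N))}
    (hTL : StableT K TL) (ιC : XC L TL →ₗ[ℂ] XC N TN) (hinj : Function.Injective ιC)
    (hequi : ∀ (g : N ≃ₐ[K] N) (x y : XC L TL),
        y.val = actC (AlgEquiv.restrictNormalHom L g : L ≃+* L) x.val →
        (ιC y).val = actC (g : N ≃+* N) (ιC x).val)
    (hsurj : ∀ x : XC N TN,
        (∀ δ : N ≃ₐ[K] N, AlgEquiv.restrictNormalHom L δ = (1 : L ≃ₐ[K] L) →
          actC (δ : N ≃+* N) x.val = x.val) → ∃ y, ιC y = x)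
    (Θ : XC L TL →ₗ[ℂ] XC L TL) (Θ' : XC N TN →ₗ[ℂ] XC N TN)
    (hΘ : Θ' ∘ₗ ιC = ιC ∘ₗ Θ)
    {V : Type} [AddCommGroup V] [Module ℂ V] (ρ : Representation ℂ (L ≃ₐ[K] L) V) :
    Reg TN (ρ.comp (AlgEquiv.restrictNormalHom L)) Θ' = Reg TL ρ Θ := by
  have key := mem_homG_iff hTL ιC hinj hequi ρ
  have hsur2 : ∀ f' ∈ homG TN (ρ.comp (AlgEquiv.restrictNormalHom L)),
      ∃ f : Module.Dual ℂ V →ₗ[ℂ] XC L TL, ιC ∘ₗ f = f' := by
    intro f' hf'
    have h1 : ∀ α, f' α ∈ LinearMap.range ιC := by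
      intro α
      apply hsurj
      intro δ hδ
      have h2 := hf' δ α
      rw [dual_res, hδ, map_one] at h2
      exact h2.symm
    refine ⟨(LinearEquiv.ofInjective ιC hinj).symm.toLinearMap ∘ₗ f'.codRestrict _ h1, ?_⟩
    ext1 α
    simp only [LinearMap.comp_apply, LinearEquiv.coe_coe]
    have h3 := LinearEquiv.apply_symm_apply (LinearEquiv.ofInjective ιC hinj)
      (f'.codRestrict _ h1 α)
    have h4 := congrArg Subtype.val h3
    exact h4
  let Ψ : homG TL ρ ≃ₗ[ℂ] homG TN (ρ.comp (AlgEquiv.restrictNormalHom L)) :=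
    LinearEquiv.ofBijective
      ((LinearMap.compRight ℂ ιC).restrict (p := homG TL ρ)
        (q := homG TN (ρ.comp (AlgEquiv.restrictNormalHom L))) (fun f hf => (key f).2 hf))
      (by
        constructor
        · intro f g hfg
          apply Subtype.ext
          ext1 α
          apply hinj
          exact congrArg (fun F => (F : homG TN (ρ.comp (AlgEquiv.restrictNormalHom L))).1 α) hfg
        · rintro ⟨f', hf'⟩
          obtain ⟨f, rfl⟩ := hsur2 f' hf'
          exact ⟨⟨f, (key f).1 hf'⟩, rfl⟩)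
  have hcomp : ∀ f : Module.Dual ℂ V →ₗ[ℂ] XC L TL, Θ' ∘ₗ (ιC ∘ₗ f) = ιC ∘ₗ (Θ ∘ₗ f) := by
    intro f
    rw [← LinearMap.comp_assoc, hΘ, LinearMap.comp_assoc]
  by_cases hL : ∀ f ∈ homG TL ρ, LinearMap.compRight ℂ Θ f ∈ homG TL ρ
  · have hN : ∀ f ∈ homG TN (ρ.comp (AlgEquiv.restrictNormalHom L)),
        LinearMap.compRight ℂ Θ' f ∈ homG TN (ρ.comp (AlgEquiv.restrictNormalHom L)) := by
      intro f' hf'
      obtain ⟨f, rfl⟩ := hsur2 f' hf'
      show Θ' ∘ₗ (ιC ∘ₗ f) ∈ _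
      rw [hcomp]
      exact (key _).2 (hL f ((key f).1 hf'))
    rw [Reg, Reg, dif_pos hL, dif_pos hN]
    rw [← LinearMap.det_conj ((LinearMap.compRight ℂ Θ).restrict hL) Ψ]
    congr 1
    ext1 f'
    obtain ⟨f, rfl⟩ := Ψ.surjective f'
    rw [LinearMap.comp_apply, LinearMap.comp_apply, LinearEquiv.coe_coe, LinearEquiv.coe_coe,
      LinearEquiv.symm_apply_apply]
    apply Subtype.ext
    exact hcomp f.1
  · have hN : ¬ ∀ f ∈ homG TN (ρ.comp (AlgEquiv.restrictNormalHom L)),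
        LinearMap.compRight ℂ Θ' f ∈ homG TN (ρ.comp (AlgEquiv.restrictNormalHom L)) := by
      intro hN
      apply hL
      intro f hf
      apply (key _).1
      show ιC ∘ₗ (Θ ∘ₗ f) ∈ _
      rw [← hcomp]
      exact hN _ ((key f).2 hf)
    rw [Reg, Reg, dif_neg hL, dif_neg hN]

end Regulator

end StarkC.INFL

namespace StarkC

open StarkC.INFL

theorem INFL_thm (hN : StarkC.Stmt_ND) (hX : StarkC.Stmt_XRAT) (hU : StarkC.Stmt_UNIT)
    (hE : StarkC.Stmt_THE) (hI : StarkC.Stmt_IOT) (hD : StarkC.Stmt_UDE) (hS : StarkC.Stmt_STB) :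
    StarkC.Stmt_INFL := by
  intro K L N _ _ _ _ _ _ _ _ _ _ _ _ S φ Θ hφΘ
  have fTL : (aboveSet K L (S : Set (HeightOneSpectrum (𝓞 K)))).Finite := finite_aboveSet S.finite_toSet
  have fTN : (aboveSet K N (S : Set (HeightOneSpectrum (𝓞 K)))).Finite := finite_aboveSet S.finite_toSet
  have sTL : StableT K (aboveSet K L (S : Set (HeightOneSpectrum (𝓞 K)))) := hS K L S
  have sTN : StableT K (aboveSet K N (S : Set (HeightOneSpectrum (𝓞 K)))) := hS K N S
  obtain ⟨ιQ, ιC, ιQinj, ιCinj, ιcompat, ιQequi, ιCequi, ιQsurj, ιCsurj, ιlam⟩ := hI K L N S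
  obtain ⟨jmem, jinj, jequi, jsurj⟩ := hD K L N (S : Set (HeightOneSpectrum (𝓞 K)))
  obtain ⟨n, a, a', haa'⟩ := hX N (aboveSet K N (S : Set (HeightOneSpectrum (𝓞 K)))) fTN
  obtain ⟨m, b₀, b₀', hbb'⟩ := hU N (aboveSet K N (S : Set (HeightOneSpectrum (𝓞 K)))) fTN
  have hnm : m = n := by
    have h1 := Module.finrank_eq_card_basis a'
    have h2 := Module.finrank_eq_card_basis b₀'
    rw [h1] at h2
    simpa using h2.symm
  subst hnm
  set G := N ≃ₐ[K] N
  let D : Subgroup G := (AlgEquiv.restrictNormalHom (F := K) (K₁ := N) L).ker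
  have hDmem : ∀ δ : G, δ ∈ D ↔ AlgEquiv.restrictNormalHom L δ = (1 : L ≃ₐ[K] L) := by
    intro δ
    exact MonoidHom.mem_ker
  haveI : D.Normal := MonoidHom.normal_ker _
  let α := repQ (aboveSet K N (S : Set (HeightOneSpectrum (𝓞 K)))) sTN
  let β := repU (N := N) hS (S : Set (HeightOneSpectrum (𝓞 K)))
  -- invariants
  let A₀ : Submodule ℚ (XQ N (aboveSet K N (S : Set (HeightOneSpectrum (𝓞 K))))) :=
    { carrier := {x | ∀ d ∈ D, α d x = x}
      add_mem' := by
        intro x y hx hy d hd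
        rw [map_add, hx d hd, hy d hd]
      zero_mem' := by
        intro d hd
        rw [map_zero]
      smul_mem' := by
        intro c x hx d hd
        rw [map_smul, hx d hd] }
  let B₀ : Submodule ℚ (QU N (aboveSet K N (S : Set (HeightOneSpectrum (𝓞 K))))) :=
    { carrier := {x | ∀ d ∈ D, β d x = x}
      add_mem' := by
        intro x y hx hy d hd
        rw [map_add, hx d hd, hy d hd]
      zero_mem' := by
        intro d hd
        rw [map_zero]
      smul_mem' := by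
        intro c x hx d hd
        rw [map_smul, hx d hd] }
  have hA₀ : ∀ x : XQ N (aboveSet K N (S : Set (HeightOneSpectrum (𝓞 K)))), x ∈ A₀ ↔ ∀ d ∈ D, α d x = x := fun x => Iff.rfl
  have hB₀ : ∀ x : QU N (aboveSet K N (S : Set (HeightOneSpectrum (𝓞 K)))), x ∈ B₀ ↔ ∀ d ∈ D, β d x = x := fun x => Iff.rfl
  -- the isomorphism `XQ L ≃ A₀`
  have ιQmem : ∀ x, ιQ x ∈ A₀ := by
    intro x d hd
    have h1 := ιQequi d x x (by
      rw [(hDmem d).1 hd]
      exact (actQ_one (K := K) _).symm)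
    exact Subtype.ext h1.symm
  let ιA : XQ L (aboveSet K L (S : Set (HeightOneSpectrum (𝓞 K)))) ≃ₗ[ℚ] A₀ := LinearEquiv.ofBijective (ιQ.codRestrict A₀ ιQmem) (by
    constructor
    · intro x y hxy
      exact ιQinj (congrArg Subtype.val hxy)
    · rintro ⟨x, hx⟩
      obtain ⟨y, hy⟩ := ιQsurj x (fun δ hδ => congrArg Subtype.val (hx δ ((hDmem δ).2 hδ)))
      exact ⟨y, Subtype.ext hy⟩)
  have ιA_val : ∀ x, ((ιA x : A₀) : XQ N (aboveSet K N (S : Set (HeightOneSpectrum (𝓞 K))))) = ιQ x := fun x => rfl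
  -- the isomorphism `QU L ≃ B₀`
  let jUr : QU L (aboveSet K L (S : Set (HeightOneSpectrum (𝓞 K)))) →ₗ[ℚ] QU N (aboveSet K N (S : Set (HeightOneSpectrum (𝓞 K)))) := (jU L N).restrict jmem
  have jUr_val : ∀ x : QU L (aboveSet K L (S : Set (HeightOneSpectrum (𝓞 K)))), ((jUr x : QU N (aboveSet K N (S : Set (HeightOneSpectrum (𝓞 K))))) : ℚ ⊗[ℤ] Additive Nˣ) = jU L N x :=
    fun x => rfl
  have jUrmem : ∀ x, jUr x ∈ B₀ := by
    intro x d hd
    apply Subtype.ext
    show actU (d : N ≃+* N) (jU L N x) = jU L N x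
    rw [jequi, (hDmem d).1 hd]
    rw [actU_one (K := K)]
  let jB : QU L (aboveSet K L (S : Set (HeightOneSpectrum (𝓞 K)))) ≃ₗ[ℚ] B₀ := LinearEquiv.ofBijective (jUr.codRestrict B₀ jUrmem) (by
    constructor
    · refine (injective_iff_map_eq_zero (jUr.codRestrict B₀ jUrmem)).2 ?_
      intro x hx
      have h1 : jU L N x = 0 := congrArg (fun y : B₀ => ((y : QU N
        (aboveSet K N (S : Set (HeightOneSpectrum (𝓞 K))))) : ℚ ⊗[ℤ] Additive Nˣ)) hx
      exact Subtype.ext (jinj x x.2 h1)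
    · rintro ⟨x, hx⟩
      obtain ⟨y, hy, hyx⟩ := jsurj x x.2
        (fun δ hδ => congrArg Subtype.val (hx δ ((hDmem δ).2 hδ)))
      exact ⟨⟨y, hy⟩, Subtype.ext (Subtype.ext hyx)⟩)
  have jB_val : ∀ x : QU L (aboveSet K L (S : Set (HeightOneSpectrum (𝓞 K)))), (((jB x : B₀) : QU N (aboveSet K N (S : Set (HeightOneSpectrum (𝓞 K))))) : ℚ ⊗[ℤ] Additive Nˣ) = jU L N x :=
    fun x => rfl
  let e₀ : A₀ ≃ₗ[ℚ] B₀ := (ιA.symm.trans φ).trans jB
  have he₀ : ∀ x : XQ L (aboveSet K L (S : Set (HeightOneSpectrum (𝓞 K)))), e₀ (ιA x) = jB (φ x) := by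
    intro x
    simp only [e₀, LinearEquiv.trans_apply, LinearEquiv.symm_apply_apply]
  obtain ⟨e, he1, he2⟩ := hN G D (XC N (aboveSet K N (S : Set (HeightOneSpectrum (𝓞 K))))) (repX K (aboveSet K N (S : Set (HeightOneSpectrum (𝓞 K)))) sTN) (XQ N (aboveSet K N (S : Set (HeightOneSpectrum (𝓞 K))))) (QU N (aboveSet K N (S : Set (HeightOneSpectrum (𝓞 K))))) α β
    (iN (aboveSet K N (S : Set (HeightOneSpectrum (𝓞 K))))) (jN hU (aboveSet K N (S : Set (HeightOneSpectrum (𝓞 K)))) fTN) m a a' b₀ b₀'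
    (by
      intro k
      apply Subtype.ext
      apply Finsupp.ext
      intro x
      exact (haa' k x).symm)
    (by
      intro k
      apply Subtype.ext
      exact (hbb' k).symm)
    (by
      intro g x
      apply Subtype.ext
      exact castQC_act (g : N ≃+* N) _)
    (by
      intro g x
      apply Subtype.ext
      exact lam_act sTN g _)
    A₀ B₀ e₀ hA₀ hB₀
    (by
      intro g x y hxy
      obtain ⟨x', rfl⟩ := ιA.surjective x
      obtain ⟨y', rfl⟩ := ιA.surjective y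
      rw [he₀, he₀]
      have h1 : (y' : (L → ℝ) →₀ ℚ) =
          actQ (AlgEquiv.restrictNormalHom L g : L ≃+* L) x' := by
        have h2 := ιQequi g x' (repQ (aboveSet K L (S : Set (HeightOneSpectrum (𝓞 K)))) sTL (AlgEquiv.restrictNormalHom L g) x')
          (repQ_val (aboveSet K L (S : Set (HeightOneSpectrum (𝓞 K)))) sTL _ _)
        have h3 : (ιQ y' : (N → ℝ) →₀ ℚ) = actQ (g : N ≃+* N) (ιQ x') := congrArg Subtype.val hxy
        rw [← h2] at h3
        have h4 := ιQinj (Subtype.ext h3)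
        rw [h4, repQ_val]
      have h5 := hφΘ.1 (AlgEquiv.restrictNormalHom L g) x' y' h1
      apply Subtype.ext
      rw [jB_val, h5, ← jequi]
      rfl)
  have hequi' : ∀ (g : N ≃ₐ[K] N) (x y : XQ N (aboveSet K N (S : Set (HeightOneSpectrum (𝓞 K))))), (y : (N → ℝ) →₀ ℚ) = actQ (g : N ≃+* N) x →
      (e y : ℚ ⊗[ℤ] Additive Nˣ) = actU (g : N ≃+* N) (e x) := by
    intro g x y hxy
    have h1 : y = α g x := Subtype.ext hxy
    rw [h1, he1 g x]
    rfl
  obtain ⟨Θ', hΘ'⟩ := hE K N (aboveSet K N (S : Set (HeightOneSpectrum (𝓞 K)))) e fTN hequi'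
  refine ⟨e, Θ', hΘ', ?_⟩
  have hcomm : Θ' ∘ₗ ιC = ιC ∘ₗ Θ := by
    obtain ⟨r, c, c', hcc'⟩ := hX L (aboveSet K L (S : Set (HeightOneSpectrum (𝓞 K)))) fTL
    refine c'.ext fun i => ?_
    rw [LinearMap.comp_apply, LinearMap.comp_apply]
    have h1 := hφΘ.2 (c i) (c' i) (hcc' i)
    have h2 := ιlam _ _ h1
    have h3 := ιcompat (c i) (c' i) (hcc' i)
    have h4 := hΘ'.2 (ιQ (c i)) (ιC (c' i)) h3
    apply Subtype.ext
    refine h4.trans (Eq.trans ?_ h2.symm)
    have h5 := he2 (ιA (c i))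
    rw [ιA_val, he₀] at h5
    rw [h5, jB_val]
  intro V _ _ _ ρ
  exact reg_eq sTL ιC ιCinj ιCequi ιCsurj Θ Θ' hcomm ρ

end StarkC
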