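import Pool.Agent.Stark.Stmts

open NumberField IsDedekindDomain
open scoped TensorProduct Classical

namespace StarkC

namespace MAIN

theorem linRep_character {G : Type} [Group G] (ψ : G →* ℂˣ) (g : G) :
    (linRep ψ).character g = (ψ g : ℂ) := by
  show LinearMap.trace ℂ ℂ (LinearMap.lsmul ℂ ℂ (ψ g : ℂ)) = _
  rw [LinearMap.trace_eq_matrix_trace ℂ (Module.Basis.singleton Unit ℂ)]
  simp [Matrix.trace, LinearMap.toMatrix_apply]

theorem character_comp {G G' V : Type} [Group G] [Group G'] [AddCommGroup V] [Module ℂ V]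
    (ρ : Representation ℂ G V) (r : G' →* G) (g : G') :
    Representation.character (ρ.comp r : Representation ℂ G' V) g = ρ.character (r g) := rfl

theorem of_conj (h : StarkConjecture) : StarkTotallyComplex ∧ StarkTwoPowerOdd := by
  have key : ∀ (K L : Type) [Field K] [NumberField K] [Field L] [NumberField L] [Algebra K L]
      [IsGalois K L] (ψ : (L ≃ₐ[K] L) →* ℂˣ), StarkLinear K L ψ := by
    intro K L _ _ _ _ _ _ ψ S φ Θ σ hφ
    refine h K L S φ Θ ℂ ℂ (linRep ψ) (linRep (twist σ ψ)) σ hφ ?_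
    intro g
    rw [linRep_character, linRep_character]
    rfl
  exact ⟨fun K L _ _ _ _ _ _ ψ _ => key K L ψ, fun K L _ _ _ _ _ _ ψ _ _ => key K L ψ⟩

theorem logL_infl (hL : Stmt_LINF) (K L N : Type) [Field K] [NumberField K] [Field L]
    [NumberField L] [Field N] [NumberField N]
    [Algebra K L] [Algebra K N] [Algebra L N] [IsScalarTower K L N] [IsGalois K L] [IsGalois K N]
    (V : Type) [AddCommGroup V] [Module ℂ V] [Module.Finite ℂ V]
    (ρ : Representation ℂ (L ≃ₐ[K] L) V) (S : Set (HeightOneSpectrum (𝓞 K))) (s : ℂ) :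
    logL (K := K) (L := N) (Representation.character (k := ℂ) (G := N ≃ₐ[K] N) (V := V)
      (ρ.comp (AlgEquiv.restrictNormalHom L))) S s = logL ρ.character S s := by
  unfold logL
  refine tsum_congr fun p => ?_
  have := hL K L N ρ.character (fun g h => ρ.char_conj g h) p.1 (p.2 + 1)
  have h2 : Representation.character (k := ℂ) (G := N ≃ₐ[K] N) (V := V)
      (ρ.comp (AlgEquiv.restrictNormalHom L)) =
    fun g : N ≃ₐ[K] N => ρ.character (AlgEquiv.restrictNormalHom L g) := by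
    funext g
    rfl
  rw [h2, this]

end MAIN

theorem MAIN_thm (hC : Stmt_CMB) (hI : Stmt_INFL) (hD : Stmt_IND) (hG : Stmt_GOOD)
    (hL : Stmt_LINF) : Stmt_MAIN := by
  refine ⟨MAIN.of_conj, ?_⟩
  rintro ⟨h1, h2⟩
  intro K L _ _ _ _ _ _ S φ Θ V V' _ _ _ _ _ _ ρ ρ' σ hφ hσ
  obtain ⟨N, _, _, _, _, _, _, m, H, ψ, n, hgood, hchar⟩ := hC K L V ρ
  obtain ⟨φ', Θ', hφ', hR⟩ := hI K L N S φ Θ hφ
  have h3 := hD K N S φ' Θ' V V' (ρ.comp (AlgEquiv.restrictNormalHom L))
    (ρ'.comp (AlgEquiv.restrictNormalHom L)) σ m H ψ n hφ' (fun g => hσ _) hchar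
    (fun i => hG h1 h2 K N (H i) (ψ i) (hgood i))
  obtain ⟨f, f', hf, hf', hE⟩ := h3
  refine ⟨f, f', ⟨hf.1, fun s hs => ?_⟩, ⟨hf'.1, fun s hs => ?_⟩, ?_⟩
  · rw [hf.2 s hs, MAIN.logL_infl hL]
  · rw [hf'.2 s hs, MAIN.logL_infl hL]
  · rw [hR V ρ, hR V' ρ'] at hE
    exact hE

end StarkC
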