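import Pool.Agent.Stark.Stmts

/-!
# The regulator is the determinant of an endomorphism with known power traces
-/

open NumberField IsDedekindDomain
open scoped TensorProduct Classical

namespace StarkC

namespace RGT

variable {K L : Type} [Field K] [NumberField K] [Field L] [NumberField L] [Algebra K L]

omit [NumberField K] [Field K] [Algebra K L] in
theorem placeSet_finite (T : Set (HeightOneSpectrum (𝓞 L))) (hT : T.Finite) :
    (placeSet L T).Finite :=
  (Set.finite_range (infAbs L)).union (hT.image (finAbs L))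

theorem finite_XC (T : Set (HeightOneSpectrum (𝓞 L))) (hT : T.Finite) :
    Module.Finite ℂ (XC L T) := by
  have hfin : Finite (placeSet L T) := (placeSet_finite T hT)
  have h1 : Module.Finite ℂ (Finsupp.supported ℂ ℂ (placeSet L T)) :=
    Module.Finite.equiv (Finsupp.supportedEquivFinsupp (R := ℂ) (M := ℂ) (placeSet L T)).symm
  have h2 : XCsub L T ≤ Finsupp.supported ℂ ℂ (placeSet L T) := inf_le_left
  have h3 : Module.Finite ℂ (XCsub L T) :=
    Submodule.finiteDimensional_of_le h2
  exact h3

theorem homG_eq (T : Set (HeightOneSpectrum (𝓞 L))) (hT : StableT K T)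
    {V : Type} [AddCommGroup V] [Module ℂ V] (ρ : Representation ℂ (L ≃ₐ[K] L) V) :
    homG T ρ = (Representation.linHom ρ.dual (repX K T hT)).invariants := by
  ext f
  rw [Representation.mem_invariants]
  constructor
  · intro hf g
    rw [Representation.linHom_apply]
    ext1 α
    apply Subtype.ext
    have h1 := hf g (ρ.dual g⁻¹ α)
    have h2 : ρ.dual g (ρ.dual g⁻¹ α) = α := by
      rw [← Module.End.mul_apply, ← map_mul, mul_inv_cancel, map_one, Module.End.one_apply]
    rw [h2] at h1
    exact h1.symm
  · intro hf g α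
    have h1 := hf g
    rw [Representation.linHom_apply] at h1
    have h2 : ρ.dual g⁻¹ (ρ.dual g α) = α := by
      rw [← Module.End.mul_apply, ← map_mul, inv_mul_cancel, map_one, Module.End.one_apply]
    have h3 := LinearMap.congr_fun h1 (ρ.dual g α)
    rw [LinearMap.comp_apply, LinearMap.comp_apply, h2] at h3
    rw [← h3]
    rfl

end RGT

open RGT in
theorem RGT_thm (hR : StarkC.Stmt_RTR) : StarkC.Stmt_RGT := by
  intro K L _ _ _ _ _ T hT Θ V _ _ _ ρ hTf hcomm hbij
  have hXC : Module.Finite ℂ (XC L T) := finite_XC T hTf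
  set Inv := (Representation.linHom ρ.dual (repX K T hT)).invariants with hInv
  have hstab : ∀ f ∈ Inv, LinearMap.compRight ℂ Θ f ∈ Inv := by
    intro f hf
    rw [hInv, Representation.mem_invariants] at hf ⊢
    intro g
    have h1 := hf g
    rw [Representation.linHom_apply] at h1 ⊢
    ext1 α
    have h2 := LinearMap.congr_fun h1 α
    have h3 := LinearMap.congr_fun (hcomm g) (f (ρ.dual g⁻¹ α))
    simp only [LinearMap.comp_apply, LinearMap.compRight_apply] at h2 h3 ⊢
    rw [← h3, h2]
  have hkey := hR (L ≃ₐ[K] L) V (XC L T) ρ (repX K T hT) Θ hcomm hstab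
  have hWfin : Module.Finite ℂ Inv := by
    have : Module.Finite ℂ (Module.Dual ℂ V →ₗ[ℂ] XC L T) := inferInstance
    infer_instance
  refine ⟨Inv, inferInstance, inferInstance, hWfin, (LinearMap.compRight ℂ Θ).restrict hstab,
    ?_, ?_, hkey⟩
  · have hstab' : ∀ f ∈ homG T ρ, LinearMap.compRight ℂ Θ f ∈ homG T ρ := by
      rw [homG_eq T hT ρ]
      exact hstab
    rw [Reg, dif_pos hstab']
    have : ∀ (P Q : Submodule ℂ (Module.Dual ℂ V →ₗ[ℂ] XC L T)) (hPQ : P = Q)
        (h1 : ∀ f ∈ P, LinearMap.compRight ℂ Θ f ∈ P)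
        (h2 : ∀ f ∈ Q, LinearMap.compRight ℂ Θ f ∈ Q),
        LinearMap.det ((LinearMap.compRight ℂ Θ).restrict h1) =
          LinearMap.det ((LinearMap.compRight ℂ Θ).restrict h2) := by
      intro P Q hPQ h1 h2
      subst hPQ
      rfl
    exact this _ _ (homG_eq T hT ρ).symm hstab hstab'
  · have hinj : Function.Injective ((LinearMap.compRight ℂ Θ).restrict hstab) := by
      intro a b hab
      apply Subtype.ext
      ext1 α
      have h1 := congrArg Subtype.val hab
      have h2 := LinearMap.congr_fun h1 α
      exact hbij.1 h2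
    have hunit : IsUnit ((LinearMap.compRight ℂ Θ).restrict hstab) := by
      rw [LinearMap.isUnit_iff_ker_eq_bot]
      exact LinearMap.ker_eq_bot.2 hinj
    exact (LinearMap.isUnit_det _ hunit).ne_zero

end StarkC
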