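import Pool.Agent.Stark.Stmts

/-!
# Trace of post-composition on `Hom_G(V^*, X)`
-/

open scoped TensorProduct

namespace StarkC

namespace RTR

/-- The map `f ↦ A ∘ f ∘ B`. -/
noncomputable def sand {M N : Type} [AddCommGroup M] [Module ℂ M] [AddCommGroup N] [Module ℂ N]
    (A : N →ₗ[ℂ] N) (B : M →ₗ[ℂ] M) : (M →ₗ[ℂ] N) →ₗ[ℂ] (M →ₗ[ℂ] N) where
  toFun f := A ∘ₗ f ∘ₗ B
  map_add' f g := by simp [LinearMap.add_comp, LinearMap.comp_add]
  map_smul' c f := by simp [LinearMap.smul_comp, LinearMap.comp_smul]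

theorem trace_sand {M N : Type} [AddCommGroup M] [Module ℂ M] [Module.Finite ℂ M]
    [AddCommGroup N] [Module ℂ N] [Module.Finite ℂ N] (A : N →ₗ[ℂ] N) (B : M →ₗ[ℂ] M) :
    LinearMap.trace ℂ (M →ₗ[ℂ] N) (sand A B) = LinearMap.trace ℂ N A * LinearMap.trace ℂ M B := by
  have h1 : sand A B = (dualTensorHomEquiv ℂ M N).conj
      (TensorProduct.map (Module.Dual.transpose (R := ℂ) B) A) := by
    apply LinearMap.ext
    intro f
    obtain ⟨t, rfl⟩ := (dualTensorHomEquiv ℂ M N).surjective f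
    rw [LinearEquiv.conj_apply_apply, LinearEquiv.symm_apply_apply]
    induction t using TensorProduct.induction_on with
    | zero => simp
    | tmul φ x =>
      rw [TensorProduct.map_tmul]
      ext m
      simp [sand, Module.Dual.transpose_apply]
    | add x y hx hy => simp only [map_add, hx, hy]
  rw [h1, LinearMap.trace_conj', LinearMap.trace_tensorProduct', LinearMap.trace_transpose',
    mul_comm]

/-- The trace of `F ∘ P` for a projection `P` onto an `F`-stable subspace. -/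
theorem trace_restrict_proj {M : Type} [AddCommGroup M] [Module ℂ M] [Module.Finite ℂ M]
    (p : Submodule ℂ M) (P F : M →ₗ[ℂ] M) (hP : LinearMap.IsProj p P)
    (hF : ∀ x ∈ p, F x ∈ p) :
    LinearMap.trace ℂ p (F.restrict hF) = LinearMap.trace ℂ M (F ∘ₗ P) := by
  have h1 : F ∘ₗ P = p.subtype ∘ₗ (F.restrict hF ∘ₗ hP.codRestrict) := by
    ext x
    simp
  have h2 : (F.restrict hF ∘ₗ hP.codRestrict) ∘ₗ p.subtype = F.restrict hF := by
    ext x
    simp
  rw [h1, LinearMap.trace_comp_comm' , h2]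

end RTR

open RTR in
theorem RTR_thm : Stmt_RTR := by
  intro G _ _ V X _ _ _ _ _ _ ρ π Θ hΘ h k
  set L := Representation.linHom ρ.dual π with hL
  have hcard : (Fintype.card G : ℂ) ≠ 0 := by
    exact_mod_cast Fintype.card_ne_zero
  let _ : Invertible (Fintype.card G : ℂ) := invertibleOfNonzero hcard
  have hP := L.isProj_averageMap
  have hk : ∀ k : ℕ, ∀ f ∈ L.invariants, ((LinearMap.compRight ℂ Θ) ^ k) f ∈ L.invariants := by
    intro k
    induction k with
    | zero => intro f hf; simpa using hf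
    | succ n ih =>
      intro f hf
      rw [pow_succ']
      exact h _ (ih f hf)
  have h1 : ((LinearMap.compRight ℂ Θ).restrict h) ^ k =
      ((LinearMap.compRight ℂ Θ : (Module.Dual ℂ V →ₗ[ℂ] X) →ₗ[ℂ] _) ^ k).restrict (hk k) := by
    exact Module.End.pow_restrict k h (hk k)
  rw [h1, trace_restrict_proj L.invariants L.averageMap _ hP (hk k)]
  have h2 : ∀ (k : ℕ) (f : Module.Dual ℂ V →ₗ[ℂ] X),
      ((LinearMap.compRight ℂ Θ : (Module.Dual ℂ V →ₗ[ℂ] X) →ₗ[ℂ] _) ^ k) f = (Θ ^ k) ∘ₗ f := by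
    intro k
    induction k with
    | zero => intro f; rfl
    | succ n ih =>
      intro f
      rw [pow_succ', pow_succ']
      show Θ ∘ₗ (((LinearMap.compRight ℂ Θ : (Module.Dual ℂ V →ₗ[ℂ] X) →ₗ[ℂ] _) ^ n) f) = _
      rw [ih]
      rfl
  have h3 : ((LinearMap.compRight ℂ Θ : (Module.Dual ℂ V →ₗ[ℂ] X) →ₗ[ℂ] _) ^ k) ∘ₗ
      L.averageMap = (Fintype.card G : ℂ)⁻¹ • ∑ g : G, sand ((Θ ^ k) ∘ₗ π g) (ρ.dual g⁻¹) := by
    apply LinearMap.ext
    intro f
    rw [LinearMap.comp_apply, h2]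
    have : L.averageMap f = (Fintype.card G : ℂ)⁻¹ • ∑ g : G, L g f := by
      rw [Representation.averageMap, GroupAlgebra.average]
      simp [Representation.asAlgebraHom_single]
    rw [this]
    rw [LinearMap.comp_smul, LinearMap.smul_apply, LinearMap.sum_apply]
    congr 1
    exact map_sum (LinearMap.compRight ℂ (Θ ^ k) : (Module.Dual ℂ V →ₗ[ℂ] X) →ₗ[ℂ] _) _ _
  rw [h3, map_smul, map_sum]
  simp_rw [trace_sand]
  rw [Nat.card_eq_fintype_card, smul_eq_mul, div_eq_inv_mul]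
  congr 1
  apply Finset.sum_congr rfl
  intro g _
  have hc : ∀ k : ℕ, (Θ ^ k) ∘ₗ π g = π g ∘ₗ (Θ ^ k) := by
    intro k
    exact (Commute.pow_left (hΘ g : Commute Θ (π g)) k)
  have h4 : LinearMap.trace ℂ (Module.Dual ℂ V) (ρ.dual g⁻¹) = ρ.character g := by
    rw [Representation.dual_apply, LinearMap.trace_transpose', inv_inv]
    rfl
  rw [h4, hc k, mul_comm]

end StarkC
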