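import Pool.Agent.Stark.Stmts

/-!
# The set of places above `S` is stable under `Gal(L/K)`
-/

open NumberField IsDedekindDomain
open scoped Classical

namespace StarkC.STB

variable {L : Type} [Field L] [NumberField L]

/-- The automorphism of `𝓞 L` given by an automorphism of `L`. -/
noncomputable def oMap (g : L ≃+* L) : 𝓞 L ≃+* 𝓞 L := RingOfIntegers.mapRingEquiv g

theorem oMap_coe (g : L ≃+* L) (x : 𝓞 L) : ((oMap g x : 𝓞 L) : L) = g (x : L) := rfl

theorem oMap_symm_coe (g : L ≃+* L) (x : 𝓞 L) :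
    (((oMap g).symm x : 𝓞 L) : L) = g.symm (x : L) := rfl

/-- The prime `g w`. -/
noncomputable def mv (g : L ≃+* L) (w : HeightOneSpectrum (𝓞 L)) : HeightOneSpectrum (𝓞 L) :=
  HeightOneSpectrum.equivOfRingEquiv (oMap g) w

theorem mv_asIdeal (g : L ≃+* L) (w : HeightOneSpectrum (𝓞 L)) :
    (mv g w).asIdeal = w.asIdeal.comap (oMap g).symm := rfl

theorem mem_mv (g : L ≃+* L) (w : HeightOneSpectrum (𝓞 L)) (x : 𝓞 L) :
    x ∈ (mv g w).asIdeal ↔ (oMap g).symm x ∈ w.asIdeal := Iff.rfl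

theorem mv_asIdeal' (g : L ≃+* L) (w : HeightOneSpectrum (𝓞 L)) :
    (mv g w).asIdeal = w.asIdeal.map (oMap g) := by
  rw [mv_asIdeal, Ideal.comap_symm]

theorem absNorm_mv (g : L ≃+* L) (w : HeightOneSpectrum (𝓞 L)) :
    Ideal.absNorm (mv g w).asIdeal = Ideal.absNorm w.asIdeal := by
  rw [Ideal.absNorm_apply, Ideal.absNorm_apply, Submodule.cardQuot_apply, Submodule.cardQuot_apply]
  exact (Nat.card_congr (Ideal.quotientEquiv w.asIdeal (mv g w).asIdeal (oMap g)
    (mv_asIdeal' g w)).toEquiv).symm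

theorem mem_mv_pow (g : L ≃+* L) (w : HeightOneSpectrum (𝓞 L)) (n : ℕ) (x : 𝓞 L) :
    oMap g x ∈ (mv g w).asIdeal ^ n ↔ x ∈ w.asIdeal ^ n := by
  rw [mv_asIdeal', ← Ideal.map_pow]
  constructor
  · intro h
    have h2 := (Ideal.mem_map_of_equiv (oMap g) _).1 h
    obtain ⟨y, hy, hxy⟩ := h2
    rwa [← (oMap g).injective hxy]
  · exact Ideal.mem_map_of_mem _

theorem intVal_mv (g : L ≃+* L) (w : HeightOneSpectrum (𝓞 L)) (x : 𝓞 L) :
    (mv g w).intValuation (oMap g x) = w.intValuation x := by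
  by_cases hx : x = 0
  · simp [hx]
  have hgx : oMap g x ≠ 0 := by
    intro h
    exact hx ((oMap g).injective (by rw [h, map_zero]))
  have h1 : ∀ n : ℕ, (mv g w).intValuation (oMap g x) ≤ WithZero.exp (-(n : ℤ)) ↔
      w.intValuation x ≤ WithZero.exp (-(n : ℤ)) := by
    intro n
    rw [HeightOneSpectrum.intValuation_le_pow_iff_mem, HeightOneSpectrum.intValuation_le_pow_iff_mem,
      mem_mv_pow]
  rw [HeightOneSpectrum.intValuation_if_neg _ hx, HeightOneSpectrum.intValuation_if_neg _ hgx] at h1 ⊢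
  apply le_antisymm
  · exact (h1 _).2 le_rfl
  · exact (h1 _).1 le_rfl

theorem val_mv (g : L ≃+* L) (w : HeightOneSpectrum (𝓞 L)) (x : L) :
    (mv g w).valuation L (g x) = w.valuation L x := by
  obtain ⟨a, b, hb, rfl⟩ := IsFractionRing.div_surjective (A := 𝓞 L) x
  have h1 : g (algebraMap (𝓞 L) L a / algebraMap (𝓞 L) L b) =
      algebraMap (𝓞 L) L (oMap g a) / algebraMap (𝓞 L) L (oMap g b) := by
    rw [map_div₀]
    rfl
  rw [h1, map_div₀, map_div₀, HeightOneSpectrum.valuation_of_algebraMap,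
    HeightOneSpectrum.valuation_of_algebraMap, HeightOneSpectrum.valuation_of_algebraMap,
    HeightOneSpectrum.valuation_of_algebraMap, intVal_mv, intVal_mv]

theorem finAbs_mv (g : L ≃+* L) (w : HeightOneSpectrum (𝓞 L)) (x : L) :
    finAbs L (mv g w) (g x) = finAbs L w x := by
  simp only [finAbs]
  rw [NumberField.HeightOneSpectrum.adicAbv_def, NumberField.HeightOneSpectrum.adicAbv_def, val_mv]
  congr 2
  simp only [absNorm_mv]

theorem finAbs_comp_symm (g : L ≃+* L) (w : HeightOneSpectrum (𝓞 L)) :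
    finAbs L w ∘ g.symm = finAbs L (mv g w) := by
  funext x
  have := finAbs_mv g w (g.symm x)
  rw [RingEquiv.apply_symm_apply] at this
  exact this.symm

theorem infAbs_comp_symm (g : L ≃+* L) (w : InfinitePlace L) :
    infAbs L w ∘ g.symm = infAbs L (w.comap (g.symm : L →+* L)) := by
  funext x
  have h1 : (w.comap (g.symm : L →+* L)).mult = w.mult := by
    rw [InfinitePlace.mult, InfinitePlace.mult]
    simp only [InfinitePlace.isReal_comap_iff]
  simp only [infAbs, Function.comp_apply, h1, InfinitePlace.comap_apply]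
  rfl

theorem under_mv {K : Type} [Field K] [NumberField K] [Algebra K L] (g : L ≃ₐ[K] L)
    (w : HeightOneSpectrum (𝓞 L)) : (mv (g : L ≃+* L) w).under (𝓞 K) = w.under (𝓞 K) := by
  ext x
  rw [HeightOneSpectrum.under_asIdeal, HeightOneSpectrum.under_asIdeal, Ideal.mem_comap,
    Ideal.mem_comap, mem_mv]
  have : (oMap (g : L ≃+* L)).symm (algebraMap (𝓞 K) (𝓞 L) x) = algebraMap (𝓞 K) (𝓞 L) x := by
    apply RingOfIntegers.ext
    rw [oMap_symm_coe]
    exact g.symm.commutes (x : K)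
  rw [this]

theorem mv_mem_aboveSet {K : Type} [Field K] [NumberField K] [Algebra K L] (g : L ≃ₐ[K] L)
    (S : Set (HeightOneSpectrum (𝓞 K))) {w : HeightOneSpectrum (𝓞 L)} :
    mv (g : L ≃+* L) w ∈ aboveSet K L S ↔ w ∈ aboveSet K L S := by
  show (mv (g : L ≃+* L) w).under (𝓞 K) ∈ S ↔ w.under (𝓞 K) ∈ S
  rw [under_mv]

end StarkC.STB

theorem StarkC.STB_thm : StarkC.Stmt_STB := by
  intro K L _ _ _ _ _ S g a ha
  rcases ha with ⟨w, rfl⟩ | ⟨w, hw, rfl⟩
  · exact Or.inl ⟨_, (StarkC.STB.infAbs_comp_symm (g : L ≃+* L) w).symm⟩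
  · exact Or.inr ⟨StarkC.STB.mv (g : L ≃+* L) w, (StarkC.STB.mv_mem_aboveSet g S).2 hw,
      (StarkC.STB.finAbs_comp_symm (g : L ≃+* L) w).symm⟩

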