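import Pool.Agent.Stark.Stmts

/-!
# Stark's conjecture, module ST_THB: `Θ` is bijective (helper83)
-/

open NumberField IsDedekindDomain
open scoped TensorProduct Classical

namespace StarkC

namespace THB

/-- Every element of `ℚ ⊗ X` has a complexification. -/
theorem exists_cplx (hX : Stmt_XRAT) (L : Type) [Field L] [NumberField L]
    (T : Set (HeightOneSpectrum (𝓞 L))) (hT : T.Finite) (x : XQ L T) :
    ∃ z : XC L T, ∀ a, z.val a = (((x : (L → ℝ) →₀ ℚ) a : ℚ) : ℂ) := by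
  obtain ⟨n, b, c, hbc⟩ := hX L T hT
  refine ⟨∑ i, ((b.repr x i : ℚ) : ℂ) • c i, ?_⟩
  intro a
  have h1 : (x : (L → ℝ) →₀ ℚ) = ∑ i, b.repr x i • ((b i : XQ L T) : (L → ℝ) →₀ ℚ) := by
    conv_lhs => rw [← b.sum_repr x]
    rw [Submodule.coe_sum]
    rfl
  rw [h1, map_sum, Finsupp.finsetSum_apply, Finsupp.finsetSum_apply]
  push_cast
  apply Finset.sum_congr rfl
  intro i _
  rw [map_smul, Finsupp.smul_apply, hbc, smul_eq_mul, Pi.smul_apply, smul_eq_mul]
  push_cast
  rfl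

theorem val_inj {L : Type} [Field L] [NumberField L] {T : Set (HeightOneSpectrum (𝓞 L))}
    {x y : XC L T} (h : x.val = y.val) : x = y := Subtype.ext h

end THB

/-- `Θ` is bijective. -/
theorem THB_thm (hX : Stmt_XRAT) (hU : Stmt_UNIT) : Stmt_THB := by
  intro K L _ _ _ _ _ T φ Θ hT hφ
  obtain ⟨n, b, c, hbc⟩ := hU L T hT
  have : Module.Finite ℂ (XC L T) := Module.Finite.of_basis c
  have hsurj : Function.Surjective Θ := by
    rw [← LinearMap.range_eq_top, eq_top_iff, ← c.span_eq, Submodule.span_le]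
    rintro _ ⟨j, rfl⟩
    obtain ⟨z, hz⟩ := THB.exists_cplx hX L T hT (φ.symm (b j))
    refine ⟨z, ?_⟩
    apply THB.val_inj
    rw [hφ.2 (φ.symm (b j)) z hz, LinearEquiv.apply_symm_apply, hbc]
  exact ⟨LinearMap.injective_iff_surjective.2 hsurj, hsurj⟩

end StarkC
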