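import Pool.Agent.Stark.Stmts

/-!
# `Θ` commutes with the Galois group (module ST_THC)
-/

open NumberField IsDedekindDomain
open scoped TensorProduct Classical

namespace StarkC

namespace THC

variable {L : Type} [Field L] [NumberField L]

omit [NumberField L] in
theorem shift_inj (g : L ≃+* L) : Function.Injective fun a : L → ℝ => a ∘ g.symm := by
  intro a b h
  funext x
  have := congrFun h (g x)
  simpa using this

omit [NumberField L] in
theorem shift_eq (g : L ≃+* L) (b : L → ℝ) : (b ∘ g) ∘ g.symm = b := by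
  funext x
  simp

/-- the action on combinations of places, pointwise -/
theorem actC_apply (g : L ≃+* L) (z : (L → ℝ) →₀ ℂ) (b : L → ℝ) : actC g z b = z (b ∘ g) := by
  have h := Finsupp.mapDomain_apply (shift_inj g) z (b ∘ g)
  simp only [shift_eq] at h
  exact h

theorem actQ_apply (g : L ≃+* L) (z : (L → ℝ) →₀ ℚ) (b : L → ℝ) : actQ g z b = z (b ∘ g) := by
  have h := Finsupp.mapDomain_apply (shift_inj g) z (b ∘ g)
  simp only [shift_eq] at h
  exact h

variable {K : Type} [Field K] [Algebra K L] {T : Set (HeightOneSpectrum (𝓞 L))}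

theorem actQ_mem (hT : StableT K T) (g : L ≃ₐ[K] L)
    {x : (L → ℝ) →₀ ℚ} (hx : x ∈ XQ L T) : actQ (g : L ≃+* L) x ∈ XQ L T := by
  rw [XQ, Submodule.mem_inf] at hx ⊢
  constructor
  · rw [Finsupp.mem_supported] at hx ⊢
    intro a ha
    have h1 := Finsupp.mapDomain_support (f := fun a : L → ℝ => a ∘ (g : L ≃+* L).symm) (s := x)
      (Finset.mem_coe.1 ha)
    rw [Finset.mem_image] at h1
    obtain ⟨b, hb, rfl⟩ := h1
    exact hT g b (hx.1 (Finset.mem_coe.2 hb))
  · rw [LinearMap.mem_ker] at hx ⊢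
    rw [actQ, Finsupp.lmapDomain_apply, Finsupp.linearCombination_mapDomain]
    exact hx.2

theorem stable_iff (hT : StableT K T) (g : L ≃ₐ[K] L) (b : L → ℝ) :
    b ∘ (g : L ≃+* L) ∈ placeSet L T ↔ b ∈ placeSet L T := by
  constructor
  · intro h
    have h1 := hT g _ h
    rwa [shift_eq] at h1
  · intro h
    have h1 := hT g⁻¹ _ h
    exact h1

/-- the logarithm map is equivariant -/
theorem lamHom_act (hT : StableT K T) (g : L ≃ₐ[K] L) (u : Lˣ) :
    lamHom L T (Additive.ofMul (Units.map ((g : L ≃+* L) : L →* L) u)) =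
      actC (g : L ≃+* L) (lamHom L T (Additive.ofMul u)) := by
  ext b
  rw [actC_apply]
  have e : ∀ (w : Lˣ) (a : L → ℝ), lamHom L T (Additive.ofMul w) a =
      if a ∈ placeSet L T then -((Real.log (a (w : L)) : ℝ) : ℂ) else 0 := fun w a => rfl
  rw [e, e]
  by_cases h : b ∈ placeSet L T
  · rw [if_pos h, if_pos ((stable_iff hT g b).2 h)]
    rfl
  · rw [if_neg h, if_neg fun h' => h ((stable_iff hT g b).1 h')]

theorem lam_act (hT : StableT K T) (g : L ≃ₐ[K] L) (x : ℚ ⊗[ℤ] Additive Lˣ) :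
    lam L T (actU (g : L ≃+* L) x) = actC (g : L ≃+* L) (lam L T x) := by
  induction x using TensorProduct.induction_on with
  | zero => simp
  | add x y hx hy => rw [map_add, map_add, map_add, map_add, hx, hy]
  | tmul q u =>
    have h1 : actU (g : L ≃+* L) (q ⊗ₜ[ℤ] u) =
        q ⊗ₜ[ℤ] (Additive.ofMul (Units.map ((g : L ≃+* L) : L →* L) (Additive.toMul u))) := by
      rw [actU, LinearMap.baseChange_tmul]
      rfl
    have h2 : ∀ w : Additive Lˣ, lam L T (q ⊗ₜ[ℤ] w) = q • lamHom L T w := by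
      intro w
      rw [lam, LinearMap.liftBaseChange_tmul]
      rfl
    rw [h1, h2, h2, lamHom_act hT]
    have h3 : ∀ (q : ℚ) (z : (L → ℝ) →₀ ℂ), actC (g : L ≃+* L) (q • z) = q • actC (g : L ≃+* L) z := by
      intro q z
      ext b
      rw [Finsupp.smul_apply, actC_apply, actC_apply, Finsupp.smul_apply]
    rw [h3]
    rfl

end THC

theorem THC_thm (hX : Stmt_XRAT) : Stmt_THC := by
  intro K L _ _ _ _ _ T hT φ Θ hfin hφ g
  obtain ⟨n, b, c, hbc⟩ := hX L T hfin
  refine c.ext fun i => ?_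
  apply Subtype.ext
  obtain ⟨h1, h2⟩ := hφ
  set y : XQ L T := ⟨actQ (g : L ≃+* L) (b i), THC.actQ_mem hT g (b i).2⟩ with hy
  have h3 : (φ y : ℚ ⊗[ℤ] Additive Lˣ) = actU (g : L ≃+* L) (φ (b i)) := h1 g (b i) y rfl
  have h4 : (Θ (repX K T hT g (c i))).val = lam L T (φ y) := by
    refine h2 y _ fun a => ?_
    rw [repX_val, THC.actC_apply, hbc i, hy]
    simp only [THC.actQ_apply]
  have h5 : (Θ (c i)).val = lam L T (φ (b i)) := h2 (b i) _ fun a => hbc i a
  show (Θ (repX K T hT g (c i))).val = (repX K T hT g (Θ (c i))).val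
  rw [h4, h3, THC.lam_act hT, repX_val, h5]

end StarkC
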