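import Pool.Agent.Stark.Stmts

/-!
# Power traces determine products of determinants
-/

open Polynomial

namespace StarkC.TRD

section Mat

variable {n : Type} [Fintype n] [DecidableEq n] (A : Matrix n n ℂ)

theorem card_roots_charpoly : Multiset.card A.charpoly.roots = Fintype.card n := by
  rw [← (IsAlgClosed.splits A.charpoly).natDegree_eq_card_roots, Matrix.charpoly_natDegree_eq_dim]

/-- `p ↦ det p(A)`. -/
noncomputable def phi : ℂ[X] →* ℂ where
  toFun p := (aeval A p).det
  map_one' := by simp
  map_mul' p q := by simp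

/-- `p ↦ ∏ p(x)` over the roots of the characteristic polynomial. -/
noncomputable def psi (R : Multiset ℂ) : ℂ[X] →* ℂ where
  toFun p := (R.map (fun x => eval x p)).prod
  map_one' := by simp
  map_mul' p q := by simp

theorem phi_C (c : ℂ) : phi A (C c) = psi A.charpoly.roots (C c) := by
  show (aeval A (C c)).det = (A.charpoly.roots.map (fun x => eval x (C c))).prod
  simp only [eval_C, Multiset.map_const', Multiset.prod_replicate, card_roots_charpoly]
  rw [aeval_C, Algebra.algebraMap_eq_smul_one, Matrix.det_smul, Matrix.det_one, mul_one]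

theorem phi_X_sub (a : ℂ) : phi A (X - C a) = psi A.charpoly.roots (X - C a) := by
  show (aeval A (X - C a)).det = (A.charpoly.roots.map (fun x => eval x (X - C a))).prod
  have h1 : aeval A (X - C a) = -(Matrix.scalar n a - A) := by
    rw [map_sub, aeval_X, aeval_C, neg_sub]
    rfl
  have h2 : A.charpoly.eval a = (A.charpoly.roots.map (fun x => a - x)).prod := by
    conv_lhs => rw [(IsAlgClosed.splits A.charpoly).eq_prod_roots_of_monic A.charpoly_monic]
    rw [eval_multiset_prod, Multiset.map_map]
    congr 1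
    apply Multiset.map_congr rfl
    intro x _
    simp
  rw [h1, Matrix.det_neg, ← Matrix.eval_charpoly, h2]
  have h3 : (A.charpoly.roots.map (fun x => eval x (X - C a))) =
      (A.charpoly.roots.map (fun x => (-1) * (a - x))) := by
    apply Multiset.map_congr rfl
    intro x _
    simp
  rw [h3, Multiset.prod_map_mul]
  simp [card_roots_charpoly]

theorem det_aeval (p : ℂ[X]) :
    (aeval A p).det = (A.charpoly.roots.map (fun x => eval x p)).prod := by
  show phi A p = psi A.charpoly.roots p
  have h := (IsAlgClosed.splits p).eq_prod_roots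
  rw [h, map_mul, map_mul, phi_C, map_multiset_prod, map_multiset_prod, Multiset.map_map,
    Multiset.map_map]
  congr 2
  apply Multiset.map_congr rfl
  intro a _
  exact phi_X_sub A a

theorem charpoly_pow (k : ℕ) :
    (A ^ k).charpoly = (A.charpoly.roots.map (fun x => X - C (x ^ k))).prod := by
  apply Polynomial.funext
  intro z
  rw [Matrix.eval_charpoly]
  have h1 : Matrix.scalar n z - A ^ k = aeval A (C z - X ^ k) := by
    rw [map_sub, map_pow, aeval_X, aeval_C]
    rfl
  rw [h1, det_aeval, eval_multiset_prod, Multiset.map_map]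
  congr 1
  apply Multiset.map_congr rfl
  intro x _
  simp

theorem trace_pow (k : ℕ) :
    (A ^ k).trace = (A.charpoly.roots.map (fun x => x ^ k)).sum := by
  rw [Matrix.trace_eq_sum_roots_charpoly, charpoly_pow]
  congr 1
  have := Polynomial.roots_multiset_prod_X_sub_C (A.charpoly.roots.map (fun x => x ^ k))
  rw [Multiset.map_map] at this
  exact this

end Mat

/-- The multiset of eigenvalues. -/
theorem exists_eig (W : Type) [AddCommGroup W] [Module ℂ W] [Module.Finite ℂ W]
    (B : W →ₗ[ℂ] W) : ∃ R : Multiset ℂ, LinearMap.det B = R.prod ∧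
      ∀ k : ℕ, LinearMap.trace ℂ W (B ^ k) = (R.map (fun x => x ^ k)).sum := by
  classical
  let b := Module.finBasis ℂ W
  let A := LinearMap.toMatrixAlgEquiv b B
  refine ⟨A.charpoly.roots, ?_, fun k => ?_⟩
  · rw [← Matrix.det_eq_prod_roots_charpoly]
    exact (LinearMap.det_toMatrix b B).symm
  · rw [← trace_pow, LinearMap.trace_eq_matrix_trace ℂ b]
    congr 1
    exact map_pow (LinearMap.toMatrixAlgEquiv b) B k

/-- Finitely supported coefficients with vanishing power sums vanish. -/
theorem coef_zero (s : Finset ℂ) (c : ℂ → ℂ) (h : ∀ k : ℕ, ∑ x ∈ s, c x * x ^ k = 0) :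
    ∀ x ∈ s, c x = 0 := by
  classical
  have hp : ∀ p : ℂ[X], ∑ x ∈ s, c x * eval x p = 0 := by
    intro p
    induction p using Polynomial.induction_on' with
    | add p q hp hq => simp only [eval_add, mul_add, Finset.sum_add_distrib, hp, hq, add_zero]
    | monomial k a =>
      have : ∑ x ∈ s, c x * eval x (monomial k a) = a * ∑ x ∈ s, c x * x ^ k := by
        rw [Finset.mul_sum]
        apply Finset.sum_congr rfl
        intro x _
        rw [eval_monomial]
        ring
      rw [this, h, mul_zero]
  intro x hx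
  have h1 := hp (∏ y ∈ s.erase x, (X - C y))
  rw [Finset.sum_eq_single x] at h1
  · rcases mul_eq_zero.1 h1 with h2 | h2
    · exact h2
    · exfalso
      rw [eval_prod, Finset.prod_eq_zero_iff] at h2
      obtain ⟨y, hy, hy2⟩ := h2
      rw [eval_sub, eval_X, eval_C, sub_eq_zero] at hy2
      exact (Finset.ne_of_mem_erase hy) hy2.symm
  · intro y hy hyx
    rw [eval_prod, Finset.prod_eq_zero (i := y) (Finset.mem_erase.2 ⟨hyx, hy⟩), mul_zero]
    simp
  · intro h2
    exact absurd hx h2

theorem sum_pow_eq (s : Finset ℂ) (R : Multiset ℂ) (hR : ∀ x ∈ R, x ∈ s) (k : ℕ) :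
    (R.map (fun x => x ^ k)).sum = ∑ x ∈ s, (R.count x : ℂ) * x ^ k := by
  classical
  rw [Finset.sum_multiset_map_count]
  rw [Finset.sum_subset (s₁ := R.toFinset) (s₂ := s)]
  · apply Finset.sum_congr rfl
    intro x _
    rw [nsmul_eq_mul]
  · intro x hx
    exact hR x (Multiset.mem_toFinset.1 hx)
  · intro x _ hx
    rw [Multiset.mem_toFinset] at hx
    rw [Multiset.count_eq_zero_of_notMem hx, zero_smul]

theorem prod_eq (s : Finset ℂ) (R : Multiset ℂ) (hR : ∀ x ∈ R, x ∈ s) :
    R.prod = ∏ x ∈ s, x ^ (R.count x) := by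
  classical
  rw [Finset.prod_multiset_count]
  apply Finset.prod_subset
  · intro x hx
    exact hR x (Multiset.mem_toFinset.1 hx)
  · intro x _ hx
    rw [Multiset.mem_toFinset] at hx
    rw [Multiset.count_eq_zero_of_notMem hx, pow_zero]

end TRD

open TRD in
theorem TRD_thm : Stmt_TRD := by
  classical
  intro m W₀ _ _ _ B₀ W _ _ _ B n hdet htr
  obtain ⟨R₀, hR₀, hT₀⟩ := exists_eig W₀ B₀
  choose R hR hT using fun i => exists_eig (W i) (B i)
  set s : Finset ℂ := R₀.toFinset ∪ Finset.univ.biUnion (fun i => (R i).toFinset) with hs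
  have hs₀ : ∀ x ∈ R₀, x ∈ s := fun x hx =>
    Finset.mem_union_left _ (Multiset.mem_toFinset.2 hx)
  have hsi : ∀ i, ∀ x ∈ R i, x ∈ s := fun i x hx =>
    Finset.mem_union_right _ (Finset.mem_biUnion.2 ⟨i, Finset.mem_univ _,
      Multiset.mem_toFinset.2 hx⟩)
  have hc : ∀ x ∈ s, (R₀.count x : ℂ) - ∑ i, (n i : ℂ) * ((R i).count x : ℂ) = 0 := by
    apply coef_zero s (fun x => (R₀.count x : ℂ) - ∑ i, (n i : ℂ) * ((R i).count x : ℂ))
    intro k
    have h1 := htr k
    rw [hT₀, sum_pow_eq s R₀ hs₀] at h1
    have h2 : ∀ i, LinearMap.trace ℂ (W i) (B i ^ k) = ∑ x ∈ s, ((R i).count x : ℂ) * x ^ k := by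
      intro i
      rw [hT, sum_pow_eq s (R i) (hsi i)]
    simp only [h2] at h1
    simp only [sub_mul, Finset.sum_sub_distrib]
    rw [h1, sub_eq_zero]
    simp only [Finset.mul_sum, Finset.sum_mul]
    rw [Finset.sum_comm]
    apply Finset.sum_congr rfl
    intro x _
    apply Finset.sum_congr rfl
    intro i _
    ring
  have hz : ∀ x ∈ s, (R₀.count x : ℤ) = ∑ i, n i * ((R i).count x : ℤ) := by
    intro x hx
    have := sub_eq_zero.1 (hc x hx)
    exact_mod_cast this
  have h0i : ∀ i, (0 : ℂ) ∉ R i := by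
    intro i h
    apply hdet i
    rw [hR, Multiset.prod_eq_zero h]
  have h0 : (0 : ℂ) ∉ s := by
    intro h
    have h1 := hz 0 h
    have h2 : (R₀.count 0 : ℤ) = 0 := by
      rw [h1]
      apply Finset.sum_eq_zero
      intro i _
      rw [Multiset.count_eq_zero_of_notMem (h0i i)]
      simp
    have h3 : (0 : ℂ) ∉ R₀ := by
      rw [← Multiset.count_eq_zero]
      exact_mod_cast h2
    rw [hs, Finset.mem_union, Finset.mem_biUnion] at h
    rcases h with h | ⟨i, _, h⟩
    · exact h3 (Multiset.mem_toFinset.1 h)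
    · exact h0i i (Multiset.mem_toFinset.1 h)
  rw [hR₀, prod_eq s R₀ hs₀]
  have h4 : ∀ i, LinearMap.det (B i) ^ (n i) = ∏ x ∈ s, x ^ (n i * ((R i).count x : ℤ)) := by
    intro i
    rw [hR, prod_eq s (R i) (hsi i), ← Finset.prod_zpow]
    apply Finset.prod_congr rfl
    intro x _
    rw [mul_comm, zpow_mul, zpow_natCast]
  simp only [h4]
  rw [Finset.prod_comm]
  apply Finset.prod_congr rfl
  intro x hx
  have hx0 : x ≠ 0 := fun h => h0 (h ▸ hx)
  rw [← zpow_natCast, hz x hx]
  induction (Finset.univ : Finset (Fin m)) using Finset.induction_on with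
  | empty => simp
  | insert i t hi ih => rw [Finset.sum_insert hi, Finset.prod_insert hi, zpow_add₀ hx0, ih]

end StarkC
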