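import Pool.Agent.Stark.Stmts

/-!
# The logarithm map on units
-/

open NumberField IsDedekindDomain Module
open scoped TensorProduct Classical nonZeroDivisors

namespace StarkC

namespace UNIT

set_option linter.unusedSectionVars false

variable (L : Type) [Field L] [NumberField L]

/-! ### Places -/


theorem infAbs_two (w : InfinitePlace L) : infAbs L w 2 = 2 ^ w.mult := by
  have h : w (2 : L) = 2 := by
    rw [← InfinitePlace.norm_embedding_eq w 2, map_ofNat]
    norm_num
  simp [infAbs, h]

theorem two_le_infAbs (w : InfinitePlace L) : 2 ≤ infAbs L w 2 := by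
  rw [infAbs_two]
  have h : 1 ≤ w.mult := w.mult_pos
  calc (2 : ℝ) = 2 ^ 1 := by norm_num
    _ ≤ 2 ^ w.mult := pow_le_pow_right₀ (by norm_num) h

theorem finAbs_two_le (v : HeightOneSpectrum (𝓞 L)) : finAbs L v 2 ≤ 1 := by
  have := HeightOneSpectrum.adicAbv_natCast_le_one (K := L) v 2
  simpa [finAbs] using this

theorem infAbs_injective : Function.Injective (infAbs L) := by
  intro w w' h
  have h2 : (2 : ℝ) ^ w.mult = 2 ^ w'.mult := by
    rw [← infAbs_two, ← infAbs_two, h]
  have hm : w.mult = w'.mult := by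
    exact (pow_right_injective₀ (by norm_num : (0:ℝ) < 2) (by norm_num)) h2
  apply DFunLike.ext
  intro x
  have hx : infAbs L w x = infAbs L w' x := by rw [h]
  simp only [infAbs] at hx
  rw [← hm] at hx
  exact (pow_left_inj₀ (apply_nonneg w x) (apply_nonneg w' x) w.mult_pos.ne').1 hx

theorem finAbs_injective : Function.Injective (finAbs L) := by
  intro v v' h
  apply FinitePlace.mk_eq_iff.1
  apply DFunLike.ext
  intro x
  have hx : finAbs L v x = finAbs L v' x := by rw [h]
  simpa [finAbs, FinitePlace.mk_apply, FinitePlace.norm_embedding] using hx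

theorem infAbs_ne_finAbs (w : InfinitePlace L) (v : HeightOneSpectrum (𝓞 L)) :
    infAbs L w ≠ finAbs L v := by
  intro h
  have h1 := two_le_infAbs L w
  have h2 := finAbs_two_le L v
  rw [h] at h1
  linarith

theorem finAbs_eq_one_iff (v : HeightOneSpectrum (𝓞 L)) (u : L) :
    finAbs L v u = 1 ↔ v.valuation L u = 1 := by
  have h := HeightOneSpectrum.adicAbv_def (K := L) v (x := u)
  have h1 : finAbs L v u = ((WithZeroMulInt.toNNReal (HeightOneSpectrum.absNorm_ne_zero v)
    (v.valuation L u) : NNReal) : ℝ) := h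
  rw [h1]
  have hinj := (WithZeroMulInt.toNNReal_strictMono
    (HeightOneSpectrum.one_lt_absNorm_nnreal v)).injective
  constructor
  · intro h2
    apply hinj
    rw [map_one]
    exact_mod_cast h2
  · intro h2
    rw [h2, map_one]
    rfl

theorem finprod_finitePlace (x : L) :
    ∏ᶠ w : FinitePlace L, w x = ∏ᶠ v : HeightOneSpectrum (𝓞 L), finAbs L v x := by
  symm
  refine finprod_eq_of_bijective (fun v => FinitePlace.mk v) ?_ ?_
  · constructor
    · intro a b hab
      exact FinitePlace.mk_eq_iff.1 hab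
    · intro w
      exact ⟨FinitePlace.maximalIdeal w, FinitePlace.mk_maximalIdeal w⟩
  · intro v
    simp [finAbs, FinitePlace.mk_apply, FinitePlace.norm_embedding]

variable {L}

theorem prod_formula {T : Set (HeightOneSpectrum (𝓞 L))} (hT : T.Finite) {u : Lˣ}
    (hu : u ∈ T.unit L) :
    (∏ w : InfinitePlace L, infAbs L w (u : L)) * ∏ v ∈ hT.toFinset, finAbs L v (u : L) = 1 := by
  have h := prod_abs_eq_one (K := L) u.ne_zero
  rw [finprod_finitePlace, finprod_eq_prod_of_mulSupport_subset (s := hT.toFinset)] at h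
  · exact h
  · intro v hv
    simp only [Function.mem_mulSupport] at hv
    rw [Set.Finite.coe_toFinset]
    by_contra hvT
    apply hv
    rw [finAbs_eq_one_iff]
    exact Set.unit_valuation_eq_one T L ⟨u, hu⟩ hvT

/-! ### The elements `π_v` -/

theorem exists_pi (v : HeightOneSpectrum (𝓞 L)) :
    ∃ π : 𝓞 L, π ≠ 0 ∧ v.asIdeal ^ (Fintype.card (ClassGroup (𝓞 L))) = Ideal.span {π} := by
  have hv : v.asIdeal ≠ ⊥ := v.ne_bot
  have h1 : (ClassGroup.mk0 ⟨v.asIdeal, mem_nonZeroDivisors_of_ne_zero hv⟩) ^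
      (Fintype.card (ClassGroup (𝓞 L))) = 1 := pow_card_eq_one
  rw [← map_pow, ClassGroup.mk0_eq_one_iff] at h1
  obtain ⟨π, hπ⟩ := h1.principal
  have hπ' : v.asIdeal ^ (Fintype.card (ClassGroup (𝓞 L))) = Ideal.span {π} := hπ
  refine ⟨π, ?_, hπ'⟩
  rintro rfl
  rw [Ideal.span_singleton_eq_bot.2 rfl] at hπ'
  exact pow_ne_zero _ hv hπ'

noncomputable def piR (v : HeightOneSpectrum (𝓞 L)) : 𝓞 L := (exists_pi v).choose

theorem piR_ne_zero (v : HeightOneSpectrum (𝓞 L)) : piR v ≠ 0 := (exists_pi v).choose_spec.1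

theorem piR_span (v : HeightOneSpectrum (𝓞 L)) :
    v.asIdeal ^ (Fintype.card (ClassGroup (𝓞 L))) = Ideal.span {piR v} :=
  (exists_pi v).choose_spec.2

noncomputable def piU (v : HeightOneSpectrum (𝓞 L)) : Lˣ :=
  Units.mk0 (algebraMap (𝓞 L) L (piR v))
    ((map_ne_zero_iff _ (FaithfulSMul.algebraMap_injective (𝓞 L) L)).2 (piR_ne_zero v))

theorem valuation_piU_ne (v v' : HeightOneSpectrum (𝓞 L)) (h : v' ≠ v) :
    v'.valuation L (piU v : L) = 1 := by
  rw [piU, Units.val_mk0, HeightOneSpectrum.valuation_eq_one_iff_notMem]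
  intro hmem
  apply h
  have h1 : v.asIdeal ^ (Fintype.card (ClassGroup (𝓞 L))) ≤ v'.asIdeal := by
    rw [piR_span, Ideal.span_singleton_le_iff_mem]
    exact hmem
  have h2 : v.asIdeal ≤ v'.asIdeal := by
    have := v'.isPrime
    exact Ideal.IsPrime.le_of_pow_le h1
  have h3 : v.asIdeal = v'.asIdeal := by
    exact (v.isMaximal).eq_of_le v'.isPrime.ne_top h2
  exact (HeightOneSpectrum.ext h3).symm

theorem valuation_piU_self (v : HeightOneSpectrum (𝓞 L)) :
    v.valuation L (piU v : L) = WithZero.exp (-(Fintype.card (ClassGroup (𝓞 L)) : ℤ)) := by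
  rw [piU, Units.val_mk0, HeightOneSpectrum.valuation_of_algebraMap,
    HeightOneSpectrum.intValuation_if_neg v (piR_ne_zero v), ← piR_span,
    Associates.mk_pow, Associates.count_pow, Associates.count_self, mul_one]
  · exact Associates.irreducible_mk.2 v.irreducible
  · exact Associates.mk_ne_zero.2 v.ne_bot
  · exact Associates.irreducible_mk.2 v.irreducible

theorem mem_unit_iff {T : Set (HeightOneSpectrum (𝓞 L))} {u : Lˣ} :
    u ∈ T.unit L ↔ ∀ v ∉ T, v.valuation L (u : L) = 1 := Iff.rfl

theorem piU_mem {T : Set (HeightOneSpectrum (𝓞 L))} (v : T) : piU (v : HeightOneSpectrum (𝓞 L)) ∈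
    T.unit L := by
  rw [mem_unit_iff]
  intro v' hv'
  apply valuation_piU_ne
  rintro rfl
  exact hv' v.2

/-! ### The fundamental units -/

noncomputable def fu (i : Fin (Units.rank L)) : Lˣ :=
  Units.map (algebraMap (𝓞 L) L : 𝓞 L →* L) (Units.fundSystem L i)

theorem valuation_unit (x : (𝓞 L)ˣ) (v : HeightOneSpectrum (𝓞 L)) :
    v.valuation L ((Units.map (algebraMap (𝓞 L) L : 𝓞 L →* L) x : Lˣ) : L) = 1 := by
  have h1 : v.valuation L ((Units.map (algebraMap (𝓞 L) L : 𝓞 L →* L) x : Lˣ) : L) =
    v.valuation L (algebraMap (𝓞 L) L (x : 𝓞 L)) := rfl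
  rw [h1, HeightOneSpectrum.valuation_eq_one_iff_notMem]
  intro h
  exact v.isPrime.ne_top (Ideal.eq_top_of_isUnit_mem _ h x.isUnit)

theorem fu_mem (T : Set (HeightOneSpectrum (𝓞 L))) (i : Fin (Units.rank L)) :
    fu i ∈ T.unit L := by
  rw [mem_unit_iff]
  intro v _
  exact valuation_unit _ v

theorem indep_real (g : Fin (Units.rank L) → ℝ)
    (h : ∀ w : InfinitePlace L, ∑ i, g i * Real.log (infAbs L w (fu i : L)) = 0) : g = 0 := by
  have hb := (Basis.ofZLatticeBasis ℝ (Units.unitLattice L)
    (Units.basisUnitLattice L)).linearIndependent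
  rw [Fintype.linearIndependent_iff] at hb
  funext i
  refine hb g ?_ i
  funext w
  rw [Finset.sum_apply]
  rw [Pi.zero_apply, ← h w]
  refine Finset.sum_congr rfl fun j _ => ?_
  rw [Pi.smul_apply, smul_eq_mul, Basis.ofZLatticeBasis_apply, ← Units.logEmbedding_fundSystem,
    Units.dirichletUnitTheorem.logEmbedding_component]
  simp only [infAbs]
  rw [Real.log_pow]
  rfl

/-! ### The logarithm map on the elements -/

theorem lamHom_apply (T : Set (HeightOneSpectrum (𝓞 L))) (u : Lˣ) (a : L → ℝ) :
    lamHom L T (Additive.ofMul u) a =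
      if a ∈ placeSet L T then -((Real.log (a (u : L)) : ℝ) : ℂ) else 0 := rfl

theorem lamHom_inf (T : Set (HeightOneSpectrum (𝓞 L))) (u : Lˣ) (w : InfinitePlace L) :
    lamHom L T (Additive.ofMul u) (infAbs L w) = -((Real.log (infAbs L w (u : L)) : ℝ) : ℂ) := by
  rw [lamHom_apply, if_pos (show infAbs L w ∈ placeSet L T from Or.inl ⟨w, rfl⟩)]

theorem lamHom_fin (T : Set (HeightOneSpectrum (𝓞 L))) (u : Lˣ) (v : T) :
    lamHom L T (Additive.ofMul u) (finAbs L v) = -((Real.log (finAbs L v (u : L)) : ℝ) : ℂ) := by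
  rw [lamHom_apply, if_pos (show finAbs L v ∈ placeSet L T from Or.inr ⟨v, v.2, rfl⟩)]

theorem lam_tmul (T : Set (HeightOneSpectrum (𝓞 L))) (q : ℚ) (u : Lˣ) :
    lam L T (q ⊗ₜ[ℤ] Additive.ofMul u) = q • lamHom L T (Additive.ofMul u) := by
  simp [lam]

variable (L) in
/-- The family of fundamental units and elements `π_v`. -/
noncomputable def fam (T : Set (HeightOneSpectrum (𝓞 L))) : Fin (Units.rank L) ⊕ T → Lˣ :=
  Sum.elim fu (fun v => piU v)

theorem fam_mem (T : Set (HeightOneSpectrum (𝓞 L))) (i : Fin (Units.rank L) ⊕ T) :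
    fam L T i ∈ T.unit L := by
  rcases i with i | v
  · exact fu_mem T i
  · exact piU_mem v

theorem indepC {T : Set (HeightOneSpectrum (𝓞 L))} (hT : T.Finite) :
    LinearIndependent ℂ (fun i => lamHom L T (Additive.ofMul (fam L T i))) := by
  have : Fintype T := hT.fintype
  rw [Fintype.linearIndependent_iff]
  intro g hg
  rw [Fintype.sum_sum_type] at hg
  -- the coefficients of the `π_v`
  have h1 : ∀ v : T, g (Sum.inr v) = 0 := by
    intro v
    have h := DFunLike.congr_fun hg (finAbs L v)
    rw [Finsupp.add_apply, Finsupp.finsetSum_apply, Finsupp.finsetSum_apply] at h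
    rw [Finset.sum_eq_zero, zero_add, Finset.sum_eq_single v] at h
    · rw [Finsupp.smul_apply, smul_eq_mul, lamHom_fin, Finsupp.zero_apply, mul_eq_zero] at h
      rcases h with h | h
      · exact h
      · exfalso
        have hlog : Real.log (finAbs L v (piU (v : HeightOneSpectrum (𝓞 L)) : L)) = 0 := by
          exact_mod_cast neg_eq_zero.1 h
        have hnn : 0 ≤ finAbs L v (piU (v : HeightOneSpectrum (𝓞 L)) : L) := by
          simp [finAbs]
        have hone : finAbs L v (piU (v : HeightOneSpectrum (𝓞 L)) : L) = 1 := by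
          have hne : finAbs L v (piU (v : HeightOneSpectrum (𝓞 L)) : L) ≠ 0 := by
            simp [finAbs]
          exact Real.eq_one_of_pos_of_log_eq_zero (lt_of_le_of_ne hnn hne.symm) hlog
        rw [finAbs_eq_one_iff, valuation_piU_self, ← WithZero.exp_zero, WithZero.exp_inj] at hone
        have hc : 0 < Fintype.card (ClassGroup (𝓞 L)) := Fintype.card_pos
        omega
    · intro v' _ hv'
      rw [Finsupp.smul_apply, smul_eq_mul, lamHom_fin]
      have hone : finAbs L v ((fam L T (Sum.inr v') : Lˣ) : L) = 1 := by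
        rw [finAbs_eq_one_iff]
        exact valuation_piU_ne _ _ (fun h => hv' (Subtype.ext h.symm))
      rw [hone]
      simp
    · intro h
      exact absurd (Finset.mem_univ v) h
    · intro i _
      rw [Finsupp.smul_apply, smul_eq_mul, lamHom_fin]
      have hone : finAbs L v ((fam L T (Sum.inl i) : Lˣ) : L) = 1 := by
        rw [finAbs_eq_one_iff]
        exact valuation_unit _ _
      rw [hone]
      simp
  have h2 : ∀ w : InfinitePlace L, ∑ i : Fin (Units.rank L), g (Sum.inl i) *
      ((Real.log (infAbs L w (fu i : L)) : ℝ) : ℂ) = 0 := by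
    intro w
    have h := DFunLike.congr_fun hg (infAbs L w)
    rw [Finsupp.add_apply, Finsupp.finsetSum_apply, Finsupp.finsetSum_apply] at h
    rw [Finset.sum_eq_zero (s := Finset.univ (α := T)), add_zero] at h
    · rw [← neg_eq_zero, ← Finset.sum_neg_distrib]
      rw [Finsupp.zero_apply] at h
      rw [← h]
      refine Finset.sum_congr rfl fun i _ => ?_
      rw [Finsupp.smul_apply, smul_eq_mul, lamHom_inf]
      simp [fam]
    · intro v _
      rw [h1 v, zero_smul, Finsupp.zero_apply]
  have hre : (fun i => (g (Sum.inl i)).re) = 0 := by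
    apply indep_real
    intro w
    have := congrArg Complex.re (h2 w)
    simpa using this
  have him : (fun i => (g (Sum.inl i)).im) = 0 := by
    apply indep_real
    intro w
    have := congrArg Complex.im (h2 w)
    simpa using this
  rintro (i | v)
  · apply Complex.ext
    · exact congrFun hre i
    · exact congrFun him i
  · exact h1 v

/-! ### The image lies in `ℂ ⊗ X` -/

theorem lamHom_mem {T : Set (HeightOneSpectrum (𝓞 L))} (hT : T.Finite) {u : Lˣ}
    (hu : u ∈ T.unit L) : lamHom L T (Additive.ofMul u) ∈ XCsub L T := by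
  have hsub : (lamHom L T (Additive.ofMul u)).support ⊆
      Finset.univ.image (infAbs L) ∪ hT.toFinset.image (finAbs L) := by
    intro a ha
    rw [Finsupp.mem_support_iff, lamHom_apply] at ha
    have ha' : a ∈ placeSet L T := by
      by_contra h
      rw [if_neg h] at ha
      exact ha rfl
    rw [Finset.mem_union]
    rcases ha' with ⟨w, rfl⟩ | ⟨v, hv, rfl⟩
    · exact Or.inl (Finset.mem_image_of_mem _ (Finset.mem_univ _))
    · exact Or.inr (Finset.mem_image_of_mem _ (hT.mem_toFinset.2 hv))
  rw [XCsub, Submodule.mem_inf]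
  constructor
  · rw [Finsupp.mem_supported]
    intro a ha
    rw [Finset.mem_coe, Finsupp.mem_support_iff, lamHom_apply] at ha
    by_contra h
    rw [if_neg h] at ha
    exact ha rfl
  · rw [LinearMap.mem_ker, Finsupp.linearCombination_apply, Finsupp.sum_of_support_subset _ hsub _
      (by simp)]
    rw [Finset.sum_union, Finset.sum_image, Finset.sum_image]
    · simp only [lamHom_inf, smul_eq_mul, mul_one]
      have h1 : ∑ v ∈ hT.toFinset, lamHom L T (Additive.ofMul u) (finAbs L v) =
          ∑ v ∈ hT.toFinset, -((Real.log (finAbs L v (u : L)) : ℝ) : ℂ) := by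
        refine Finset.sum_congr rfl fun v hv => ?_
        exact lamHom_fin T u ⟨v, hT.mem_toFinset.1 hv⟩
      rw [h1, Finset.sum_neg_distrib, Finset.sum_neg_distrib, ← neg_add, neg_eq_zero]
      have h2 := congrArg Real.log (prod_formula hT hu)
      rw [Real.log_mul, Real.log_prod, Real.log_prod, Real.log_one] at h2
      · exact_mod_cast h2
      · intro v _
        simp [finAbs]
      · intro w _
        simp [infAbs]
      · exact Finset.prod_ne_zero_iff.2 fun w _ => by simp [infAbs]
      · exact Finset.prod_ne_zero_iff.2 fun v _ => by simp [finAbs]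
    · intro a _ b _ h
      exact finAbs_injective L h
    · intro a _ b _ h
      exact infAbs_injective L h
    · rw [Finset.disjoint_left]
      intro a ha hb
      rw [Finset.mem_image] at ha hb
      obtain ⟨w, _, rfl⟩ := ha
      obtain ⟨v, _, h⟩ := hb
      exact infAbs_ne_finAbs L w v h.symm

/-! ### The dimension of `ℂ ⊗ X` -/

theorem card_placeSet {T : Set (HeightOneSpectrum (𝓞 L))} (hT : T.Finite) :
    Nat.card (placeSet L T) = Units.rank L + 1 + Nat.card T := by
  have h1 : Nat.card (placeSet L T) = (placeSet L T).ncard := rfl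
  rw [h1, placeSet, Set.ncard_union_eq _ (Set.finite_range _) (hT.image _)]
  · rw [Set.ncard_image_of_injective _ (finAbs_injective L), ← Set.image_univ,
      Set.ncard_image_of_injective _ (infAbs_injective L), Set.ncard_univ,
      Nat.card_eq_fintype_card, Units.rank, Nat.sub_add_cancel Fintype.card_pos]
    rfl
  · rw [Set.disjoint_left]
    rintro a ⟨w, rfl⟩ ⟨v, _, h⟩
    exact infAbs_ne_finAbs L w v h.symm

theorem finrank_supported {T : Set (HeightOneSpectrum (𝓞 L))} (hT : T.Finite) :
    finrank ℂ (Finsupp.supported ℂ ℂ (placeSet L T)) = Units.rank L + 1 + Nat.card T := by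
  have hfin : (placeSet L T).Finite := (Set.finite_range _).union (hT.image _)
  have : Fintype (placeSet L T) := hfin.fintype
  rw [LinearEquiv.finrank_eq (Finsupp.supportedEquivFinsupp (placeSet L T)),
    Module.finrank_finsupp_self, ← card_placeSet hT, Nat.card_eq_fintype_card]

theorem finite_supported {T : Set (HeightOneSpectrum (𝓞 L))} (hT : T.Finite) :
    Module.Finite ℂ (Finsupp.supported ℂ ℂ (placeSet L T)) := by
  have hfin : (placeSet L T).Finite := (Set.finite_range _).union (hT.image _)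
  have : Finite (placeSet L T) := hfin
  exact Module.Finite.equiv (Finsupp.supportedEquivFinsupp (placeSet L T)).symm

theorem finrank_XC_le {T : Set (HeightOneSpectrum (𝓞 L))} (hT : T.Finite) :
    Module.Finite ℂ (XCsub L T) ∧ finrank ℂ (XCsub L T) ≤ Units.rank L + Nat.card T := by
  have hf := finite_supported hT
  have hlt : XCsub L T < Finsupp.supported ℂ ℂ (placeSet L T) := by
    refine lt_of_le_of_ne inf_le_left ?_
    intro h
    obtain ⟨w⟩ : Nonempty (InfinitePlace L) := inferInstance
    have hmem : Finsupp.single (infAbs L w) (1 : ℂ) ∈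
        Finsupp.supported ℂ ℂ (placeSet L T) := by
      apply Finsupp.single_mem_supported
      exact Set.mem_union_left _ ⟨w, rfl⟩
    rw [← h, XCsub, Submodule.mem_inf, LinearMap.mem_ker] at hmem
    have := hmem.2
    rw [Finsupp.linearCombination_single] at this
    simp at this
  constructor
  · exact Submodule.finiteDimensional_of_le hlt.le
  · have h := Submodule.finrank_lt_finrank_of_lt hlt
    rw [finrank_supported hT] at h
    omega

/-! ### Spanning -/

/-- The map `u ↦ 1 ⊗ u`. -/
noncomputable def tm (u : Lˣ) : ℚ ⊗[ℤ] Additive Lˣ := (1 : ℚ) ⊗ₜ[ℤ] Additive.ofMul u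


theorem tm_mul (u v : Lˣ) : tm (u * v) = tm u + tm v := by
  rw [tm, ofMul_mul, TensorProduct.tmul_add]
  rfl


theorem tm_one : tm (1 : Lˣ) = 0 := by
  rw [tm, ofMul_one, TensorProduct.tmul_zero]

theorem tm_zpow (u : Lˣ) (n : ℤ) : tm (u ^ n) = (n : ℚ) • tm u := by
  have h1 := map_zsmul (TensorProduct.mk ℤ ℚ (Additive Lˣ) 1) n (Additive.ofMul u)
  rw [Int.cast_smul_eq_zsmul]
  exact h1

theorem tm_pow (u : Lˣ) (n : ℕ) : tm (u ^ n) = (n : ℚ) • tm u := by
  have := tm_zpow u n
  rw [zpow_natCast] at this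
  rw [this]
  simp

theorem tm_prod {ι : Type} (s : Finset ι) (f : ι → Lˣ) : tm (∏ i ∈ s, f i) = ∑ i ∈ s, tm (f i) := by
  induction s using Finset.induction_on with
  | empty => simp [tm_one]
  | insert a s ha ih => rw [Finset.prod_insert ha, Finset.sum_insert ha, tm_mul, ih]

theorem tm_unit_mem (T : Set (HeightOneSpectrum (𝓞 L))) (x : (𝓞 L)ˣ) :
    tm (Units.map (algebraMap (𝓞 L) L : 𝓞 L →* L) x) ∈
      Submodule.span ℚ (Set.range fun i => tm (fam L T i)) := by
  obtain ⟨⟨ζ, e⟩, h, -⟩ := Units.exist_unique_eq_mul_prod L x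
  simp only at h
  have hζ : tm (Units.map (algebraMap (𝓞 L) L : 𝓞 L →* L) (ζ : (𝓞 L)ˣ)) = 0 := by
    have h1 : (ζ : (𝓞 L)ˣ) ∈ CommGroup.torsion (𝓞 L)ˣ := ζ.2
    rw [CommGroup.mem_torsion, isOfFinOrder_iff_pow_eq_one] at h1
    obtain ⟨n, hn, h2⟩ := h1
    have h3 : tm ((Units.map (algebraMap (𝓞 L) L : 𝓞 L →* L) (ζ : (𝓞 L)ˣ)) ^ n) = 0 := by
      rw [← map_pow, h2, map_one, tm_one]
    rw [tm_pow] at h3
    rcases smul_eq_zero.1 h3 with h4 | h4
    · exfalso
      have : n = 0 := by exact_mod_cast h4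
      omega
    · exact h4
  rw [h, map_mul, tm_mul, hζ, zero_add, map_prod, tm_prod]
  refine Submodule.sum_mem _ fun i _ => ?_
  rw [map_zpow, tm_zpow]
  exact Submodule.smul_mem _ _ (Submodule.subset_span ⟨Sum.inl i, rfl⟩)

theorem tm_mem {T : Set (HeightOneSpectrum (𝓞 L))} (hT : T.Finite) {u : Lˣ}
    (hu : u ∈ T.unit L) : tm u ∈ Submodule.span ℚ (Set.range fun i => tm (fam L T i)) := by
  have : Fintype T := hT.fintype
  set h := Fintype.card (ClassGroup (𝓞 L)) with hh
  have hpos : 0 < h := Fintype.card_pos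
  set n : HeightOneSpectrum (𝓞 L) → ℤ := fun v => WithZero.log (v.valuation L (u : L)) with hn
  set y : Lˣ := ∏ v : T, piU (v : HeightOneSpectrum (𝓞 L)) ^ n v with hy
  have hval : ∀ v : HeightOneSpectrum (𝓞 L), v.valuation L ((u ^ h * y : Lˣ) : L) = 1 := by
    intro v
    rw [Units.val_mul, map_mul, Units.val_pow_eq_pow_val, map_pow, hy, Units.coe_prod, map_prod]
    by_cases hv : v ∈ T
    · rw [Finset.prod_eq_single (⟨v, hv⟩ : T)]
      · rw [Units.val_zpow_eq_zpow_val, map_zpow₀, valuation_piU_self, ← hh]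
        have h1 : v.valuation L (u : L) = WithZero.exp (n v) := by
          rw [hn, WithZero.exp_log]
          exact (Valuation.ne_zero_iff _).2 u.ne_zero
        rw [h1, ← WithZero.exp_nsmul, ← WithZero.exp_zsmul, ← WithZero.exp_add,
          ← WithZero.exp_zero]
        congr 1
        simp only [nsmul_eq_mul, smul_eq_mul]
        ring
      · intro v' _ hv'
        rw [Units.val_zpow_eq_zpow_val, map_zpow₀, valuation_piU_ne, one_zpow]
        intro h
        exact hv' (Subtype.ext h.symm)
      · intro h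
        exact absurd (Finset.mem_univ _) h
    · rw [(mem_unit_iff.1 hu) v hv, one_pow, one_mul]
      apply Finset.prod_eq_one
      intro v' _
      rw [Units.val_zpow_eq_zpow_val, map_zpow₀, valuation_piU_ne, one_zpow]
      intro h
      rw [h] at hv
      exact hv v'.2
  obtain ⟨x, hx⟩ : ∃ x : (𝓞 L)ˣ, Units.map (algebraMap (𝓞 L) L : 𝓞 L →* L) x = u ^ h * y := by
    obtain ⟨a, ha⟩ := HeightOneSpectrum.mem_integers_of_valuation_le_one L
      ((u ^ h * y : Lˣ) : L) (fun v => (hval v).le)
    obtain ⟨b, hb⟩ := HeightOneSpectrum.mem_integers_of_valuation_le_one L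
      (((u ^ h * y)⁻¹ : Lˣ) : L) (fun v => by
        rw [Units.val_inv_eq_inv_val, map_inv₀, hval v, inv_one])
    have hab : a * b = 1 := by
      apply FaithfulSMul.algebraMap_injective (𝓞 L) L
      rw [map_mul, map_one, ha, hb, ← Units.val_mul, mul_inv_cancel, Units.val_one]
    refine ⟨⟨a, b, hab, by rw [mul_comm]; exact hab⟩, ?_⟩
    apply Units.ext
    exact ha
  have h1 : tm (u ^ h * y) ∈ Submodule.span ℚ (Set.range fun i => tm (fam L T i)) := by
    rw [← hx]
    exact tm_unit_mem T x
  have h2 : tm y ∈ Submodule.span ℚ (Set.range fun i => tm (fam L T i)) := by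
    rw [hy, tm_prod]
    refine Submodule.sum_mem _ fun v _ => ?_
    rw [tm_zpow]
    exact Submodule.smul_mem _ _ (Submodule.subset_span ⟨Sum.inr v, rfl⟩)
  rw [tm_mul, tm_pow] at h1
  have h3 : (h : ℚ) • tm u ∈ Submodule.span ℚ (Set.range fun i => tm (fam L T i)) := by
    have := Submodule.sub_mem _ h1 h2
    rwa [add_sub_cancel_right] at this
  have hne : (h : ℚ) ≠ 0 := by exact_mod_cast hpos.ne'
  exact (Submodule.smul_mem_iff _ hne).1 h3

theorem QU_eq {T : Set (HeightOneSpectrum (𝓞 L))} (hT : T.Finite) :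
    Submodule.span ℚ (Set.range fun i => tm (fam L T i)) = QU L T := by
  apply le_antisymm
  · rw [Submodule.span_le]
    rintro _ ⟨i, rfl⟩
    exact Submodule.subset_span ⟨fam L T i, fam_mem T i, rfl⟩
  · rw [QU, Submodule.span_le]
    rintro _ ⟨u, hu, rfl⟩
    exact tm_mem hT hu

theorem lam_tm (T : Set (HeightOneSpectrum (𝓞 L))) (u : Lˣ) :
    lam L T (tm u) = lamHom L T (Additive.ofMul u) := by
  rw [tm, lam_tmul, one_smul]

theorem indepQ {T : Set (HeightOneSpectrum (𝓞 L))} (hT : T.Finite) :
    LinearIndependent ℚ (fun i => tm (fam L T i)) := by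
  have h1 := (indepC hT).restrict_scalars (R := ℚ) (by
    intro a b hab
    simpa using hab)
  apply LinearIndependent.of_comp (lam L T)
  have h2 : (lam L T) ∘ (fun i => tm (fam L T i)) =
      fun i => lamHom L T (Additive.ofMul (fam L T i)) := by
    funext i
    exact lam_tm T _
  rw [h2]
  exact h1

end UNIT

theorem UNIT_thm : Stmt_UNIT := by
  intro L _ _ T hT
  have : Fintype T := hT.fintype
  obtain ⟨hfin, hrank⟩ := UNIT.finrank_XC_le hT
  have hfin' : Module.Finite ℂ (XC L T) := hfin
  -- the basis of `ℂ ⊗ X`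
  let f : Fin (Units.rank L) ⊕ T → XC L T := fun i =>
    (⟨lamHom L T (Additive.ofMul (UNIT.fam L T i)), UNIT.lamHom_mem hT (UNIT.fam_mem T i)⟩ :
      XCsub L T)
  have hf : ∀ i, (f i).val = lamHom L T (Additive.ofMul (UNIT.fam L T i)) := fun i => rfl
  have hind : LinearIndependent ℂ f := by
    apply LinearIndependent.of_comp (XC.val (L := L) (T := T))
    exact UNIT.indepC hT
  have hcard : Fintype.card (Fin (Units.rank L) ⊕ T) = finrank ℂ (XC L T) := by
    apply le_antisymm
    · exact hind.fintype_card_le_finrank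
    · rw [Fintype.card_sum, Fintype.card_fin, ← Nat.card_eq_fintype_card]
      exact hrank
  let c := basisOfLinearIndependentOfCardEqFinrank' f hind hcard
  let b : Basis (Fin (Units.rank L) ⊕ T) ℚ (QU L T) :=
    (Basis.span (UNIT.indepQ hT)).map (LinearEquiv.ofEq _ _ (UNIT.QU_eq hT))
  let e := Fintype.equivFin (Fin (Units.rank L) ⊕ T)
  refine ⟨_, b.reindex e, c.reindex e, ?_⟩
  intro i
  rw [Basis.reindex_apply, Basis.reindex_apply]
  have h1 : c (e.symm i) = f (e.symm i) := by
    rw [coe_basisOfLinearIndependentOfCardEqFinrank']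
  have h2 : ((b (e.symm i) : QU L T) : ℚ ⊗[ℤ] Additive Lˣ) = UNIT.tm (UNIT.fam L T (e.symm i)) := by
    simp only [b, Basis.map_apply, LinearEquiv.coe_ofEq_apply, Basis.span_apply]
  rw [h1, h2, hf, UNIT.lam_tm]

end StarkC
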