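import Pool.Agent.Stark.Stmts

/-!
# A common basis of `ℚ ⊗ X` and `ℂ ⊗ X`
-/

open NumberField IsDedekindDomain
open scoped TensorProduct Classical

namespace StarkC.XRAT

/-- combinations supported on `P` with coefficient sum zero -/
noncomputable def SZ (k : Type) [Field k] {α : Type} (P : Set α) : Submodule k (α →₀ k) :=
  Finsupp.supported k k P ⊓ LinearMap.ker (Finsupp.linearCombination k (fun _ : α => (1 : k)))

theorem exists_basis (k : Type) [Field k] {α : Type} (P : Set α) (a₀ : α) (ha₀ : a₀ ∈ P) (n : ℕ)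
    (e : Fin n ≃ {a : α // a ∈ P ∧ a ≠ a₀}) :
    ∃ b : Module.Basis (Fin n) k (SZ k P),
      ∀ i, (b i : α →₀ k) = Finsupp.single (e i : α) 1 - Finsupp.single a₀ 1 := by
  have hmem : ∀ i, Finsupp.single (e i : α) (1 : k) - Finsupp.single a₀ 1 ∈ SZ k P := by
    intro i
    refine ⟨?_, ?_⟩
    · exact Submodule.sub_mem _ (Finsupp.single_mem_supported k _ (e i).2.1)
        (Finsupp.single_mem_supported k _ ha₀)
    · rw [SetLike.mem_coe, LinearMap.mem_ker, map_sub, Finsupp.linearCombination_single,
        Finsupp.linearCombination_single, sub_self]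
  let v : Fin n → SZ k P := fun i => ⟨_, hmem i⟩
  have hval : ∀ (c : Fin n → k) (j : Fin n),
      ((∑ i, c i • v i : SZ k P) : α →₀ k) (e j : α) = c j := by
    intro c j
    rw [Submodule.coe_sum, Finsupp.finsetSum_apply, Finset.sum_eq_single j]
    · change c j * ((Finsupp.single (e j : α) (1 : k) - Finsupp.single a₀ 1 : α →₀ k) (e j : α)) = c j
      rw [Finsupp.sub_apply, Finsupp.single_eq_same, Finsupp.single_eq_of_ne (e j).2.2,
        sub_zero, mul_one]
    · intro i _ hi
      change c i * ((Finsupp.single (e i : α) (1 : k) - Finsupp.single a₀ 1 : α →₀ k) (e j : α)) = 0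
      have h1 : (e j : α) ≠ (e i : α) := fun h => hi (e.injective (Subtype.ext h.symm))
      rw [Finsupp.sub_apply, Finsupp.single_eq_of_ne h1, Finsupp.single_eq_of_ne (e j).2.2,
        sub_zero, mul_zero]
    · intro h
      exact absurd (Finset.mem_univ j) h
  have hli : LinearIndependent k v := by
    refine (Fintype.linearIndependent_iff (ι := Fin n) (R := k) (M := SZ k P) (v := v)).mpr ?_
    intro g hg j
    have h1 := hval g j
    rw [hg] at h1
    exact h1.symm
  have hsp : ⊤ ≤ Submodule.span k (Set.range v) := by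
    intro f _
    rw [Submodule.mem_span_range_iff_exists_fun]
    refine ⟨fun i => (f : α →₀ k) (e i : α), ?_⟩
    apply Subtype.ext
    have hsum : ∀ g : α →₀ k, g ∈ SZ k P → (∀ i, g (e i : α) = 0) → g = 0 := by
      intro g hg h0
      have h1 : ∀ a, a ≠ a₀ → g a = 0 := by
        intro a ha
        by_cases haP : a ∈ P
        · have h2 := h0 (e.symm ⟨a, haP, ha⟩)
          rwa [Equiv.apply_symm_apply] at h2
        · by_contra h2
          exact haP (hg.1 (Finsupp.mem_support_iff.mpr h2))
      have h2 : g = Finsupp.single a₀ (g a₀) := by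
        ext a
        by_cases ha : a = a₀
        · rw [ha, Finsupp.single_eq_same]
        · rw [h1 a ha, Finsupp.single_eq_of_ne ha]
      have h3 := hg.2
      rw [SetLike.mem_coe, LinearMap.mem_ker, h2, Finsupp.linearCombination_single, smul_eq_mul,
        mul_one] at h3
      rw [h2, h3, Finsupp.single_zero]
    have h4 := hsum ((∑ i, (f : α →₀ k) (e i : α) • v i : SZ k P) - f : SZ k P)
      (Subtype.property _) (by
        intro i
        rw [Submodule.coe_sub, Finsupp.sub_apply, hval, sub_self])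
    rw [Submodule.coe_sub, sub_eq_zero] at h4
    exact h4
  exact ⟨Module.Basis.mk hli hsp, fun i => by rw [Module.Basis.mk_apply]⟩

end StarkC.XRAT

open StarkC in
theorem StarkC.XRAT_thm : StarkC.Stmt_XRAT := by
  intro L _ _ T hT
  have hfin : (placeSet L T).Finite :=
    (Set.finite_range (infAbs L)).union (hT.image (finAbs L))
  obtain ⟨w⟩ : Nonempty (InfinitePlace L) := inferInstance
  have ha₀ : infAbs L w ∈ placeSet L T := Or.inl ⟨w, rfl⟩
  have hfin' : Finite {a : L → ℝ // a ∈ placeSet L T ∧ a ≠ infAbs L w} :=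
    (hfin.subset (fun a ha => ha.1)).to_subtype
  obtain ⟨n, ⟨e'⟩⟩ := Finite.exists_equiv_fin {a : L → ℝ // a ∈ placeSet L T ∧ a ≠ infAbs L w}
  obtain ⟨b, hb⟩ := StarkC.XRAT.exists_basis ℚ (placeSet L T) _ ha₀ n e'.symm
  obtain ⟨c, hc⟩ := StarkC.XRAT.exists_basis ℂ (placeSet L T) _ ha₀ n e'.symm
  refine ⟨n, b, c, ?_⟩
  intro i a
  have h1 : (c i : (L → ℝ) →₀ ℂ) a = (((b i : (L → ℝ) →₀ ℚ) a : ℚ) : ℂ) := by
    rw [hb, hc, Finsupp.sub_apply, Finsupp.sub_apply, Finsupp.single_apply, Finsupp.single_apply,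
      Finsupp.single_apply, Finsupp.single_apply]
    split_ifs <;> simp
  exact h1
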