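import Pool.Agent.Stark.Stmts

/-!
# Inflation invariance of the local Artin coefficients
-/

open NumberField IsDedekindDomain
open scoped Classical Pointwise

namespace StarkC.LINF

section Basic

variable {K N : Type} [Field K] [Field N] [Algebra K N]

theorem coe_smul (g : N ≃ₐ[K] N) (x : 𝓞 N) : ((g • x : 𝓞 N) : N) = g (x : N) := rfl

theorem frobPow_iff [NumberField N] (w : HeightOneSpectrum (𝓞 N)) (q : ℕ) (g : N ≃ₐ[K] N) :
    FrobPow N w q g ↔ ∀ x : 𝓞 N, g • x - x ^ q ∈ w.asIdeal := by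
  constructor
  · intro h x
    exact h x (g • x) rfl
  · intro h x y hy
    have : y = g • x := RingOfIntegers.ext hy
    rw [this]
    exact h x

theorem smul_ideal_eq [NumberField N] {w : HeightOneSpectrum (𝓞 N)} {q : ℕ} (hq : q ≠ 0)
    {g : N ≃ₐ[K] N} (h : FrobPow N w q g) [FiniteDimensional K N] : g • w.asIdeal = w.asIdeal := by
  rw [frobPow_iff] at h
  have h1 : ∀ x ∈ w.asIdeal, g • x ∈ w.asIdeal := by
    intro x hx
    have h2 := w.asIdeal.add_mem (h x) (w.asIdeal.pow_mem_of_mem hx q (Nat.pos_of_ne_zero hq))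
    simpa using h2
  have h2 : w.asIdeal ≤ g⁻¹ • w.asIdeal := by
    intro x hx
    rw [Ideal.mem_inv_pointwise_smul_iff]
    exact h1 x hx
  have h3 : g • w.asIdeal ≤ w.asIdeal := by
    intro x hx
    rw [Ideal.mem_pointwise_smul_iff_inv_smul_mem] at hx
    have := h1 _ hx
    simpa using this
  have hmax : (g • w.asIdeal).IsMaximal := by
    have : w.asIdeal.IsMaximal := w.isMaximal
    have e : g • w.asIdeal = Ideal.map (MulSemiringAction.toRingEquiv _ (𝓞 N) g) w.asIdeal := rfl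
    rw [e]
    infer_instance
  exact hmax.eq_of_le w.isPrime.ne_top h3

end Basic

section Trans

variable {K N : Type} [Field K] [NumberField K] [Field N] [NumberField N] [Algebra K N]
  [IsGalois K N]

/-- The local trace of a class function depends only on the prime below. -/
theorem localTrace_eq (χ : (N ≃ₐ[K] N) → ℂ) (hχ : ∀ g h, χ (h * g * h⁻¹) = χ g)
    {w w' : HeightOneSpectrum (𝓞 N)} (h : w.under (𝓞 K) = w'.under (𝓞 K)) (q : ℕ) :
    localTrace χ w q = localTrace χ w' q := by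
  have hu : w.asIdeal.under (𝓞 K) = w'.asIdeal.under (𝓞 K) := by
    have := congrArg HeightOneSpectrum.asIdeal h
    simpa using this
  have := w.isPrime
  have := w'.isPrime
  obtain ⟨σ, hσ⟩ := Algebra.IsInvariant.exists_smul_of_under_eq (𝓞 K) (𝓞 N) (N ≃ₐ[K] N)
    w.asIdeal w'.asIdeal hu
  have key : ∀ (q : ℕ) (g : N ≃ₐ[K] N), FrobPow N w' q (σ * g * σ⁻¹ : N ≃ₐ[K] N) ↔
      FrobPow N w q g := by
    intro q g
    rw [frobPow_iff, frobPow_iff, hσ]
    constructor
    · intro h x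
      have h1 := h (σ • x)
      rw [Ideal.mem_pointwise_smul_iff_inv_smul_mem, smul_sub, smul_pow'] at h1
      simpa [mul_smul] using h1
    · intro h x
      have h1 := h (σ⁻¹ • x)
      rw [Ideal.mem_pointwise_smul_iff_inv_smul_mem, smul_sub, smul_pow']
      simpa [mul_smul] using h1
  unfold localTrace
  congr 1
  · refine Finset.sum_bij (fun g _ => σ * g * σ⁻¹) ?_ ?_ ?_ ?_
    · intro g hg
      rw [Finset.mem_filter] at hg ⊢
      exact ⟨Finset.mem_univ _, (key q g).2 hg.2⟩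
    · intro a _ b _ hab
      simpa using hab
    · intro b hb
      rw [Finset.mem_filter] at hb
      refine ⟨σ⁻¹ * b * σ, ?_, by group⟩
      rw [Finset.mem_filter]
      refine ⟨Finset.mem_univ _, (key q _).1 ?_⟩
      have e : σ * (σ⁻¹ * b * σ) * σ⁻¹ = b := by group
      rw [e]
      exact hb.2
    · intro g _
      exact (hχ g σ).symm
  · norm_cast
    refine Finset.card_bij (fun g _ => σ * g * σ⁻¹) ?_ ?_ ?_
    · intro g hg
      rw [Finset.mem_filter] at hg ⊢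
      exact ⟨Finset.mem_univ _, (key 1 g).2 hg.2⟩
    · intro a _ b _ hab
      simpa using hab
    · intro b hb
      rw [Finset.mem_filter] at hb
      refine ⟨σ⁻¹ * b * σ, ?_, by group⟩
      rw [Finset.mem_filter]
      refine ⟨Finset.mem_univ _, (key 1 _).1 ?_⟩
      have e : σ * (σ⁻¹ * b * σ) * σ⁻¹ = b := by group
      rw [e]
      exact hb.2

omit [IsGalois K N] in
theorem above_finite (v : HeightOneSpectrum (𝓞 K)) : (above K N v).Finite := by
  have := v.isMaximal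
  refine Set.Finite.of_finite_image (f := HeightOneSpectrum.asIdeal)
    ((IsDedekindDomain.primesOver_finite v.asIdeal (𝓞 N)).subset ?_) ?_
  · rintro _ ⟨w, hw, rfl⟩
    refine ⟨w.isPrime, ⟨?_⟩⟩
    have : w.under (𝓞 K) = v := hw
    rw [← this]
    rfl
  · intro a _ b _ hab
    exact HeightOneSpectrum.ext_iff.2 hab

/-- The Artin coefficient is the local trace at any prime above. -/
theorem artinCoef_eq (χ : (N ≃ₐ[K] N) → ℂ) (hχ : ∀ g h, χ (h * g * h⁻¹) = χ g)
    (v : HeightOneSpectrum (𝓞 K)) (m : ℕ) (w : HeightOneSpectrum (𝓞 N)) (hw : w ∈ above K N v) :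
    artinCoef χ v m = localTrace χ w (Ideal.absNorm v.asIdeal ^ m) := by
  have hfin := above_finite (N := N) v
  unfold artinCoef
  have h1 : (∑ᶠ w' ∈ above K N v, localTrace χ w' (Ideal.absNorm v.asIdeal ^ m)) =
      ∑ᶠ w' ∈ above K N v, localTrace χ w (Ideal.absNorm v.asIdeal ^ m) := by
    refine finsum_mem_congr rfl ?_
    intro w' hw'
    refine localTrace_eq χ hχ ?_ _
    have a : w'.under (𝓞 K) = v := hw'
    have b : w.under (𝓞 K) = v := hw
    rw [a, b]
  rw [h1, finsum_mem_eq_finite_toFinset_sum _ hfin, Finset.sum_const, Set.ncard_eq_toFinset_card _ hfin,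
    nsmul_eq_mul]
  have h2 : ((hfin.toFinset.card : ℕ) : ℂ) ≠ 0 := by
    have : hfin.toFinset.card ≠ 0 := by
      rw [Finset.card_ne_zero]
      exact ⟨w, by simpa using hw⟩
    exact_mod_cast this
  field_simp

end Trans


theorem exists_frob_pow_aux (k F : Type) [Field k] [Fintype k] [Field F] [Algebra k F]
    [Algebra.IsAlgebraic k F] (m : ℕ) :
    ∃ τ : F ≃ₐ[k] F, ∀ x, τ x = x ^ (Fintype.card k ^ m) := by
  refine ⟨(FiniteField.frobeniusAlgEquivOfAlgebraic k F) ^ m, fun x => ?_⟩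
  have := congrFun (FiniteField.coe_frobeniusAlgEquivOfAlgebraic_iterate k F m) x
  rw [← this, AlgEquiv.coe_pow]

theorem exists_frob_pow {A B : Type} [CommRing A] [CommRing B] [Algebra A B]
    [Algebra.IsIntegral A B] (p : Ideal A) (P : Ideal B) [p.IsMaximal] [P.IsMaximal]
    [P.LiesOver p] [Finite (A ⧸ p)] (m : ℕ) :
    ∃ τ : (B ⧸ P) ≃ₐ[A ⧸ p] (B ⧸ P), ∀ x, τ x = x ^ (Nat.card (A ⧸ p) ^ m) := by
  let _ : Field (A ⧸ p) := Ideal.Quotient.field p
  let _ : Field (B ⧸ P) := Ideal.Quotient.field P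
  let _ : Fintype (A ⧸ p) := Fintype.ofFinite _
  have : Algebra.IsAlgebraic (A ⧸ p) (B ⧸ P) := by
    have : Algebra.IsIntegral (A ⧸ p) (B ⧸ P) := inferInstance
    exact this.isAlgebraic
  obtain ⟨τ, hτ⟩ := exists_frob_pow_aux (A ⧸ p) (B ⧸ P) m
  refine ⟨τ, ?_⟩
  intro x
  rw [hτ x, Nat.card_eq_fintype_card]

section Tower

variable {K L N : Type} [Field K] [NumberField K] [Field L] [NumberField L] [Field N]
  [NumberField N] [Algebra K L] [Algebra K N] [Algebra L N] [IsScalarTower K L N] [IsGalois K L]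
  [IsGalois K N]

omit [NumberField K] [NumberField L] [NumberField N] [IsGalois K N] in
theorem restrict_smul (g : N ≃ₐ[K] N) (y : 𝓞 L) :
    algebraMap (𝓞 L) (𝓞 N) (AlgEquiv.restrictNormalHom L g • y) =
      g • algebraMap (𝓞 L) (𝓞 N) y := by
  apply RingOfIntegers.ext
  exact AlgEquiv.restrictNormal_commutes g L (y : L)

omit [NumberField K] [IsGalois K N] in
theorem frobPow_restrict {w' : HeightOneSpectrum (𝓞 N)} {q : ℕ} {g : N ≃ₐ[K] N}
    (h : FrobPow N w' q g) :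
    FrobPow L (w'.under (𝓞 L)) q (AlgEquiv.restrictNormalHom L g : L ≃ₐ[K] L) := by
  rw [frobPow_iff] at h ⊢
  intro x
  have h1 := h (algebraMap (𝓞 L) (𝓞 N) x)
  rw [← restrict_smul, ← map_pow, ← map_sub] at h1
  exact h1

/-- Lifting of a Frobenius power. -/
theorem lift_frobPow (w' : HeightOneSpectrum (𝓞 N)) (m : ℕ) (g : L ≃ₐ[K] L)
    (hg : FrobPow L (w'.under (𝓞 L)) (Ideal.absNorm (w'.under (𝓞 K)).asIdeal ^ m) g) :
    ∃ g' : N ≃ₐ[K] N, AlgEquiv.restrictNormalHom L g' = g ∧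
      FrobPow N w' (Ideal.absNorm (w'.under (𝓞 K)).asIdeal ^ m) g' := by
  have : IsGalois L N := IsGalois.tower_top_of_isGalois K L N
  obtain ⟨g₁, hg₁⟩ := AlgEquiv.restrictNormalHom_surjective (F := K) (K₁ := L) N g
  have hPp := w'.isPrime
  have hq : Ideal.absNorm (w'.under (𝓞 K)).asIdeal ^ m ≠ 0 := by
    apply pow_ne_zero
    rw [ne_eq, Ideal.absNorm_eq_zero_iff]
    exact (w'.under (𝓞 K)).ne_bot
  have hgst := smul_ideal_eq hq hg
  have hg' := (frobPow_iff _ _ _).1 hg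
  -- step b
  have hprime : (g₁ • w'.asIdeal).IsPrime := by
    have e : g₁ • w'.asIdeal =
      Ideal.map (MulSemiringAction.toRingEquiv _ (𝓞 N) g₁) w'.asIdeal := rfl
    rw [e]
    infer_instance
  have hunder : (g₁ • w'.asIdeal).under (𝓞 L) = w'.asIdeal.under (𝓞 L) := by
    ext y
    rw [Ideal.under_def, Ideal.mem_comap, Ideal.mem_pointwise_smul_iff_inv_smul_mem]
    have e1 : g₁⁻¹ • algebraMap (𝓞 L) (𝓞 N) y = algebraMap (𝓞 L) (𝓞 N) (g⁻¹ • y) := by
      rw [← hg₁, ← map_inv, restrict_smul]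
    rw [e1]
    have e2 : (algebraMap (𝓞 L) (𝓞 N) (g⁻¹ • y) ∈ w'.asIdeal) ↔
        g⁻¹ • y ∈ (w'.under (𝓞 L)).asIdeal := Iff.rfl
    rw [e2, ← Ideal.mem_pointwise_smul_iff_inv_smul_mem, hgst]
    rfl
  obtain ⟨h, hh⟩ := Algebra.IsInvariant.exists_smul_of_under_eq (𝓞 L) (𝓞 N) (N ≃ₐ[L] N)
    (g₁ • w'.asIdeal) w'.asIdeal hunder
  -- the automorphism `g₂` stabilises `w'` and restricts to `g`
  set g₂ : N ≃ₐ[K] N := h.restrictScalars K * g₁ with hg₂
  have hres : ∀ k : N ≃ₐ[L] N, AlgEquiv.restrictNormalHom L (k.restrictScalars K) =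
      (1 : L ≃ₐ[K] L) := by
    intro k
    apply AlgEquiv.ext
    intro y
    apply (algebraMap L N).injective
    have e := AlgEquiv.restrictNormal_commutes (k.restrictScalars K) L y
    refine e.trans ?_
    simp
  have hr₂ : AlgEquiv.restrictNormalHom L g₂ = g := by
    rw [hg₂, map_mul, hres, one_mul, hg₁]
  have hst : g₂ • w'.asIdeal = w'.asIdeal := by
    rw [hg₂, mul_smul]
    exact hh.symm
  -- the residue field
  have hmN := w'.isMaximal
  have hmK := (w'.under (𝓞 K)).isMaximal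
  have hmL := (w'.under (𝓞 L)).isMaximal
  have hlK : w'.asIdeal.LiesOver (w'.under (𝓞 K)).asIdeal := ⟨rfl⟩
  have hlL : w'.asIdeal.LiesOver (w'.under (𝓞 L)).asIdeal := ⟨rfl⟩
  have hfin : Finite (𝓞 K ⧸ (w'.under (𝓞 K)).asIdeal) := by
    rw [← Ideal.absNorm_ne_zero_iff, ne_eq, Ideal.absNorm_eq_zero_iff]
    exact (w'.under (𝓞 K)).ne_bot
  have hcard : Nat.card (𝓞 K ⧸ (w'.under (𝓞 K)).asIdeal) =
      Ideal.absNorm (w'.under (𝓞 K)).asIdeal := by
    rw [Ideal.absNorm_apply, Submodule.cardQuot_apply]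
  obtain ⟨F, hF⟩ := exists_frob_pow (w'.under (𝓞 K)).asIdeal w'.asIdeal m
  rw [hcard] at hF
  -- `g₂` on the residue field
  let s₂ : MulAction.stabilizer (N ≃ₐ[K] N) w'.asIdeal := ⟨g₂, hst⟩
  let G₂ := Ideal.Quotient.stabilizerHom w'.asIdeal (w'.under (𝓞 K)).asIdeal (N ≃ₐ[K] N) s₂
  have hG₂ : ∀ b : 𝓞 N, G₂ (Ideal.Quotient.mk _ b) = Ideal.Quotient.mk _ (g₂ • b) := by
    intro b
    exact Ideal.Quotient.stabilizerHom_apply _ _ _ _ _
  let τ : (𝓞 N ⧸ w'.asIdeal) ≃+* (𝓞 N ⧸ w'.asIdeal) := (G₂.symm.trans F).toRingEquiv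
  have hτ : ∀ b : 𝓞 N, τ (Ideal.Quotient.mk _ (g₂ • b)) =
      Ideal.Quotient.mk _ (b ^ (Ideal.absNorm (w'.under (𝓞 K)).asIdeal ^ m)) := by
    intro b
    have e1 : G₂.symm (Ideal.Quotient.mk _ (g₂ • b)) = Ideal.Quotient.mk _ b := by
      rw [← hG₂, AlgEquiv.symm_apply_apply]
    have e2 : τ (Ideal.Quotient.mk _ (g₂ • b)) = F (G₂.symm (Ideal.Quotient.mk _ (g₂ • b))) := rfl
    rw [e2, e1, hF, map_pow]
  have hτL : ∀ y : 𝓞 L ⧸ (w'.under (𝓞 L)).asIdeal,
      τ (algebraMap _ (𝓞 N ⧸ w'.asIdeal) y) = algebraMap _ (𝓞 N ⧸ w'.asIdeal) y := by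
    intro y
    obtain ⟨z, rfl⟩ := Ideal.Quotient.mk_surjective y
    rw [Ideal.Quotient.algebraMap_mk_of_liesOver]
    have e1 : algebraMap (𝓞 L) (𝓞 N) z = g₂ • algebraMap (𝓞 L) (𝓞 N) (g⁻¹ • z) := by
      rw [← restrict_smul, hr₂, smul_inv_smul]
    rw [e1, hτ, ← restrict_smul, hr₂, ← map_pow]
    rw [Ideal.Quotient.eq, ← map_sub]
    have h3 := hg' (g⁻¹ • z)
    have h4 := (w'.under (𝓞 L)).asIdeal.neg_mem h3
    rw [neg_sub] at h4
    exact h4
  obtain ⟨k, hk⟩ := Ideal.Quotient.stabilizerHom_surjective (N ≃ₐ[L] N)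
    (w'.under (𝓞 L)).asIdeal w'.asIdeal (AlgEquiv.ofRingEquiv (f := τ) hτL)
  refine ⟨(k : N ≃ₐ[L] N).restrictScalars K * g₂, by rw [map_mul, hres, one_mul, hr₂], ?_⟩
  rw [frobPow_iff]
  intro x
  rw [← Ideal.Quotient.eq, ← hτ x]
  have e3 := congrArg (fun t => t (Ideal.Quotient.mk w'.asIdeal (g₂ • x))) hk
  exact e3

/-- The sums over Frobenius powers upstairs and downstairs. -/
theorem sum_frobPow (χ : (L ≃ₐ[K] L) → ℂ) (w' : HeightOneSpectrum (𝓞 N)) (m : ℕ) :
    (∑ g ∈ Finset.univ.filter (fun g : N ≃ₐ[K] N =>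
        FrobPow N w' (Ideal.absNorm (w'.under (𝓞 K)).asIdeal ^ m) g),
      χ (AlgEquiv.restrictNormalHom L g)) =
    ((Finset.univ.filter (fun k : N ≃ₐ[K] N => FrobPow N w' 1 k ∧
      AlgEquiv.restrictNormalHom L k = (1 : L ≃ₐ[K] L))).card : ℂ) *
    ∑ g ∈ Finset.univ.filter (fun g : L ≃ₐ[K] L =>
        FrobPow L (w'.under (𝓞 L)) (Ideal.absNorm (w'.under (𝓞 K)).asIdeal ^ m) g), χ g := by
  set q := Ideal.absNorm (w'.under (𝓞 K)).asIdeal ^ m with hqdef
  have hq : q ≠ 0 := by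
    apply pow_ne_zero
    rw [ne_eq, Ideal.absNorm_eq_zero_iff]
    exact (w'.under (𝓞 K)).ne_bot
  rw [← Finset.sum_fiberwise_of_maps_to (g := fun g : N ≃ₐ[K] N => AlgEquiv.restrictNormalHom L g)
    (t := Finset.univ.filter (fun g : L ≃ₐ[K] L => FrobPow L (w'.under (𝓞 L)) q g)), Finset.mul_sum]
  · refine Finset.sum_congr rfl ?_
    intro g hg
    rw [Finset.mem_filter] at hg
    obtain ⟨g₃, hg₃, hf₃⟩ := lift_frobPow w' m g hg.2
    have h1 : ∀ i ∈ (Finset.univ.filter (fun g : N ≃ₐ[K] N => FrobPow N w' q g)).filter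
        (fun i => AlgEquiv.restrictNormalHom L i = g), χ (AlgEquiv.restrictNormalHom L i) = χ g := by
      intro i hi
      rw [Finset.mem_filter] at hi
      rw [hi.2]
    rw [Finset.sum_congr rfl h1, Finset.sum_const, nsmul_eq_mul]
    congr 2
    symm
    have hst := smul_ideal_eq hq hf₃
    rw [frobPow_iff] at hf₃
    refine Finset.card_bij (fun k _ => g₃ * k) ?_ ?_ ?_
    · intro k hk
      rw [Finset.mem_filter] at hk
      obtain ⟨-, hk1, hk2⟩ := hk
      rw [Finset.mem_filter, Finset.mem_filter]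
      refine ⟨⟨Finset.mem_univ _, ?_⟩, by rw [map_mul, hk2, mul_one, hg₃]⟩
      rw [frobPow_iff] at hk1 ⊢
      intro x
      have e1 := hf₃ (k • x)
      have e2 : (k • x) ^ q - x ^ q ∈ w'.asIdeal := by
        rw [← Ideal.Quotient.eq, map_pow, map_pow]
        have e3 := hk1 x
        rw [pow_one, ← Ideal.Quotient.eq] at e3
        rw [e3]
      have e4 := w'.asIdeal.add_mem e1 e2
      rw [sub_add_sub_cancel] at e4
      rw [mul_smul]
      exact e4
    · intro a _ b _ hab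
      exact mul_left_cancel hab
    · intro b hb
      rw [Finset.mem_filter, Finset.mem_filter] at hb
      obtain ⟨⟨-, hb1⟩, hb2⟩ := hb
      refine ⟨g₃⁻¹ * b, ?_, by group⟩
      rw [Finset.mem_filter]
      refine ⟨Finset.mem_univ _, ?_, by rw [map_mul, map_inv, hb2, hg₃, inv_mul_cancel]⟩
      rw [frobPow_iff] at hb1 ⊢
      intro x
      have e1 := w'.asIdeal.sub_mem (hb1 x) (hf₃ x)
      rw [sub_sub_sub_cancel_right] at e1
      have e2 : g₃⁻¹ • (b • x - g₃ • x) ∈ w'.asIdeal := by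
        rw [← Ideal.mem_pointwise_smul_iff_inv_smul_mem, hst]
        exact e1
      rw [smul_sub, inv_smul_smul] at e2
      rw [pow_one, mul_smul]
      exact e2
  · intro g hg
    rw [Finset.mem_filter] at hg ⊢
    exact ⟨Finset.mem_univ _, frobPow_restrict hg.2⟩

theorem localTrace_infl (χ : (L ≃ₐ[K] L) → ℂ) (w' : HeightOneSpectrum (𝓞 N)) (m : ℕ) :
    localTrace (fun g : N ≃ₐ[K] N => χ (AlgEquiv.restrictNormalHom L g)) w'
        (Ideal.absNorm (w'.under (𝓞 K)).asIdeal ^ m) =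
      localTrace χ (w'.under (𝓞 L)) (Ideal.absNorm (w'.under (𝓞 K)).asIdeal ^ m) := by
  unfold localTrace
  have h0 := sum_frobPow (K := K) (L := L) (fun _ => 1) w' 0
  simp only [pow_zero, Finset.sum_const, nsmul_eq_mul, mul_one] at h0
  rw [sum_frobPow, h0]
  have hc : ((Finset.univ.filter (fun k : N ≃ₐ[K] N => FrobPow N w' 1 k ∧
      AlgEquiv.restrictNormalHom L k = (1 : L ≃ₐ[K] L))).card : ℂ) ≠ 0 := by
    have : (Finset.univ.filter (fun k : N ≃ₐ[K] N => FrobPow N w' 1 k ∧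
      AlgEquiv.restrictNormalHom L k = (1 : L ≃ₐ[K] L))).card ≠ 0 := by
      rw [Finset.card_ne_zero]
      refine ⟨1, ?_⟩
      rw [Finset.mem_filter]
      refine ⟨Finset.mem_univ _, ?_, map_one _⟩
      rw [frobPow_iff]
      intro x
      simp
    exact_mod_cast this
  rw [mul_div_mul_left _ _ hc]

end Tower

end StarkC.LINF

namespace StarkC

theorem LINF_thm : Stmt_LINF := by
  intro K L N _ _ _ _ _ _ _ _ _ _ _ _ χ hχ v m
  -- a prime of `N` above `v`
  have := v.isMaximal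
  obtain ⟨P, hP, hlie⟩ := Ideal.exists_maximal_ideal_liesOver_of_isIntegral (S := 𝓞 N) v.asIdeal
  have hPb : P ≠ ⊥ := by
    rintro rfl
    have h1 := hlie.over
    rw [Ideal.under_bot] at h1
    exact v.ne_bot h1
  let w' : HeightOneSpectrum (𝓞 N) := ⟨P, hP.isPrime, hPb⟩
  have hw' : w'.under (𝓞 K) = v := by
    apply HeightOneSpectrum.ext
    exact hlie.over.symm
  have hw : (w'.under (𝓞 L)).under (𝓞 K) = v := by
    rw [← hw']
    apply HeightOneSpectrum.ext
    exact Ideal.under_under w'.asIdeal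
  rw [LINF.artinCoef_eq _ ?_ v m w' hw', LINF.artinCoef_eq χ hχ v m (w'.under (𝓞 L)) hw]
  · have := LINF.localTrace_infl (K := K) (L := L) χ w' m
    rw [hw'] at this
    exact this
  · intro g h
    simp only [map_mul, map_inv]
    exact hχ _ _

end StarkC
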