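import Pool.Agent.Stark.Stmts

/-!
# Module LA: summability of the weights (helper82)
-/

open NumberField IsDedekindDomain
open scoped TensorProduct Classical

set_option linter.deprecated false

namespace StarkC

namespace LA

variable {N : Type} [Field N] [NumberField N]

/-- the residue characteristic -/
noncomputable def rp (w : HeightOneSpectrum (𝓞 N)) : ℕ := Ideal.absNorm (Ideal.under ℤ w.asIdeal)

omit [NumberField N] in
theorem rp_prime (w : HeightOneSpectrum (𝓞 N)) : (rp w).Prime := by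
  have := w.isPrime
  have : NeZero w.asIdeal := ⟨w.ne_bot⟩
  exact Nat.absNorm_under_prime w.asIdeal

omit [NumberField N] in
theorem liesOver (w : HeightOneSpectrum (𝓞 N)) :
    w.asIdeal.LiesOver (Ideal.span {((rp w : ℕ) : ℤ)}) :=
  Int.liesOver_span_absNorm w.asIdeal

theorem span_isMax {p : ℕ} (hp : p.Prime) : (Ideal.span {(p : ℤ)}).IsMaximal :=
  ((Ideal.span_singleton_prime (by exact_mod_cast hp.ne_zero)).2
    (Nat.prime_iff_prime_int.mp hp)).isMaximal (by
      simpa using hp.ne_zero)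

theorem span_ne {p : ℕ} (hp : p.Prime) : Ideal.span {(p : ℤ)} ≠ ⊥ := by
  simpa using hp.ne_zero

theorem absNorm_eq (w : HeightOneSpectrum (𝓞 N)) :
    ∃ f : ℕ, 1 ≤ f ∧ f ≤ Module.finrank ℚ N ∧ Ideal.absNorm w.asIdeal = rp w ^ f := by
  have hp := rp_prime w
  have := liesOver w
  have := w.isPrime
  have := span_isMax hp
  refine ⟨(Ideal.span {((rp w : ℕ) : ℤ)}).inertiaDeg' w.asIdeal, ?_, ?_, ?_⟩
  · exact Nat.one_le_iff_ne_zero.mpr (Ideal.inertiaDeg'_ne_zero _ _)
  · exact Ideal.inertiaDeg_le_finrank (𝓞 N) ℚ N w.asIdeal (span_ne hp)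
  · exact Ideal.absNorm_eq_pow_inertiaDeg' w.asIdeal hp

theorem rchar_eq (w : HeightOneSpectrum (𝓞 N)) : rchar N w = rp w := by
  obtain ⟨f, hf1, -, hf⟩ := absNorm_eq w
  unfold rchar
  rw [hf, Nat.Prime.pow_minFac (rp_prime w) (by omega)]

/-- the primes with residue characteristic `p` -/
theorem finite_rp (p : ℕ) : {w : HeightOneSpectrum (𝓞 N) | rp w = p}.Finite ∧
    {w : HeightOneSpectrum (𝓞 N) | rp w = p}.ncard ≤ Module.finrank ℚ N := by
  by_cases hp : p.Prime
  · have hmax := span_isMax hp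
    have hinj : Set.InjOn (fun w : HeightOneSpectrum (𝓞 N) => w.asIdeal)
        {w : HeightOneSpectrum (𝓞 N) | rp w = p} := by
      intro a _ b _ hab
      exact HeightOneSpectrum.ext hab
    have himg : (fun w : HeightOneSpectrum (𝓞 N) => w.asIdeal) ''
        {w : HeightOneSpectrum (𝓞 N) | rp w = p} ⊆
        (IsDedekindDomain.primesOverFinset (Ideal.span {(p : ℤ)}) (𝓞 N) : Set (Ideal (𝓞 N))) := by
      rintro _ ⟨w, hw, rfl⟩
      rw [Finset.mem_coe, IsDedekindDomain.mem_primesOverFinset_iff (span_ne hp)]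
      have h1 := liesOver w
      rw [Set.mem_setOf_eq] at hw
      rw [hw] at h1
      exact ⟨w.isPrime, h1⟩
    have hfin := (Finset.finite_toSet _).subset himg
    have hfin2 : {w : HeightOneSpectrum (𝓞 N) | rp w = p}.Finite := hfin.of_finite_image hinj
    refine ⟨hfin2, ?_⟩
    rw [← Set.ncard_image_of_injOn hinj]
    refine (Set.ncard_le_ncard himg (Finset.finite_toSet _)).trans ?_
    rw [Set.ncard_coe_finset]
    exact Ideal.card_primesOverFinset_le_finrank (𝓞 N) ℚ N (span_ne hp)
  · have h : {w : HeightOneSpectrum (𝓞 N) | rp w = p} = ∅ := by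
      ext w
      simp only [Set.mem_setOf_eq, Set.mem_empty_iff_false, iff_false]
      intro h
      exact hp (h ▸ rp_prime w)
    rw [h]
    simp

/-- bound of the weights -/
theorem norm_wt_le (T : Set (HeightOneSpectrum (𝓞 N))) (s : ℂ) (w : HeightOneSpectrum (𝓞 N))
    (q : ℕ) : ‖wt N T s (w, q)‖ ≤
      if rp w = q.minFac then (Module.finrank ℚ N : ℝ) * (q : ℝ) ^ (-s.re) else 0 := by
  unfold wt
  by_cases h : w ∉ T ∧ ∃ j : ℕ, q = rchar N w ^ (j + 1)
  · obtain ⟨h1, j, hj⟩ := h
    rw [if_pos ⟨h1, j, hj⟩]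
    have hp := rp_prime w
    rw [rchar_eq] at hj
    obtain ⟨f, hf1, hf2, hf⟩ := absNorm_eq w
    have hmin : rp w = q.minFac := by
      rw [hj, Nat.Prime.pow_minFac hp (by omega)]
    rw [if_pos hmin, norm_mul]
    have hq0 : 0 < q := by rw [hj]; exact pow_pos hp.pos _
    rw [Complex.norm_natCast_cpow_of_pos hq0, Complex.neg_re]
    refine mul_le_mul_of_nonneg_right ?_ (by positivity)
    have hlog : 0 < Real.log (rp w) := Real.log_pos (by exact_mod_cast hp.one_lt)
    simp only [Complex.norm_real, Real.norm_eq_abs]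
    have e1 : Real.log ((Ideal.absNorm w.asIdeal : ℕ) : ℝ) = f * Real.log (rp w) := by
      rw [hf]; push_cast; rw [Real.log_pow]
    have e2 : Real.log (q : ℝ) = (j + 1 : ℕ) * Real.log (rp w) := by
      rw [hj]; push_cast; rw [Real.log_pow]; push_cast; ring
    rw [e1, e2, mul_div_mul_right _ _ hlog.ne', abs_of_nonneg (by positivity)]
    have hj1 : (1 : ℝ) ≤ ((j + 1 : ℕ) : ℝ) := by exact_mod_cast Nat.le_add_left 1 j
    calc (f : ℝ) / ((j + 1 : ℕ) : ℝ) ≤ f := div_le_self (by positivity) hj1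
      _ ≤ (Module.finrank ℚ N : ℝ) := by exact_mod_cast hf2
  · rw [if_neg h, norm_zero]
    split_ifs
    · positivity
    · exact le_rfl

end LA

open LA in
theorem LA_thm : Stmt_LA := by
  intro N _ _ T s hs
  have hsum : Summable (fun p : ℕ × HeightOneSpectrum (𝓞 N) =>
      if rp p.2 = p.1.minFac then (Module.finrank ℚ N : ℝ) * (p.1 : ℝ) ^ (-s.re) else 0) := by
    have hnn : 0 ≤ (fun p : ℕ × HeightOneSpectrum (𝓞 N) =>
      if rp p.2 = p.1.minFac then (Module.finrank ℚ N : ℝ) * (p.1 : ℝ) ^ (-s.re) else 0) := by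
      intro p
      simp only [Pi.zero_apply]
      split_ifs
      · positivity
      · exact le_rfl
    rw [summable_prod_of_nonneg hnn]
    have hrow : ∀ q : ℕ, HasSum (fun w : HeightOneSpectrum (𝓞 N) =>
        if rp w = q.minFac then (Module.finrank ℚ N : ℝ) * (q : ℝ) ^ (-s.re) else 0)
        ((finite_rp (N := N) q.minFac).1.toFinset.card *
          ((Module.finrank ℚ N : ℝ) * (q : ℝ) ^ (-s.re))) := by
      intro q
      have h1 : HasSum (fun w : HeightOneSpectrum (𝓞 N) =>
          if rp w = q.minFac then (Module.finrank ℚ N : ℝ) * (q : ℝ) ^ (-s.re) else 0)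
          (∑ w ∈ (finite_rp (N := N) q.minFac).1.toFinset,
          (if rp w = q.minFac then (Module.finrank ℚ N : ℝ) * (q : ℝ) ^ (-s.re) else 0)) := by
        apply hasSum_sum_of_ne_finset_zero
        intro w hw
        rw [if_neg]
        intro h
        exact hw ((Set.Finite.mem_toFinset _).mpr h)
      have h2 : ∑ w ∈ (finite_rp (N := N) q.minFac).1.toFinset,
          (if rp w = q.minFac then (Module.finrank ℚ N : ℝ) * (q : ℝ) ^ (-s.re) else 0) =
          (finite_rp (N := N) q.minFac).1.toFinset.card *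
          ((Module.finrank ℚ N : ℝ) * (q : ℝ) ^ (-s.re)) := by
        rw [Finset.sum_congr rfl (g := fun _ => (Module.finrank ℚ N : ℝ) * (q : ℝ) ^ (-s.re))]
        · rw [Finset.sum_const, nsmul_eq_mul]
        · intro w hw
          rw [Set.Finite.mem_toFinset] at hw
          have hw' : rp w = q.minFac := hw
          rw [if_pos hw']
      rw [h2] at h1
      exact h1
    refine ⟨fun q => (hrow q).summable, ?_⟩
    have hz : Summable (fun q : ℕ => (Module.finrank ℚ N : ℝ) *
        ((Module.finrank ℚ N : ℝ) * (q : ℝ) ^ (-s.re))) :=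
      ((Real.summable_nat_rpow.mpr (by linarith)).mul_left _).mul_left _
    refine Summable.of_nonneg_of_le (fun q => tsum_nonneg fun w => hnn (q, w)) (fun q => ?_) hz
    rw [(hrow q).tsum_eq]
    refine mul_le_mul_of_nonneg_right ?_ (by positivity)
    have := (finite_rp (N := N) q.minFac).2
    rw [Set.ncard_eq_toFinset_card _ (finite_rp (N := N) q.minFac).1] at this
    exact_mod_cast this
  have hsum2 := ((Equiv.prodComm (HeightOneSpectrum (𝓞 N)) ℕ).summable_iff).mpr hsum
  refine Summable.of_nonneg_of_le (fun p => norm_nonneg _) (fun p => ?_) hsum2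
  exact norm_wt_le T s p.1 p.2

end StarkC
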