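import Pool.Agent.Stark.Stmts

/-!
# Module LB: the Artin `log L`-series as a sum over pairs `(w, q)` (helper14)
-/

open NumberField IsDedekindDomain
open scoped TensorProduct Classical

namespace StarkC

namespace LB

section

variable {K N : Type} [Field K] [NumberField K] [Field N] [NumberField N] [Algebra K N]

omit [NumberField K] [NumberField N] in
theorem frobPow_one_iff (w : HeightOneSpectrum (𝓞 N)) (g : N ≃ₐ[K] N) :
    FrobPow N w 1 g ↔ g ∈ w.asIdeal.inertia (N ≃ₐ[K] N) := by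
  constructor
  · intro h x
    have h1 := h x (g • x) rfl
    rwa [pow_one] at h1
  · intro h x y hy
    have h1 : y = g • x := RingOfIntegers.ext hy
    rw [h1, pow_one]
    exact h x

theorem one_lt_absNorm (v : HeightOneSpectrum (𝓞 K)) : 1 < Ideal.absNorm v.asIdeal := by
  have h1 : Ideal.absNorm v.asIdeal ≠ 0 := Ideal.absNorm_ne_zero_iff_mem_nonZeroDivisors.2
    (mem_nonZeroDivisors_of_ne_zero v.ne_bot)
  have h2 : Ideal.absNorm v.asIdeal ≠ 1 := by
    rw [Ne, Ideal.absNorm_eq_one_iff]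
    exact v.isPrime.ne_top
  omega

theorem absNorm_under (w : HeightOneSpectrum (𝓞 N)) :
    Ideal.absNorm (w.under (𝓞 K)).asIdeal ^ w.asIdeal.inertiaDeg (𝓞 K) =
      Ideal.absNorm w.asIdeal := by
  have : w.asIdeal.LiesOver (w.under (𝓞 K)).asIdeal := ⟨rfl⟩
  have := w.isPrime
  exact Ideal.absNorm_pow_inertiaDeg _ _

theorem card_quot (v : HeightOneSpectrum (𝓞 K)) :
    Nat.card (𝓞 K ⧸ v.asIdeal) = Ideal.absNorm v.asIdeal := rfl

/-- the norm of `v` is a power of the residue characteristic of a prime above it -/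
theorem absNorm_eq_pow (w : HeightOneSpectrum (𝓞 N)) :
    ∃ n : ℕ, (rchar N w).Prime ∧ Ideal.absNorm (w.under (𝓞 K)).asIdeal = rchar N w ^ (n + 1) := by
  set v := w.under (𝓞 K) with hv
  have hf := absNorm_under (K := K) w
  have hmax : v.asIdeal.IsMaximal := v.isPrime.isMaximal v.ne_bot
  let _ : Field (𝓞 K ⧸ v.asIdeal) := Ideal.Quotient.field v.asIdeal
  have hfin : Finite (𝓞 K ⧸ v.asIdeal) := Ideal.finiteQuotientOfFreeOfNeBot v.asIdeal v.ne_bot
  have : Fintype (𝓞 K ⧸ v.asIdeal) := Fintype.ofFinite _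
  obtain ⟨n, hp, hn⟩ := FiniteField.card (𝓞 K ⧸ v.asIdeal) (ringChar (𝓞 K ⧸ v.asIdeal))
  rw [← Nat.card_eq_fintype_card, card_quot] at hn
  have hn0 : (n : ℕ) ≠ 0 := n.ne_zero
  have hi : w.asIdeal.inertiaDeg (𝓞 K) ≠ 0 := by
    intro h
    rw [h, pow_zero] at hf
    exact absurd hf (one_lt_absNorm w).ne
  have hr : rchar N w = ringChar (𝓞 K ⧸ v.asIdeal) := by
    rw [rchar, ← hf, hn, ← pow_mul]
    exact hp.pow_minFac (mul_ne_zero hn0 hi)
  refine ⟨(n : ℕ) - 1, ?_, ?_⟩
  · rw [hr]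
    exact hp
  · rw [hr, hn]
    congr 1
    omega

theorem dvd_of_pow_sub_one_dvd {p a b : ℕ} (hp : 1 < p) (h : p ^ a - 1 ∣ p ^ b - 1) :
    a ∣ b := by
  have h1 := Nat.pow_sub_one_gcd_pow_sub_one p a b
  rw [Nat.gcd_eq_left h] at h1
  have h2 : p ^ a = p ^ Nat.gcd a b := by
    have h3 : 1 ≤ p ^ a := Nat.one_le_pow _ _ (by omega)
    have h4 : 1 ≤ p ^ Nat.gcd a b := Nat.one_le_pow _ _ (by omega)
    omega
  have h3 := Nat.pow_right_injective hp h2
  rw [h3]
  exact Nat.gcd_dvd_right a b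

/-- an exponent of a Frobenius power is a power of the norm of the prime below -/
theorem exists_pow (w : HeightOneSpectrum (𝓞 N)) (q : ℕ) (g : N ≃ₐ[K] N)
    (hg : FrobPow N w q g) (j : ℕ) (hq : q = rchar N w ^ (j + 1)) :
    ∃ m : ℕ, q = Ideal.absNorm (w.under (𝓞 K)).asIdeal ^ (m + 1) := by
  obtain ⟨n, hp, hn⟩ := absNorm_eq_pow (K := K) w
  set v := w.under (𝓞 K) with hv
  have hmax : v.asIdeal.IsMaximal := v.isPrime.isMaximal v.ne_bot
  let _ : Field (𝓞 K ⧸ v.asIdeal) := Ideal.Quotient.field v.asIdeal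
  have hfin : Finite (𝓞 K ⧸ v.asIdeal) := Ideal.finiteQuotientOfFreeOfNeBot v.asIdeal v.ne_bot
  have : Fintype (𝓞 K ⧸ v.asIdeal) := Fintype.ofFinite _
  have hq1 : 1 ≤ q := by
    rw [hq]
    exact Nat.one_le_pow _ _ hp.pos
  have hpow : ∀ x : 𝓞 K ⧸ v.asIdeal, x ^ q = x := by
    intro x
    obtain ⟨x, rfl⟩ := Ideal.Quotient.mk_surjective x
    have h1 : ((algebraMap (𝓞 K) (𝓞 N) x : 𝓞 N) : N) =
        g ((algebraMap (𝓞 K) (𝓞 N) x : 𝓞 N) : N) := by
      have h2 : ((algebraMap (𝓞 K) (𝓞 N) x : 𝓞 N) : N) = algebraMap K N (x : K) := rfl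
      rw [h2, AlgEquiv.commutes]
    have h3 := hg (algebraMap (𝓞 K) (𝓞 N) x) (algebraMap (𝓞 K) (𝓞 N) x) h1
    have h4 : x - x ^ q ∈ v.asIdeal := by
      rw [hv]
      show algebraMap (𝓞 K) (𝓞 N) (x - x ^ q) ∈ w.asIdeal
      rw [map_sub, map_pow]
      exact h3
    rw [← map_pow, eq_comm]
    exact (Ideal.Quotient.eq).2 h4
  have hexp : Monoid.exponent (𝓞 K ⧸ v.asIdeal)ˣ ∣ q - 1 := by
    refine Monoid.exponent_dvd_of_forall_pow_eq_one ?_
    intro u
    have h1 := hpow (u : 𝓞 K ⧸ v.asIdeal)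
    have h2 : (u : 𝓞 K ⧸ v.asIdeal) ^ (q - 1) * u = 1 * u := by
      rw [← pow_succ, Nat.sub_add_cancel hq1, h1, one_mul]
    have h3 := mul_right_cancel₀ (Units.ne_zero u) h2
    exact Units.ext (by rw [Units.val_pow_eq_pow_val, h3, Units.val_one])
  rw [IsCyclic.exponent_eq_card, Nat.card_units, card_quot, hn, hq] at hexp
  obtain ⟨c, hc⟩ := dvd_of_pow_sub_one_dvd hp.one_lt hexp
  have hc0 : c ≠ 0 := by
    rintro rfl
    omega
  refine ⟨c - 1, ?_⟩
  rw [hq, hn, hc, pow_mul, Nat.sub_add_cancel (by omega)]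

/-! ### local counting -/

omit [NumberField K] [NumberField N] in
/-- the primes of `N` above `v` are the primes over the ideal `v` -/
theorem ncard_above (v : HeightOneSpectrum (𝓞 K)) :
    (above K N v).ncard = (v.asIdeal.primesOver (𝓞 N)).ncard := by
  have h : (HeightOneSpectrum.asIdeal '' (above K N v)) = v.asIdeal.primesOver (𝓞 N) := by
    ext P
    constructor
    · rintro ⟨w, hw, rfl⟩
      refine ⟨w.isPrime, ⟨?_⟩⟩
      have : w.under (𝓞 K) = v := hw
      rw [← this]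
      rfl
    · rintro ⟨h1, h2⟩
      refine ⟨⟨P, h1, Ideal.ne_bot_of_mem_primesOver v.ne_bot ⟨h1, h2⟩⟩, ?_, rfl⟩
      show HeightOneSpectrum.under (𝓞 K) _ = v
      apply HeightOneSpectrum.ext
      exact h2.over.symm
  rw [← h, Set.ncard_image_of_injective]
  intro a b hab
  exact HeightOneSpectrum.ext hab

theorem finite_above (v : HeightOneSpectrum (𝓞 K)) : (above K N v).Finite := by
  have h : (above K N v).ncard ≠ 0 := by
    rw [ncard_above]
    exact IsDedekindDomain.primesOver_ncard_ne_zero v.asIdeal (𝓞 N)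
  exact Set.finite_of_ncard_ne_zero h

theorem ncard_above_ne (v : HeightOneSpectrum (𝓞 K)) : (above K N v).ncard ≠ 0 := by
  rw [ncard_above]
  exact IsDedekindDomain.primesOver_ncard_ne_zero v.asIdeal (𝓞 N)

theorem local_count [IsGalois K N] (v : HeightOneSpectrum (𝓞 K)) (w : HeightOneSpectrum (𝓞 N))
    (hw : w ∈ above K N v) :
    (above K N v).ncard * (Finset.univ.filter (fun g : N ≃ₐ[K] N => FrobPow N w 1 g)).card *
      w.asIdeal.inertiaDeg (𝓞 K) = Nat.card (N ≃ₐ[K] N) := by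
  have hv : w.under (𝓞 K) = v := hw
  have hl : w.asIdeal.LiesOver v.asIdeal := by
    rw [← hv]
    exact ⟨rfl⟩
  have h1 := v.isPrime
  have h2 := w.isPrime
  have hmax : v.asIdeal.IsMaximal := v.isPrime.isMaximal v.ne_bot
  have hfin : Finite (𝓞 K ⧸ v.asIdeal) := Ideal.finiteQuotientOfFreeOfNeBot v.asIdeal v.ne_bot
  have h3 := Ideal.ncard_primesOver_mul_card_inertia_mul_finrank (G := N ≃ₐ[K] N) v.asIdeal
    w.asIdeal
  rw [← h3, ncard_above]
  congr 2
  rw [Nat.card_eq_fintype_card]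
  refine (Fintype.card_of_subtype _ fun g => ?_).symm
  rw [Finset.mem_filter, frobPow_one_iff]
  simp

/-- the sum over the Frobenius powers -/
noncomputable def gs (χ : (N ≃ₐ[K] N) → ℂ) (w : HeightOneSpectrum (𝓞 N)) (q : ℕ) : ℂ :=
  ∑ g ∈ Finset.univ.filter (fun g : N ≃ₐ[K] N => FrobPow N w q g), χ g

/-- the term of `logL` at `(v, m)` in terms of the primes above `v` -/
theorem term_eq [IsGalois K N] (χ : (N ≃ₐ[K] N) → ℂ) (S : Set (HeightOneSpectrum (𝓞 K))) (s : ℂ)
    (v : HeightOneSpectrum (𝓞 K)) (m : ℕ) :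
    (if v ∈ S then 0 else artinCoef χ v (m + 1) /
      (((m + 1 : ℕ) : ℂ) * (Ideal.absNorm v.asIdeal : ℂ) ^ (((m + 1 : ℕ) : ℂ) * s))) =
    (∑ᶠ w ∈ above K N v, wt N (aboveSet K N S) s (w, Ideal.absNorm v.asIdeal ^ (m + 1)) *
      gs χ w (Ideal.absNorm v.asIdeal ^ (m + 1))) / (Nat.card (N ≃ₐ[K] N) : ℂ) := by
  have hG : (Nat.card (N ≃ₐ[K] N) : ℂ) ≠ 0 := by
    exact_mod_cast Nat.card_pos.ne'
  have hfin := finite_above (N := N) v
  split_ifs with hS
  · rw [finsum_mem_eq_zero_of_forall_eq_zero, zero_div]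
    intro w hw
    have h : w ∈ aboveSet K N S := by
      show w.under (𝓞 K) ∈ S
      have : w.under (𝓞 K) = v := hw
      rwa [this]
    rw [wt, if_neg (by simp [h]), zero_mul]
  · rw [artinCoef, div_div, div_eq_div_iff, finsum_mem_eq_finite_toFinset_sum _ hfin,
      finsum_mem_eq_finite_toFinset_sum _ hfin, Finset.sum_mul, Finset.sum_mul]
    · refine Finset.sum_congr rfl fun w hw => ?_
      have hw' : w ∈ above K N v := hfin.mem_toFinset.1 hw
      have hv : w.under (𝓞 K) = v := hw'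
      have hT : w ∉ aboveSet K N S := by
        intro h
        have h1 : w.under (𝓞 K) ∈ S := h
        rw [hv] at h1
        exact hS h1
      obtain ⟨n, hp, hn⟩ := absNorm_eq_pow (K := K) w
      rw [hv] at hn
      have hf := absNorm_under (K := K) w
      rw [hv] at hf
      have hc := local_count v w hw'
      have hj : ∃ j : ℕ, Ideal.absNorm v.asIdeal ^ (m + 1) = rchar N w ^ (j + 1) := by
        refine ⟨(n + 1) * (m + 1) - 1, ?_⟩
        have h0 : 0 < (n + 1) * (m + 1) := by positivity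
        rw [hn, ← pow_mul, Nat.sub_add_cancel h0]
      have h1 := one_lt_absNorm v
      have hwt : wt N (aboveSet K N S) s (w, Ideal.absNorm v.asIdeal ^ (m + 1)) =
          ((w.asIdeal.inertiaDeg (𝓞 K) : ℕ) : ℂ) / ((m + 1 : ℕ) : ℂ) *
            ((Ideal.absNorm v.asIdeal : ℂ) ^ (((m + 1 : ℕ) : ℂ) * s))⁻¹ := by
        have hlog : Real.log (Ideal.absNorm v.asIdeal : ℝ) ≠ 0 :=
          (Real.log_pos (by exact_mod_cast h1)).ne'
        rw [wt, if_pos ⟨hT, hj⟩]
        simp only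
        have h3 : Real.log (Ideal.absNorm w.asIdeal : ℝ) /
            Real.log ((Ideal.absNorm v.asIdeal ^ (m + 1) : ℕ) : ℝ) =
            (w.asIdeal.inertiaDeg (𝓞 K) : ℝ) / ((m + 1 : ℕ) : ℝ) := by
          rw [← hf, Nat.cast_pow, Nat.cast_pow, Real.log_pow, Real.log_pow]
          have h4 : ((m + 1 : ℕ) : ℝ) ≠ 0 := by exact_mod_cast Nat.succ_ne_zero m
          field_simp
        rw [h3, Complex.cpow_neg, Complex.natCast_cpow_natCast_mul]
        push_cast
        rfl
      rw [hwt, localTrace]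
      have h2 : ((above K N v).ncard : ℂ) ≠ 0 := by exact_mod_cast ncard_above_ne v
      have h3 : ((Finset.univ.filter (fun g : N ≃ₐ[K] N => FrobPow N w 1 g)).card : ℂ) ≠ 0 := by
        have : (Finset.univ.filter (fun g : N ≃ₐ[K] N => FrobPow N w 1 g)).card ≠ 0 := by
          intro h0
          rw [h0, mul_zero, zero_mul] at hc
          exact Nat.card_pos.ne hc
        exact_mod_cast this
      have h4 : ((m + 1 : ℕ) : ℂ) ≠ 0 := by exact_mod_cast Nat.succ_ne_zero m
      have h5 : (Ideal.absNorm v.asIdeal : ℂ) ^ (((m + 1 : ℕ) : ℂ) * s) ≠ 0 := by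
        rw [Ne, Complex.cpow_eq_zero_iff]
        intro h
        have : Ideal.absNorm v.asIdeal = 0 := by exact_mod_cast h.1
        omega
      rw [← hc]
      push_cast
      rw [gs]
      push_cast at h4 h5
      field_simp
    · have h1 := one_lt_absNorm v
      have h2 : ((above K N v).ncard : ℂ) ≠ 0 := by exact_mod_cast ncard_above_ne v
      have h4 : ((m + 1 : ℕ) : ℂ) ≠ 0 := by exact_mod_cast Nat.succ_ne_zero m
      have h5 : (Ideal.absNorm v.asIdeal : ℂ) ^ (((m + 1 : ℕ) : ℂ) * s) ≠ 0 := by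
        rw [Ne, Complex.cpow_eq_zero_iff]
        intro h
        have : Ideal.absNorm v.asIdeal = 0 := by exact_mod_cast h.1
        omega
      exact mul_ne_zero h2 (mul_ne_zero h4 h5)
    · exact hG

/-! ### the sum over all primes -/

/-- `(w, m) ↦ (w, N(v)^(m+1))`, `v` the prime below `w` -/
noncomputable def io (K : Type) {N : Type} [Field K] [NumberField K] [Field N] [NumberField N]
    [Algebra K N] (p : HeightOneSpectrum (𝓞 N) × ℕ) : HeightOneSpectrum (𝓞 N) × ℕ :=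
  (p.1, Ideal.absNorm (p.1.under (𝓞 K)).asIdeal ^ (p.2 + 1))

theorem io_injective : Function.Injective (io K (N := N)) := by
  rintro ⟨w, m⟩ ⟨w', m'⟩ h
  simp only [io, Prod.mk.injEq] at h
  obtain ⟨rfl, h⟩ := h
  have := Nat.pow_right_injective (one_lt_absNorm (w.under (𝓞 K))) h
  simp only [Prod.mk.injEq, true_and]
  omega

/-- `(w, m) ↦ (v, m)` -/
noncomputable def pr (K : Type) {N : Type} [Field K] [NumberField K] [Field N] [NumberField N]
    [Algebra K N] (p : HeightOneSpectrum (𝓞 N) × ℕ) : HeightOneSpectrum (𝓞 K) × ℕ :=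
  (p.1.under (𝓞 K), p.2)

/-- the fibres of `pr` -/
noncomputable def fib (v : HeightOneSpectrum (𝓞 K)) (m : ℕ) :
    (above K N v) ≃ {p : HeightOneSpectrum (𝓞 N) × ℕ // pr K p = (v, m)} where
  toFun w := ⟨(w.1, m), by
    have : w.1.under (𝓞 K) = v := w.2
    simp only [pr, this]⟩
  invFun p := ⟨p.1.1, by
    have := p.2
    simp only [pr, Prod.mk.injEq] at this
    exact this.1⟩
  left_inv w := rfl
  right_inv p := by
    obtain ⟨⟨w, k⟩, hp⟩ := p
    simp only [pr, Prod.mk.injEq] at hp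
    obtain ⟨h1, rfl⟩ := hp
    rfl

theorem norm_gs_le (χ : (N ≃ₐ[K] N) → ℂ) (w : HeightOneSpectrum (𝓞 N)) (q : ℕ) :
    ‖gs χ w q‖ ≤ ∑ g, ‖χ g‖ := by
  rw [gs]
  refine (norm_sum_le _ _).trans ?_
  exact Finset.sum_le_sum_of_subset_of_nonneg (Finset.filter_subset _ _)
    fun _ _ _ => norm_nonneg _

omit [NumberField K] [NumberField N] [Field K] [Field N] [Algebra K N] in
theorem tsum_fiber {X Y : Type} (π : X → Y) {H : X → ℂ} (h : Summable H) :
    ∑' x, H x = ∑' y, ∑' x : {x // π x = y}, H x.1 := by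
  rw [← (Equiv.sigmaFiberEquiv π).tsum_eq H]
  have h3 : Summable fun c : (y : Y) × {x : X // π x = y} => H c.2.1 :=
    (Equiv.sigmaFiberEquiv π).summable_iff.2 h
  exact h3.tsum_sigma

theorem core (hLA : Stmt_LA) [IsGalois K N] (χ : (N ≃ₐ[K] N) → ℂ)
    (S : Set (HeightOneSpectrum (𝓞 K))) (s : ℂ) (hs : 1 < s.re) :
    logL χ S s = coreSum χ (aboveSet K N S) s := by
  set F : HeightOneSpectrum (𝓞 N) × ℕ → ℂ := fun p => wt N (aboveSet K N S) s p * gs χ p.1 p.2
    with hF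
  have hsum : Summable F := by
    have h1 := (hLA N (aboveSet K N S) s hs).mul_right (∑ g, ‖χ g‖)
    refine Summable.of_norm_bounded h1 fun p => ?_
    rw [hF]
    simp only [norm_mul]
    exact mul_le_mul_of_nonneg_left (norm_gs_le χ _ _) (norm_nonneg _)
  have hcore : coreSum χ (aboveSet K N S) s = (∑' p, F p) / (Nat.card (N ≃ₐ[K] N) : ℂ) := rfl
  have hsupp : Function.support F ⊆ Set.range (io K (N := N)) := by
    rintro ⟨w, q⟩ hp
    rw [Function.mem_support, hF] at hp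
    simp only at hp
    have h1 : wt N (aboveSet K N S) s (w, q) ≠ 0 := left_ne_zero_of_mul hp
    have h2 : gs χ w q ≠ 0 := right_ne_zero_of_mul hp
    have h3 : w ∉ aboveSet K N S ∧ ∃ j : ℕ, q = rchar N w ^ (j + 1) := by
      by_contra h
      apply h1
      rw [wt, if_neg h]
    obtain ⟨-, j, hj⟩ := h3
    obtain ⟨g, hg, -⟩ := Finset.exists_ne_zero_of_sum_ne_zero h2
    rw [Finset.mem_filter] at hg
    obtain ⟨m, hm⟩ := exists_pow w q g hg.2 j hj
    exact ⟨(w, m), by simp only [io, hm]⟩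
  have h1 : ∑' p, F p = ∑' p, F (io K p) := (io_injective.tsum_eq hsupp).symm
  have hsum2 : Summable fun p => F (io K p) := hsum.comp_injective io_injective
  have h2 : ∑' p, F (io K p) = ∑' y : HeightOneSpectrum (𝓞 K) × ℕ,
      ∑' x : {p : HeightOneSpectrum (𝓞 N) × ℕ // pr K p = y}, F (io K x.1) := by
    exact tsum_fiber (pr K) hsum2
  rw [hcore, h1, h2, logL, ← tsum_div_const]
  refine tsum_congr ?_
  rintro ⟨v, m⟩
  simp only
  rw [term_eq χ S s v m]
  congr 1
  have hfin := finite_above (N := N) v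
  rw [← (fib v m).tsum_eq]
  have h4 : ∀ w : above K N v, F (io K ((fib v m) w).1) =
      (fun w => wt N (aboveSet K N S) s (w, Ideal.absNorm v.asIdeal ^ (m + 1)) *
        gs χ w (Ideal.absNorm v.asIdeal ^ (m + 1))) w.1 := by
    intro w
    have h5 : w.1.under (𝓞 K) = v := w.2
    show F (w.1, Ideal.absNorm (w.1.under (𝓞 K)).asIdeal ^ (m + 1)) = _
    rw [h5]
  simp only [h4]
  have : Fintype (above K N v) := hfin.fintype
  rw [tsum_fintype, finsum_mem_eq_finite_toFinset_sum _ hfin]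
  exact Finset.sum_subtype hfin.toFinset (fun x => hfin.mem_toFinset) _

end

end LB

/-- **Module LB.** -/
theorem LB_thm (hLA : Stmt_LA) : Stmt_LB := by
  intro K N _ _ _ _ _ _ χ S s hs
  exact LB.core hLA χ S s hs

end StarkC
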