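import Pool.Agent.Stark.Stmts

set_option autoImplicit false

/-! # Existence of Θ (module ST_THE, helper33) -/

open NumberField IsDedekindDomain
open scoped TensorProduct Classical

namespace StarkC

namespace THE

lemma smul_eq {L : Type} (q : ℚ) (v : (L → ℝ) →₀ ℂ) : q • v = (q : ℂ) • v := by
  ext a
  simp [Algebra.smul_def]

variable {L : Type} [Field L] [NumberField L]

/-- constructor of elements of `ℂ ⊗ X` -/
noncomputable def mk {T : Set (HeightOneSpectrum (𝓞 L))} (x : (L → ℝ) →₀ ℂ)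
    (hx : x ∈ XCsub L T) : XC L T := (⟨x, hx⟩ : XCsub L T)

lemma mk_val {T : Set (HeightOneSpectrum (𝓞 L))} (x : (L → ℝ) →₀ ℂ) (hx : x ∈ XCsub L T) :
    (mk x hx).val = x := rfl

/-- the logarithm map sends `ℚ ⊗ U` into `ℂ ⊗ X` -/
lemma lam_mem (hU : Stmt_UNIT) {T : Set (HeightOneSpectrum (𝓞 L))} (hT : T.Finite) (u : QU L T) :
    lam L T (u : ℚ ⊗[ℤ] Additive Lˣ) ∈ XCsub L T := by
  obtain ⟨n, b, c, hbc⟩ := hU L T hT
  have h1 : (u : ℚ ⊗[ℤ] Additive Lˣ) = ∑ i, b.repr u i • ((b i : QU L T) : ℚ ⊗[ℤ] Additive Lˣ) := by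
    have h2 := congrArg Subtype.val (b.sum_repr u).symm
    rw [Submodule.coe_sum] at h2
    exact h2
  rw [h1, map_sum]
  refine Submodule.sum_mem _ fun i _ => ?_
  rw [map_smul, smul_eq, ← hbc i]
  exact Submodule.smul_mem _ _ (c i).2

end THE

open THE in
theorem THE_thm (hX : StarkC.Stmt_XRAT) (hU : StarkC.Stmt_UNIT) : StarkC.Stmt_THE := by
  intro K L _ _ _ _ _ T φ hT hφ
  obtain ⟨n, b, c, hbc⟩ := hX L T hT
  set Θ : XC L T →ₗ[ℂ] XC L T :=
    c.constr ℂ fun i => mk (lam L T (φ (b i))) (lam_mem hU hT (φ (b i))) with hΘ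
  have hΘc : ∀ i, (Θ (c i)).val = lam L T (φ (b i)) := by
    intro i
    rw [hΘ, Module.Basis.constr_basis, mk_val]
  refine ⟨Θ, hφ, fun x z hz => ?_⟩
  have hinj : Function.Injective (XC.val : XC L T →ₗ[ℂ] ((L → ℝ) →₀ ℂ)) :=
    Subtype.val_injective
  have hx : x = ∑ i, b.repr x i • b i := (b.sum_repr x).symm
  have hz1 : z = ∑ i, ((b.repr x i : ℚ) : ℂ) • c i := by
    apply hinj
    ext a
    rw [hz a, map_sum, Finsupp.finsetSum_apply]
    have h1 : ((x : XQ L T) : (L → ℝ) →₀ ℚ) a = ∑ i, b.repr x i * ((b i : XQ L T) : (L → ℝ) →₀ ℚ) a := by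
      conv_lhs => rw [hx]
      rw [Submodule.coe_sum, Finsupp.finsetSum_apply]
      rfl
    rw [h1, Rat.cast_sum]
    refine Finset.sum_congr rfl fun i _ => ?_
    rw [map_smul, Finsupp.smul_apply, hbc i a, smul_eq_mul]
    push_cast
    rfl
  have h2 : lam L T (φ x) = ∑ i, ((b.repr x i : ℚ) : ℂ) • lam L T (φ (b i)) := by
    conv_lhs => rw [hx]
    rw [map_sum, Submodule.coe_sum, map_sum]
    refine Finset.sum_congr rfl fun i _ => ?_
    rw [map_smul, Submodule.coe_smul, map_smul, smul_eq]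
  rw [h2, hz1, map_sum, map_sum]
  refine Finset.sum_congr rfl fun i _ => ?_
  rw [map_smul, map_smul, hΘc]

end StarkC
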