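import Pool.Agent.Stark.PBridge

/-!
# Bridge between the two forms of the definitions: export lemmas
-/

open NumberField IsDedekindDomain
open scoped TensorProduct Classical

namespace StarkB

variable {K L : Type} [Field K] [NumberField K] [Field L] [NumberField L] [Algebra K L]

/-- (a) every pair `φ`, `Θ` gives an ambient map with the same regulators -/
theorem exists_isTheta (S : Set (HeightOneSpectrum (𝓞 K))) (hS : S.Finite)
    (φ : StarkC.XQ L (StarkC.aboveSet K L S) ≃ₗ[ℚ] StarkC.QU L (StarkC.aboveSet K L S))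
    (Θ : StarkC.XC L (StarkC.aboveSet K L S) →ₗ[ℂ] StarkC.XC L (StarkC.aboveSet K L S))
    (hφ : StarkC.IsPhiTheta K (StarkC.aboveSet K L S) φ Θ) :
    ∃ Θ' : ((L → ℝ) →₀ ℂ) →ₗ[ℂ] ((L → ℝ) →₀ ℂ), StarkP.IsTheta K (StarkC.aboveSet K L S) Θ' ∧
      ∀ (V : Type) [AddCommGroup V] [Module ℂ V] (ρ : Representation ℂ (L ≃ₐ[K] L) V),
        StarkP.Reg (StarkC.aboveSet K L S) ρ Θ' = StarkC.Reg (StarkC.aboveSet K L S) ρ Θ := by
  obtain ⟨Θ', hΘ'⟩ := LinearMap.exists_extend (p := StarkC.XCsub L (StarkC.aboveSet K L S))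
    (StarkC.XC.val ∘ₗ Θ : StarkC.XCsub L (StarkC.aboveSet K L S) →ₗ[ℂ] ((L → ℝ) →₀ ℂ))
  have h1 : ∀ x : StarkC.XC L (StarkC.aboveSet K L S), Θ' x.val = (Θ x).val :=
    fun x => LinearMap.congr_fun hΘ' x
  exact ⟨Θ', isTheta_of (StarkC.STB_thm K L S) (StarkC.IND.aboveSet_finite S hS) φ Θ hφ Θ' h1,
    fun V _ _ ρ => Reg_eq ρ Θ Θ' h1⟩

/-- (b) every ambient map gives a pair `φ`, `Θ` with the same regulators -/
theorem exists_isPhiTheta (S : Set (HeightOneSpectrum (𝓞 K))) (hS : S.Finite)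
    (Θ' : ((L → ℝ) →₀ ℂ) →ₗ[ℂ] ((L → ℝ) →₀ ℂ))
    (hΘ' : StarkP.IsTheta K (StarkC.aboveSet K L S) Θ') :
    ∃ (φ : StarkC.XQ L (StarkC.aboveSet K L S) ≃ₗ[ℚ] StarkC.QU L (StarkC.aboveSet K L S))
      (Θ : StarkC.XC L (StarkC.aboveSet K L S) →ₗ[ℂ] StarkC.XC L (StarkC.aboveSet K L S)),
      StarkC.IsPhiTheta K (StarkC.aboveSet K L S) φ Θ ∧
      ∀ (V : Type) [AddCommGroup V] [Module ℂ V] (ρ : Representation ℂ (L ≃ₐ[K] L) V),
        StarkP.Reg (StarkC.aboveSet K L S) ρ Θ' = StarkC.Reg (StarkC.aboveSet K L S) ρ Θ := by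
  obtain ⟨φ, Θ, hφ, h1⟩ := exists_phiTheta (StarkC.STB_thm K L S)
    (StarkC.IND.aboveSet_finite S hS) (actU_mem' S) Θ' hΘ'
  exact ⟨φ, Θ, hφ, fun V _ _ ρ => Reg_eq ρ Θ Θ' h1⟩

end StarkB
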