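import Pool.Agent.Stark.Stmts

/-!
# Reduction of Stark's conjecture: the algebraic part (module CMB)
-/

open NumberField IsDedekindDomain
open scoped TensorProduct Classical

namespace StarkC
namespace CMB

section grp

variable {G : Type} [Group G] [Fintype G]

theorem indFun_congr (H : Subgroup G) {f f' : G → ℂ} (h : ∀ g ∈ H, f g = f' g) :
    indFun H f = indFun H f' := by
  funext g
  unfold indFun
  congr 1
  refine Finset.sum_congr rfl fun x _ => ?_
  split_ifs with hx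
  · exact h _ hx
  · rfl

theorem indFun_sub (H : Subgroup G) (f f' : G → ℂ) (g : G) :
    indFun H (fun x => f x - f' x) g = indFun H f g - indFun H f' g := by
  unfold indFun
  rw [← sub_div, ← Finset.sum_sub_distrib]
  congr 1
  refine Finset.sum_congr rfl fun x _ => ?_
  split_ifs <;> simp

theorem indFun_zero (H : Subgroup G) {f : G → ℂ} (h : ∀ g ∈ H, f g = 0) (g : G) :
    indFun H f g = 0 := by
  unfold indFun
  rw [Finset.sum_eq_zero, zero_div]
  intro x _
  split_ifs with hx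
  · exact h _ hx
  · rfl

theorem indFun_sum (H : Subgroup G) {m : ℕ} (n : Fin m → ℤ) (f : Fin m → G → ℂ) (g : G) :
    indFun H (fun x => ∑ i, (n i : ℂ) * f i x) g = ∑ i, (n i : ℂ) * indFun H (f i) g := by
  unfold indFun
  simp only [mul_div_assoc']
  rw [← Finset.sum_div]
  congr 1
  simp only [Finset.mul_sum]
  rw [Finset.sum_comm]
  refine Finset.sum_congr rfl fun x _ => ?_
  split_ifs with hx
  · rfl
  · simp

/-- Transitivity of induction. -/
theorem indFun_trans (H : Subgroup G) (J : Subgroup H) (f F : G → ℂ)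
    (hF : ∀ h : H, F h = indFun J (fun y : H => f y) h) (g : G) :
    indFun H F g = indFun (J.map H.subtype) f g := by
  have hH : (Nat.card H : ℂ) ≠ 0 := by
    exact_mod_cast Nat.card_pos.ne'
  have hcard : Nat.card (J.map H.subtype) = Nat.card J :=
    Nat.card_congr (J.equivMapOfInjective H.subtype H.subtype_injective).toEquiv.symm
  set f1 : G → ℂ := fun z => if z ∈ J.map H.subtype then f z else 0 with hf1
  have key : ∀ x : G, (if x⁻¹ * g * x ∈ H then F (x⁻¹ * g * x) else 0) =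
      (∑ y : H, f1 ((x * y)⁻¹ * g * (x * y))) / (Nat.card J : ℂ) := by
    intro x
    split_ifs with hx
    · rw [hF ⟨_, hx⟩]
      unfold indFun
      congr 1
      refine Finset.sum_congr rfl fun y _ => ?_
      have e1 : ((y⁻¹ * ⟨x⁻¹ * g * x, hx⟩ * y : H) : G) = (x * y)⁻¹ * g * (x * y) := by
        simp [mul_assoc]
      have e2 : ((y⁻¹ * ⟨x⁻¹ * g * x, hx⟩ * y : H) ∈ J) ↔
          (x * y)⁻¹ * g * (x * y) ∈ J.map H.subtype := by
        rw [← e1]
        constructor
        · intro h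
          exact ⟨_, h, rfl⟩
        · rintro ⟨z, hz, hz2⟩
          have : z = (y⁻¹ * ⟨x⁻¹ * g * x, hx⟩ * y : H) := Subtype.ext hz2
          rw [← this]
          exact hz
      rw [hf1]
      simp only [e2, e1]
    · symm
      rw [Finset.sum_eq_zero, zero_div]
      intro y _
      rw [hf1]
      simp only
      rw [if_neg]
      rintro ⟨z, hz, hz2⟩
      apply hx
      have : x⁻¹ * g * x = y * z * y⁻¹ := by
        have h2 : (z : G) = (x * y)⁻¹ * g * (x * y) := hz2
        rw [h2]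
        simp [mul_assoc]
      rw [this]
      exact H.mul_mem (H.mul_mem y.2 z.2) (H.inv_mem y.2)
  unfold indFun
  simp only [key]
  rw [← Finset.sum_div, Finset.sum_comm]
  have h2 : ∀ y : H, ∑ x : G, f1 ((x * y)⁻¹ * g * (x * y)) = ∑ x : G, f1 (x⁻¹ * g * x) := by
    intro y
    exact Fintype.sum_equiv (Equiv.mulRight (y : G)) _ _ (fun x => rfl)
  rw [Finset.sum_congr rfl (fun y _ => h2 y), Finset.sum_const, Finset.card_univ, nsmul_eq_mul,
    ← Nat.card_eq_fintype_card, hcard]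
  have h3 : ∀ a b c : ℂ, c ≠ 0 → c * a / b / c = a / b := by
    intro a b c hc
    rw [div_right_comm, mul_div_cancel_left₀ _ hc]
  exact h3 _ _ _ hH

theorem indFun_class (H : Subgroup G) (f : G → ℂ) (hf : ∀ x g : G, f (x⁻¹ * g * x) = f g) (g : G) :
    indFun H f g = f g * indFun H (fun _ => 1) g := by
  unfold indFun
  rw [mul_div_assoc', Finset.mul_sum]
  congr 1
  refine Finset.sum_congr rfl fun x _ => ?_
  split_ifs
  · rw [hf, mul_one]
  · simp

theorem indFun_subgroup (H : Subgroup G) (f : G → ℂ)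
    (hf : ∀ x g : G, x ∈ H → g ∈ H → f (x⁻¹ * g * x) = f g) (m : ℕ) (J : Fin m → Subgroup H)
    (n : Fin m → ℤ) (h1 : ∀ g : H, (1 : ℂ) = ∑ i, (n i : ℂ) * indFun (J i) (fun _ => 1) g)
    (g : G) :
    indFun H f g = ∑ i, (n i : ℂ) * indFun ((J i).map H.subtype) f g := by
  have e1 : ∀ i, ∃ F : G → ℂ, ∀ h : H, F h = indFun (J i) (fun y : H => f y) h := by
    intro i
    refine ⟨fun x => if hx : x ∈ H then indFun (J i) (fun y : H => f y) ⟨x, hx⟩ else 0, ?_⟩
    intro h
    simp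
  choose F hF using e1
  rw [Finset.sum_congr rfl fun i _ => by rw [← indFun_trans H (J i) f (F i) (hF i) g]]
  rw [← indFun_sum]
  apply congrFun
  apply indFun_congr
  intro x hx
  have h2 := h1 ⟨x, hx⟩
  have h3 : ∀ i, F i x = f x * indFun (J i) (fun _ => 1) ⟨x, hx⟩ := by
    intro i
    rw [show F i x = F i ((⟨x, hx⟩ : H) : G) from rfl, hF]
    rw [indFun_class]
    intro y z
    exact hf _ _ y.2 z.2
  simp only [h3]
  rw [Finset.sum_congr rfl fun i _ => by rw [mul_left_comm], ← Finset.mul_sum, ← h2, mul_one]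

theorem sum_comp_surj {G' : Type} [Group G'] [Fintype G'] (r : G' →* G)
    (hr : Function.Surjective r) (F : G → ℂ) :
    ∑ x' : G', F (r x') = (Nat.card r.ker : ℂ) * ∑ x : G, F x := by
  rw [← Finset.sum_fiberwise (Finset.univ : Finset G') r (fun x' => F (r x')), Finset.mul_sum]
  refine Finset.sum_congr rfl fun x _ => ?_
  obtain ⟨x0, hx0⟩ := hr x
  rw [Finset.sum_congr rfl (g := fun _ => F x) (fun y hy => by rw [(Finset.mem_filter.1 hy).2]),
    Finset.sum_const, nsmul_eq_mul]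
  congr 2
  rw [← Fintype.card_coe, ← Nat.card_eq_fintype_card]
  refine Nat.card_congr ⟨fun y => ⟨x0⁻¹ * y.1, ?_⟩, fun k => ⟨x0 * k.1, ?_⟩, ?_, ?_⟩
  · have := (Finset.mem_filter.1 y.2).2
    rw [MonoidHom.mem_ker, map_mul, map_inv, this, hx0, inv_mul_cancel]
  · rw [Finset.mem_filter]
    refine ⟨Finset.mem_univ _, ?_⟩
    rw [map_mul, hx0, MonoidHom.mem_ker.1 k.2, mul_one]
  · intro y
    ext
    simp
  · intro k
    ext
    simp

/-- Induction commutes with inflation. -/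
theorem indFun_infl {G' : Type} [Group G'] [Fintype G'] (r : G' →* G)
    (hr : Function.Surjective r) (H : Subgroup G) (f : G → ℂ) (g : G') :
    indFun H f (r g) = indFun (H.comap r) (fun x => f (r x)) g := by
  unfold indFun
  have e1 : ∑ x' : G', (if x'⁻¹ * g * x' ∈ H.comap r then f (r (x'⁻¹ * g * x')) else 0) =
      (Nat.card r.ker : ℂ) * ∑ x : G, if x⁻¹ * r g * x ∈ H then f (x⁻¹ * r g * x) else 0 := by
    rw [← sum_comp_surj r hr]
    refine Finset.sum_congr rfl fun x _ => ?_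
    simp only [Subgroup.mem_comap, map_mul, map_inv]
  have e2 : (Nat.card (H.comap r) : ℂ) = (Nat.card r.ker : ℂ) * (Nat.card H : ℂ) := by
    have h := sum_comp_surj r hr (fun x => if x ∈ H then (1 : ℂ) else 0)
    rw [Finset.sum_ite, Finset.sum_ite] at h
    simp only [Finset.sum_const, nsmul_eq_mul, mul_one, mul_zero, add_zero] at h
    rw [Nat.card_eq_fintype_card, Nat.card_eq_fintype_card (α := H), Fintype.card_subtype,
      Fintype.card_subtype]
    exact h
  rw [e1, e2]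
  have hk : (Nat.card r.ker : ℂ) ≠ 0 := by
    exact_mod_cast Nat.card_pos.ne'
  rw [mul_div_mul_left _ _ hk]


/-- The integral span of the class functions induced from pairs satisfying `P`. -/
def GS (P : ∀ H : Subgroup G, (H →* ℂˣ) → Prop) : Submodule ℤ (G → ℂ) :=
  Submodule.span ℤ (Set.range fun t : {t : Σ H : Subgroup G, (H →* ℂˣ) // P t.1 t.2} =>
    indFun t.1.1 (extZ t.1.2))

theorem mem_GS_of {P : ∀ H : Subgroup G, (H →* ℂˣ) → Prop} (H : Subgroup G) (ψ : H →* ℂˣ)
    (h : P H ψ) : indFun H (extZ ψ) ∈ GS P :=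
  Submodule.subset_span ⟨⟨⟨H, ψ⟩, h⟩, rfl⟩

theorem of_mem_GS {P : ∀ H : Subgroup G, (H →* ℂˣ) → Prop} {f : G → ℂ} (h : f ∈ GS P) :
    ∃ (m : ℕ) (H : Fin m → Subgroup G) (ψ : ∀ i, H i →* ℂˣ) (n : Fin m → ℤ),
      (∀ i, P (H i) (ψ i)) ∧ ∀ g, f g = ∑ i, (n i : ℂ) * indFun (H i) (extZ (ψ i)) g := by
  obtain ⟨c, hc⟩ := Finsupp.mem_span_range_iff_exists_finsupp.1 h
  let e := c.support.equivFin
  refine ⟨c.support.card, fun i => (e.symm i).1.1.1, fun i => (e.symm i).1.1.2,
    fun i => c (e.symm i).1, fun i => (e.symm i).1.2, ?_⟩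
  intro g
  rw [← hc, Finsupp.sum, Finset.sum_apply]
  simp only [Pi.smul_apply, zsmul_eq_mul]
  rw [← Finset.sum_coe_sort]
  exact Fintype.sum_equiv e _ _ (fun x => by rw [Equiv.symm_apply_apply])

theorem half (eps : G →* ℂˣ) (h1 : ∀ g, eps g = 1 ∨ eps g = -1) (g0 : G) (hg0 : eps g0 ≠ 1)
    (g : G) : indFun eps.ker (fun _ => 1) g = 1 + (eps g : ℂ) := by
  have h0 : eps g0 = -1 := (h1 g0).resolve_left hg0
  have hne : (-1 : ℂˣ) ≠ 1 := by rw [← h0]; exact hg0
  have hidx : eps.ker.index = 2 := by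
    rw [Subgroup.index_eq_two_iff]
    refine ⟨g0, fun b => ?_⟩
    simp only [MonoidHom.mem_ker, map_mul, h0]
    rcases h1 b with hb | hb
    · right
      refine ⟨hb, ?_⟩
      rw [hb, one_mul]
      exact hne
    · left
      refine ⟨?_, ?_⟩
      · rw [hb]; simp
      · rw [hb]; exact hne
  have hcard : (Nat.card G : ℂ) = (Nat.card eps.ker : ℂ) * 2 := by
    have := Subgroup.card_mul_index eps.ker
    rw [hidx] at this
    rw [← this]
    push_cast
    rfl
  have hk : (Nat.card eps.ker : ℂ) ≠ 0 := by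
    exact_mod_cast Nat.card_pos.ne'
  unfold indFun
  have e1 : ∀ x : G, (x⁻¹ * g * x ∈ eps.ker) ↔ eps g = 1 := by
    intro x
    rw [MonoidHom.mem_ker, map_mul, map_mul, map_inv, mul_comm, ← mul_assoc, mul_inv_cancel,
      one_mul]
  simp only [e1]
  rcases h1 g with hg | hg
  · simp only [hg, if_true]
    rw [Finset.sum_const, Finset.card_univ, nsmul_eq_mul, mul_one, ← Nat.card_eq_fintype_card,
      hcard, mul_div_cancel_left₀ _ hk]
    norm_num
  · simp only [hg, hne, if_false]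
    rw [Finset.sum_const_zero, zero_div]
    simp

omit [Fintype G] in
theorem extZ_apply {H : Subgroup G} (ψ : H →* ℂˣ) (h : H) : extZ ψ (h : G) = ((ψ h : ℂˣ) : ℂ) := by
  unfold extZ
  rw [dif_pos h.2]

omit [Fintype G] in
theorem extZ_class {H : Subgroup G} (ψ : H →* ℂˣ) (x g : G) (hx : x ∈ H) (hg : g ∈ H) :
    extZ ψ (x⁻¹ * g * x) = extZ ψ g := by
  have e := extZ_apply ψ ((⟨x, hx⟩ : H)⁻¹ * ⟨g, hg⟩ * ⟨x, hx⟩)
  have e2 := extZ_apply ψ (⟨g, hg⟩ : H)
  have e3 : (((⟨x, hx⟩ : H)⁻¹ * ⟨g, hg⟩ * ⟨x, hx⟩ : H) : G) = x⁻¹ * g * x := rfl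
  rw [e3] at e
  rw [e, map_mul, map_mul, map_inv, mul_comm, ← mul_assoc, mul_inv_cancel, one_mul]
  exact e2.symm

/-- The restriction of `ψ` to a smaller subgroup. -/
theorem indFun_restrict {H J : Subgroup G} (hJ : J ≤ H) (ψ : H →* ℂˣ) :
    indFun J (extZ (ψ.comp (Subgroup.inclusion hJ))) = indFun J (extZ ψ) := by
  apply indFun_congr
  intro g hg
  have e1 := extZ_apply (ψ.comp (Subgroup.inclusion hJ)) (⟨g, hg⟩ : J)
  have e2 := extZ_apply ψ (⟨g, hJ hg⟩ : H)
  exact e1.trans e2.symm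

/-- Decomposition of a linear character into a part of 2-power order and a part of odd order. -/
theorem odd_part {H : Type} [Group H] [Finite H] (ψ : H →* ℂˣ) :
    ∃ (ψ2 ψo : H →* ℂˣ) (a m : ℕ), ψ = ψ2 * ψo ∧ Odd m ∧ ψo ^ m = 1 ∧ ψ2 ^ (2 ^ a) = 1 := by
  obtain ⟨a, m, hm, hN⟩ := Nat.exists_eq_two_pow_mul_odd (Nat.card_pos (α := H)).ne'
  have h1 : ψ ^ (2 ^ a * m) = 1 := by
    rw [← hN]
    ext x
    rw [MonoidHom.pow_apply, ← map_pow, pow_card_eq_one']
    simp
  have hcop : IsCoprime ((2 ^ a : ℕ) : ℤ) (m : ℤ) := by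
    rw [Nat.isCoprime_iff_coprime]
    exact Nat.Coprime.pow_left a (Nat.coprime_two_left.2 hm)
  obtain ⟨u, v, huv⟩ := hcop
  have h2 : ∀ x, (ψ x) ^ ((2 ^ a * m : ℕ) : ℤ) = 1 := by
    intro x
    rw [zpow_natCast, ← MonoidHom.pow_apply, h1, MonoidHom.one_apply]
  refine ⟨(zpowGroupHom (v * (m : ℤ))).comp ψ, (zpowGroupHom (u * ((2 ^ a : ℕ) : ℤ))).comp ψ,
    a, m, ?_, hm, ?_, ?_⟩
  · refine MonoidHom.ext fun x => ?_
    show ψ x = (ψ x) ^ (v * (m : ℤ)) * (ψ x) ^ (u * ((2 ^ a : ℕ) : ℤ))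
    rw [← zpow_add, add_comm, huv, zpow_one]
  · refine MonoidHom.ext fun x => ?_
    rw [MonoidHom.pow_apply, MonoidHom.one_apply]
    show ((ψ x) ^ (u * ((2 ^ a : ℕ) : ℤ))) ^ m = 1
    rw [← zpow_natCast, ← zpow_mul]
    have : u * ((2 ^ a : ℕ) : ℤ) * (m : ℤ) = ((2 ^ a * m : ℕ) : ℤ) * u := by push_cast; ring
    rw [this, zpow_mul, h2, one_zpow]
  · refine MonoidHom.ext fun x => ?_
    rw [MonoidHom.pow_apply, MonoidHom.one_apply]
    show ((ψ x) ^ (v * (m : ℤ))) ^ (2 ^ a) = 1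
    rw [← zpow_natCast, ← zpow_mul]
    have : v * (m : ℤ) * ((2 ^ a : ℕ) : ℤ) = ((2 ^ a * m : ℕ) : ℤ) * v := by push_cast; ring
    rw [this, zpow_mul, h2, one_zpow]

end grp

section arith

variable {K L N : Type} [Field K] [NumberField K] [Field L] [NumberField L] [Field N]
  [NumberField N] [Algebra K L] [Algebra K N] [Algebra L N] [IsScalarTower K L N] [IsGalois K L]
  [IsGalois K N]

theorem isConj_restrict {Φ : N →+* ℂ} {c : N ≃ₐ[K] N} (h : ComplexEmbedding.IsConj Φ c) :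
    ComplexEmbedding.IsConj (Φ.comp (algebraMap L N)) (AlgEquiv.restrictNormalHom L c) := by
  refine RingHom.ext fun x => ?_
  show star (Φ (algebraMap L N x)) = Φ (algebraMap L N (AlgEquiv.restrictNormal c L x))
  rw [AlgEquiv.restrictNormal_commutes]
  exact (h.eq _).symm

theorem isCC_restrict {c : N ≃ₐ[K] N} (h : IsCC c) :
    ∃ Φ : L →+* ℂ, ComplexEmbedding.IsConj Φ (AlgEquiv.restrictNormalHom L c) := by
  obtain ⟨Φ, hΦ⟩ := h
  exact ⟨_, isConj_restrict hΦ⟩

theorem isCC_sq {c : N ≃ₐ[K] N} (h : IsCC c) : c * c = 1 := by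
  obtain ⟨Φ, hΦ⟩ := h
  ext x
  exact ComplexEmbedding.isConj_apply_apply hΦ x

/-- The step `(i)`: the odd part may be removed. -/
theorem step1 (hSOL : Stmt_SOL) (hQE : Stmt_QE) (H : Subgroup (N ≃ₐ[K] N))
    (ψ ψ2 ψo : H →* ℂˣ) (m : ℕ) (hψ : ψ = ψ2 * ψo) (hm : Odd m) (hψo : ψo ^ m = 1)
    (hAR : ∀ c u : H, IsCC (c : N ≃ₐ[K] N) → u * c = c * u → ψo u = 1) :
    indFun H (extZ ψ) - indFun H (extZ ψ2) ∈ GS (G := N ≃ₐ[K] N) (fun H ψ => Good H ψ) := by
  obtain ⟨k, J, n, hJ, h1⟩ := hSOL H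
  have e1 : indFun H (extZ ψ) - indFun H (extZ ψ2) =
      ∑ j, n j • indFun ((J j).map H.subtype) (fun x => extZ ψ x - extZ ψ2 x) := by
    funext g
    rw [Pi.sub_apply, ← indFun_sub, indFun_subgroup H _ ?_ k J n h1, Finset.sum_apply]
    · refine Finset.sum_congr rfl fun j _ => ?_
      rw [Pi.smul_apply, zsmul_eq_mul]
    · intro x g hx hg
      rw [extZ_class ψ x g hx hg, extZ_class ψ2 x g hx hg]
  rw [e1]
  refine Submodule.sum_mem _ fun j _ => Submodule.smul_mem _ _ ?_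
  by_cases hcc : ∃ c ∈ (J j).map H.subtype, IsCC c
  · have : indFun ((J j).map H.subtype) (fun x => extZ ψ x - extZ ψ2 x) = 0 := by
      obtain ⟨c, ⟨c', hc', rfl⟩, hcc⟩ := hcc
      have h2 := hQE (J j) (⟨c', hc'⟩ : J j) (ψo.comp (J j).subtype) m (hJ j) hm
        (by
          refine MonoidHom.ext fun x => ?_
          rw [MonoidHom.pow_apply, MonoidHom.one_apply, MonoidHom.comp_apply,
            ← MonoidHom.pow_apply, hψo, MonoidHom.one_apply])
        (by
          have := isCC_sq hcc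
          apply Subtype.ext
          apply Subtype.ext
          exact this)
        (by
          intro u hu
          refine hAR c' u.1 hcc ?_
          exact congrArg Subtype.val hu)
      funext g
      apply indFun_zero
      rintro g ⟨g', hg', rfl⟩
      have h3 : ψo g' = 1 := by
        have := DFunLike.congr_fun h2 (⟨g', hg'⟩ : J j)
        exact this
      show extZ ψ (g' : N ≃ₐ[K] N) - extZ ψ2 (g' : N ≃ₐ[K] N) = 0
      rw [extZ_apply, extZ_apply, hψ, MonoidHom.mul_apply, h3, mul_one, sub_self]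
    rw [this]
    exact Submodule.zero_mem _
  · have hcc : ∀ c ∈ (J j).map H.subtype, ¬ IsCC c := fun c hc h => hcc ⟨c, hc, h⟩
    have hle : (J j).map H.subtype ≤ H := Subgroup.map_subtype_le _
    have : indFun ((J j).map H.subtype) (fun x => extZ ψ x - extZ ψ2 x) =
        indFun ((J j).map H.subtype) (extZ (ψ.comp (Subgroup.inclusion hle))) -
        indFun ((J j).map H.subtype) (extZ (ψ2.comp (Subgroup.inclusion hle))) := by
      rw [indFun_restrict, indFun_restrict]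
      funext g
      rw [indFun_sub]
      rfl
    rw [this]
    exact Submodule.sub_mem _ (mem_GS_of _ _ (Or.inl hcc)) (mem_GS_of _ _ (Or.inl hcc))

/-- The step `(ii)`: a linear character of 2-power order. -/
theorem step2 (H : Subgroup (N ≃ₐ[K] N)) (ψ : H →* ℂˣ) (a : ℕ) (hψ : ψ ^ (2 ^ a) = 1) (b : N)
    (hH : ∀ h : H, (h : N ≃ₐ[K] N) (b ^ 2) = b ^ 2)
    (hAR : ∀ (Φ : N →+* ℂ) (c : H), ComplexEmbedding.IsConj Φ (c : N ≃ₐ[K] N) →
      (ψ c = 1 → (Φ (b ^ 2)).re < 0) ∧ (ψ c ≠ 1 → 0 < (Φ (b ^ 2)).re)) :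
    indFun H (extZ ψ) ∈ GS (G := N ≃ₐ[K] N) (fun H ψ => Good H ψ) := by
  by_cases hno : ∀ c ∈ H, ¬ IsCC c
  · exact mem_GS_of _ _ (Or.inl hno)
  push Not at hno
  obtain ⟨c0, hc0, Φ0, hΦ0⟩ := hno
  have hb : b ≠ 0 := by
    rintro rfl
    have h := hAR Φ0 ⟨c0, hc0⟩ hΦ0
    by_cases h1 : ψ ⟨c0, hc0⟩ = 1
    · simpa using h.1 h1
    · simpa using h.2 h1
  have hb2 : b ≠ -b := by
    intro h
    apply hb
    have h2 : (2 : N) * b = 0 := by rw [two_mul]; nth_rewrite 1 [h]; simp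
    rcases mul_eq_zero.1 h2 with h3 | h3
    · norm_num at h3
    · exact h3
  have hpm : ∀ g : H, (g : N ≃ₐ[K] N) b = b ∨ (g : N ≃ₐ[K] N) b = -b := by
    intro g
    have h := hH g
    rw [map_pow] at h
    exact sq_eq_sq_iff_eq_or_eq_neg.1 h
  have hneu : (-1 : ℂˣ) ≠ 1 := by
    intro h
    have := congrArg (fun u : ℂˣ => (u : ℂ)) h
    norm_num at this
  let eps : H →* ℂˣ :=
    { toFun := fun g => if (g : N ≃ₐ[K] N) b = b then 1 else -1
      map_one' := by
        rw [if_pos]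
        rfl
      map_mul' := by
        intro g h
        have e : ((g * h : H) : N ≃ₐ[K] N) b = (g : N ≃ₐ[K] N) ((h : N ≃ₐ[K] N) b) := rfl
        rw [e]
        rcases hpm g with hg | hg <;> rcases hpm h with hh | hh
        · rw [hh, hg]; simp
        · rw [hh, map_neg, hg, if_neg hb2.symm, if_pos rfl]; simp
        · rw [hh, hg, if_neg hb2.symm, if_pos rfl]; simp
        · rw [hh, map_neg, hg, neg_neg, if_pos rfl, if_neg hb2.symm]; simp }
  have heps1 : ∀ g : H, (g : N ≃ₐ[K] N) b = b → eps g = 1 := fun g hg => if_pos hg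
  have heps2 : ∀ g : H, (g : N ≃ₐ[K] N) b = -b → eps g = -1 := by
    intro g hg
    show (if (g : N ≃ₐ[K] N) b = b then (1 : ℂˣ) else -1) = -1
    rw [if_neg]
    rw [hg]
    exact hb2.symm
  have hsq : ∀ c : H, IsCC (c : N ≃ₐ[K] N) → ∀ χ : H →* ℂˣ, χ c ≠ 1 → ((χ c : ℂˣ) : ℂ) = -1 := by
    intro c hc χ hχ
    have h1 : c * c = 1 := Subtype.ext (isCC_sq hc)
    have h2 : χ c * χ c = 1 := by rw [← map_mul, h1, map_one]
    have h3 : ((χ c : ℂˣ) : ℂ) * ((χ c : ℂˣ) : ℂ) = 1 := by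
      rw [← Units.val_mul, h2, Units.val_one]
    rcases mul_self_eq_one_iff.1 h3 with h4 | h4
    · exact absurd (Units.ext h4) hχ
    · exact h4
  -- sign of `Φ (b ^ 2)`
  have hpos : ∀ (Φ : N →+* ℂ) (c : H), ComplexEmbedding.IsConj Φ (c : N ≃ₐ[K] N) →
      (c : N ≃ₐ[K] N) b = b → ψ c ≠ 1 := by
    intro Φ c hΦ hcb h1
    have h2 := (hAR Φ c hΦ).1 h1
    have h3 : Φ b = star (Φ b) := by
      have := hΦ.eq b
      rwa [hcb] at this
    have h4 : (Φ b).im = 0 := by
      have := congrArg Complex.im h3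
      rw [Complex.star_def, Complex.conj_im] at this
      linarith
    rw [map_pow, sq, Complex.mul_re, h4] at h2
    nlinarith [mul_self_nonneg (Φ b).re]
  have hnegv : ∀ (Φ : N →+* ℂ) (c : H), ComplexEmbedding.IsConj Φ (c : N ≃ₐ[K] N) →
      (c : N ≃ₐ[K] N) b = -b → ψ c = 1 := by
    intro Φ c hΦ hcb
    by_contra h1
    have h2 := (hAR Φ c hΦ).2 h1
    have h3 : Φ (-b) = star (Φ b) := by
      have := hΦ.eq b
      rwa [hcb] at this
    have h4 : (Φ b).re = 0 := by
      have := congrArg Complex.re h3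
      rw [map_neg, Complex.neg_re, Complex.star_def, Complex.conj_re] at this
      linarith
    rw [map_pow, sq, Complex.mul_re, h4] at h2
    nlinarith [mul_self_nonneg (Φ b).im]
  by_cases hall : ∀ g : H, eps g = 1
  · refine mem_GS_of _ _ (Or.inr ⟨⟨a, hψ⟩, ?_⟩)
    intro c hc
    have hcb : (c : N ≃ₐ[K] N) b = b := by
      rcases hpm c with h | h
      · exact h
      · exact absurd ((heps2 c h).symm.trans (hall c)) hneu
    apply hsq c hc
    obtain ⟨Φ, hΦ⟩ := hc
    exact hpos Φ c hΦ hcb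
  · push Not at hall
    obtain ⟨g0, hg0⟩ := hall
    have h12 : ∀ g, eps g = 1 ∨ eps g = -1 := by
      intro g
      rcases hpm g with h | h
      · exact Or.inl (heps1 g h)
      · exact Or.inr (heps2 g h)
    set J : Subgroup (N ≃ₐ[K] N) := eps.ker.map H.subtype with hJdef
    have hle : J ≤ H := Subgroup.map_subtype_le _
    have key : indFun H (extZ ψ) = indFun J (extZ (ψ.comp (Subgroup.inclusion hle))) -
        indFun H (extZ (ψ * eps)) := by
      funext g
      rw [indFun_restrict, Pi.sub_apply]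
      have e1 := indFun_trans H eps.ker (extZ ψ) (fun x => extZ ψ x + extZ (ψ * eps) x) (by
        intro h
        rw [indFun_class eps.ker (fun y : H => extZ ψ y)
          (fun x g => extZ_class ψ x g x.2 g.2) h, half eps h12 g0 hg0 h]
        show extZ ψ (h : N ≃ₐ[K] N) + extZ (ψ * eps) (h : N ≃ₐ[K] N) =
          extZ ψ (h : N ≃ₐ[K] N) * (1 + (eps h : ℂ))
        rw [extZ_apply, extZ_apply, MonoidHom.mul_apply, Units.val_mul]
        ring) g
      rw [hJdef, ← e1]
      have e2 : indFun H (fun x => extZ ψ x + extZ (ψ * eps) x) g =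
          indFun H (extZ ψ) g + indFun H (extZ (ψ * eps)) g := by
        have := indFun_sub H (fun x => extZ ψ x + extZ (ψ * eps) x) (extZ (ψ * eps)) g
        rw [sub_eq_iff_eq_add.1 this.symm]
        congr 2
        funext x
        ring
      rw [e2]
      ring
    rw [key]
    refine Submodule.sub_mem _ (mem_GS_of _ _ (Or.inr ⟨⟨a, ?_⟩, ?_⟩))
      (mem_GS_of _ _ (Or.inr ⟨⟨a + 1, ?_⟩, ?_⟩))
    · refine MonoidHom.ext fun x => ?_
      rw [MonoidHom.pow_apply, MonoidHom.one_apply, MonoidHom.comp_apply, ← MonoidHom.pow_apply,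
        hψ, MonoidHom.one_apply]
    · intro c hc
      have h1 : eps (Subgroup.inclusion hle c) = 1 := by
        obtain ⟨c', hc', hcc'⟩ := c.2
        have : Subgroup.inclusion hle c = c' := Subtype.ext hcc'.symm
        rw [this]
        exact hc'
      have hcb : (c : N ≃ₐ[K] N) b = b := by
        rcases hpm (Subgroup.inclusion hle c) with h | h
        · exact h
        · exact absurd ((heps2 _ h).symm.trans h1) hneu
      refine hsq (Subgroup.inclusion hle c) hc ψ ?_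
      obtain ⟨Φ, hΦ⟩ := hc
      exact hpos Φ (Subgroup.inclusion hle c) hΦ hcb
    · refine MonoidHom.ext fun x => ?_
      rw [MonoidHom.pow_apply, MonoidHom.one_apply, MonoidHom.mul_apply, mul_pow]
      have e1 : (ψ x) ^ (2 ^ (a + 1)) = 1 := by
        rw [pow_succ, pow_mul, ← MonoidHom.pow_apply, hψ, MonoidHom.one_apply, one_pow]
      have e2 : (eps x) ^ (2 ^ (a + 1)) = 1 := by
        rw [pow_succ', pow_mul]
        rcases h12 x with h | h <;> rw [h] <;> simp
      rw [e1, e2, mul_one]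
    · intro c hc
      rcases hpm c with h | h
      · rw [MonoidHom.mul_apply, heps1 c h, mul_one]
        apply hsq c hc
        obtain ⟨Φ, hΦ⟩ := hc
        exact hpos Φ c hΦ h
      · obtain ⟨Φ, hΦ⟩ := hc
        rw [MonoidHom.mul_apply, heps2 c h, hnegv Φ c hΦ h, one_mul]
        simp

end arith

end CMB

theorem CMB_thm (h1 : StarkC.Stmt_SOL) (h2 : StarkC.Stmt_BRA) (h3 : StarkC.Stmt_QE)
    (h4 : StarkC.Stmt_AR1) (h5 : StarkC.Stmt_AR2) (h6 : StarkC.Stmt_AR3) : StarkC.Stmt_CMB := by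
  intro K L _ _ _ _ _ _ V _ _ _ ρ
  obtain ⟨k, H, ψ, n, hχ⟩ := h2 (L ≃ₐ[K] L) V ρ
  have hdec := fun i => CMB.odd_part (ψ i)
  choose ψ2 ψo a m hψ hm hψo hψ2 using hdec
  have hB := fun i => h4 K L (H i) (ψo i) (m i) (hm i) (hψo i)
  choose B hB using hB
  have hα := fun i => h5 K L (H i) (ψ2 i)
  choose α hα1 hα2 using hα
  obtain ⟨N, iF, iN, iA, iL, iT, iG, hN⟩ :=
    h6 K L (Finset.univ.biUnion (fun i => insert (α i) (B i)))
  refine ⟨N, iF, iN, iA, iL, iT, iG, CMB.of_mem_GS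
    (f := fun g : N ≃ₐ[K] N => ρ.character (AlgEquiv.restrictNormalHom L g)) ?_⟩
  set r : (N ≃ₐ[K] N) →* (L ≃ₐ[K] L) := AlgEquiv.restrictNormalHom L with hr
  have hsurj : Function.Surjective r := AlgEquiv.restrictNormalHom_surjective N
  let lift : ∀ i, (H i →* ℂˣ) → ((H i).comap r →* ℂˣ) := fun i χ => χ.comp (r.subgroupComap (H i))
  have hlift : ∀ i (χ : H i →* ℂˣ), extZ (lift i χ) = fun x => extZ χ (r x) := fun i χ => rfl
  have e1 : (fun g : N ≃ₐ[K] N => ρ.character (r g)) =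
      ∑ i, n i • indFun ((H i).comap r) (extZ (lift i (ψ i))) := by
    funext g
    rw [hχ, Finset.sum_apply]
    refine Finset.sum_congr rfl fun i _ => ?_
    rw [Pi.smul_apply, zsmul_eq_mul, CMB.indFun_infl r hsurj, hlift]
  rw [e1]
  refine Submodule.sum_mem _ fun i _ => Submodule.smul_mem _ _ ?_
  have hs1 := CMB.step1 (K := K) (N := N) h1 h3 ((H i).comap r) (lift i (ψ i)) (lift i (ψ2 i))
    (lift i (ψo i)) (m i) (by
      refine MonoidHom.ext fun x => ?_
      show ψ i _ = ψ2 i _ * ψo i _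
      rw [hψ i]
      rfl) (hm i) (by
      refine MonoidHom.ext fun x => ?_
      rw [MonoidHom.pow_apply, MonoidHom.one_apply]
      show (ψo i _) ^ (m i) = 1
      rw [← MonoidHom.pow_apply, hψo i, MonoidHom.one_apply]) (by
      intro c u hc hu
      obtain ⟨Φ, hΦ⟩ := hc
      refine hB i N (fun b hb => hN b ?_) Φ c.1 u.1 c.2 u.2 hΦ (congrArg Subtype.val hu)
      rw [Finset.mem_biUnion]
      exact ⟨i, Finset.mem_univ _, Finset.mem_insert_of_mem hb⟩)
  obtain ⟨b, hb⟩ := hN (α i) (by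
    rw [Finset.mem_biUnion]
    exact ⟨i, Finset.mem_univ _, Finset.mem_insert_self _ _⟩)
  have hs2 := CMB.step2 (K := K) (N := N) ((H i).comap r) (lift i (ψ2 i)) (a i) (by
      refine MonoidHom.ext fun x => ?_
      rw [MonoidHom.pow_apply, MonoidHom.one_apply]
      show (ψ2 i _) ^ (2 ^ a i) = 1
      rw [← MonoidHom.pow_apply, hψ2 i, MonoidHom.one_apply]) b (by
      intro h
      rw [hb]
      have e2 : algebraMap L N (r h.1 (α i)) = h.1 (algebraMap L N (α i)) :=
        AlgEquiv.restrictNormal_commutes h.1 L (α i)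
      rw [← e2, hα1 i _ h.2]) (by
      intro Φ c hΦ
      rw [hb]
      exact hα2 i (Φ.comp (algebraMap L N)) (r c.1) c.2 (CMB.isConj_restrict hΦ))
  have := Submodule.add_mem _ hs1 hs2
  rwa [sub_add_cancel] at this

end StarkC
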