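import Pool.Agent.Stark.Stmts

open NumberField IsDedekindDomain
open scoped TensorProduct Classical

namespace StarkC

namespace IND

set_option linter.unusedSectionVars false

/-! ### Primes -/

section Primes

variable {K N : Type} [Field K] [NumberField K] [Field N] [NumberField N] [Algebra K N]

theorem aboveSet_finite (S : Set (HeightOneSpectrum (𝓞 K))) (hS : S.Finite) :
    (aboveSet K N S).Finite := by
  have h1 : aboveSet K N S = ⋃ v ∈ S, above K N v := by
    ext w
    simp [aboveSet, above]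
  rw [h1]
  refine hS.biUnion fun v _ => ?_
  have h2 : (v.asIdeal.primesOver (𝓞 N)).Finite :=
    IsDedekindDomain.primesOver_finite _ _
  refine Set.Finite.of_finite_image (f := fun w : HeightOneSpectrum (𝓞 N) => w.asIdeal)
    (h2.subset ?_) ?_
  · rintro _ ⟨w, hw, rfl⟩
    refine ⟨w.isPrime, ⟨?_⟩⟩
    have h3 : w.under (𝓞 K) = v := hw
    rw [← h3]
    rfl
  · intro a _ b _ hab
    exact HeightOneSpectrum.ext hab

theorem under_under (F : IntermediateField K N) (w : HeightOneSpectrum (𝓞 N)) :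
    (w.under (𝓞 F)).under (𝓞 K) = w.under (𝓞 K) := by
  apply HeightOneSpectrum.ext
  simp only [HeightOneSpectrum.under_asIdeal]
  exact Ideal.under_under _

theorem exists_S' (F : IntermediateField K N) (S : Set (HeightOneSpectrum (𝓞 K)))
    (hS : S.Finite) : ∃ S' : Finset (HeightOneSpectrum (𝓞 F)),
      aboveSet F N (S' : Set (HeightOneSpectrum (𝓞 F))) = aboveSet K N S := by
  have hfin : ((fun w : HeightOneSpectrum (𝓞 N) => w.under (𝓞 F)) '' aboveSet K N S).Finite :=
    (aboveSet_finite S hS).image _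
  refine ⟨hfin.toFinset, ?_⟩
  ext w
  simp only [aboveSet, Set.mem_ofPred_eq, Set.Finite.coe_toFinset, Set.mem_image]
  constructor
  · rintro ⟨w', hw', h⟩
    rw [← under_under F w', h, under_under F w] at hw'
    exact hw'
  · intro h
    exact ⟨w, h, rfl⟩

end Primes

/-! ### Group sums -/

section Group

variable {G : Type} [Group G] [Fintype G]

theorem sum_indFun_mul (H : Subgroup G) (f t : G → ℂ) (ht : ∀ x g, t (x * g * x⁻¹) = t g) :
    (∑ g, indFun H f g * t g) / (Nat.card G : ℂ) =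
      (∑ h : H, f h * t h) / (Nat.card H : ℂ) := by
  have h1 : ∑ g, indFun H f g * t g =
      (∑ x : G, ∑ g : G, (if x⁻¹ * g * x ∈ H then f (x⁻¹ * g * x) else 0) * t g) /
        (Nat.card H : ℂ) := by
    unfold indFun
    rw [Finset.sum_comm, Finset.sum_div]
    refine Finset.sum_congr rfl fun g _ => ?_
    rw [div_mul_eq_mul_div, Finset.sum_mul]
  have h2 : ∀ x : G, ∑ g : G, (if x⁻¹ * g * x ∈ H then f (x⁻¹ * g * x) else 0) * t g =
      ∑ h : H, f h * t h := by
    intro x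
    have h3 : ∑ g : G, (if x⁻¹ * g * x ∈ H then f (x⁻¹ * g * x) else 0) * t g =
        ∑ g : G, (if g ∈ H then f g else 0) * t g := by
      refine Fintype.sum_equiv (MulAut.conj x⁻¹).toEquiv _ _ fun g => ?_
      simp only [MulEquiv.toEquiv_eq_coe, MulEquiv.coe_toEquiv, MulAut.conj_apply, inv_inv]
      rw [show t g = t (x⁻¹ * g * x) from by
        have := ht x⁻¹ g
        rw [inv_inv] at this
        exact this.symm]
    rw [h3]
    have h4 : ∑ g : G, (if g ∈ H then f g else 0) * t g =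
        ∑ g ∈ Finset.univ.filter (fun g => g ∈ H), f g * t g := by
      rw [Finset.sum_filter]
      refine Finset.sum_congr rfl fun g _ => ?_
      split_ifs <;> simp
    rw [h4]
    exact Finset.sum_subtype (p := fun g => g ∈ H) (Finset.univ.filter (fun g => g ∈ H))
      (by simp) (fun g => f g * t g)
  rw [h1]
  simp only [h2, Finset.sum_const, Finset.card_univ, nsmul_eq_mul]
  have h5 : (Fintype.card G : ℂ) ≠ 0 := Nat.cast_ne_zero.2 Fintype.card_ne_zero
  rw [Nat.card_eq_fintype_card (α := G)]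
  field_simp

end Group

/-! ### The core sum is linear -/

section Core

variable {K N : Type} [Field K] [NumberField K] [Field N] [NumberField N] [Algebra K N]
  [IsGalois K N]

theorem coreSum_sum (hLA : Stmt_LA) (T : Set (HeightOneSpectrum (𝓞 N))) (s : ℂ) (hs : 1 < s.re)
    (m : ℕ) (n : Fin m → ℂ) (χ : Fin m → (N ≃ₐ[K] N) → ℂ) :
    coreSum (fun g => ∑ i, n i * χ i g) T s = ∑ i, n i * coreSum (χ i) T s := by
  unfold coreSum
  have hsum : ∀ i, Summable fun p : HeightOneSpectrum (𝓞 N) × ℕ => wt N T s p *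
      ∑ g ∈ Finset.univ.filter (fun g : N ≃ₐ[K] N => FrobPow N p.1 p.2 g), χ i g := by
    intro i
    refine Summable.of_norm_bounded (g := fun p => ‖wt N T s p‖ * ∑ g : N ≃ₐ[K] N, ‖χ i g‖)
      ((hLA N T s hs).mul_right _) fun p => ?_
    rw [norm_mul]
    refine mul_le_mul_of_nonneg_left ?_ (norm_nonneg _)
    refine (norm_sum_le _ _).trans ?_
    exact Finset.sum_le_sum_of_subset_of_nonneg (Finset.filter_subset _ _)
      fun _ _ _ => norm_nonneg _
  have h1 : ∀ p : HeightOneSpectrum (𝓞 N) × ℕ, wt N T s p *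
      ∑ g ∈ Finset.univ.filter (fun g : N ≃ₐ[K] N => FrobPow N p.1 p.2 g), ∑ i, n i * χ i g =
      ∑ i, n i * (wt N T s p *
        ∑ g ∈ Finset.univ.filter (fun g : N ≃ₐ[K] N => FrobPow N p.1 p.2 g), χ i g) := by
    intro p
    rw [Finset.sum_comm, Finset.mul_sum]
    refine Finset.sum_congr rfl fun i _ => ?_
    rw [← Finset.mul_sum]
    ring
  simp only [h1]
  rw [Summable.tsum_finsetSum fun i _ => (hsum i).mul_left _, Finset.sum_div]
  refine Finset.sum_congr rfl fun i _ => ?_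
  rw [tsum_mul_left, mul_div_assoc]

theorem logL_sum (hLA : Stmt_LA) (hLB : Stmt_LB) (S : Set (HeightOneSpectrum (𝓞 K))) (s : ℂ)
    (hs : 1 < s.re) (m : ℕ) (n : Fin m → ℂ) (χ : Fin m → (N ≃ₐ[K] N) → ℂ) :
    logL (fun g => ∑ i, n i * χ i g) S s = ∑ i, n i * logL (χ i) S s := by
  rw [hLB K N _ S s hs, coreSum_sum hLA _ s hs]
  refine Finset.sum_congr rfl fun i _ => ?_
  rw [hLB K N _ S s hs]

end Core

/-! ### Artin L-series of a combination -/

section Artin

variable {K N : Type} [Field K] [NumberField K] [Field N] [NumberField N] [Algebra K N]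
  [IsGalois K N]

theorem artin_comb (hLA : Stmt_LA) (hLB : Stmt_LB) (hLI : Stmt_LIND)
    (S : Set (HeightOneSpectrum (𝓞 K))) (χ : (N ≃ₐ[K] N) → ℂ)
    (m : ℕ) (H : Fin m → Subgroup (N ≃ₐ[K] N)) (ψ : ∀ i, H i →* ℂˣ) (n : Fin m → ℤ)
    (hχ : ∀ g, χ g = ∑ i, (n i : ℂ) * indFun (H i) (extZ (ψ i)) g)
    (S' : ∀ i, Set (HeightOneSpectrum (𝓞 (IntermediateField.fixedField (H i)))))
    (hS' : ∀ i, aboveSet (IntermediateField.fixedField (H i)) N (S' i) = aboveSet K N S)
    (f : Fin m → ℂ → ℂ)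
    (hf : ∀ i, IsArtinL (fun g => ((liftChar (H i) (ψ i) g : ℂˣ) : ℂ)) (S' i) (f i)) :
    IsArtinL χ S (fun z => ∏ i, f i z ^ n i) := by
  constructor
  · intro z
    exact MeromorphicAt.fun_prod fun i _ => ((hf i).1 z).fun_zpow (n i)
  · intro s hs
    have h1 : χ = fun g => ∑ i, (n i : ℂ) * indFun (H i) (extZ (ψ i)) g := funext hχ
    rw [h1, logL_sum hLA hLB S s hs, Complex.exp_sum]
    refine Finset.prod_congr rfl fun i _ => ?_
    rw [(hf i).2 s hs, ← Complex.exp_int_mul, hLI K N (H i) (ψ i) S (S' i) s (hS' i) hs]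

theorem lead_comb {m : ℕ} (n : Fin m → ℤ) (f : Fin m → ℂ → ℂ)
    (hf : ∀ i, MeromorphicAt (f i) 0) :
    meromorphicTrailingCoeffAt (fun z => ∏ i, f i z ^ n i) 0 =
      ∏ i, meromorphicTrailingCoeffAt (f i) 0 ^ n i := by
  rw [meromorphicTrailingCoeffAt_fun_prod fun i _ => (hf i).fun_zpow (n i)]
  refine Finset.prod_congr rfl fun i _ => ?_
  rw [(hf i).meromorphicTrailingCoeffAt_fun_zpow]

end Artin

/-! ### Regulator of a combination -/

section Regulator

variable {K N : Type} [Field K] [NumberField K] [Field N] [NumberField N] [Algebra K N]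
  [IsGalois K N]

theorem stable_sub (F : IntermediateField K N) {T : Set (HeightOneSpectrum (𝓞 N))}
    (hT : StableT K T) : StableT F T := by
  intro g a ha
  exact hT (g.restrictScalars K) a ha

theorem isPhiTheta_sub (F : IntermediateField K N) {T : Set (HeightOneSpectrum (𝓞 N))}
    {φ : XQ N T ≃ₗ[ℚ] QU N T} {Θ : XC N T →ₗ[ℂ] XC N T} (h : IsPhiTheta K T φ Θ) :
    IsPhiTheta F T φ Θ := by
  refine ⟨fun g x y hxy => ?_, h.2⟩
  exact h.1 (g.restrictScalars K) x y hxy

theorem symm_apply (H : Subgroup (N ≃ₐ[K] N)) (τ : N ≃ₐ[IntermediateField.fixedField H] N)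
    (x : N) : (((IntermediateField.subgroupEquivAlgEquiv H).symm τ : H) : N ≃ₐ[K] N) x = τ x := by
  obtain ⟨h, rfl⟩ := (IntermediateField.subgroupEquivAlgEquiv H).surjective τ
  rw [MulEquiv.symm_apply_apply]
  rfl

theorem repX_sub (H : Subgroup (N ≃ₐ[K] N)) {T : Set (HeightOneSpectrum (𝓞 N))}
    (hT : StableT K T) (τ : N ≃ₐ[IntermediateField.fixedField H] N) :
    repX (IntermediateField.fixedField H) T (stable_sub _ hT) τ =
      repX K T hT ((IntermediateField.subgroupEquivAlgEquiv H).symm τ : H) := by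
  obtain ⟨h, rfl⟩ := (IntermediateField.subgroupEquivAlgEquiv H).surjective τ
  rw [MulEquiv.symm_apply_apply]
  ext x
  rfl

theorem reg_comb (hTRD : Stmt_TRD) (hRGT : Stmt_RGT)
    {T : Set (HeightOneSpectrum (𝓞 N))} (hTf : T.Finite) (hT : StableT K T)
    (Θ : XC N T →ₗ[ℂ] XC N T) (hb : Function.Bijective Θ)
    (hc : ∀ g : N ≃ₐ[K] N, Θ ∘ₗ repX K T hT g = repX K T hT g ∘ₗ Θ)
    (V : Type) [AddCommGroup V] [Module ℂ V] [Module.Finite ℂ V]
    (ρ : Representation ℂ (N ≃ₐ[K] N) V)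
    (m : ℕ) (H : Fin m → Subgroup (N ≃ₐ[K] N)) (ψ : ∀ i, H i →* ℂˣ) (n : Fin m → ℤ)
    (hχ : ∀ g, ρ.character g = ∑ i, (n i : ℂ) * indFun (H i) (extZ (ψ i)) g) :
    Reg T ρ Θ = ∏ i, Reg T (linRep (liftChar (H i) (ψ i))) Θ ^ n i := by
  obtain ⟨W₀, _, _, _, B₀, hdet0, -, htr0⟩ := hRGT K N T hT Θ V ρ hTf hc hb
  have hci : ∀ i, ∀ g : N ≃ₐ[IntermediateField.fixedField (H i)] N,
      Θ ∘ₗ repX (IntermediateField.fixedField (H i)) T (stable_sub _ hT) g =
        repX (IntermediateField.fixedField (H i)) T (stable_sub _ hT) g ∘ₗ Θ := by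
    intro i g
    rw [repX_sub]
    exact hc _
  have hi := fun i => hRGT (IntermediateField.fixedField (H i)) N T (stable_sub _ hT) Θ ℂ
    (linRep (liftChar (H i) (ψ i))) hTf (hci i) hb
  choose W hW1 hW2 hW3 B hdet hne htr using hi
  have key := @hTRD m W₀ _ _ _ B₀ W hW1 hW2 hW3 B n hne ?_
  · rw [hdet0] at key
    rw [key]
    exact Finset.prod_congr rfl fun i _ => by rw [hdet i]
  · intro k
    set t : (N ≃ₐ[K] N) → ℂ := fun g => LinearMap.trace ℂ (XC N T) (repX K T hT g ∘ₗ (Θ ^ k))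
      with ht
    have hck : ∀ g : N ≃ₐ[K] N, (Θ ^ k) ∘ₗ repX K T hT g = repX K T hT g ∘ₗ (Θ ^ k) := by
      intro g
      have h1 : Commute Θ (repX K T hT g) := hc g
      exact (h1.pow_left k).eq
    have hclass : ∀ x g, t (x * g * x⁻¹) = t g := by
      intro x g
      simp only [ht]
      have h1 : repX K T hT (x * g * x⁻¹) ∘ₗ (Θ ^ k) =
          (repX K T hT x) * ((repX K T hT g ∘ₗ (Θ ^ k)) * repX K T hT x⁻¹) := by
        rw [map_mul, map_mul]
        show (repX K T hT x * repX K T hT g * repX K T hT x⁻¹) * (Θ ^ k) = _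
        have h2 : (Θ ^ k) * repX K T hT x⁻¹ = repX K T hT x⁻¹ * (Θ ^ k) := hck x⁻¹
        rw [mul_assoc, ← h2]
        rfl
      rw [h1, LinearMap.trace_mul_comm, mul_assoc, ← map_mul]
      simp
    rw [htr0 k]
    have h3 : (∑ g : N ≃ₐ[K] N, ρ.character g * t g) =
        ∑ i, (n i : ℂ) * ∑ g, indFun (H i) (extZ (ψ i)) g * t g := by
      simp only [hχ, Finset.sum_mul, Finset.mul_sum]
      rw [Finset.sum_comm]
      exact Finset.sum_congr rfl fun i _ => Finset.sum_congr rfl fun g _ => by ring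
    show (∑ g : N ≃ₐ[K] N, ρ.character g * t g) / _ = _
    rw [h3, Finset.sum_div]
    refine Finset.sum_congr rfl fun i _ => ?_
    rw [mul_div_assoc, sum_indFun_mul (H i) (extZ (ψ i)) t hclass, htr i k]
    congr 1
    have h4 : (Nat.card (H i) : ℂ) =
        (Nat.card (N ≃ₐ[IntermediateField.fixedField (H i)] N) : ℂ) := by
      rw [Nat.card_congr (IntermediateField.subgroupEquivAlgEquiv (H i)).toEquiv]
    rw [h4]
    congr 1
    refine Fintype.sum_equiv (IntermediateField.subgroupEquivAlgEquiv (H i)).toEquiv _ _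
      fun h => ?_
    have h5 : (linRep (liftChar (H i) (ψ i))).character
        ((IntermediateField.subgroupEquivAlgEquiv (H i)) h) = extZ (ψ i) (h : N ≃ₐ[K] N) := by
      have h6 : ∀ {G : Type} [Group G] (ψ : G →* ℂˣ) (g : G),
          (linRep ψ).character g = (ψ g : ℂ) := by
        intro G _ ψ g
        show LinearMap.trace ℂ ℂ (LinearMap.lsmul ℂ ℂ (ψ g : ℂ)) = _
        rw [LinearMap.trace_eq_matrix_trace ℂ (Module.Basis.singleton Unit ℂ)]
        simp [Matrix.trace, LinearMap.toMatrix_apply]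
      rw [h6]
      simp [liftChar, extZ]
    have h7 : repX (IntermediateField.fixedField (H i)) T (stable_sub _ hT)
        ((IntermediateField.subgroupEquivAlgEquiv (H i)) h) = repX K T hT (h : N ≃ₐ[K] N) := by
      rw [repX_sub, MulEquiv.symm_apply_apply]
    show extZ (ψ i) (h : N ≃ₐ[K] N) * t h = (linRep (liftChar (H i) (ψ i))).character
        ((IntermediateField.subgroupEquivAlgEquiv (H i)) h) *
        LinearMap.trace ℂ (XC N T) (repX (IntermediateField.fixedField (H i)) T (stable_sub _ hT)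
        ((IntermediateField.subgroupEquivAlgEquiv (H i)) h) ∘ₗ (Θ ^ k))
    rw [h5, h7]

end Regulator

theorem starkLinear_cast {F N : Type} [Field F] [NumberField F] [Field N] [NumberField N]
    [Algebra F N] (ψ : (N ≃ₐ[F] N) →* ℂˣ) (h : StarkLinear F N ψ)
    (S : Finset (HeightOneSpectrum (𝓞 F))) (T : Set (HeightOneSpectrum (𝓞 N)))
    (hT : aboveSet F N S = T) (φ : XQ N T ≃ₗ[ℚ] QU N T) (Θ : XC N T →ₗ[ℂ] XC N T) (σ : ℂ ≃+* ℂ)
    (hφ : IsPhiTheta F T φ Θ) :
    StarkAt (S : Set (HeightOneSpectrum (𝓞 F))) T Θ (linRep ψ) (linRep (twist σ ψ)) σ := by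
  subst hT
  exact h S φ Θ σ hφ

theorem linRep_character {G : Type} [Group G] (ψ : G →* ℂˣ) :
    (linRep ψ).character = fun g => (ψ g : ℂ) := by
  funext g
  show LinearMap.trace ℂ ℂ (LinearMap.lsmul ℂ ℂ (ψ g : ℂ)) = _
  rw [LinearMap.trace_eq_matrix_trace ℂ (Module.Basis.singleton Unit ℂ)]
  simp [Matrix.trace, LinearMap.toMatrix_apply]

theorem twist_indFun {G : Type} [Group G] [Fintype G] (σ : ℂ ≃+* ℂ) (H : Subgroup G)
    (ψ : H →* ℂˣ) (g : G) :
    σ (indFun H (extZ ψ) g) = indFun H (extZ (twist σ ψ)) g := by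
  unfold indFun
  rw [map_div₀, map_sum, map_natCast]
  congr 1
  refine Finset.sum_congr rfl fun x _ => ?_
  split_ifs with h
  · unfold extZ
    rw [dif_pos h, dif_pos h]
    rfl
  · exact map_zero σ

end IND

theorem IND_thm (hLA : Stmt_LA) (hLB : Stmt_LB) (hLI : Stmt_LIND) (hTRD : Stmt_TRD)
    (hRGT : Stmt_RGT) (hSTB : Stmt_STB) (hTHC : Stmt_THC) (hTHB : Stmt_THB) : Stmt_IND := by
  intro K N _ _ _ _ _ _ S φ Θ V V' _ _ _ _ _ _ ρ ρ' σ m H ψ n hφ hσ hχ hlin
  have hTf : (aboveSet K N (S : Set (HeightOneSpectrum (𝓞 K)))).Finite :=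
    IND.aboveSet_finite _ S.finite_toSet
  have hT := hSTB K N (S : Set (HeightOneSpectrum (𝓞 K)))
  have hc := hTHC K N _ hT φ Θ hTf hφ
  have hb := hTHB K N _ φ Θ hTf hφ
  have hS' := fun i => IND.exists_S' (IntermediateField.fixedField (H i))
    (S : Set (HeightOneSpectrum (𝓞 K))) S.finite_toSet
  choose S' hS' using hS'
  have hst := fun i => IND.starkLinear_cast (liftChar (H i) (ψ i)) (hlin i) (S' i) _ (hS' i)
    φ Θ σ (IND.isPhiTheta_sub _ hφ)
  choose f f' hf hf' hE using hst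
  have hχ' : ∀ g, ρ'.character g = ∑ i, (n i : ℂ) * indFun (H i) (extZ (twist σ (ψ i))) g := by
    intro g
    rw [hσ g, hχ g, map_sum]
    refine Finset.sum_congr rfl fun i _ => ?_
    rw [map_mul, map_intCast, IND.twist_indFun]
  have hlift : ∀ i, twist σ (liftChar (H i) (ψ i)) = liftChar (H i) (twist σ (ψ i)) :=
    fun i => rfl
  refine ⟨fun z => ∏ i, f i z ^ n i, fun z => ∏ i, f' i z ^ n i, ?_, ?_, ?_⟩
  · refine IND.artin_comb hLA hLB hLI _ _ m H ψ n hχ (fun i => S' i) hS' f fun i => ?_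
    have := hf i
    rwa [IND.linRep_character] at this
  · refine IND.artin_comb hLA hLB hLI _ _ m H (fun i => twist σ (ψ i)) n hχ' (fun i => S' i) hS'
      f' fun i => ?_
    have := hf' i
    rwa [IND.linRep_character, hlift] at this
  · rw [IND.lead_comb n f fun i => (hf i).1 0, IND.lead_comb n f' fun i => (hf' i).1 0,
      IND.reg_comb hTRD hRGT hTf hT Θ hb hc V ρ m H ψ n hχ,
      IND.reg_comb hTRD hRGT hTf hT Θ hb hc V' ρ' m H (fun i => twist σ (ψ i)) n hχ',
      ← Finset.prod_div_distrib, ← Finset.prod_div_distrib, map_prod]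
    refine Finset.prod_congr rfl fun i _ => ?_
    rw [← div_zpow, ← div_zpow, map_zpow₀, hE i, hlift]

end StarkC
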