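import Pool.Agent.Stark.RStmts
import Pool.Agent.Stark.STB

/-!
# Decomposition groups: basic lemmas
-/

open NumberField IsDedekindDomain
open scoped Classical

namespace StarkC.RB

section One

variable {K N : Type} [Field K] [Field N] [NumberField N] [Algebra K N]

theorem mv_eq_iff (g : N ≃+* N) (w w' : HeightOneSpectrum (𝓞 N)) :
    STB.mv g w = w' ↔ ∀ x : 𝓞 N, x ∈ w.asIdeal → STB.oMap g x ∈ w'.asIdeal := by
  constructor
  · rintro rfl x hx
    rw [STB.mem_mv, RingEquiv.symm_apply_apply]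
    exact hx
  · intro h
    have h1 : (STB.mv g w).asIdeal ≤ w'.asIdeal := by
      intro x hx
      rw [STB.mem_mv] at hx
      have := h _ hx
      rwa [RingEquiv.apply_symm_apply] at this
    have h2 : (STB.mv g w).asIdeal = w'.asIdeal :=
      (STB.mv g w).isMaximal.eq_of_le w'.isPrime.ne_top h1
    exact HeightOneSpectrum.ext h2

theorem dec_iff (w : HeightOneSpectrum (𝓞 N)) (g : N ≃ₐ[K] N) :
    Dec w g ↔ STB.mv (g : N ≃+* N) w = w := by
  rw [mv_eq_iff]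
  constructor
  · intro h x hx
    exact h x (STB.oMap (g : N ≃+* N) x) rfl hx
  · intro h x y hy hx
    have : y = STB.oMap (g : N ≃+* N) x := RingOfIntegers.ext hy
    rw [this]
    exact h x hx

theorem dec_one (w : HeightOneSpectrum (𝓞 N)) : Dec w (1 : N ≃ₐ[K] N) := by
  intro x y hy hx
  have : y = x := RingOfIntegers.ext hy
  rwa [this]

theorem dec_mul {w : HeightOneSpectrum (𝓞 N)} {g h : N ≃ₐ[K] N} (hg : Dec w g) (hh : Dec w h) :
    Dec w (g * h : N ≃ₐ[K] N) := by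
  intro x y hy hx
  exact hg (STB.oMap (h : N ≃+* N) x) y hy (hh x _ rfl hx)

theorem dec_pow {w : HeightOneSpectrum (𝓞 N)} {g : N ≃ₐ[K] N} (hg : Dec w g) (n : ℕ) :
    Dec w (g ^ n : N ≃ₐ[K] N) := by
  induction n with
  | zero => rw [pow_zero]; exact dec_one w
  | succ n ih => rw [pow_succ]; exact dec_mul ih hg

theorem mv_one (w : HeightOneSpectrum (𝓞 N)) :
    STB.mv ((1 : N ≃ₐ[K] N) : N ≃+* N) w = w := (dec_iff w 1).1 (dec_one w)

theorem mv_mul (g h : N ≃ₐ[K] N) (w : HeightOneSpectrum (𝓞 N)) :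
    STB.mv ((g * h : N ≃ₐ[K] N) : N ≃+* N) w =
      STB.mv (g : N ≃+* N) (STB.mv (h : N ≃+* N) w) := by
  rw [mv_eq_iff]
  intro x hx
  have h1 := (mv_eq_iff (h : N ≃+* N) w _).1 rfl x hx
  exact (mv_eq_iff (g : N ≃+* N) _ _).1 rfl _ h1

theorem dec_inv {w : HeightOneSpectrum (𝓞 N)} {g : N ≃ₐ[K] N} (hg : Dec w g) :
    Dec w (g⁻¹ : N ≃ₐ[K] N) := by
  rw [dec_iff] at hg ⊢
  have h1 := mv_mul (g⁻¹) g w
  rw [inv_mul_cancel, mv_one, hg] at h1
  exact h1.symm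

theorem dec_of_frob {w : HeightOneSpectrum (𝓞 N)} {g : N ≃ₐ[K] N} (h : FrobPow N w 1 g) :
    Dec w g := by
  intro x y hy hx
  have h1 := h x y hy
  rw [pow_one] at h1
  have h2 := w.asIdeal.add_mem h1 hx
  rwa [sub_add_cancel] at h2

/-- conjugation -/
theorem dec_conj {w : HeightOneSpectrum (𝓞 N)} {g : N ≃ₐ[K] N} (hg : Dec w g) (x : N ≃ₐ[K] N) :
    Dec (STB.mv (x : N ≃+* N) w) (x * g * x⁻¹ : N ≃ₐ[K] N) := by
  rw [dec_iff] at hg ⊢
  rw [← mv_mul, inv_mul_cancel_right, mv_mul, hg]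

/-- an automorphism in the decomposition group preserves the valuation -/
theorem val_dec {w : HeightOneSpectrum (𝓞 N)} {g : N ≃ₐ[K] N} (hg : Dec w g) (y : N) :
    w.valuation N (g y) = w.valuation N y := by
  rw [dec_iff] at hg
  have h := STB.val_mv (g : N ≃+* N) w y
  rw [hg] at h
  exact h

end One

section Tower

variable {K L N : Type} [Field K] [Field L] [NumberField L] [Field N] [NumberField N]
  [Algebra K L] [Algebra K N] [Algebra L N] [IsScalarTower K L N] [Normal K L]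

omit [Normal K L] in
theorem mem_under (w : HeightOneSpectrum (𝓞 N)) (x : 𝓞 L) :
    x ∈ (w.under (𝓞 L)).asIdeal ↔ algebraMap (𝓞 L) (𝓞 N) x ∈ w.asIdeal := by
  rw [HeightOneSpectrum.under_asIdeal, Ideal.mem_comap]

theorem natCast_mem_under (w : HeightOneSpectrum (𝓞 N)) (p : ℕ) :
    (p : 𝓞 L) ∈ (w.under (𝓞 L)).asIdeal ↔ (p : 𝓞 N) ∈ w.asIdeal := by
  rw [mem_under, map_natCast]

theorem mv_under (g : N ≃ₐ[K] N) (w : HeightOneSpectrum (𝓞 N)) :
    (STB.mv (g : N ≃+* N) w).under (𝓞 L) =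
      STB.mv ((AlgEquiv.restrictNormalHom L g : L ≃ₐ[K] L) : L ≃+* L) (w.under (𝓞 L)) := by
  symm
  rw [mv_eq_iff]
  intro x hx
  rw [mem_under] at hx ⊢
  have h1 := (mv_eq_iff (g : N ≃+* N) w _).1 rfl _ hx
  have h2 : algebraMap (𝓞 L) (𝓞 N)
      (STB.oMap ((AlgEquiv.restrictNormalHom L g : L ≃ₐ[K] L) : L ≃+* L) x) =
      STB.oMap (g : N ≃+* N) (algebraMap (𝓞 L) (𝓞 N) x) := by
    apply RingOfIntegers.ext
    exact AlgEquiv.restrictNormal_commutes g L (x : L)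
  rw [h2]
  exact h1

theorem dec_restrict {w : HeightOneSpectrum (𝓞 N)} {g : N ≃ₐ[K] N} (hg : Dec w g) :
    Dec (w.under (𝓞 L)) (AlgEquiv.restrictNormalHom L g : L ≃ₐ[K] L) := by
  rw [dec_iff] at hg ⊢
  rw [← mv_under, hg]

theorem dec_of_under {w : HeightOneSpectrum (𝓞 N)} {x : N ≃ₐ[K] N}
    (h : (STB.mv (x : N ≃+* N) w).under (𝓞 L) = w.under (𝓞 L)) :
    Dec (w.under (𝓞 L)) (AlgEquiv.restrictNormalHom L x : L ≃ₐ[K] L) := by
  rw [dec_iff, ← mv_under, h]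

theorem frob_restrict {w : HeightOneSpectrum (𝓞 N)} {q : ℕ} {g : N ≃ₐ[K] N}
    (h : FrobPow N w q g) :
    FrobPow L (w.under (𝓞 L)) q (AlgEquiv.restrictNormalHom L g : L ≃ₐ[K] L) := by
  intro x y hy
  rw [mem_under]
  have h1 := h (algebraMap (𝓞 L) (𝓞 N) x) (algebraMap (𝓞 L) (𝓞 N) y) (by
    have h2 : ((algebraMap (𝓞 L) (𝓞 N) y : 𝓞 N) : N) = algebraMap L N (y : L) := rfl
    have h3 : ((algebraMap (𝓞 L) (𝓞 N) x : 𝓞 N) : N) = algebraMap L N (x : L) := rfl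
    rw [h2, h3, hy]
    exact AlgEquiv.restrictNormal_commutes g L (x : L))
  rw [map_sub, map_pow]
  exact h1

omit [Normal K L] in
/-- `under` in a tower -/
theorem under_under {L₁ : Type} [Field L₁] [NumberField L₁] [Algebra L L₁] [Algebra L₁ N]
    [IsScalarTower L L₁ N] (w : HeightOneSpectrum (𝓞 N)) :
    (w.under (𝓞 L₁)).under (𝓞 L) = w.under (𝓞 L) := by
  apply HeightOneSpectrum.ext
  ext x
  rw [mem_under, mem_under, mem_under]
  have : algebraMap (𝓞 L₁) (𝓞 N) (algebraMap (𝓞 L) (𝓞 L₁) x) = algebraMap (𝓞 L) (𝓞 N) x := by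
    apply RingOfIntegers.ext
    exact (IsScalarTower.algebraMap_apply L L₁ N (x : L)).symm
  rw [this]

omit [Normal K L] in
/-- the valuations of `L` and `N`: `v_w(x) = v_{w|L}(x)^e`, `e ≥ 1`, for `x ∈ L` -/
theorem val_liesOver (w : HeightOneSpectrum (𝓞 N)) : ∃ e : ℕ, 0 < e ∧ ∀ x : L,
    w.valuation N (algebraMap L N x) = (w.under (𝓞 L)).valuation L x ^ e := by
  have : w.asIdeal.LiesOver (w.under (𝓞 L)).asIdeal := ⟨rfl⟩
  refine ⟨(w.under (𝓞 L)).asIdeal.ramificationIdx' w.asIdeal, ?_, fun x => ?_⟩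
  · exact Nat.pos_of_ne_zero (Ideal.IsDedekindDomain.ramificationIdx'_ne_zero_of_liesOver w.asIdeal
      (w.under (𝓞 L)).ne_bot)
  · exact (HeightOneSpectrum.valuation_liesOver N (w.under (𝓞 L)) w x).symm

end Tower

end StarkC.RB
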