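import Pool.Agent.Stark.Stmts

/-!
# Brauer's induction theorem (monomial form), from Solomon's theorem and the case of
quasi-elementary groups
-/

open scoped Classical

namespace StarkC
namespace BRA

/-- the span of the monomial characters -/
noncomputable def MC (G : Type) [Group G] [Fintype G] : Submodule ℤ (G → ℂ) :=
  Submodule.span ℤ (Set.range fun P : (Σ H : Subgroup G, (H →* ℂˣ)) => indFun P.1 (extZ P.2))

lemma isMonComb_iff {G : Type} [Group G] [Fintype G] {f : G → ℂ} :
    IsMonComb f ↔ f ∈ MC G := by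
  constructor
  · rintro ⟨m, H, ψ, n, h⟩
    have h2 : f = ∑ i, n i • indFun (H i) (extZ (ψ i)) := by
      funext g
      rw [h g, Finset.sum_apply]
      refine Finset.sum_congr rfl fun i _ => ?_
      rw [Pi.smul_apply, zsmul_eq_mul]
    rw [h2]
    exact Submodule.sum_mem _ fun i _ =>
      Submodule.smul_mem _ _ (Submodule.subset_span ⟨⟨H i, ψ i⟩, rfl⟩)
  · intro h
    rw [MC, Finsupp.mem_span_range_iff_exists_finsupp] at h
    obtain ⟨c, hc⟩ := h
    refine ⟨c.support.card, fun i => (c.support.equivFin.symm i).1.1,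
      fun i => (c.support.equivFin.symm i).1.2, fun i => c (c.support.equivFin.symm i).1,
      fun g => ?_⟩
    rw [← hc, Finsupp.sum, Finset.sum_apply, ← Finset.sum_coe_sort,
      ← Equiv.sum_comp c.support.equivFin.symm]
    refine Finset.sum_congr rfl fun i _ => ?_
    rw [Pi.smul_apply, zsmul_eq_mul]

section

set_option linter.unusedSectionVars false

variable {G : Type} [Group G] [Fintype G]

lemma mul_indFun_one (H : Subgroup G) (χ : G → ℂ) (hχ : ∀ x g, χ (x⁻¹ * g * x) = χ g) (g : G) :
    χ g * indFun H (fun _ => 1) g = indFun H χ g := by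
  unfold indFun
  rw [mul_div_assoc', Finset.mul_sum]
  congr 1
  refine Finset.sum_congr rfl fun x _ => ?_
  split_ifs
  · rw [mul_one, hχ]
  · rw [mul_zero]

/-- extension by zero -/
noncomputable def ext0 (H : Subgroup G) (φ : H → ℂ) : G → ℂ :=
  fun g => if h : g ∈ H then φ ⟨g, h⟩ else 0

lemma indFun_ext0 (H : Subgroup G) (χ : G → ℂ) :
    indFun H (ext0 H (fun h => χ h)) = indFun H χ := by
  funext g
  unfold indFun
  congr 1
  refine Finset.sum_congr rfl fun x _ => ?_
  split_ifs with h
  · rw [ext0, dif_pos h]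
  · rfl

/-- `φ ↦ indFun H (ext0 H φ)` as a linear map -/
noncomputable def indL (H : Subgroup G) : (H → ℂ) →ₗ[ℤ] (G → ℂ) where
  toFun φ := indFun H (ext0 H φ)
  map_add' φ φ' := by
    funext g
    simp only [indFun, Pi.add_apply]
    rw [← add_div, ← Finset.sum_add_distrib]
    congr 1
    refine Finset.sum_congr rfl fun x _ => ?_
    split_ifs with h
    · rw [ext0, ext0, ext0, dif_pos h, dif_pos h, dif_pos h, Pi.add_apply]
    · rw [add_zero]
  map_smul' n φ := by
    funext g
    have e : ∀ x : G, ext0 H (n • φ) x = (n : ℂ) * ext0 H φ x := by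
      intro x
      unfold ext0
      split_ifs with h
      · rw [Pi.smul_apply, zsmul_eq_mul]
      · rw [mul_zero]
    simp only [indFun, Pi.smul_apply, RingHom.id_apply, e]
    rw [zsmul_eq_mul, mul_div_assoc', Finset.mul_sum]
    congr 1
    refine Finset.sum_congr rfl fun x _ => ?_
    split_ifs with h
    · rfl
    · rw [mul_zero]

/-- the transported linear character -/
noncomputable def psi' (H : Subgroup G) (K : Subgroup H) (ψ : K →* ℂˣ) :
    (K.map H.subtype) →* ℂˣ :=
  ψ.comp (K.equivMapOfInjective H.subtype H.subtype_injective).symm.toMonoidHom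

lemma extZ_psi' (H : Subgroup G) (K : Subgroup H) (ψ : K →* ℂˣ) (u : H) :
    extZ (psi' H K ψ) (u : G) = extZ ψ u := by
  unfold extZ
  by_cases hu : u ∈ K
  · have h2 : (u : G) ∈ K.map H.subtype := ⟨u, hu, rfl⟩
    rw [dif_pos hu, dif_pos h2]
    congr 1
    show ψ ((K.equivMapOfInjective H.subtype H.subtype_injective).symm ⟨(u : G), h2⟩) = ψ ⟨u, hu⟩
    congr 1
    rw [MulEquiv.symm_apply_eq]
    apply Subtype.ext
    rfl
  · have h2 : (u : G) ∉ K.map H.subtype := by
      rintro ⟨v, hv, hvu⟩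
      apply hu
      have : v = u := H.subtype_injective hvu
      rw [← this]
      exact hv
    rw [dif_neg hu, dif_neg h2]

lemma extZ_of_notMem (H : Subgroup G) (K : Subgroup H) (ψ : K →* ℂˣ) {g : G} (hg : g ∉ H) :
    extZ (psi' H K ψ) g = 0 := by
  unfold extZ
  rw [dif_neg]
  rintro ⟨v, hv, rfl⟩
  exact hg v.2

lemma ite_extZ {H : Subgroup G} (ψ : H →* ℂˣ) (g : G) :
    (if g ∈ H then extZ ψ g else 0) = extZ ψ g := by
  split_ifs with h
  · rfl
  · unfold extZ
    rw [dif_neg h]

lemma indFun_extZ {H : Subgroup G} (ψ : H →* ℂˣ) (g : G) :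
    indFun H (extZ ψ) g = (∑ x : G, extZ ψ (x⁻¹ * g * x)) / (Nat.card H : ℂ) := by
  unfold indFun
  congr 1
  exact Finset.sum_congr rfl fun x _ => ite_extZ ψ _

lemma indL_mon (H : Subgroup G) (K : Subgroup H) (ψ : K →* ℂˣ) :
    indL H (indFun K (extZ ψ)) = indFun (K.map H.subtype) (extZ (psi' H K ψ)) := by
  funext g
  rw [indFun_extZ]
  show indFun H (ext0 H (indFun K (extZ ψ))) g = _
  have hcard : Nat.card (K.map H.subtype) = Nat.card K :=
    Nat.card_congr (K.equivMapOfInjective H.subtype H.subtype_injective).symm.toEquiv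
  rw [hcard]
  unfold indFun
  have key : ∀ x : G, (if x⁻¹ * g * x ∈ H then
      ext0 H (fun g : H => (∑ y : H, if y⁻¹ * g * y ∈ K then extZ ψ (y⁻¹ * g * y) else 0) /
        (Nat.card K : ℂ)) (x⁻¹ * g * x) else 0) =
      (∑ y : H, extZ (psi' H K ψ) ((x * y)⁻¹ * g * (x * y))) / (Nat.card K : ℂ) := by
    intro x
    split_ifs with h
    · rw [ext0, dif_pos h]
      congr 1
      refine Finset.sum_congr rfl fun y _ => ?_
      rw [ite_extZ, ← extZ_psi']
      congr 1
      simp only [Subgroup.coe_mul, Subgroup.coe_inv, mul_inv_rev, mul_assoc]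
    · rw [Finset.sum_eq_zero, zero_div]
      intro y _
      apply extZ_of_notMem
      intro h2
      apply h
      have h3 := H.mul_mem (H.mul_mem y.2 h2) (H.inv_mem y.2)
      have h4 : (y : G) * ((x * y)⁻¹ * g * (x * y)) * (y : G)⁻¹ = x⁻¹ * g * x := by group
      rw [h4] at h3
      exact h3
  rw [Finset.sum_congr rfl fun x _ => key x, ← Finset.sum_div, Finset.sum_comm]
  have key2 : ∀ y : H, ∑ x : G, extZ (psi' H K ψ) ((x * y)⁻¹ * g * (x * y)) =
      ∑ x : G, extZ (psi' H K ψ) (x⁻¹ * g * x) := fun y =>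
    Equiv.sum_comp (Equiv.mulRight (y : G)) (fun x => extZ (psi' H K ψ) (x⁻¹ * g * x))
  rw [Finset.sum_congr rfl fun y _ => key2 y, Finset.sum_const, Finset.card_univ, nsmul_eq_mul,
    ← Nat.card_eq_fintype_card]
  have h0 : (Nat.card H : ℂ) ≠ 0 := by
    exact_mod_cast Nat.card_pos.ne'
  field_simp

lemma indL_mem (H : Subgroup G) {φ : H → ℂ} (h : φ ∈ MC H) : indL H φ ∈ MC G := by
  have h1 : MC H ≤ (MC G).comap (indL H) := by
    rw [MC, Submodule.span_le]
    rintro _ ⟨⟨K, ψ⟩, rfl⟩
    show indL H (indFun K (extZ ψ)) ∈ MC G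
    rw [indL_mon]
    exact Submodule.subset_span ⟨⟨K.map H.subtype, psi' H K ψ⟩, rfl⟩
  exact h1 h

end

end BRA

theorem BRA_thm (h1 : Stmt_SOL) (h2 : Stmt_MON) : Stmt_BRA := by
  intro G _ _ V _ _ _ ρ
  rw [BRA.isMonComb_iff]
  obtain ⟨m, H, n, hH, hn⟩ := h1 G
  have hcl : ∀ x g : G, ρ.character (x⁻¹ * g * x) = ρ.character g := by
    intro x g
    have := Representation.char_conj ρ g x⁻¹
    rwa [inv_inv] at this
  have hsum : ρ.character = ∑ i, n i • indFun (H i) ρ.character := by
    funext g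
    rw [Finset.sum_apply]
    calc ρ.character g = ρ.character g * 1 := (mul_one _).symm
      _ = ρ.character g * ∑ i, (n i : ℂ) * indFun (H i) (fun _ => 1) g := by rw [← hn g]
      _ = ∑ i, (n i • indFun (H i) ρ.character) g := by
        rw [Finset.mul_sum]
        refine Finset.sum_congr rfl fun i _ => ?_
        rw [Pi.smul_apply, zsmul_eq_mul, ← BRA.mul_indFun_one (H i) _ hcl]
        ring
  rw [hsum]
  refine Submodule.sum_mem _ fun i _ => Submodule.smul_mem _ _ ?_
  have h3 : IsMonComb (Representation.character (ρ.comp (H i).subtype)) :=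
    h2 (H i) V (ρ.comp (H i).subtype) (hH i)
  rw [BRA.isMonComb_iff] at h3
  have h4 := BRA.indL_mem (H i) h3
  have h5 : BRA.indL (H i) (Representation.character (ρ.comp (H i).subtype)) =
      indFun (H i) ρ.character := BRA.indFun_ext0 (H i) ρ.character
  rw [h5] at h4
  exact h4

end StarkC
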