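import Pool.Agent.Stark.Stmts

/-!
# Characters of quasi-elementary groups are monomial combinations

Module MON of the reduction of Stark's conjecture.
-/

open scoped Classical

namespace StarkC.MON

section span

/-- The functions on `G` induced from linear characters of subgroups. -/
def monoSet (G : Type) [Group G] [Fintype G] : Set (G → ℂ) :=
  {h | ∃ (H : Subgroup G) (ψ : H →* ℂˣ), h = indFun H (extZ ψ)}

/-- Integral combinations of monomial functions. -/
def MonC (G : Type) [Group G] [Fintype G] : Submodule ℤ (G → ℂ) := Submodule.span ℤ (monoSet G)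

variable {G : Type} [Group G] [Fintype G]

theorem isMonComb_of_mem {f : G → ℂ} (hf : f ∈ MonC G) : IsMonComb f := by
  obtain ⟨m, c, h, hh⟩ := Submodule.mem_span_set'.1 hf
  choose H ψ hH using fun i => (h i).2
  refine ⟨m, H, ψ, c, fun g => ?_⟩
  rw [← hh, Finset.sum_apply]
  refine Finset.sum_congr rfl fun i _ => ?_
  rw [Pi.smul_apply, hH i, zsmul_eq_mul]

theorem indFun_extZ (H : Subgroup G) (ψ : H →* ℂˣ) (g : G) :
    indFun H (extZ ψ) g = (∑ x : G, extZ ψ (x⁻¹ * g * x)) / (Nat.card H : ℂ) := by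
  unfold indFun
  congr 1
  refine Finset.sum_congr rfl fun x _ => ?_
  by_cases h : x⁻¹ * g * x ∈ H
  · rw [if_pos h]
  · rw [if_neg h, extZ, dif_neg h]

/-- Induction from a subgroup, for functions on the subgroup. -/
noncomputable def indL (H : Subgroup G) : (H → ℂ) →ₗ[ℤ] (G → ℂ) where
  toFun f := fun g =>
    (∑ x : G, if h : x⁻¹ * g * x ∈ H then f ⟨x⁻¹ * g * x, h⟩ else 0) / (Nat.card H : ℂ)
  map_add' f f' := by
    funext g
    rw [Pi.add_apply, ← add_div, ← Finset.sum_add_distrib]
    congr 1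
    refine Finset.sum_congr rfl fun x _ => ?_
    split_ifs <;> simp
  map_smul' c f := by
    funext g
    show (∑ x : G, if h : x⁻¹ * g * x ∈ H then c • f ⟨x⁻¹ * g * x, h⟩ else 0) /
      (Nat.card H : ℂ) = c • ((∑ x : G, if h : x⁻¹ * g * x ∈ H then f ⟨x⁻¹ * g * x, h⟩ else 0) /
      (Nat.card H : ℂ))
    rw [zsmul_eq_mul, mul_div_assoc', Finset.mul_sum]
    congr 1
    refine Finset.sum_congr rfl fun x _ => ?_
    split_ifs <;> simp

theorem indL_apply (H : Subgroup G) (f : H → ℂ) (g : G) : indL H f g =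
    (∑ x : G, if h : x⁻¹ * g * x ∈ H then f ⟨x⁻¹ * g * x, h⟩ else 0) / (Nat.card H : ℂ) := rfl

/-- Transport of a linear character. -/
noncomputable def tr {H : Subgroup G} (K : Subgroup H) (ψ : K →* ℂˣ) :
    (K.map H.subtype) →* ℂˣ :=
  ψ.comp (K.equivMapOfInjective H.subtype H.subtype_injective).symm.toMonoidHom

omit [Fintype G] in
theorem extZ_tr {H : Subgroup G} (K : Subgroup H) (ψ : K →* ℂˣ) (z : H) :
    extZ (tr K ψ) (z : G) = extZ ψ z := by
  by_cases hz : z ∈ K
  · have h1 : (z : G) ∈ K.map H.subtype := ⟨z, hz, rfl⟩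
    rw [extZ, dif_pos h1, extZ, dif_pos hz]
    have h2 : (K.equivMapOfInjective H.subtype H.subtype_injective).symm ⟨(z : G), h1⟩ =
        ⟨z, hz⟩ := by
      rw [MulEquiv.symm_apply_eq]
      rfl
    show ((ψ ((K.equivMapOfInjective H.subtype H.subtype_injective).symm ⟨(z : G), h1⟩) : ℂˣ) : ℂ)
      = _
    rw [h2]
  · have h1 : (z : G) ∉ K.map H.subtype := by
      rintro ⟨w, hw, hwz⟩
      apply hz
      have : w = z := H.subtype_injective hwz
      rw [← this]
      exact hw
    rw [extZ, dif_neg h1, extZ, dif_neg hz]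

omit [Fintype G] in
theorem extZ_tr_of_notMem {H : Subgroup G} (K : Subgroup H) (ψ : K →* ℂˣ) {z : G} (hz : z ∉ H) :
    extZ (tr K ψ) z = 0 := by
  have h1 : z ∉ K.map H.subtype := by
    rintro ⟨w, _, hwz⟩
    apply hz
    rw [← hwz]
    exact w.2
  rw [extZ, dif_neg h1]

theorem indL_indFun (H : Subgroup G) (K : Subgroup H) (ψ : K →* ℂˣ) :
    indL H (indFun K (extZ ψ)) = indFun (K.map H.subtype) (extZ (tr K ψ)) := by
  funext g
  rw [indL_apply, indFun_extZ]
  have hcard : Nat.card (K.map H.subtype) = Nat.card K :=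
    Nat.card_congr (K.equivMapOfInjective H.subtype H.subtype_injective).symm.toEquiv
  have hH : (Nat.card H : ℂ) ≠ 0 := by
    exact_mod_cast Nat.card_pos.ne'
  have hK : (Nat.card K : ℂ) ≠ 0 := by
    exact_mod_cast Nat.card_pos.ne'
  have h1 : ∀ x : G, (if h : x⁻¹ * g * x ∈ H then
      indFun K (extZ ψ) ⟨x⁻¹ * g * x, h⟩ else 0) =
      (∑ y : H, extZ (tr K ψ) ((x * y)⁻¹ * g * (x * y))) / (Nat.card K : ℂ) := by
    intro x
    by_cases h : x⁻¹ * g * x ∈ H
    · rw [dif_pos h, indFun_extZ]
      congr 1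
      refine Finset.sum_congr rfl fun y _ => ?_
      rw [← extZ_tr]
      congr 1
      simp only [Subgroup.coe_mul, InvMemClass.coe_inv, mul_inv_rev]
      group
    · rw [dif_neg h]
      symm
      rw [Finset.sum_eq_zero, zero_div]
      intro y _
      apply extZ_tr_of_notMem
      intro h2
      apply h
      have h3 : x⁻¹ * g * x = y * ((x * y)⁻¹ * g * (x * y)) * (y : G)⁻¹ := by group
      rw [h3]
      exact H.mul_mem (H.mul_mem y.2 h2) (H.inv_mem y.2)
  rw [Finset.sum_congr rfl fun x _ => h1 x, ← Finset.sum_div, Finset.sum_comm]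
  have h2 : ∀ y : H, ∑ x : G, extZ (tr K ψ) ((x * y)⁻¹ * g * (x * y)) =
      ∑ x : G, extZ (tr K ψ) (x⁻¹ * g * x) := fun y =>
    Fintype.sum_equiv (Equiv.mulRight (y : G)) _ _ fun x => rfl
  rw [Finset.sum_congr rfl fun y _ => h2 y, Finset.sum_const, Finset.card_univ, nsmul_eq_mul,
    hcard, ← Nat.card_eq_fintype_card]
  field_simp

theorem indL_mem (H : Subgroup G) {f : H → ℂ} (hf : f ∈ MonC H) : indL H f ∈ MonC G := by
  have h : Submodule.map (indL H) (MonC H) ≤ MonC G := by
    unfold MonC
    rw [Submodule.map_span_le]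
    rintro _ ⟨K, ψ, rfl⟩
    rw [indL_indFun]
    exact Submodule.subset_span ⟨_, _, rfl⟩
  exact h ⟨f, hf, rfl⟩

end span

section qe

theorem qe_subgroup {G : Type} [Group G] [Finite G] (h : IsQuasiElem G) (H : Subgroup G) :
    IsQuasiElem H := by
  obtain ⟨p, C, hp, hC, hcyc, hcop, n, hn⟩ := h
  refine ⟨p, C.subgroupOf H, hp, inferInstance, ?_, ?_, ?_⟩
  · have := hcyc
    let f : C.subgroupOf H →* C :=
      { toFun := fun x => ⟨((x : H) : G), x.2⟩
        map_one' := rfl
        map_mul' := fun _ _ => rfl }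
    refine isCyclic_of_injective f ?_
    intro x y hxy
    apply Subtype.ext
    apply Subtype.ext
    exact congrArg (fun z : C => (z : G)) hxy
  · intro hdvd
    apply hcop
    refine hdvd.trans ?_
    let f : C.subgroupOf H →* C :=
      { toFun := fun x => ⟨((x : H) : G), x.2⟩
        map_one' := rfl
        map_mul' := fun _ _ => rfl }
    refine Subgroup.card_dvd_of_injective f ?_
    intro x y hxy
    apply Subtype.ext
    apply Subtype.ext
    exact congrArg (fun z : C => (z : G)) hxy
  · have h1 : (C.subgroupOf H).index ∣ C.index := Subgroup.relIndex_dvd_index_of_normal C H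
    rw [hn] at h1
    obtain ⟨k, _, hk⟩ := (Nat.dvd_prime_pow hp).1 h1
    exact ⟨k, hk⟩

end qe

section reps

variable {G : Type} [Group G]
variable {V : Type} [AddCommGroup V] [Module ℂ V]

/-- The representation of a subgroup `H` on an `H`-stable subspace. -/
noncomputable def sub (ρ : Representation ℂ G V) (H : Subgroup G) (W : Submodule ℂ V)
    (hW : ∀ g ∈ H, ∀ v ∈ W, ρ g v ∈ W) : Representation ℂ H W where
  toFun g := (ρ (g : G)).restrict (hW g g.2)
  map_one' := by
    ext v
    show (ρ ((1 : H) : G)) (v : V) = v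
    simp
  map_mul' g h := by
    ext v
    show (ρ ((g * h : H) : G)) (v : V) = ρ (g : G) (ρ (h : G) (v : V))
    simp

/-- The representation of `G` on a `G`-stable subspace. -/
noncomputable def subG (ρ : Representation ℂ G V) (W : Submodule ℂ V)
    (hW : ∀ g, ∀ v ∈ W, ρ g v ∈ W) : Representation ℂ G W where
  toFun g := (ρ (g : G)).restrict (hW g)
  map_one' := by
    ext v
    show (ρ (1 : G)) (v : V) = v
    simp
  map_mul' g h := by
    ext v
    show (ρ (g * h)) (v : V) = ρ (g : G) (ρ (h : G) (v : V))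
    simp

theorem exists_compl [Fintype G] (ρ : Representation ℂ G V) (W : Submodule ℂ V)
    (hW : ∀ g, ∀ v ∈ W, ρ g v ∈ W) :
    ∃ W' : Submodule ℂ V, (∀ g, ∀ v ∈ W', ρ g v ∈ W') ∧ IsCompl W W' := by
  have : NeZero (Nat.card G : ℂ) := ⟨by exact_mod_cast Nat.card_pos.ne'⟩
  have hss : Representation.IsSemisimpleRepresentation ρ := inferInstance
  obtain ⟨σ, hσ⟩ := hss.exists_isCompl ⟨W, fun g v hv => hW g v hv⟩
  refine ⟨σ.toSubmodule, fun g v hv => σ.apply_mem_toSubmodule g hv, ?_⟩
  rw [isCompl_iff, disjoint_iff, codisjoint_iff] at hσ ⊢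
  constructor
  · have := congrArg Subrepresentation.toSubmodule hσ.1
    rw [Subrepresentation.toSubmodule_inf] at this
    exact this
  · have := congrArg Subrepresentation.toSubmodule hσ.2
    rw [Subrepresentation.toSubmodule_sup] at this
    exact this

theorem trace_add [Module.Finite ℂ V] (f : V →ₗ[ℂ] V) (W W' : Submodule ℂ V) (h : IsCompl W W')
    (hW : ∀ v ∈ W, f v ∈ W) (hW' : ∀ v ∈ W', f v ∈ W') :
    LinearMap.trace ℂ V f =
      LinearMap.trace ℂ W (f.restrict hW) + LinearMap.trace ℂ W' (f.restrict hW') := by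
  have hint : DirectSum.IsInternal (fun b : Bool => bif b then W else W') := by
    rw [DirectSum.isInternal_submodule_iff_isCompl (i := true) (j := false) _ (by simp)
      (by ext b; cases b <;> simp)]
    exact h
  have hm : ∀ b : Bool, Set.MapsTo f ((bif b then W else W' : Submodule ℂ V) : Set V)
      ((bif b then W else W' : Submodule ℂ V) : Set V) := by
    intro b
    cases b
    · exact fun v hv => hW' v hv
    · exact fun v hv => hW v hv
  rw [LinearMap.trace_eq_sum_trace_restrict hint hm, Fintype.sum_bool]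
  rfl

/-- `ρ g` is a scalar. -/
def IsScal (ρ : Representation ℂ G V) (g : G) : Prop := ∃ c : ℂ, ∀ v, ρ g v = c • v

theorem pow_apply_eigen (ρ : Representation ℂ G V) {a : G} {l : ℂ} {v : V}
    (h : ρ a v = l • v) (k : ℕ) : ρ (a ^ k) v = l ^ k • v := by
  induction k with
  | zero => simp
  | succ k ih =>
    rw [pow_succ, map_mul, Module.End.mul_apply, h, map_smul, ih, smul_smul, pow_succ, mul_comm]

/-- The subgroup of elements acting as scalars. -/
def scalSub (ρ : Representation ℂ G V) : Subgroup G where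
  carrier := {g | IsScal ρ g}
  one_mem' := ⟨1, fun v => by simp⟩
  mul_mem' := by
    rintro g h ⟨c, hc⟩ ⟨d, hd⟩
    refine ⟨c * d, fun v => ?_⟩
    rw [map_mul, Module.End.mul_apply, hd, map_smul, hc, smul_smul, mul_comm]
  inv_mem' := by
    rintro g ⟨c, hc⟩
    by_cases h0 : c = 0
    · have hV : ∀ v : V, v = 0 := by
        intro v
        have h1 : ρ g v = 0 := by rw [hc, h0, zero_smul]
        have h2 : ρ g⁻¹ (ρ g v) = v := by
          rw [← Module.End.mul_apply, ← map_mul, inv_mul_cancel, map_one, Module.End.one_apply]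
        rw [← h2, h1, map_zero]
      exact ⟨0, fun v => by rw [hV v, map_zero, smul_zero]⟩
    · refine ⟨c⁻¹, fun v => ?_⟩
      have h2 : ρ g⁻¹ (ρ g v) = v := by
        rw [← Module.End.mul_apply, ← map_mul, inv_mul_cancel, map_one, Module.End.one_apply]
      rw [hc, map_smul] at h2
      rw [eq_inv_smul_iff₀ h0]
      exact h2

theorem scalSub_normal (ρ : Representation ℂ G V) : (scalSub ρ).Normal := by
  refine ⟨?_⟩
  rintro g ⟨c, hc⟩ h
  refine ⟨c, fun v => ?_⟩
  rw [map_mul, map_mul, Module.End.mul_apply, Module.End.mul_apply, hc, map_smul,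
    ← Module.End.mul_apply, ← map_mul, mul_inv_cancel, map_one, Module.End.one_apply]

/-- The element whose eigenspaces are permuted. -/
theorem exists_elt [Finite G] (hG : IsQuasiElem G) (ρ : Representation ℂ G V)
    (hns : ¬ ∀ g, IsScal ρ g) :
    ∃ a : G, ¬ IsScal ρ a ∧ ∀ (y : G) (l : ℂ), ∃ m : ℂ, ∀ v, ρ a v = l • v →
      ρ (y⁻¹ * a * y) v = m • v := by
  obtain ⟨p, C, hp, hC, hcyc, hcop, n, hn⟩ := hG
  obtain ⟨c0, hc0⟩ := hcyc.exists_generator
  by_cases h0 : IsScal ρ (c0 : G)
  · have hCle : C ≤ scalSub ρ := by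
      intro x hx
      obtain ⟨k, hk⟩ := Subgroup.mem_zpowers_iff.1 (hc0 ⟨x, hx⟩)
      have h1 : (c0 : G) ^ k = x := by
        have := congrArg (fun z : C => (z : G)) hk
        simpa using this
      rw [← h1]
      exact (scalSub ρ).zpow_mem h0 k
    have hidx : (scalSub ρ).index ∣ p ^ n := by
      rw [← hn]
      exact Subgroup.index_dvd_of_le hCle
    obtain ⟨k, _, hk⟩ := (Nat.dvd_prime_pow hp).1 hidx
    have hnorm := scalSub_normal ρ
    have hpf : Fact p.Prime := ⟨hp⟩
    have hpg : IsPGroup p (G ⧸ scalSub ρ) := by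
      apply IsPGroup.of_card (n := k)
      rw [← hk]
      rfl
    have hnt : Nontrivial (G ⧸ scalSub ρ) := by
      rw [QuotientGroup.nontrivial_iff]
      intro htop
      apply hns
      intro g
      have : g ∈ scalSub ρ := by rw [htop]; trivial
      exact this
    have hcen := hpg.center_nontrivial
    obtain ⟨z, hz⟩ := exists_ne (1 : Subgroup.center (G ⧸ scalSub ρ))
    obtain ⟨a, ha⟩ := QuotientGroup.mk_surjective (z : G ⧸ scalSub ρ)
    refine ⟨a, ?_, ?_⟩
    · intro hsc
      apply hz
      apply Subtype.ext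
      rw [← ha]
      exact (QuotientGroup.eq_one_iff a).2 hsc
    · intro y l
      have h1 : a⁻¹ * (y⁻¹ * a * y) ∈ scalSub ρ := by
        rw [← QuotientGroup.eq_one_iff]
        have h2 : ∀ q : G ⧸ scalSub ρ, q * (a : G ⧸ scalSub ρ) = a * q := by
          rw [ha]
          exact fun q => Subgroup.mem_center_iff.1 z.2 q
        have h3 := h2 (y⁻¹ : G)
        rw [QuotientGroup.mk_mul, QuotientGroup.mk_mul, QuotientGroup.mk_mul, QuotientGroup.mk_inv,
          h3, QuotientGroup.mk_inv]
        group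
      obtain ⟨c, hc⟩ := h1
      refine ⟨c * l, fun v hv => ?_⟩
      have h4 : y⁻¹ * a * y = a * (a⁻¹ * (y⁻¹ * a * y)) := by group
      rw [h4, map_mul, Module.End.mul_apply, hc, map_smul, hv, smul_smul]
  · refine ⟨c0, h0, fun y l => ?_⟩
    have h1 : y⁻¹ * c0 * y ∈ C := by
      have := hC.conj_mem c0 c0.2 y⁻¹
      rwa [inv_inv] at this
    have h2 := hc0 ⟨_, h1⟩
    rw [← mem_powers_iff_mem_zpowers] at h2
    obtain ⟨k, hk⟩ := h2
    have h3 : (c0 : G) ^ k = y⁻¹ * c0 * y := by
      have := congrArg (fun z : C => (z : G)) hk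
      simpa using this
    refine ⟨l ^ k, fun v hv => ?_⟩
    rw [← h3]
    exact pow_apply_eigen ρ hv k

end reps

section avg

variable {G : Type} [Group G]
variable {V : Type} [AddCommGroup V] [Module ℂ V]

/-- The projection to an eigenspace of `ρ a`. -/
theorem exists_proj [Finite G] (ρ : Representation ℂ G V) (a : G) (l : ℂ) (w : V) (hw0 : w ≠ 0)
    (hw : ρ a w = l • w) :
    ∃ P : Module.End ℂ V, (∀ v, ρ a (P v) = l • P v) ∧ (∀ v, ρ a v = l • v → P v = v) ∧
      (∀ v m, m ≠ l → ρ a v = m • v → P v = 0) := by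
  have hN : 0 < orderOf a := orderOf_pos a
  have hlN : l ^ orderOf a = 1 := by
    have h1 := pow_apply_eigen ρ hw (orderOf a)
    rw [pow_orderOf_eq_one, map_one, Module.End.one_apply] at h1
    have h2 : (l ^ orderOf a - 1) • w = 0 := by
      rw [sub_smul, one_smul, ← h1, sub_self]
    rcases smul_eq_zero.1 h2 with h3 | h3
    · exact sub_eq_zero.1 h3
    · exact absurd h3 hw0
  have hl0 : l ≠ 0 := by
    rintro rfl
    rw [zero_pow hN.ne'] at hlN
    exact zero_ne_one hlN
  have hqN : (l⁻¹ • ρ a : Module.End ℂ V) ^ orderOf a = 1 := by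
    rw [smul_pow, ← map_pow, pow_orderOf_eq_one, map_one, inv_pow, hlN, inv_one, one_smul]
  have hNC : ((orderOf a : ℕ) : ℂ) ≠ 0 := by exact_mod_cast hN.ne'
  refine ⟨(orderOf a : ℂ)⁻¹ • ∑ j ∈ Finset.range (orderOf a),
    (l⁻¹ • ρ a : Module.End ℂ V) ^ j, ?_, ?_, ?_⟩
  · intro v
    have h1 := mul_geom_sum (l⁻¹ • ρ a : Module.End ℂ V) (orderOf a)
    rw [hqN, sub_self] at h1
    have h2 := congrArg (fun f : Module.End ℂ V => f v) h1
    simp only [Module.End.mul_apply, LinearMap.sub_apply, Module.End.one_apply,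
      LinearMap.zero_apply, LinearMap.smul_apply] at h2
    rw [sub_eq_zero, inv_smul_eq_iff₀ hl0] at h2
    rw [LinearMap.smul_apply, map_smul, h2, smul_comm]
  · intro v hv
    have h1 : ∀ j : ℕ, ((l⁻¹ • ρ a : Module.End ℂ V) ^ j) v = v := by
      intro j
      induction j with
      | zero => simp
      | succ j ih =>
        rw [pow_succ, Module.End.mul_apply, LinearMap.smul_apply, hv, inv_smul_smul₀ hl0, ih]
    rw [LinearMap.smul_apply, LinearMap.sum_apply, Finset.sum_congr rfl fun j _ => h1 j,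
      Finset.sum_const, Finset.card_range, ← Nat.cast_smul_eq_nsmul ℂ, inv_smul_smul₀ hNC]
  · intro v m hm hv
    have h1 := geom_sum_mul (l⁻¹ • ρ a : Module.End ℂ V) (orderOf a)
    rw [hqN, sub_self] at h1
    have h2 := congrArg (fun f : Module.End ℂ V => f v) h1
    simp only [Module.End.mul_apply, LinearMap.sub_apply, Module.End.one_apply,
      LinearMap.zero_apply, LinearMap.smul_apply] at h2
    rw [hv, smul_smul] at h2
    have h3 : (l⁻¹ * m) • v - v = (l⁻¹ * m - 1) • v := by rw [sub_smul, one_smul]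
    rw [h3, map_smul] at h2
    rcases smul_eq_zero.1 h2 with h4 | h4
    · exfalso
      apply hm
      rw [sub_eq_zero, inv_mul_eq_one₀ hl0] at h4
      exact h4.symm
    · rw [LinearMap.smul_apply, h4, smul_zero]

/-- The stabiliser of a subspace. -/
def stab [Finite G] (ρ : Representation ℂ G V) (W : Submodule ℂ V) : Subgroup G where
  carrier := {y | ∀ v ∈ W, ρ y v ∈ W}
  one_mem' := fun v hv => by
    rw [map_one]
    exact hv
  mul_mem' := by
    intro x y hx hy v hv
    rw [map_mul, Module.End.mul_apply]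
    exact hx _ (hy v hv)
  inv_mem' := by
    intro y hy
    have h1 : y⁻¹ ∈ Subgroup.zpowers y := (Subgroup.zpowers y).inv_mem (Subgroup.mem_zpowers y)
    rw [← mem_powers_iff_mem_zpowers] at h1
    obtain ⟨k, hk⟩ := h1
    have h2 : ∀ j : ℕ, ∀ v ∈ W, ρ (y ^ j) v ∈ W := by
      intro j
      induction j with
      | zero => intro v hv; simpa using hv
      | succ j ih =>
        intro v hv
        rw [pow_succ, map_mul, Module.End.mul_apply]
        exact ih _ (hy v hv)
    intro v hv
    have h3 : y ^ k = y⁻¹ := hk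
    rw [← h3]
    exact h2 k v hv

theorem mem_stab [Finite G] (ρ : Representation ℂ G V) (W : Submodule ℂ V) (y : G) :
    y ∈ stab ρ W ↔ ∀ v ∈ W, ρ y v ∈ W := Iff.rfl

theorem sum_mem_card [Fintype G] (H : Subgroup G) (v : V) :
    (∑ x : G, if x ∈ H then v else 0) = (Nat.card H : ℂ) • v := by
  rw [← Finset.sum_filter, Finset.sum_const, Nat.cast_smul_eq_nsmul, Nat.card_eq_fintype_card,
    Fintype.card_subtype]

theorem avg [Fintype G] [Module.Finite ℂ V] (ρ : Representation ℂ G V)
    (hirr : ∀ W : Submodule ℂ V, (∀ g, ∀ v ∈ W, ρ g v ∈ W) → W = ⊥ ∨ W = ⊤) (a : G)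
    (ha : ¬ IsScal ρ a)
    (hy : ∀ (y : G) (l : ℂ), ∃ m : ℂ, ∀ v, ρ a v = l • v → ρ (y⁻¹ * a * y) v = m • v) :
    ∃ (H : Subgroup G) (W : Submodule ℂ V) (hW : ∀ g ∈ H, ∀ v ∈ W, ρ g v ∈ W), H ≠ ⊤ ∧
      ρ.character = indL H (sub ρ H W hW).character := by
  have hnt : Nontrivial V := by
    by_contra h
    rw [not_nontrivial_iff_subsingleton] at h
    exact ha ⟨0, fun v => Subsingleton.elim _ _⟩
  obtain ⟨l, hl⟩ := Module.End.exists_eigenvalue (ρ a)
  obtain ⟨w, hw⟩ := hl.exists_hasEigenvector
  have hw0 : w ≠ 0 := hw.2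
  have hwe : ρ a w = l • w := hw.apply_eq_smul
  obtain ⟨P, hP1, hP2, hP3⟩ := exists_proj ρ a l w hw0 hwe
  have hmem : ∀ v, v ∈ Module.End.eigenspace (ρ a) l ↔ ρ a v = l • v := fun v =>
    Module.End.mem_eigenspace_iff
  generalize Module.End.eigenspace (ρ a) l = W at hmem
  have hWbot : W ≠ ⊥ := by
    intro h
    have : w ∈ W := (hmem w).2 hwe
    rw [h, Submodule.mem_bot] at this
    exact hw0 this
  have hWtop : W ≠ ⊤ := by
    intro h
    apply ha
    refine ⟨l, fun v => ?_⟩
    rw [← hmem, h]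
    trivial
  have hPmem : ∀ v, P v ∈ W := fun v => (hmem _).2 (hP1 v)
  have hPid : ∀ v ∈ W, P v = v := fun v hv => hP2 v ((hmem v).1 hv)
  have hout : ∀ y, y ∉ stab ρ W → ∀ v ∈ W, P (ρ y v) = 0 := by
    intro y hyn v hv
    obtain ⟨m, hm⟩ := hy y l
    have h1 : ∀ u ∈ W, ρ a (ρ y u) = m • ρ y u := by
      intro u hu
      have h2 := hm u ((hmem u).1 hu)
      rw [← map_smul, ← h2, ← Module.End.mul_apply, ← Module.End.mul_apply, ← map_mul, ← map_mul]
      congr 2
      group
    by_cases hml : m = l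
    · exfalso
      apply hyn
      rw [mem_stab]
      intro u hu
      rw [hmem, ← hml]
      exact h1 u hu
    · exact hP3 _ m hml (h1 v hv)
  refine ⟨stab ρ W, W, fun g hg => (mem_stab ρ W g).1 hg, ?_, ?_⟩
  · intro htop
    rcases hirr W (fun g => (mem_stab ρ W g).1 (by rw [htop]; trivial)) with h | h
    · exact hWbot h
    · exact hWtop h
  · -- the averaged projection
    set T : Module.End ℂ V := ∑ x : G, ρ x * P * ρ x⁻¹ with hT
    have hcomm : ∀ g, ρ g * T = T * ρ g := by
      intro g
      rw [hT, Finset.mul_sum, Finset.sum_mul]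
      refine Fintype.sum_equiv (Equiv.mulLeft g) _ _ fun x => ?_
      show ρ g * (ρ x * P * ρ x⁻¹) = ρ (g * x) * P * ρ (g * x)⁻¹ * ρ g
      rw [mul_assoc (ρ (g * x) * P), ← map_mul, mul_inv_rev, inv_mul_cancel_right, map_mul]
      simp only [mul_assoc]
    have hTW : ∀ v ∈ W, T v = (Nat.card (stab ρ W) : ℂ) • v := by
      intro v hv
      rw [hT, LinearMap.sum_apply, ← sum_mem_card]
      refine Finset.sum_congr rfl fun x _ => ?_
      rw [Module.End.mul_apply, Module.End.mul_apply]
      split_ifs with hx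
      · rw [hPid _ ((mem_stab ρ W _).1 ((stab ρ W).inv_mem hx) v hv), ← Module.End.mul_apply,
          ← map_mul, mul_inv_cancel, map_one, Module.End.one_apply]
      · rw [hout x⁻¹ (fun h => hx (by simpa using (stab ρ W).inv_mem h)) v hv, map_zero]
    have hTall : ∀ v, T v = (Nat.card (stab ρ W) : ℂ) • v := by
      have h1 := hirr (LinearMap.ker (T - (Nat.card (stab ρ W) : ℂ) • (1 : Module.End ℂ V))) (by
        intro g v hv
        rw [LinearMap.mem_ker, LinearMap.sub_apply, LinearMap.smul_apply, Module.End.one_apply,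
          sub_eq_zero] at hv ⊢
        rw [← Module.End.mul_apply, ← hcomm, Module.End.mul_apply, hv, map_smul])
      rcases h1 with h1 | h1
      · exfalso
        have h2 : w ∈ LinearMap.ker (T - (Nat.card (stab ρ W) : ℂ) • (1 : Module.End ℂ V)) := by
          rw [LinearMap.mem_ker, LinearMap.sub_apply, LinearMap.smul_apply, Module.End.one_apply,
            sub_eq_zero]
          exact hTW w ((hmem w).2 hwe)
        rw [h1, Submodule.mem_bot] at h2
        exact hw0 h2
      · intro v
        have h2 : v ∈ LinearMap.ker (T - (Nat.card (stab ρ W) : ℂ) • (1 : Module.End ℂ V)) := by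
          rw [h1]
          trivial
        rw [LinearMap.mem_ker, LinearMap.sub_apply, LinearMap.smul_apply, Module.End.one_apply,
            sub_eq_zero] at h2
        exact h2
    have htr : ∀ y, LinearMap.trace ℂ V (ρ y * P) = if h : y ∈ stab ρ W then
        (sub ρ (stab ρ W) W (fun g hg => (mem_stab ρ W g).1 hg)).character ⟨y, h⟩ else 0 := by
      intro y
      split_ifs with hyH
      · rw [← LinearMap.trace_restrict_eq_of_forall_mem W (ρ y * P)
          (fun v => (mem_stab ρ W y).1 hyH _ (hPmem v))]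
        show _ = LinearMap.trace ℂ W _
        congr 1
        ext v
        show ρ y (P (v : V)) = ρ y (v : V)
        rw [hPid _ v.2]
      · have hPP : P * P = P := by
          ext v
          exact hPid _ (hPmem v)
        rw [← hPP, ← mul_assoc, LinearMap.trace_mul_comm]
        have h0 : P * (ρ y * P) = 0 := by
          ext v
          exact hout y hyH _ (hPmem v)
        rw [h0, map_zero]
    funext g
    have hc : (Nat.card (stab ρ W) : ℂ) ≠ 0 := by exact_mod_cast Nat.card_pos.ne'
    rw [indL_apply, eq_div_iff hc]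
    have h1 : T * ρ g = (Nat.card (stab ρ W) : ℂ) • ρ g := by
      ext v
      exact hTall _
    have h2 := congrArg (LinearMap.trace ℂ V) h1
    rw [map_smul, smul_eq_mul] at h2
    show LinearMap.trace ℂ V (ρ g) * _ = _
    rw [mul_comm, ← h2, hT, Finset.sum_mul, map_sum]
    refine Finset.sum_congr rfl fun x _ => ?_
    rw [← htr, mul_assoc (ρ x * P), ← map_mul, LinearMap.trace_mul_comm, ← mul_assoc, ← map_mul]

end avg

section main

variable {G : Type} [Group G] [Fintype G]
variable {V : Type} [AddCommGroup V] [Module ℂ V] [Module.Finite ℂ V]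

omit [Fintype G] in
theorem character_eq_zero (ρ : Representation ℂ G V) (h : Module.finrank ℂ V = 0) :
    ρ.character = 0 := by
  funext g
  have h0 : Subsingleton V := Module.finrank_zero_iff.1 h
  show LinearMap.trace ℂ V (ρ g) = 0
  have : ρ g = 0 := by
    ext v
    exact Subsingleton.elim _ _
  rw [this, map_zero]

theorem scalar_case (ρ : Representation ℂ G V)
    (hirr : ∀ W : Submodule ℂ V, (∀ g, ∀ v ∈ W, ρ g v ∈ W) → W = ⊥ ∨ W = ⊤)
    (hsc : ∀ g, IsScal ρ g) : ρ.character ∈ MonC G := by
  by_cases hV : Module.finrank ℂ V = 0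
  · rw [character_eq_zero ρ hV]
    exact Submodule.zero_mem _
  choose c hc using hsc
  have hnt : Nontrivial V := by
    by_contra h
    rw [not_nontrivial_iff_subsingleton] at h
    exact hV (Module.finrank_zero_iff.2 h)
  obtain ⟨v, hv⟩ := exists_ne (0 : V)
  have h1 : Module.finrank ℂ V = 1 := by
    rcases hirr (Submodule.span ℂ {v}) (by
      intro g u hu
      rw [hc]
      exact Submodule.smul_mem _ _ hu) with h | h
    · exfalso
      rw [Submodule.span_singleton_eq_bot] at h
      exact hv h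
    · rw [← finrank_top, ← h, finrank_span_singleton hv]
  have hinj : ∀ x y : ℂ, x • v = y • v → x = y := fun x y hxy => by
    have h2 : (x - y) • v = 0 := by rw [sub_smul, hxy, sub_self]
    rcases smul_eq_zero.1 h2 with h3 | h3
    · exact sub_eq_zero.1 h3
    · exact absurd h3 hv
  let χ : G →* ℂ :=
    { toFun := c
      map_one' := by
        apply hinj
        rw [← hc, map_one, Module.End.one_apply, one_smul]
      map_mul' := by
        intro g h
        apply hinj
        rw [← hc, map_mul, Module.End.mul_apply, hc h, map_smul, hc g, smul_smul, mul_comm] }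
  have hchar : ∀ g, ρ.character g = c g := by
    intro g
    show LinearMap.trace ℂ V (ρ g) = c g
    have h2 : ρ g = c g • (1 : Module.End ℂ V) := by
      ext u
      exact hc g u
    rw [h2, map_smul, LinearMap.trace_one, h1, Nat.cast_one, smul_eq_mul, mul_one]
  refine Submodule.subset_span ⟨⊤, χ.toHomUnits.comp (Subgroup.subtype ⊤), ?_⟩
  funext g
  rw [indFun_extZ, hchar]
  have h2 : ∀ x : G, extZ (χ.toHomUnits.comp (Subgroup.subtype ⊤)) (x⁻¹ * g * x) = c g := by
    intro x
    rw [extZ, dif_pos (Subgroup.mem_top _)]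
    show χ (x⁻¹ * g * x) = χ g
    rw [map_mul, map_mul, mul_comm (χ x⁻¹), mul_assoc, ← map_mul, inv_mul_cancel, map_one, mul_one]
  rw [Finset.sum_congr rfl fun x _ => h2 x, Finset.sum_const, Finset.card_univ, nsmul_eq_mul,
    Subgroup.card_top, Nat.card_eq_fintype_card]
  have h3 : (Fintype.card G : ℂ) ≠ 0 := by exact_mod_cast Fintype.card_ne_zero
  rw [mul_div_cancel_left₀ _ h3]

theorem main (n : ℕ) : ∀ (G : Type) [Group G] [Fintype G], Nat.card G ≤ n → IsQuasiElem G →
    ∀ (d : ℕ) (V : Type) [AddCommGroup V] [Module ℂ V] [Module.Finite ℂ V]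
      (ρ : Representation ℂ G V), Module.finrank ℂ V ≤ d → ρ.character ∈ MonC G := by
  induction n with
  | zero =>
    intro G _ _ hG
    have : 0 < Nat.card G := Nat.card_pos
    omega
  | succ n ihn =>
    intro G _ _ hcard hG d
    induction d with
    | zero =>
      intro V _ _ _ ρ hd
      rw [character_eq_zero ρ (by omega)]
      exact Submodule.zero_mem _
    | succ d ihd =>
      intro V _ _ _ ρ hd
      by_cases hirr : ∀ W : Submodule ℂ V, (∀ g, ∀ v ∈ W, ρ g v ∈ W) → W = ⊥ ∨ W = ⊤
      · by_cases hsc : ∀ g, IsScal ρ g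
        · exact scalar_case ρ hirr hsc
        · obtain ⟨a, ha, hy⟩ := exists_elt hG ρ hsc
          obtain ⟨H, W, hW, hne, heq⟩ := avg ρ hirr a ha hy
          rw [heq]
          apply indL_mem
          refine ihn H ?_ (qe_subgroup hG H) _ W _ le_rfl
          have h1 : Nat.card H < Nat.card G := by
            refine lt_of_le_of_ne (Subgroup.card_le_card_group H) ?_
            intro h2
            exact hne (Subgroup.eq_top_of_card_eq H h2)
          omega
      · push Not at hirr
        obtain ⟨W, hW, hbot, htop⟩ := hirr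
        obtain ⟨W', hW', hc⟩ := exists_compl ρ W hW
        have hW't : W' ≠ ⊤ := by
          rintro rfl
          apply hbot
          exact disjoint_top.1 hc.disjoint
        have h1 := Submodule.finrank_lt htop
        have h2 := Submodule.finrank_lt hW't
        have h3 : ρ.character = (subG ρ W hW).character + (subG ρ W' hW').character := by
          funext g
          exact trace_add (ρ g) W W' hc (hW g) (hW' g)
        rw [h3]
        refine Submodule.add_mem _ (ihd _ _ ?_) (ihd _ _ ?_)
        · omega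
        · omega

end main

end StarkC.MON

theorem StarkC.MON_thm : StarkC.Stmt_MON := by
  intro G _ _ V _ _ _ ρ hG
  exact StarkC.MON.isMonComb_of_mem (StarkC.MON.main _ G le_rfl hG _ V ρ le_rfl)
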