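import Pool.Agent.Stark.Stmts

/-!
# Solomon's induction theorem (module SOL)
-/

open scoped Classical

namespace StarkC

namespace SOL

/-- number of fixed points of `g` on `G ⧸ H` -/
noncomputable def fxq {G : Type} [Group G] (H : Subgroup G) (g : G) : ℕ :=
  Nat.card {y : G ⧸ H // g • y = y}

/-- number of `x` with `x⁻¹ g x ∈ H` -/
noncomputable def cnt {G : Type} [Group G] (H : Subgroup G) (g : G) : ℕ :=
  Nat.card {x : G // x⁻¹ * g * x ∈ H}

lemma fix_iff {G : Type} [Group G] (H : Subgroup G) (g x : G) :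
    g • (QuotientGroup.mk x : G ⧸ H) = QuotientGroup.mk x ↔ x⁻¹ * g * x ∈ H := by
  rw [MulAction.Quotient.smul_mk, eq_comm, QuotientGroup.eq, smul_eq_mul, mul_assoc]

lemma cnt_eq {G : Type} [Group G] [Finite G] (H : Subgroup G) (g : G) :
    cnt H g = Nat.card H * fxq H g := by
  have h := QuotientGroup.card_preimage_mk H {y : G ⧸ H | g • y = y}
  have h1 : (QuotientGroup.mk ⁻¹' {y : G ⧸ H | g • y = y} : Set G) =
      {x : G | x⁻¹ * g * x ∈ H} := by
    ext x
    exact fix_iff H g x
  rw [h1] at h
  exact h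

lemma indFun_eq {G : Type} [Group G] [Fintype G] (H : Subgroup G) (g : G) :
    indFun H (fun _ => 1) g = (fxq H g : ℂ) := by
  unfold indFun
  have h0 : (Nat.card H : ℂ) ≠ 0 := by
    have : 0 < Nat.card H := Nat.card_pos
    exact_mod_cast this.ne'
  rw [div_eq_iff h0]
  have h1 : (∑ x : G, if x⁻¹ * g * x ∈ H then (1 : ℂ) else 0) = (cnt H g : ℂ) := by
    rw [Finset.sum_boole]
    unfold cnt
    rw [Nat.card_eq_fintype_card, Fintype.card_subtype]
  rw [h1, cnt_eq]
  push_cast
  ring

/-- quasi-elementary groups are stable under injections -/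
lemma qe_inj {K G : Type} [Group K] [Group G] [Finite G] (f : K →* G)
    (hf : Function.Injective f) (h : IsQuasiElem G) : IsQuasiElem K := by
  obtain ⟨p, C, hp, hn, hc, hd, n, hi⟩ := h
  have : Finite K := Finite.of_injective f hf
  let φ : C.comap f →* C := f.subgroupComap C
  have hφ : Function.Injective φ := by
    intro a b hab
    apply Subtype.ext
    apply hf
    exact congrArg Subtype.val hab
  refine ⟨p, C.comap f, hp, inferInstance, isCyclic_of_injective φ hφ, ?_, ?_⟩
  · intro hdiv
    exact hd (hdiv.trans (Subgroup.card_dvd_of_injective φ hφ))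
  · have h1 : (C.comap f).index ∣ p ^ n := by
      rw [Subgroup.index_comap, ← hi]
      exact Subgroup.relIndex_dvd_index_of_normal C f.range
    obtain ⟨k, _, hk⟩ := (Nat.dvd_prime_pow hp).1 h1
    exact ⟨k, hk⟩

lemma qe_le {G : Type} [Group G] [Finite G] {H K : Subgroup G} (h : K ≤ H)
    (hH : IsQuasiElem H) : IsQuasiElem K :=
  qe_inj (Subgroup.inclusion h) (Subgroup.inclusion_injective h) hH

lemma qe_stab {G : Type} [Group G] [Finite G] {H : Subgroup G} (hH : IsQuasiElem H)
    (y : G ⧸ H) : IsQuasiElem (MulAction.stabilizer G y) := by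
  obtain ⟨x, rfl⟩ := QuotientGroup.mk_surjective y
  have key : ∀ g : MulAction.stabilizer G (QuotientGroup.mk x : G ⧸ H),
      x⁻¹ * (g : G) * x ∈ H := fun g => (fix_iff H g x).1 g.2
  let f : MulAction.stabilizer G (QuotientGroup.mk x : G ⧸ H) →* H :=
    { toFun := fun g => ⟨x⁻¹ * (g : G) * x, key g⟩
      map_one' := by
        apply Subtype.ext
        simp
      map_mul' := by
        intro a b
        apply Subtype.ext
        simp only [Subgroup.coe_mul]
        group }
  refine qe_inj f ?_ hH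
  intro a b hab
  have h1 : x⁻¹ * (a : G) * x = x⁻¹ * (b : G) * x := congrArg Subtype.val hab
  apply Subtype.ext
  have h2 := mul_right_cancel h1
  exact mul_left_cancel h2

/-- the additive group generated by the permutation characters -/
def A (G : Type) [Group G] : AddSubgroup (G → ℤ) :=
  AddSubgroup.closure {f | ∃ H : Subgroup G, IsQuasiElem H ∧ f = fun g => (fxq H g : ℤ)}

lemma fxq_mem {G : Type} [Group G] {H : Subgroup G} (h : IsQuasiElem H) :
    (fun g => (fxq H g : ℤ)) ∈ A G :=
  AddSubgroup.subset_closure ⟨H, h, rfl⟩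

/-- the number of fixed points, by orbits -/
lemma card_fix {G Y : Type} [Group G] [Finite G] [Finite Y] [MulAction G Y] (g : G) :
    Nat.card {y : Y // g • y = y} =
      ∑ᶠ ω : MulAction.orbitRel.Quotient G Y, fxq (MulAction.stabilizer G ω.out) g := by
  let Φ : (Σ ω : MulAction.orbitRel.Quotient G Y,
      {q : G ⧸ MulAction.stabilizer G ω.out // g • q = q}) → {y : Y // g • y = y} :=
    fun s => ⟨MulAction.ofQuotientStabilizer G s.1.out s.2.1, by
      rw [← MulAction.ofQuotientStabilizer_smul, s.2.2]⟩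
  have hΦ : Function.Bijective Φ := by
    constructor
    · rintro ⟨ω, q⟩ ⟨ω', q'⟩ h
      have h1 : MulAction.ofQuotientStabilizer G ω.out q.1 =
          MulAction.ofQuotientStabilizer G ω'.out q'.1 := congrArg Subtype.val h
      have h2 : ω = ω' := by
        have e1 := MulAction.ofQuotientStabilizer_mem_orbit G ω.out q.1
        have e2 := MulAction.ofQuotientStabilizer_mem_orbit G ω'.out q'.1
        rw [h1] at e1
        have e3 : (Quotient.mk'' (MulAction.ofQuotientStabilizer G ω'.out q'.1) :
            MulAction.orbitRel.Quotient G Y) = Quotient.mk'' ω.out := Quotient.sound' e1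
        have e4 : (Quotient.mk'' (MulAction.ofQuotientStabilizer G ω'.out q'.1) :
            MulAction.orbitRel.Quotient G Y) = Quotient.mk'' ω'.out := Quotient.sound' e2
        rw [Quotient.out_eq'] at e3 e4
        exact e3.symm.trans e4
      subst h2
      have h3 : q = q' :=
        Subtype.ext (MulAction.injective_ofQuotientStabilizer G _ h1)
      rw [h3]
    · rintro ⟨y, hy⟩
      let ω : MulAction.orbitRel.Quotient G Y := Quotient.mk'' y
      have h1 : ω.out ∈ MulAction.orbit G y := by
        have : (Quotient.mk'' ω.out : MulAction.orbitRel.Quotient G Y) = Quotient.mk'' y :=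
          Quotient.out_eq' ω
        exact Quotient.exact' this
      have h2 : y ∈ MulAction.orbit G ω.out := MulAction.orbit_eq_iff.1
        (MulAction.orbit_eq_iff.2 h1).symm
      obtain ⟨x, hx⟩ := h2
      have hx' : x • ω.out = y := hx
      refine ⟨⟨ω, ⟨QuotientGroup.mk x, ?_⟩⟩, ?_⟩
      · apply MulAction.injective_ofQuotientStabilizer G ω.out
        rw [MulAction.ofQuotientStabilizer_smul, MulAction.ofQuotientStabilizer_mk, hx', hy]
      · apply Subtype.ext
        change MulAction.ofQuotientStabilizer G ω.out (QuotientGroup.mk x) = y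
        rw [MulAction.ofQuotientStabilizer_mk, hx']
  have : Finite (MulAction.orbitRel.Quotient G Y) := Quotient.finite _
  have := Fintype.ofFinite (MulAction.orbitRel.Quotient G Y)
  rw [← Nat.card_congr (Equiv.ofBijective Φ hΦ), Nat.card_sigma, finsum_eq_sum_of_fintype]
  rfl

lemma fix_mem {G Y : Type} [Group G] [Finite G] [Finite Y] [MulAction G Y]
    (h : ∀ y : Y, IsQuasiElem (MulAction.stabilizer G y)) :
    (fun g : G => (Nat.card {y : Y // g • y = y} : ℤ)) ∈ A G := by
  have : Finite (MulAction.orbitRel.Quotient G Y) := Quotient.finite _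
  have := Fintype.ofFinite (MulAction.orbitRel.Quotient G Y)
  have e : (fun g : G => (Nat.card {y : Y // g • y = y} : ℤ)) =
      ∑ ω : MulAction.orbitRel.Quotient G Y,
        fun g => (fxq (MulAction.stabilizer G ω.out) g : ℤ) := by
    ext g
    rw [card_fix, finsum_eq_sum_of_fintype, Finset.sum_apply]
    push_cast
    rfl
  rw [e]
  exact sum_mem fun ω _ => fxq_mem (h _)

lemma mul_mem_A {G : Type} [Group G] [Finite G] {f f' : G → ℤ} (hf : f ∈ A G)
    (hf' : f' ∈ A G) : f * f' ∈ A G := by
  unfold A at hf hf'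
  induction hf using AddSubgroup.closure_induction with
  | mem f hf =>
    obtain ⟨H, hH, rfl⟩ := hf
    induction hf' using AddSubgroup.closure_induction with
    | mem f' hf' =>
      obtain ⟨H', hH', rfl⟩ := hf'
      have e : ((fun g => (fxq H g : ℤ)) * fun g => (fxq H' g : ℤ)) =
          fun g : G => (Nat.card {y : (G ⧸ H) × (G ⧸ H') // g • y = y} : ℤ) := by
        ext g
        have e1 : Nat.card {y : (G ⧸ H) × (G ⧸ H') // g • y = y} = fxq H g * fxq H' g := by
          unfold fxq
          rw [← Nat.card_prod]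
          refine Nat.card_congr (Equiv.trans (Equiv.subtypeEquivRight ?_)
            (Equiv.subtypeProdEquivProd (p := fun a : G ⧸ H => g • a = a)
              (q := fun b : G ⧸ H' => g • b = b)))
          intro y
          rw [Prod.ext_iff]
          rfl
        rw [e1]
        simp
      rw [e]
      refine fix_mem fun y => ?_
      refine qe_le (H := MulAction.stabilizer G y.1) ?_ (qe_stab hH y.1)
      intro g hg
      exact congrArg Prod.fst (MulAction.mem_stabilizer_iff.1 hg)
    | zero => rw [mul_zero]; exact zero_mem _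
    | add a b _ _ ha hb => rw [mul_add]; exact add_mem ha hb
    | neg a _ ha => rw [mul_neg]; exact neg_mem ha
  | zero => rw [zero_mul]; exact zero_mem _
  | add a b _ _ ha hb => rw [add_mul]; exact add_mem ha hb
  | neg a _ ha => rw [neg_mul]; exact neg_mem ha

/-- invariance of `cnt` under surjections -/
lemma cnt_quot {N : Type} [Group N] [Finite N] (C : Subgroup N) [C.Normal]
    (P : Subgroup (N ⧸ C)) (x : N) :
    cnt (P.comap (QuotientGroup.mk' C)) x = Nat.card C * cnt P (x : N ⧸ C) := by
  have h := QuotientGroup.card_preimage_mk C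
    {q : N ⧸ C | q⁻¹ * (x : N ⧸ C) * q ∈ P}
  have h1 : (QuotientGroup.mk ⁻¹' {q : N ⧸ C | q⁻¹ * (x : N ⧸ C) * q ∈ P} : Set N) =
      {y : N | y⁻¹ * x * y ∈ P.comap (QuotientGroup.mk' C)} := by
    ext y
    simp only [Set.mem_preimage, Set.mem_ofPred_eq, Subgroup.mem_comap, QuotientGroup.mk'_apply,
      QuotientGroup.mk_mul, QuotientGroup.mk_inv]
  rw [h1] at h
  exact h

lemma card_comap_quot {N : Type} [Group N] [Finite N] (C : Subgroup N) [C.Normal]
    (P : Subgroup (N ⧸ C)) :
    Nat.card (P.comap (QuotientGroup.mk' C)) = Nat.card C * Nat.card P :=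
  QuotientGroup.card_preimage_mk C (P : Set (N ⧸ C))

lemma fxq_quot {N : Type} [Group N] [Finite N] (C : Subgroup N) [C.Normal]
    (P : Subgroup (N ⧸ C)) (x : N) :
    fxq (P.comap (QuotientGroup.mk' C)) x = fxq P (x : N ⧸ C) := by
  have h1 := cnt_quot C P x
  rw [cnt_eq, cnt_eq, card_comap_quot] at h1
  have h2 : 0 < Nat.card C * Nat.card P := Nat.mul_pos Nat.card_pos Nat.card_pos
  refine Nat.eq_of_mul_eq_mul_left h2 ?_
  rw [h1]
  ring

lemma fxq_map {G : Type} [Group G] [Finite G] (N : Subgroup G) (H : Subgroup N) (x : N)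
    (h : ∀ g : G, g⁻¹ * (x : G) * g ∈ H.map N.subtype → g ∈ N) :
    fxq (H.map N.subtype) (x : G) = fxq H x := by
  have h1 : Nat.card (H.map N.subtype) = Nat.card H :=
    Nat.card_congr (H.equivMapOfInjective N.subtype N.subtype_injective).toEquiv.symm
  have h2 : cnt (H.map N.subtype) (x : G) = cnt H x := by
    unfold cnt
    refine Nat.card_congr ?_
    refine
      { toFun := fun g => ⟨⟨g.1, h g.1 g.2⟩, ?_⟩
        invFun := fun g => ⟨(g.1 : G), ?_⟩
        left_inv := fun g => rfl
        right_inv := fun g => rfl }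
    · obtain ⟨y, hy, hy'⟩ := g.2
      have : y = (⟨g.1, h g.1 g.2⟩ : N)⁻¹ * x * ⟨g.1, h g.1 g.2⟩ := by
        apply Subtype.ext
        exact hy'
      rw [← this]
      exact hy
    · exact ⟨g.1⁻¹ * x * g.1, g.2, rfl⟩
  have h3 : 0 < Nat.card H := Nat.card_pos
  rw [cnt_eq, cnt_eq, h1] at h2
  exact Nat.eq_of_mul_eq_mul_left h3 h2

/-- fixed points of a `p`-element on the cosets of a Sylow subgroup -/
lemma sylow_fix {Q : Type} [Group Q] [Finite Q] {p : ℕ} [Fact p.Prime] (P : Sylow p Q) (x : Q)
    (hx : IsPGroup p (Subgroup.zpowers x)) : ¬ p ∣ fxq (P : Subgroup Q) x := by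
  have h1 := hx.card_modEq_card_fixedPoints (Q ⧸ (P : Subgroup Q))
  have h2 : Nat.card (MulAction.fixedPoints (Subgroup.zpowers x) (Q ⧸ (P : Subgroup Q))) =
      fxq (P : Subgroup Q) x := by
    unfold fxq
    refine Nat.card_congr (Equiv.subtypeEquivRight ?_)
    intro y
    constructor
    · intro h
      exact h ⟨x, Subgroup.mem_zpowers x⟩
    · intro h g
      obtain ⟨g, hg⟩ := g
      have h3 : x ∈ MulAction.stabilizer Q y := h
      have h4 : Subgroup.zpowers x ≤ MulAction.stabilizer Q y :=
        (Subgroup.zpowers_le).2 h3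
      exact h4 hg
  rw [h2] at h1
  intro h
  have h3 : p ∣ Nat.card (Q ⧸ (P : Subgroup Q)) :=
    (Nat.modEq_zero_iff_dvd.1 (h1.trans (Nat.modEq_zero_iff_dvd.2 h)))
  exact P.not_dvd_index h3

/-- the key point of Banaschewski's proof -/
lemma exists_qe {G : Type} [Group G] [Finite G] (x : G) (p : ℕ) (hp : p.Prime) :
    ∃ H : Subgroup G, IsQuasiElem H ∧ ¬ p ∣ fxq H x := by
  have : Fact p.Prime := ⟨hp⟩
  obtain ⟨a, m, hm, ho⟩ := Nat.exists_eq_pow_mul_and_not_dvd (orderOf_pos x).ne' p hp.ne_one
  have hcop : Nat.Coprime (p ^ a) m := Nat.Coprime.pow_left _ ((Nat.Prime.coprime_iff_not_dvd hp).2 hm)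
  set c : G := x ^ p ^ a with hc
  have hcm : orderOf c = m := by
    rw [hc, orderOf_pow_of_dvd (pow_pos hp.pos a).ne' (by rw [ho]; exact dvd_mul_right _ _), ho]
    exact Nat.mul_div_cancel_left m (pow_pos hp.pos a)
  set C : Subgroup G := Subgroup.zpowers c with hC
  have hCcard : Nat.card C = m := by rw [hC, Nat.card_zpowers, hcm]
  set N : Subgroup G := Subgroup.normalizer (C : Set G) with hN
  have hCN : C ≤ N := Subgroup.le_normalizer
  have hxN : x ∈ N := by
    rw [hN, Subgroup.mem_normalizer_iff]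
    intro h
    have hcomm : ∀ k ∈ C, x * k * x⁻¹ = k := by
      intro k hk
      obtain ⟨i, rfl⟩ := Subgroup.mem_zpowers_iff.1 hk
      have : Commute x (c ^ i) := by
        apply Commute.zpow_right
        rw [hc]
        exact (Commute.refl x).pow_right _
      rw [this.eq, mul_inv_cancel_right]
    constructor
    · intro hh
      rw [hcomm h hh]
      exact hh
    · intro hh
      have h1 := hcomm _ hh
      have h2 : h = x * h * x⁻¹ := by
        have h3 : x * (x * h * x⁻¹) * x⁻¹ = x * h * x⁻¹ := h1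
        have h4 := mul_left_cancel (mul_right_cancel h3)
        exact h4.symm
      rw [h2]
      exact hh
  let C' : Subgroup N := C.subgroupOf N
  have : C'.Normal := Subgroup.normal_in_normalizer
  let x' : N := ⟨x, hxN⟩
  have hx'pow : ((x' : N ⧸ C')) ^ p ^ a = 1 := by
    rw [← QuotientGroup.mk_pow, QuotientGroup.eq_one_iff]
    change ((x' ^ p ^ a : N) : G) ∈ C
    rw [Subgroup.coe_pow]
    exact Subgroup.mem_zpowers _
  have hpg : IsPGroup p (Subgroup.zpowers (x' : N ⧸ C')) := by
    refine IsPGroup.of_card (n := ?_) ?_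
    · exact Nat.log p (Nat.card (Subgroup.zpowers (x' : N ⧸ C')))
    · rw [Nat.card_zpowers]
      obtain ⟨k, _, hk⟩ := (Nat.dvd_prime_pow hp).1 (orderOf_dvd_of_pow_eq_one hx'pow)
      rw [hk, Nat.log_pow hp.one_lt]
  obtain ⟨P, _⟩ := hpg.exists_le_sylow
  let H' : Subgroup N := (P : Subgroup (N ⧸ C')).comap (QuotientGroup.mk' C')
  -- elements of `H'` of order prime to `p` lie in `C`
  have hkey : ∀ y : N, y ∈ H' → y ^ m = 1 → (y : G) ∈ C := by
    intro y hy hym
    have h1 : ((y : N ⧸ C')) ∈ (P : Subgroup (N ⧸ C')) := hy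
    obtain ⟨k, hk⟩ := P.2 ⟨(y : N ⧸ C'), h1⟩
    have hk' : ((y : N ⧸ C')) ^ p ^ k = 1 := congrArg Subtype.val hk
    have hm' : ((y : N ⧸ C')) ^ m = 1 := by
      rw [← QuotientGroup.mk_pow, hym]
      rfl
    have h2 : orderOf (y : N ⧸ C') = 1 := by
      have d1 := orderOf_dvd_of_pow_eq_one hk'
      have d2 := orderOf_dvd_of_pow_eq_one hm'
      have : Nat.Coprime (p ^ k) m :=
        Nat.Coprime.pow_left _ ((Nat.Prime.coprime_iff_not_dvd hp).2 hm)
      exact Nat.eq_one_of_dvd_coprimes this d1 d2
    rw [orderOf_eq_one_iff, QuotientGroup.eq_one_iff] at h2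
    exact h2
  have hHN : ∀ g : G, g⁻¹ * (x' : G) * g ∈ H'.map N.subtype → g ∈ N := by
    intro g hg
    obtain ⟨y, hy, hyg⟩ := hg
    have hyg' : (y : G) = g⁻¹ * x * g := hyg
    have hy2 : ((y ^ p ^ a : N) : G) = g⁻¹ * c * g := by
      rw [Subgroup.coe_pow, hyg']
      have := conj_pow (i := p ^ a) (a := g⁻¹) (b := x)
      rw [inv_inv] at this
      rw [this]
    have hy3 : ((y ^ p ^ a : N) : G) ∈ C := by
      apply hkey
      · exact pow_mem hy _
      · rw [← pow_mul]
        apply Subtype.ext
        rw [Subgroup.coe_pow, hyg']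
        have := conj_pow (i := p ^ a * m) (a := g⁻¹) (b := x)
        rw [inv_inv] at this
        rw [this, ← ho, pow_orderOf_eq_one]
        simp
    rw [hy2] at hy3
    have hinv : g⁻¹ ∈ N := by
      rw [hN]
      apply Subgroup.mem_normalizer_fintype
      intro n hn
      obtain ⟨i, rfl⟩ := Subgroup.mem_zpowers_iff.1 hn
      have := conj_zpow (i := i) (a := g⁻¹) (b := c)
      rw [← this]
      apply zpow_mem
      rw [inv_inv]
      exact hy3
    have := inv_mem hinv
    rwa [inv_inv] at this
  refine ⟨H'.map N.subtype, ?_, ?_⟩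
  · -- quasi-elementary
    have e : H'.map N.subtype ≃* H' :=
      (H'.equivMapOfInjective N.subtype N.subtype_injective).symm
    refine qe_inj e.toMonoidHom e.injective ?_
    let f : H' →* N ⧸ C' := (QuotientGroup.mk' C').comp H'.subtype
    have hfk : ∀ y : f.ker, ((y : H') : N).1 ∈ C := by
      intro y
      have h1 : f (y : H') = 1 := y.2
      exact (QuotientGroup.eq_one_iff (N := C') ((y : H') : N)).1 h1
    let ψ : f.ker →* C :=
      { toFun := fun y => ⟨((y : H') : N).1, hfk y⟩
        map_one' := rfl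
        map_mul' := fun a b => rfl }
    have hψ : Function.Injective ψ := by
      intro a b hab
      have h1 : ((a : H') : N).1 = ((b : H') : N).1 := congrArg (fun z : C => (z : G)) hab
      exact Subtype.ext (Subtype.ext (Subtype.ext h1))
    have : IsCyclic C := by rw [hC]; infer_instance
    refine ⟨p, f.ker, hp, inferInstance, isCyclic_of_injective ψ hψ, ?_, ?_⟩
    · intro hdiv
      have h1 := hdiv.trans (Subgroup.card_dvd_of_injective ψ hψ)
      rw [hCcard] at h1
      exact hm h1
    · rw [Subgroup.index_ker]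
      have h1 : f.range ≤ (P : Subgroup (N ⧸ C')) := by
        rintro _ ⟨y, rfl⟩
        exact y.2
      have h2 := Subgroup.card_dvd_of_le h1
      obtain ⟨n, hn⟩ := P.2.exists_card_eq
      have hn' : Nat.card (P : Subgroup (N ⧸ C')) = p ^ n := hn
      rw [hn'] at h2
      obtain ⟨k, _, hk⟩ := (Nat.dvd_prime_pow hp).1 h2
      exact ⟨k, hk⟩
  · have h1 : fxq (H'.map N.subtype) x = fxq (P : Subgroup (N ⧸ C')) (x' : N ⧸ C') := by
      have h2 := fxq_map N H' x' hHN
      rw [fxq_quot] at h2
      exact h2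
    rw [h1]
    exact sylow_fix P _ hpg

/-- for each `x` there is an element of `A` with value 1 at `x` -/
lemma exists_one {G : Type} [Group G] [Finite G] (x : G) : ∃ f ∈ A G, f x = 1 := by
  let I : AddSubgroup ℤ := (A G).map (Pi.evalAddMonoidHom (fun _ : G => ℤ) x)
  obtain ⟨d, hd⟩ := Int.subgroup_cyclic I
  have hunit : d.natAbs = 1 := by
    by_contra h
    obtain ⟨p, hp, hpd⟩ := Nat.exists_prime_and_dvd h
    obtain ⟨H, hH, hpH⟩ := exists_qe x p hp
    have h1 : (fxq H x : ℤ) ∈ I := ⟨_, fxq_mem hH, rfl⟩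
    rw [hd, AddSubgroup.mem_closure_singleton] at h1
    obtain ⟨n, hn⟩ := h1
    have h2 : (p : ℤ) ∣ (fxq H x : ℤ) := by
      rw [← hn, smul_eq_mul]
      exact Dvd.dvd.mul_left (Int.natCast_dvd.2 hpd) n
    exact hpH (Int.natCast_dvd_natCast.1 h2)
  have h1 : (1 : ℤ) ∈ I := by
    rw [hd, AddSubgroup.mem_closure_singleton]
    rcases Int.natAbs_eq d with h | h
    · exact ⟨1, by rw [h, hunit]; norm_num⟩
    · exact ⟨-1, by rw [h, hunit]; norm_num⟩
  obtain ⟨f, hf, hfx⟩ := h1
  exact ⟨f, hf, hfx⟩

lemma one_mem_A (G : Type) [Group G] [Finite G] : (1 : G → ℤ) ∈ A G := by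
  have := Fintype.ofFinite G
  choose F hF hF1 using fun x : G => exists_one x
  have key : ∀ s : Finset G, 1 - ∏ x ∈ s, (1 - F x) ∈ A G := by
    intro s
    induction s using Finset.induction_on with
    | empty =>
      rw [Finset.prod_empty, sub_self]
      exact zero_mem _
    | insert x s hx ih =>
      rw [Finset.prod_insert hx]
      have e : 1 - (1 - F x) * ∏ y ∈ s, (1 - F y) =
          (1 - ∏ y ∈ s, (1 - F y)) + (F x - F x * (1 - ∏ y ∈ s, (1 - F y))) := by ring
      rw [e]
      exact add_mem ih (sub_mem (hF x) (mul_mem_A (hF x) ih))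
  have h1 : ∏ x : G, (1 - F x) = 0 := by
    ext g
    rw [Finset.prod_apply]
    apply Finset.prod_eq_zero (Finset.mem_univ g)
    rw [Pi.sub_apply, hF1 g]
    rfl
  have h2 := key Finset.univ
  rw [h1, sub_zero] at h2
  exact h2

end SOL

/-- Solomon's induction theorem -/
theorem SOL_thm : Stmt_SOL := by
  intro G _ _
  have key : ∀ f : G → ℤ, f ∈ SOL.A G → ∃ (m : ℕ) (H : Fin m → Subgroup G) (n : Fin m → ℤ),
      (∀ i, IsQuasiElem (H i)) ∧
        ∀ g, (f g : ℂ) = ∑ i, (n i : ℂ) * indFun (H i) (fun _ => 1) g := by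
    intro f hf
    unfold SOL.A at hf
    induction hf using AddSubgroup.closure_induction with
    | mem f hf =>
      obtain ⟨H, hH, rfl⟩ := hf
      refine ⟨1, fun _ => H, fun _ => 1, fun _ => hH, fun g => ?_⟩
      rw [Fin.sum_univ_one, SOL.indFun_eq]
      push_cast
      ring
    | zero => exact ⟨0, Fin.elim0, Fin.elim0, fun i => i.elim0, fun g => by simp⟩
    | add a b _ _ ha hb =>
      obtain ⟨m, H, n, h1, h2⟩ := ha
      obtain ⟨m', H', n', h1', h2'⟩ := hb
      refine ⟨m + m', Fin.append H H', Fin.append n n', ?_, ?_⟩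
      · intro i
        refine Fin.addCases (fun i => ?_) (fun i => ?_) i
        · rw [Fin.append_left]; exact h1 i
        · rw [Fin.append_right]; exact h1' i
      · intro g
        rw [Fin.sum_univ_add]
        simp only [Fin.append_left, Fin.append_right]
        rw [← h2 g, ← h2' g]
        simp
    | neg a _ ha =>
      obtain ⟨m, H, n, h1, h2⟩ := ha
      refine ⟨m, H, fun i => - n i, h1, fun g => ?_⟩
      have e : ((-a) g : ℤ) = - (a g) := rfl
      rw [e]
      push_cast
      rw [h2 g, ← Finset.sum_neg_distrib]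
      refine Finset.sum_congr rfl fun i _ => ?_
      ring
  obtain ⟨m, H, n, h1, h2⟩ := key 1 (SOL.one_mem_A G)
  refine ⟨m, H, n, h1, fun g => ?_⟩
  have := h2 g
  rw [Pi.one_apply, Int.cast_one] at this
  exact this

end StarkC
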