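import Mathlib

/-!
# Stark's conjecture: definitions

Number fields live in `Type`.  A place of a number field `L` is represented by its normalised
absolute value, a function `L → ℝ`; the finite primes of `L` are the elements of
`HeightOneSpectrum (𝓞 L)`; `ℂ ⊗ Y` is contained in the space `(L → ℝ) →₀ ℂ` of formal linear
combinations of functions `L → ℝ`.
-/

open NumberField IsDedekindDomain
open scoped Classical

namespace StarkP

/-! ### Places, units, the logarithm map -/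

section Places

variable (L : Type) [Field L] [NumberField L]

/-- The normalised absolute value of an infinite place: `|x|` at a real place and `|x|^2` at a
complex place. -/
noncomputable def infAbs (w : InfinitePlace L) : L → ℝ := fun x => (w x) ^ w.mult

/-- The normalised absolute value of a finite prime: `N(w)^(-ord_w x)`. -/
noncomputable def finAbs (w : HeightOneSpectrum (𝓞 L)) : L → ℝ :=
  fun x => HeightOneSpectrum.adicAbv L w x

/-- The set of places `S(L)`: all infinite places of `L` and the finite primes in `T`, each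
represented by its normalised absolute value. -/
def placeSet (T : Set (HeightOneSpectrum (𝓞 L))) : Set (L → ℝ) :=
  Set.range (infAbs L) ∪ finAbs L '' T

/-- `ℂ ⊗ X`: the formal `ℂ`-linear combinations of places in `placeSet L T` whose coefficients
have sum zero. -/
noncomputable def XC (T : Set (HeightOneSpectrum (𝓞 L))) : Submodule ℂ ((L → ℝ) →₀ ℂ) :=
  Finsupp.supported ℂ ℂ (placeSet L T) ⊓
    LinearMap.ker (Finsupp.linearCombination ℂ (fun _ : L → ℝ => (1 : ℂ)))

/-- `ℚ ⊗ X`: the elements of `ℂ ⊗ X` with rational coefficients. -/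
def XQ (T : Set (HeightOneSpectrum (𝓞 L))) : Set ((L → ℝ) →₀ ℂ) :=
  {x | x ∈ XC L T ∧ ∀ a, ∃ q : ℚ, x a = (q : ℂ)}

/-- The image of `ℚ ⊗ U` under the (injective) logarithm map `λ`, where `U` is the group of
`T`-units of `L`: the elements `x` with `n x = λ(u) = -∑_{a ∈ S(L)} log|u|_a · a` for some
`u ∈ U` and some integer `n ≠ 0`. -/
def LamU (T : Set (HeightOneSpectrum (𝓞 L))) : Set ((L → ℝ) →₀ ℂ) :=
  {x | ∃ (n : ℕ) (u : Lˣ), n ≠ 0 ∧ u ∈ T.unit L ∧ ∀ a : L → ℝ, (n : ℂ) * x a =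
    if a ∈ placeSet L T then -((Real.log (a (u : L)) : ℝ) : ℂ) else 0}

variable {L}

/-- The action of a field automorphism `g` on formal linear combinations of places: the place
`|·|_a` goes to the place `x ↦ |g⁻¹ x|_a`. -/
noncomputable def act (g : L ≃+* L) : ((L → ℝ) →₀ ℂ) →ₗ[ℂ] ((L → ℝ) →₀ ℂ) :=
  Finsupp.lmapDomain ℂ ℂ (fun a : L → ℝ => a ∘ g.symm)

end Places

/-- The data entering the regulator: `Θ = λ ∘ φ` on `ℂ ⊗ X` for a `G`-isomorphism
`φ : ℚ ⊗ X → ℚ ⊗ U`.  Thus `Θ` is `ℂ`-linear, commutes with `G` on `ℂ ⊗ X` and maps `ℚ ⊗ X`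
bijectively onto the image of `ℚ ⊗ U` under `λ` (the values of `Θ` outside `ℂ ⊗ X` play no
role). -/
def IsTheta (K : Type) {L : Type} [Field K] [Field L] [NumberField L] [Algebra K L]
    (T : Set (HeightOneSpectrum (𝓞 L))) (Θ : ((L → ℝ) →₀ ℂ) →ₗ[ℂ] ((L → ℝ) →₀ ℂ)) : Prop :=
  (∀ g : L ≃ₐ[K] L, ∀ x ∈ XC L T, Θ (act (g : L ≃+* L) x) = act (g : L ≃+* L) (Θ x)) ∧
    Set.BijOn Θ (XQ L T) (LamU L T)

/-! ### The regulator -/

/-- The determinant of the endomorphism `A` on the `A`-stable subspace `W`. -/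
noncomputable def detOn {M : Type} [AddCommGroup M] [Module ℂ M] (A : M →ₗ[ℂ] M)
    (W : Submodule ℂ M) : ℂ :=
  if h : ∀ x ∈ W, A x ∈ W then LinearMap.det (A.restrict h) else 0

section Regulator

variable {K L : Type} [Field K] [Field L] [NumberField L] [Algebra K L]
variable {V : Type} [AddCommGroup V] [Module ℂ V]

/-- `Hom_{ℂ[G]}(V^*, ℂ ⊗ X)`, `V^*` being the contragredient representation (the set after
`Submodule.span` is already a subspace). -/
noncomputable def homG (T : Set (HeightOneSpectrum (𝓞 L))) (ρ : Representation ℂ (L ≃ₐ[K] L) V) :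
    Submodule ℂ (Module.Dual ℂ V →ₗ[ℂ] ((L → ℝ) →₀ ℂ)) :=
  Submodule.span ℂ {f | (∀ α, f α ∈ XC L T) ∧ ∀ (g : L ≃ₐ[K] L) (α : Module.Dual ℂ V),
    f (ρ.dual g α) = act (g : L ≃+* L) (f α)}

/-- The regulator: the determinant of `f ↦ Θ ∘ f` on `Hom_{ℂ[G]}(V^*, ℂ ⊗ X)`. -/
noncomputable def Reg (T : Set (HeightOneSpectrum (𝓞 L))) (ρ : Representation ℂ (L ≃ₐ[K] L) V)
    (Θ : ((L → ℝ) →₀ ℂ) →ₗ[ℂ] ((L → ℝ) →₀ ℂ)) : ℂ :=
  detOn (M := Module.Dual ℂ V →ₗ[ℂ] ((L → ℝ) →₀ ℂ)) (LinearMap.compRight ℂ Θ) (homG T ρ)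

end Regulator

/-! ### Artin L-series -/

section LSeries

variable (K L : Type) [Field K] [NumberField K] [Field L] [NumberField L] [Algebra K L]

/-- `g` acts on the residue field of `w` as `x ↦ x^q`. -/
def FrobPow (w : HeightOneSpectrum (𝓞 L)) (q : ℕ) (g : L → L) : Prop :=
  ∀ x y : 𝓞 L, (y : L) = g (x : L) → y - x ^ q ∈ w.asIdeal

/-- The primes of `L` above a prime `v` of `K`. -/
def above (v : HeightOneSpectrum (𝓞 K)) : Set (HeightOneSpectrum (𝓞 L)) :=
  {w | w.under (𝓞 K) = v}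

/-- The primes of `L` above the primes in `S`. -/
def aboveSet (S : Set (HeightOneSpectrum (𝓞 K))) : Set (HeightOneSpectrum (𝓞 L)) :=
  {w | w.under (𝓞 K) ∈ S}

variable {K L}

/-- The average of `χ` over all `g` in the decomposition group of `w` which act on the residue
field as `x ↦ x^q`.  For `q = N(v)^m`, `w ∣ v`, this is the trace of the `m`-th power of a
Frobenius automorphism of `w` on the inertia invariants of a representation with character `χ`. -/
noncomputable def localTrace (χ : (L ≃ₐ[K] L) → ℂ) (w : HeightOneSpectrum (𝓞 L)) (q : ℕ) : ℂ :=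
  (∑ g ∈ Finset.univ.filter (fun g : L ≃ₐ[K] L => FrobPow L w q g), χ g) /
    (Finset.univ.filter (fun g : L ≃ₐ[K] L => FrobPow L w 1 g)).card

/-- The average of `localTrace χ w (N(v)^m)` over the primes `w` of `L` above `v` (all these
values are equal). -/
noncomputable def artinCoef (χ : (L ≃ₐ[K] L) → ℂ) (v : HeightOneSpectrum (𝓞 K)) (m : ℕ) : ℂ :=
  (∑ᶠ w ∈ above K L v, localTrace χ w (Ideal.absNorm v.asIdeal ^ m)) / (above K L v).ncard

/-- The logarithm of the Artin `L`-series of `χ` without the Euler factors in `S`, for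
`Re s > 1`: the sum over `v ∉ S` and `m ≥ 1` of `artinCoef χ v m / (m N(v)^(ms))`. -/
noncomputable def logL (χ : (L ≃ₐ[K] L) → ℂ) (S : Set (HeightOneSpectrum (𝓞 K))) (s : ℂ) : ℂ :=
  ∑' p : HeightOneSpectrum (𝓞 K) × ℕ, if p.1 ∈ S then 0 else
    artinCoef χ p.1 (p.2 + 1) /
      (((p.2 + 1 : ℕ) : ℂ) * (Ideal.absNorm p.1.asIdeal : ℂ) ^ (((p.2 + 1 : ℕ) : ℂ) * s))

/-- `f` is the meromorphic continuation to `ℂ` of the Artin `L`-series of `χ` without the Euler
factors in `S`. -/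
def IsArtinL (χ : (L ≃ₐ[K] L) → ℂ) (S : Set (HeightOneSpectrum (𝓞 K))) (f : ℂ → ℂ) : Prop :=
  (∀ z, MeromorphicAt f z) ∧ ∀ s : ℂ, 1 < s.re → f s = Complex.exp (logL χ S s)

end LSeries

/-! ### Stark's conjecture -/

/-- Stark's assertion `(R/L^*)(χ)^σ = (R/L^*)(χ^σ)` for given `S`, `Θ` and given representations
`ρ`, `ρ'` with characters `χ`, `χ^σ`; here `T` is the set of primes above `S`. -/
def StarkAt {K L : Type} [Field K] [NumberField K] [Field L] [NumberField L] [Algebra K L]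
    (S : Set (HeightOneSpectrum (𝓞 K))) (T : Set (HeightOneSpectrum (𝓞 L)))
    (Θ : ((L → ℝ) →₀ ℂ) →ₗ[ℂ] ((L → ℝ) →₀ ℂ))
    {V V' : Type} [AddCommGroup V] [Module ℂ V] [AddCommGroup V'] [Module ℂ V']
    (ρ : Representation ℂ (L ≃ₐ[K] L) V) (ρ' : Representation ℂ (L ≃ₐ[K] L) V')
    (σ : ℂ ≃+* ℂ) : Prop :=
  ∃ f f' : ℂ → ℂ, IsArtinL ρ.character S f ∧ IsArtinL ρ'.character S f' ∧
    σ (Reg T ρ Θ / meromorphicTrailingCoeffAt f 0) = Reg T ρ' Θ / meromorphicTrailingCoeffAt f' 0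

/-- The one-dimensional representation of a linear character. -/
noncomputable def linRep {G : Type} [Group G] (ψ : G →* ℂˣ) : Representation ℂ G ℂ where
  toFun g := LinearMap.lsmul ℂ ℂ (ψ g : ℂ)
  map_one' := by ext; simp
  map_mul' a b := by ext; simp

/-- The character `σ ∘ ψ`. -/
noncomputable def twist {G : Type} [Group G] (σ : ℂ ≃+* ℂ) (ψ : G →* ℂˣ) : G →* ℂˣ :=
  (Units.map (σ : ℂ →* ℂ)).comp ψ

section Stark

variable {K L : Type} [Field K] [NumberField K] [Field L] [NumberField L] [Algebra K L]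

/-- Stark's assertion `A_S(χ, φ)^σ = A_S(χ^σ, φ)` for all `S` and `φ`, where `χ`, `χ^σ` are the
characters of `ρ`, `ρ'`. -/
def StarkRep {V V' : Type} [AddCommGroup V] [Module ℂ V] [AddCommGroup V'] [Module ℂ V']
    (ρ : Representation ℂ (L ≃ₐ[K] L) V) (ρ' : Representation ℂ (L ≃ₐ[K] L) V')
    (σ : ℂ ≃+* ℂ) : Prop :=
  ∀ (S : Finset (HeightOneSpectrum (𝓞 K))) (Θ : ((L → ℝ) →₀ ℂ) →ₗ[ℂ] ((L → ℝ) →₀ ℂ)),
    IsTheta K (aboveSet K L S) Θ → StarkAt S (aboveSet K L S) Θ ρ ρ' σ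

/-- Stark's assertion for a linear character `ψ` of `Gal(L/K)`, all `S`, `φ`, `σ`. -/
def StarkLinear (K L : Type) [Field K] [NumberField K] [Field L] [NumberField L] [Algebra K L]
    (ψ : (L ≃ₐ[K] L) →* ℂˣ) : Prop :=
  ∀ σ : ℂ ≃+* ℂ, StarkRep (linRep ψ) (linRep (twist σ ψ)) σ

end Stark

/-- Stark's assertion for `Gal(L/K)`, all `S`, `φ`, `σ` and all characters `χ`, `χ^σ` of
representations on the spaces `V`, `V'`. -/
def StarkSpaces (K L V V' : Type) [Field K] [NumberField K] [Field L] [NumberField L] [Algebra K L]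
    [AddCommGroup V] [Module ℂ V] [AddCommGroup V'] [Module ℂ V'] : Prop :=
  ∀ (ρ : Representation ℂ (L ≃ₐ[K] L) V) (ρ' : Representation ℂ (L ≃ₐ[K] L) V') (σ : ℂ ≃+* ℂ),
    (∀ g, ρ'.character g = σ (ρ.character g)) → StarkRep ρ ρ' σ

/-- **Stark's conjecture**, for all finite Galois extensions of number fields, all `S`, `φ`, all
characters and all automorphisms of `ℂ`. -/
def StarkConjecture : Prop :=
  ∀ (K L V V' : Type) [Field K] [NumberField K] [Field L] [NumberField L] [Algebra K L]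
    [IsGalois K L] [AddCommGroup V] [Module ℂ V] [Module.Finite ℂ V]
    [AddCommGroup V'] [Module ℂ V'] [Module.Finite ℂ V'], StarkSpaces K L V V'

end StarkP
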