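import Pool.Agent.Stark.Stmts

/-!
AR3: existence of a Galois extension `N / K` containing `L` and prescribed square roots (helper72).
-/

open NumberField IsDedekindDomain
open scoped TensorProduct Classical

namespace StarkC

theorem AR3_thm : Stmt_AR3 := by
  intro K L _ _ _ _ _ _ B
  let Ω := AlgebraicClosure L
  have hK : IsAlgClosure K Ω :=
    ⟨inferInstance, Algebra.IsAlgebraic.trans K L Ω⟩
  have hnorm : Normal K Ω := IsAlgClosure.normal K Ω
  choose r hr using fun b : L => IsAlgClosed.exists_pow_nat_eq (algebraMap L Ω b) (n := 2) two_pos
  let F : IntermediateField L Ω := IntermediateField.adjoin L ((B.image r : Finset Ω) : Set Ω)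
  have hF : FiniteDimensional L F := IntermediateField.finiteDimensional_adjoin
    fun x _ => Algebra.IsIntegral.isIntegral x
  let M : IntermediateField K Ω := F.restrictScalars K
  have hM : FiniteDimensional K M := by
    have : FiniteDimensional K F := FiniteDimensional.trans K L F
    exact this
  let N : IntermediateField K Ω := IntermediateField.normalClosure K M Ω
  have hMN : M ≤ N := IntermediateField.le_normalClosure M
  have hN : FiniteDimensional K N := inferInstance
  have hnf : NumberField N := NumberField.of_module_finite K N
  have hnn : Normal K N := inferInstance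
  have hL : ∀ x : L, algebraMap L Ω x ∈ N := fun x => hMN (F.algebraMap_mem x)
  let ι : L →ₐ[K] N := (IsScalarTower.toAlgHom K L Ω).codRestrict N.toSubalgebra hL
  let algLN : Algebra L N := ι.toRingHom.toAlgebra
  have hst : IsScalarTower K L N := IsScalarTower.of_algebraMap_eq fun x => (ι.commutes x).symm
  refine ⟨N, inferInstance, hnf, inferInstance, inferInstance, hst, ⟨⟩, fun b hb => ?_⟩
  have hmemF : r b ∈ F := IntermediateField.subset_adjoin L ((B.image r : Finset Ω) : Set Ω)
    (Finset.mem_coe.2 (Finset.mem_image_of_mem r hb))
  have hmem : r b ∈ N := hMN (show r b ∈ M from hmemF)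
  refine ⟨⟨r b, hmem⟩, ?_⟩
  apply Subtype.ext
  exact hr b

end StarkC
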