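import Pool.Agent.Stark.IOT_C

/-!
# Module IOT: the map `ι` from places of `L` to places of `N`
-/

open NumberField IsDedekindDomain
open scoped TensorProduct Classical

namespace StarkC.IOT

set_option linter.unusedSectionVars false

section act

variable {N R : Type} [Field N] [Field R]

theorem mapDomain_comp_apply (g : N ≃+* N) (x : (N → ℝ) →₀ R) (b : N → ℝ) :
    Finsupp.mapDomain (fun a : N → ℝ => a ∘ g.symm) x b = x (b ∘ g) := by
  have hinj : Function.Injective (fun a : N → ℝ => a ∘ g.symm) := by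
    intro a c hac
    funext t
    have := congrFun hac (g t)
    simpa using this
  have h : b = (fun a : N → ℝ => a ∘ g.symm) (b ∘ g) := by
    funext t
    simp
  conv_lhs => rw [h]
  rw [Finsupp.mapDomain_apply hinj]

end act

section main

variable (K L N : Type) [Field K] [NumberField K] [Field L] [NumberField L] [Field N]
  [NumberField N] [Algebra K L] [Algebra K N] [Algebra L N] [IsScalarTower K L N]

/-- The map `ι` on formal combinations. -/
noncomputable def io (R : Type) [Field R] (S : Finset (HeightOneSpectrum (𝓞 K))) :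
    ((L → ℝ) →₀ R) →ₗ[R] ((N → ℝ) →₀ R) :=
  iota R (finite_placeSet K N S).toFinset (fun a => (blp L a).1) (fun a => (blp L a).2)

variable (S : Finset (HeightOneSpectrum (𝓞 K)))

theorem io_apply (R : Type) [Field R] [CharZero R] (x : (L → ℝ) →₀ R) (b : N → ℝ) :
    io K L N R S x b = if b ∈ placeSet N (aboveSet K N (S : Set (HeightOneSpectrum (𝓞 K)))) then
      ((blp L b).2 : R) * x (blp L b).1 else 0 := by
  rw [io, iota_apply]
  simp only [Set.Finite.mem_toFinset]

theorem io_mem (R : Type) [Field R] [CharZero R] {x : (L → ℝ) →₀ R}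
    (hx : x ∈ Xg R (placeSet L (aboveSet K L (S : Set (HeightOneSpectrum (𝓞 K)))))) :
    io K L N R S x ∈ Xg R (placeSet N (aboveSet K N (S : Set (HeightOneSpectrum (𝓞 K))))) := by
  have h := iota_mem (dat K L N S) hx
  rwa [Set.Finite.coe_toFinset] at h

theorem io_inj (R : Type) [Field R] [CharZero R] {x : (L → ℝ) →₀ R}
    (hx : x ∈ Xg R (placeSet L (aboveSet K L (S : Set (HeightOneSpectrum (𝓞 K))))))
    (h0 : io K L N R S x = 0) : x = 0 :=
  iota_inj (dat K L N S) hx h0

theorem blp_comp_alg [IsGalois K L] [IsGalois K N] (g : N ≃ₐ[K] N) {a : N → ℝ}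
    (ha : a ∈ placeSet N Set.univ) : blp L (a ∘ (g : N ≃+* N)) =
      ((blp L a).1 ∘ (AlgEquiv.restrictNormalHom L g : L ≃+* L), (blp L a).2) :=
  blp_comp L (g : N ≃+* N) (AlgEquiv.restrictNormalHom L g : L ≃+* L)
    (fun x => (AlgEquiv.restrictNormal_commutes g L x).symm) ha

theorem io_equiv [IsGalois K L] [IsGalois K N] (R : Type) [Field R] [CharZero R] (g : N ≃ₐ[K] N)
    (x : (L → ℝ) →₀ R) :
    io K L N R S (Finsupp.mapDomain (fun a : L → ℝ =>
      a ∘ (AlgEquiv.restrictNormalHom L g : L ≃+* L).symm) x) =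
    Finsupp.mapDomain (fun a : N → ℝ => a ∘ (g : N ≃+* N).symm) (io K L N R S x) := by
  ext b
  rw [mapDomain_comp_apply, io_apply, io_apply, mapDomain_comp_apply]
  by_cases hb : b ∈ placeSet N (aboveSet K N (S : Set (HeightOneSpectrum (𝓞 K))))
  · rw [if_pos hb, if_pos (stab K _ g hb), blp_comp_alg K L N g (placeSet_sub N _ hb)]
  · rw [if_neg hb, if_neg]
    intro h
    apply hb
    have h1 := stab K _ g.symm h
    have h2 : (b ∘ (g : N ≃+* N)) ∘ (g.symm : N ≃+* N) = b := by
      funext t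
      simp
    rwa [h2] at h1

theorem io_range [IsGalois K L] [IsGalois K N] (R : Type) [Field R] [CharZero R]
    {x : (N → ℝ) →₀ R}
    (hx : x ∈ Xg R (placeSet N (aboveSet K N (S : Set (HeightOneSpectrum (𝓞 K))))))
    (h : ∀ δ : N ≃ₐ[K] N, AlgEquiv.restrictNormalHom L δ = (1 : L ≃ₐ[K] L) →
      Finsupp.mapDomain (fun a : N → ℝ => a ∘ (δ : N ≃+* N).symm) x = x) :
    ∃ y ∈ Xg R (placeSet L (aboveSet K L (S : Set (HeightOneSpectrum (𝓞 K))))),
      io K L N R S y = x := by
  have : IsGalois L N := IsGalois.tower_top_of_isGalois K L N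
  refine iota_range (dat K L N S) (x := x) (by rwa [Set.Finite.coe_toFinset]) ?_
  intro b hb c hc hbc
  rw [Set.Finite.mem_toFinset] at hb hc
  obtain ⟨σ, hσ⟩ := trans_aux L N (placeSet_sub N _ hb) (placeSet_sub N _ hc) hbc
  have h1 := h (σ.restrictScalars K) (restrict_one K L N σ)
  have h2 := blp_comp_alg K L N (σ.restrictScalars K) (placeSet_sub N _ hb)
  have h3 : b ∘ ((σ.restrictScalars K : N ≃ₐ[K] N) : N ≃+* N) = c := hσ
  rw [h3] at h2
  constructor
  · have h4 := DFunLike.congr_fun h1 b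
    rw [mapDomain_comp_apply, h3] at h4
    exact h4.symm
  · simp only [h2]

theorem io_lamHom (u : Additive Lˣ) :
    io K L N ℂ S (lamHom L (aboveSet K L (S : Set (HeightOneSpectrum (𝓞 K)))) u) =
      lamHom N (aboveSet K N (S : Set (HeightOneSpectrum (𝓞 K))))
        ((MonoidHom.toAdditive (Units.map (algebraMap L N : L →* N))) u) := by
  ext b
  rw [io_apply]
  show _ = if b ∈ placeSet N (aboveSet K N (S : Set (HeightOneSpectrum (𝓞 K)))) then
    -((Real.log (b (algebraMap L N ((Additive.toMul u : Lˣ) : L))) : ℝ) : ℂ) else 0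
  split_ifs with hb
  · have h1 := blp_mem K L _ hb
    obtain ⟨h2, h3, h4⟩ := blp_spec L (placeSet_sub N _ hb)
    have h5 : (lamHom L (aboveSet K L (S : Set (HeightOneSpectrum (𝓞 K)))) u) (blp L b).1 =
        if (blp L b).1 ∈ placeSet L (aboveSet K L (S : Set (HeightOneSpectrum (𝓞 K)))) then
        -((Real.log ((blp L b).1 ((Additive.toMul u : Lˣ) : L)) : ℝ) : ℂ) else 0 := rfl
    rw [h5, if_pos h1, h4, Real.log_pow]
    push_cast
    ring
  · rfl

theorem io_lam (u : ℚ ⊗[ℤ] Additive Lˣ) :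
    io K L N ℂ S (lam L (aboveSet K L (S : Set (HeightOneSpectrum (𝓞 K)))) u) =
      lam N (aboveSet K N (S : Set (HeightOneSpectrum (𝓞 K)))) (jU L N u) := by
  induction u using TensorProduct.induction_on with
  | zero => simp
  | tmul c u =>
    rw [jU, LinearMap.baseChange_tmul, lam, lam, LinearMap.liftBaseChange_tmul,
      LinearMap.liftBaseChange_tmul]
    have h := io_lamHom K L N S u
    show io K L N ℂ S (c • lamHom L (aboveSet K L (S : Set (HeightOneSpectrum (𝓞 K)))) u) =
      c • lamHom N (aboveSet K N (S : Set (HeightOneSpectrum (𝓞 K))))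
        ((MonoidHom.toAdditive (Units.map (algebraMap L N : L →* N))) u)
    rw [← h, LinearMap.map_smul_of_tower]
  | add x y hx hy => rw [map_add, map_add, map_add, map_add, hx, hy]

end main

end StarkC.IOT

namespace StarkC

open IOT

theorem IOT_thm : Stmt_IOT := by
  intro K L N _ _ _ _ _ _ _ _ _ _ _ _ S
  let ιQ : XQ L (aboveSet K L S) →ₗ[ℚ] XQ N (aboveSet K N S) :=
    (io K L N ℚ S).restrict (p := XQ L (aboveSet K L S)) (q := XQ N (aboveSet K N S))
      (fun x hx => io_mem K L N S ℚ hx)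
  let ιC : XC L (aboveSet K L S) →ₗ[ℂ] XC N (aboveSet K N S) :=
    (io K L N ℂ S).restrict (p := XCsub L (aboveSet K L S)) (q := XCsub N (aboveSet K N S))
      (fun x hx => io_mem K L N S ℂ hx)
  have hQ : ∀ x : XQ L (aboveSet K L S), (ιQ x : (N → ℝ) →₀ ℚ) = io K L N ℚ S x := fun x => rfl
  have hC : ∀ x : XC L (aboveSet K L S), (ιC x).val = io K L N ℂ S x.val := fun x => rfl
  refine ⟨ιQ, ιC, ?_, ?_, ?_, ?_, ?_, ?_, ?_, ?_⟩
  · rw [injective_iff_map_eq_zero]
    intro x hx
    apply Subtype.ext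
    refine io_inj K L N S ℚ x.2 ?_
    rw [← hQ, hx]
    rfl
  · rw [injective_iff_map_eq_zero]
    intro x hx
    apply Subtype.ext
    refine io_inj K L N S ℂ x.2 ?_
    have h := hC x
    rw [hx] at h
    exact h.symm
  · intro x z hz b
    rw [hC, hQ, io_apply, io_apply, hz]
    split_ifs <;> simp
  · intro g x y hxy
    rw [hQ, hQ, hxy]
    exact io_equiv K L N S ℚ g x
  · intro g x y hxy
    rw [hC, hC, hxy]
    exact io_equiv K L N S ℂ g x.val
  · intro x hx
    obtain ⟨y, hy, hyx⟩ := io_range K L N S ℚ x.2 hx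
    exact ⟨⟨y, hy⟩, Subtype.ext hyx⟩
  · intro x hx
    obtain ⟨y, hy, hyx⟩ := io_range K L N S ℂ (x := x.val) x.2 hx
    exact ⟨⟨y, hy⟩, Subtype.ext hyx⟩
  · intro u z hz
    rw [hC, hz, io_lam]

end StarkC
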