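import Pool.Agent.Stark.Stmts

/-!
# The sum over `(w, q)` attached to an induced class function
-/

open NumberField IsDedekindDomain
open scoped TensorProduct Classical

namespace StarkC.LC

section Move

variable {N : Type} [Field N] [NumberField N]

/-- The action of a field automorphism on the finite primes. -/
noncomputable def mv (e : N ≃+* N) : HeightOneSpectrum (𝓞 N) ≃ HeightOneSpectrum (𝓞 N) :=
  HeightOneSpectrum.equivOfRingEquiv (RingOfIntegers.mapRingEquiv e)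

theorem mem_mv (e : N ≃+* N) (w : HeightOneSpectrum (𝓞 N)) (x : 𝓞 N) :
    x ∈ (mv e w).asIdeal ↔ (RingOfIntegers.mapRingEquiv e).symm x ∈ w.asIdeal := Iff.rfl

theorem absNorm_mv (e : N ≃+* N) (w : HeightOneSpectrum (𝓞 N)) :
    Ideal.absNorm (mv e w).asIdeal = Ideal.absNorm w.asIdeal := by
  rw [Ideal.absNorm_apply, Ideal.absNorm_apply, Submodule.cardQuot_apply,
    Submodule.cardQuot_apply]
  refine Nat.card_congr (Ideal.quotientEquiv (mv e w).asIdeal w.asIdeal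
    (RingOfIntegers.mapRingEquiv e).symm ?_).toEquiv
  ext x
  refine Iff.trans ?_ (Ideal.mem_map_iff_of_surjective
    ((RingOfIntegers.mapRingEquiv e).symm : 𝓞 N →+* 𝓞 N)
    (RingOfIntegers.mapRingEquiv e).symm.surjective).symm
  constructor
  · intro hx
    refine ⟨RingOfIntegers.mapRingEquiv e x, ?_, ?_⟩
    · rw [mem_mv, RingEquiv.symm_apply_apply]
      exact hx
    · exact RingEquiv.symm_apply_apply _ _
  · rintro ⟨y, hy, rfl⟩
    exact hy

theorem rchar_mv (e : N ≃+* N) (w : HeightOneSpectrum (𝓞 N)) :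
    rchar N (mv e w) = rchar N w := by
  rw [rchar, rchar, absNorm_mv]

theorem wt_mv (e : N ≃+* N) (T : Set (HeightOneSpectrum (𝓞 N)))
    (hT : ∀ w, mv e w ∈ T ↔ w ∈ T) (s : ℂ) (w : HeightOneSpectrum (𝓞 N)) (q : ℕ) :
    wt N T s (mv e w, q) = wt N T s (w, q) := by
  simp only [wt, hT, rchar_mv, absNorm_mv]

variable {K : Type} [Field K] [NumberField K] [Algebra K N]

theorem under_mv (g : N ≃ₐ[K] N) (w : HeightOneSpectrum (𝓞 N)) :
    (mv (g : N ≃+* N) w).under (𝓞 K) = w.under (𝓞 K) := by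
  ext x
  show algebraMap (𝓞 K) (𝓞 N) x ∈ (mv (g : N ≃+* N) w).asIdeal ↔
    algebraMap (𝓞 K) (𝓞 N) x ∈ w.asIdeal
  rw [mem_mv]
  have : (RingOfIntegers.mapRingEquiv (g : N ≃+* N)).symm (algebraMap (𝓞 K) (𝓞 N) x) =
      algebraMap (𝓞 K) (𝓞 N) x := by
    rw [RingEquiv.symm_apply_eq]
    apply RingOfIntegers.ext
    rw [RingOfIntegers.mapRingEquiv_apply]
    show algebraMap K N (x : K) = g (algebraMap K N (x : K))
    rw [AlgEquiv.commutes]
  rw [this]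

theorem mv_mem_aboveSet (g : N ≃ₐ[K] N) (S : Set (HeightOneSpectrum (𝓞 K)))
    (w : HeightOneSpectrum (𝓞 N)) :
    mv (g : N ≃+* N) w ∈ aboveSet K N S ↔ w ∈ aboveSet K N S := by
  show (mv (g : N ≃+* N) w).under (𝓞 K) ∈ S ↔ w.under (𝓞 K) ∈ S
  rw [under_mv]

theorem frobPow_mv (x g : N ≃ₐ[K] N) (w : HeightOneSpectrum (𝓞 N)) (q : ℕ) :
    FrobPow N (mv (x : N ≃+* N) w) q (x * g * x⁻¹ : N ≃ₐ[K] N) ↔ FrobPow N w q g := by
  constructor
  · intro h a b hab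
    have h1 := h (RingOfIntegers.mapRingEquiv (x : N ≃+* N) a)
      (RingOfIntegers.mapRingEquiv (x : N ≃+* N) b) (by
        rw [RingOfIntegers.mapRingEquiv_apply, RingOfIntegers.mapRingEquiv_apply, hab]
        show x (g (a : N)) = x (g (x⁻¹ (x (a : N))))
        rw [AlgEquiv.aut_inv, AlgEquiv.symm_apply_apply])
    rw [mem_mv, map_sub, map_pow, RingEquiv.symm_apply_apply, RingEquiv.symm_apply_apply] at h1
    exact h1
  · intro h a b hab
    rw [mem_mv, map_sub, map_pow]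
    apply h
    rw [RingOfIntegers.mapRingEquiv_symm_apply, RingOfIntegers.mapRingEquiv_symm_apply, hab]
    show x.symm (x (g (x⁻¹ (a : N)))) = g (x.symm (a : N))
    rw [AlgEquiv.symm_apply_apply, AlgEquiv.aut_inv]

end Move

section Main

variable {K N : Type} [Field K] [NumberField K] [Field N] [NumberField N] [Algebra K N]
  [FiniteDimensional K N]

/-- One term of the induced class function, summed over the `g` with `FrobPow`. -/
noncomputable def A (H : Subgroup (N ≃ₐ[K] N)) (f : (N ≃ₐ[K] N) → ℂ) (x : N ≃ₐ[K] N)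
    (p : HeightOneSpectrum (𝓞 N) × ℕ) : ℂ :=
  ∑ g ∈ Finset.univ.filter (fun g : N ≃ₐ[K] N => FrobPow N p.1 p.2 g),
    if x⁻¹ * g * x ∈ H then f (x⁻¹ * g * x) else 0

theorem sum_indFun (H : Subgroup (N ≃ₐ[K] N)) (f : (N ≃ₐ[K] N) → ℂ)
    (p : HeightOneSpectrum (𝓞 N) × ℕ) :
    ∑ g ∈ Finset.univ.filter (fun g : N ≃ₐ[K] N => FrobPow N p.1 p.2 g), indFun H f g =
      (∑ x : N ≃ₐ[K] N, A H f x p) / (Nat.card H : ℂ) := by
  simp only [indFun, A]
  rw [← Finset.sum_div, Finset.sum_comm]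

theorem A_mv (H : Subgroup (N ≃ₐ[K] N)) (f : (N ≃ₐ[K] N) → ℂ) (x : N ≃ₐ[K] N)
    (w : HeightOneSpectrum (𝓞 N)) (q : ℕ) :
    A H f x (mv (x : N ≃+* N) w, q) =
      ∑ g ∈ Finset.univ.filter (fun g : N ≃ₐ[K] N => g ∈ H ∧ FrobPow N w q g), f g := by
  rw [A, Finset.sum_filter, Finset.sum_filter]
  rw [← Equiv.sum_comp (MulAut.conj x).toEquiv]
  apply Finset.sum_congr rfl
  intro g _
  have h1 : (MulAut.conj x).toEquiv g = x * g * x⁻¹ := rfl
  rw [h1]
  have h2 : x⁻¹ * (x * g * x⁻¹) * x = g := by group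
  rw [h2]
  have h3 := frobPow_mv x g w q
  by_cases hF : FrobPow N w q g
  · rw [if_pos (h3.2 hF)]
    by_cases hH : g ∈ H
    · rw [if_pos hH, if_pos ⟨hH, hF⟩]
    · rw [if_neg hH, if_neg (fun h => hH h.1)]
  · rw [if_neg (fun h => hF (h3.1 h)), if_neg (fun h => hF h.2)]

theorem norm_A_le (H : Subgroup (N ≃ₐ[K] N)) (f : (N ≃ₐ[K] N) → ℂ) (x : N ≃ₐ[K] N)
    (p : HeightOneSpectrum (𝓞 N) × ℕ) : ‖A H f x p‖ ≤ ∑ g : N ≃ₐ[K] N, ‖f (x⁻¹ * g * x)‖ := by
  rw [A]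
  refine (norm_sum_le _ _).trans ?_
  refine (Finset.sum_le_sum (g := fun g => ‖f (x⁻¹ * g * x)‖) ?_).trans
    (Finset.sum_le_univ_sum_of_nonneg fun g => norm_nonneg _)
  intro g _
  split_ifs with h
  · exact le_rfl
  · rw [norm_zero]
    exact norm_nonneg _

theorem summable_A (hLA : Stmt_LA) (H : Subgroup (N ≃ₐ[K] N)) (f : (N ≃ₐ[K] N) → ℂ)
    (x : N ≃ₐ[K] N) (T : Set (HeightOneSpectrum (𝓞 N))) {s : ℂ} (hs : 1 < s.re) :
    Summable (fun p => wt N T s p * A H f x p) := by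
  have h1 := (hLA N T s hs).mul_right (∑ g : N ≃ₐ[K] N, ‖f (x⁻¹ * g * x)‖)
  refine Summable.of_norm_bounded h1 ?_
  intro p
  rw [norm_mul]
  exact mul_le_mul_of_nonneg_left (norm_A_le H f x p) (norm_nonneg _)

theorem tsum_A (H : Subgroup (N ≃ₐ[K] N)) (f : (N ≃ₐ[K] N) → ℂ) (x : N ≃ₐ[K] N)
    (S : Set (HeightOneSpectrum (𝓞 K))) (s : ℂ) :
    ∑' p : HeightOneSpectrum (𝓞 N) × ℕ, wt N (aboveSet K N S) s p * A H f x p =
      ∑' p : HeightOneSpectrum (𝓞 N) × ℕ, wt N (aboveSet K N S) s p *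
        ∑ g ∈ Finset.univ.filter (fun g : N ≃ₐ[K] N => g ∈ H ∧ FrobPow N p.1 p.2 g), f g := by
  rw [← Equiv.tsum_eq ((mv (x : N ≃+* N)).prodCongr (Equiv.refl ℕ))]
  apply tsum_congr
  rintro ⟨w, q⟩
  show wt N (aboveSet K N S) s (mv (x : N ≃+* N) w, q) * A H f x (mv (x : N ≃+* N) w, q) = _
  rw [A_mv, wt_mv _ _ (mv_mem_aboveSet x S)]

end Main

end StarkC.LC

open StarkC.LC in
theorem StarkC.LC_thm (hLA : StarkC.Stmt_LA) : StarkC.Stmt_LC := by
  intro K N _ _ _ _ _ _ H f S s hs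
  set B : ℂ := ∑' p : HeightOneSpectrum (𝓞 N) × ℕ, StarkC.wt N (StarkC.aboveSet K N S) s p *
        ∑ g ∈ Finset.univ.filter (fun g : N ≃ₐ[K] N => g ∈ H ∧ StarkC.FrobPow N p.1 p.2 g), f g
    with hB
  have h1 : ∑' p : HeightOneSpectrum (𝓞 N) × ℕ, StarkC.wt N (StarkC.aboveSet K N S) s p *
      ∑ g ∈ Finset.univ.filter (fun g : N ≃ₐ[K] N => StarkC.FrobPow N p.1 p.2 g),
        StarkC.indFun H f g =
      (Nat.card (N ≃ₐ[K] N) : ℂ) * (B / (Nat.card H : ℂ)) := by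
    have h2 : ∀ p : HeightOneSpectrum (𝓞 N) × ℕ, StarkC.wt N (StarkC.aboveSet K N S) s p *
        ∑ g ∈ Finset.univ.filter (fun g : N ≃ₐ[K] N => StarkC.FrobPow N p.1 p.2 g),
          StarkC.indFun H f g =
        (∑ x : N ≃ₐ[K] N, StarkC.wt N (StarkC.aboveSet K N S) s p * A H f x p) /
          (Nat.card H : ℂ) := by
      intro p
      rw [sum_indFun, ← Finset.mul_sum, mul_div_assoc]
    rw [tsum_congr h2, tsum_div_const,
      Summable.tsum_finsetSum (fun x _ => summable_A hLA H f x (StarkC.aboveSet K N S) hs)]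
    rw [Finset.sum_congr rfl (fun x _ => tsum_A H f x S s), ← hB, Finset.sum_const,
      Finset.card_univ, nsmul_eq_mul, Nat.card_eq_fintype_card (α := N ≃ₐ[K] N), mul_div_assoc]
  rw [StarkC.coreSum, h1]
  have h3 : (Nat.card (N ≃ₐ[K] N) : ℂ) ≠ 0 := by
    have : 0 < Nat.card (N ≃ₐ[K] N) := Nat.card_pos
    exact_mod_cast this.ne'
  rw [mul_comm, mul_div_assoc, div_self h3, mul_one]
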