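import Pool.Agent.Stark.Stmts

/-!
# The logarithm of the Artin L-series of an induced character (module ST_LIND, by helper97)
-/

open NumberField IsDedekindDomain
open scoped TensorProduct Classical

namespace StarkC

namespace LIND

theorem equiv_apply {K N : Type} [Field K] [Field N] [Algebra K N] [FiniteDimensional K N]
    (H : Subgroup (N ≃ₐ[K] N)) (h : H) (x : N) :
    IntermediateField.subgroupEquivAlgEquiv H h x = (h : N ≃ₐ[K] N) x := rfl

theorem inner {K N : Type} [Field K] [Field N] [NumberField N] [Algebra K N]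
    [FiniteDimensional K N] (H : Subgroup (N ≃ₐ[K] N)) (ψ : H →* ℂˣ)
    (w : HeightOneSpectrum (𝓞 N)) (q : ℕ) :
    (∑ g ∈ Finset.univ.filter (fun g : N ≃ₐ[K] N => g ∈ H ∧ FrobPow N w q g), extZ ψ g) =
      ∑ g ∈ Finset.univ.filter (fun g : N ≃ₐ[IntermediateField.fixedField H] N =>
        FrobPow N w q g), ((liftChar H ψ g : ℂˣ) : ℂ) := by
  symm
  refine Finset.sum_bij (fun g _ => (((IntermediateField.subgroupEquivAlgEquiv H).symm g : H) :
    N ≃ₐ[K] N)) ?_ ?_ ?_ ?_
  · intro g hg
    rw [Finset.mem_filter] at hg ⊢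
    refine ⟨Finset.mem_univ _, SetLike.coe_mem _, ?_⟩
    have e : ((((IntermediateField.subgroupEquivAlgEquiv H).symm g : H) : N ≃ₐ[K] N) : N → N) =
        (g : N → N) := by
      funext x
      rw [← equiv_apply, MulEquiv.apply_symm_apply]
    rw [e]
    exact hg.2
  · intro a _ b _ hab
    exact (IntermediateField.subgroupEquivAlgEquiv H).symm.injective (Subtype.ext hab)
  · intro g hg
    rw [Finset.mem_filter] at hg
    refine ⟨IntermediateField.subgroupEquivAlgEquiv H ⟨g, hg.2.1⟩, ?_, ?_⟩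
    · rw [Finset.mem_filter]
      exact ⟨Finset.mem_univ _, hg.2.2⟩
    · rw [MulEquiv.symm_apply_apply]
  · intro g _
    rw [extZ, dif_pos (SetLike.coe_mem _)]
    rfl

end LIND

theorem LIND_thm (_hLA : Stmt_LA) (hLB : Stmt_LB) (hLC : Stmt_LC) : Stmt_LIND := by
  intro K N _ _ _ _ _ _ H ψ S S' s hS hs
  rw [hLB K N (indFun H (extZ ψ)) S s hs, hLC K N H (extZ ψ) S s hs,
    hLB (IntermediateField.fixedField H) N (fun g => ((liftChar H ψ g : ℂˣ) : ℂ)) S' s hs, hS]
  unfold coreSum
  have hc : Nat.card (N ≃ₐ[IntermediateField.fixedField H] N) = Nat.card H :=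
    (Nat.card_congr (IntermediateField.subgroupEquivAlgEquiv H).toEquiv).symm
  rw [hc]
  congr 1
  refine tsum_congr fun p => ?_
  rw [LIND.inner]

end StarkC
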