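import Pool.Agent.Stark.Stmts

/-!
# Noether-Deuring with an extension from the `D`-invariants
-/

open scoped Matrix

namespace StarkC.ND

section Matrices

variable {n : ℕ} {G : Type} [Group G] [Fintype G]

/-- The averaging operator on matrices over a commutative ring. -/
noncomputable def Phi {R : Type} [CommRing R] [Algebra ℚ R] (P Q : G → Matrix (Fin n) (Fin n) ℚ)
    (t : Matrix (Fin n) (Fin n) R) : Matrix (Fin n) (Fin n) R :=
  ∑ g : G, (Q g).map (algebraMap ℚ R) * t * (P g⁻¹).map (algebraMap ℚ R)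

theorem Phi_map {R S : Type} [CommRing R] [Algebra ℚ R] [CommRing S] [Algebra ℚ S]
    (P Q : G → Matrix (Fin n) (Fin n) ℚ) (f : R →ₐ[ℚ] S) (t : Matrix (Fin n) (Fin n) R) :
    (Phi P Q t).map f = Phi P Q (t.map f) := by
  have h1 : (Phi P Q t).map f = (f : R →+* S).mapMatrix (Phi P Q t) := rfl
  rw [h1]
  unfold Phi
  rw [map_sum]
  refine Finset.sum_congr rfl fun g _ => ?_
  rw [map_mul, map_mul]
  congr 1
  · congr 1
    ext k l
    simp
  · ext k l
    simp

theorem exists_rat (P Q : G → Matrix (Fin n) (Fin n) ℚ) (C : Matrix (Fin n) (Fin n) ℂ)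
    (h : (Phi P Q C).det ≠ 0) : ∃ t : Matrix (Fin n) (Fin n) ℚ, (Phi P Q t).det ≠ 0 := by
  by_contra hcon
  push Not at hcon
  set p : MvPolynomial (Fin n × Fin n) ℚ := (Phi P Q (Matrix.mvPolynomialX (Fin n) (Fin n) ℚ)).det
    with hp
  have key : ∀ {S : Type} [CommRing S] [Algebra ℚ S] (t : Matrix (Fin n) (Fin n) S),
      MvPolynomial.aeval (fun q : Fin n × Fin n => t q.1 q.2) p = (Phi P Q t).det := by
    intro S _ _ t
    rw [hp, AlgHom.map_det]
    congr 1
    have := Phi_map P Q (MvPolynomial.aeval (fun q : Fin n × Fin n => t q.1 q.2))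
      (Matrix.mvPolynomialX (Fin n) (Fin n) ℚ)
    rw [AlgHom.mapMatrix_apply, this]
    congr 1
    ext k l
    simp [Matrix.mvPolynomialX]
  have h0 : p = 0 := by
    apply MvPolynomial.funext
    intro x
    have h1 := key (S := ℚ) (Matrix.of fun k l => x (k, l))
    rw [hcon] at h1
    rw [map_zero, ← h1]
    rfl
  apply h
  rw [← key C, h0, map_zero]

end Matrices

section Main

variable {G : Type} [Group G] [Fintype G] {Z : Type} [AddCommGroup Z] [Module ℂ Z]
  {A B : Type} [AddCommGroup A] [Module ℚ A] [AddCommGroup B] [Module ℚ B]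

omit [Fintype G] in
theorem toMatrix_eq (π : Representation ℂ G Z) (α : Representation ℚ G A) (i : A →+ Z) {n : ℕ}
    (a : Module.Basis (Fin n) ℚ A) (a' : Module.Basis (Fin n) ℂ Z) (h : ∀ k, i (a k) = a' k)
    (hi : ∀ g x, i (α g x) = π g (i x)) (g : G) :
    LinearMap.toMatrix a' a' (π g) = (LinearMap.toMatrix a a (α g)).map (algebraMap ℚ ℂ) := by
  have hs : ∀ (q : ℚ) (x : A), i (q • x) = (q : ℂ) • i x := by
    intro q x
    have := map_ratCast_smul i ℚ ℂ q x
    simpa using this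
  ext k l
  rw [LinearMap.toMatrix_apply, ← h l, ← hi]
  have e1 : α g (a l) = ∑ m, LinearMap.toMatrix a a (α g) m l • a m := by
    conv_lhs => rw [← a.sum_repr (α g (a l))]
    simp only [LinearMap.toMatrix_apply]
  rw [e1, map_sum]
  simp only [hs, h]
  rw [map_sum]
  simp only [map_smul, Module.Basis.repr_self]
  simp [Finsupp.single_apply]

/-- Noether-Deuring over `ℚ`. -/
theorem nd (π : Representation ℂ G Z) (α : Representation ℚ G A) (β : Representation ℚ G B)
    (i : A →+ Z) (j : B →+ Z) (n : ℕ)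
    (a : Module.Basis (Fin n) ℚ A) (a' : Module.Basis (Fin n) ℂ Z)
    (b : Module.Basis (Fin n) ℚ B) (b' : Module.Basis (Fin n) ℂ Z)
    (hia : ∀ k, i (a k) = a' k) (hjb : ∀ k, j (b k) = b' k)
    (hi : ∀ g x, i (α g x) = π g (i x)) (hj : ∀ g x, j (β g x) = π g (j x)) :
    ∃ e : A ≃ₗ[ℚ] B, ∀ g x, e (α g x) = β g (e x) := by
  set P : G → Matrix (Fin n) (Fin n) ℚ := fun g => LinearMap.toMatrix a a (α g) with hP
  set Q : G → Matrix (Fin n) (Fin n) ℚ := fun g => LinearMap.toMatrix b b (β g) with hQ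
  set C : Matrix (Fin n) (Fin n) ℂ := b'.toMatrix a' with hC
  have h1 : ∀ g, (Q g).map (algebraMap ℚ ℂ) * C = C * (P g).map (algebraMap ℚ ℂ) := by
    intro g
    rw [hP, hQ, hC]
    simp only
    rw [← toMatrix_eq π β j b b' hjb hj g, ← toMatrix_eq π α i a a' hia hi g,
      linearMap_toMatrix_mul_basis_toMatrix, basis_toMatrix_mul_linearMap_toMatrix]
  have hPP : ∀ g, P g * P g⁻¹ = 1 := by
    intro g
    rw [hP]
    simp only
    rw [← LinearMap.toMatrix_mul, ← map_mul, mul_inv_cancel, map_one]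
    exact LinearMap.toMatrix_one a
  have h2 : Phi P Q C = (Fintype.card G : ℂ) • C := by
    unfold Phi
    have : ∀ g ∈ (Finset.univ : Finset G), (Q g).map (algebraMap ℚ ℂ) * C *
        (P g⁻¹).map (algebraMap ℚ ℂ) = C := by
      intro g _
      rw [h1, Matrix.mul_assoc, ← Matrix.map_mul, hPP]
      rw [Matrix.map_one _ (map_zero _) (map_one _), Matrix.mul_one]
    rw [Finset.sum_congr rfl this, Finset.sum_const, Finset.card_univ, Nat.cast_smul_eq_nsmul]
  have hdC : C.det ≠ 0 := by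
    intro h0
    have h3 : C * a'.toMatrix b' = 1 := Module.Basis.toMatrix_mul_toMatrix_flip b' a'
    have h4 := congrArg Matrix.det h3
    rw [Matrix.det_mul, h0, zero_mul, Matrix.det_one] at h4
    exact zero_ne_one h4
  have h5 : (Phi P Q C).det ≠ 0 := by
    rw [h2, Matrix.det_smul]
    refine mul_ne_zero (pow_ne_zero _ ?_) hdC
    exact_mod_cast Fintype.card_ne_zero
  obtain ⟨t, ht⟩ := exists_rat P Q C h5
  set X : A →ₗ[ℚ] B := Matrix.toLin a b t with hX
  set Y : A →ₗ[ℚ] B := ∑ g : G, β g ∘ₗ X ∘ₗ α g⁻¹ with hY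
  have hYm : LinearMap.toMatrix a b Y = Phi P Q t := by
    rw [hY, map_sum]
    unfold Phi
    refine Finset.sum_congr rfl fun g _ => ?_
    rw [LinearMap.toMatrix_comp a b b, LinearMap.toMatrix_comp a a b, hX, LinearMap.toMatrix_toLin,
      ← Matrix.mul_assoc]
    rfl
  have hdet : IsUnit (LinearMap.toMatrix a b Y).det := by
    rw [hYm]
    exact isUnit_iff_ne_zero.2 ht
  refine ⟨LinearEquiv.ofIsUnitDet hdet, fun h x => ?_⟩
  have hYe : Y (α h x) = β h (Y x) := by
    rw [hY]
    simp only [LinearMap.sum_apply, LinearMap.comp_apply, map_sum]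
    refine Fintype.sum_equiv (Equiv.mulLeft h⁻¹) _ _ fun g => ?_
    simp only [Equiv.coe_mulLeft, mul_inv_rev, inv_inv]
    rw [← LinearMap.comp_apply (α g⁻¹), ← Module.End.mul_eq_comp, ← map_mul]
    rw [← LinearMap.comp_apply (β h), ← Module.End.mul_eq_comp, ← map_mul, mul_inv_cancel_left]
  exact hYe

/-- The projection onto the invariants of a normal subgroup. -/
theorem exists_proj (D : Subgroup G) [D.Normal] (α : Representation ℚ G A) :
    ∃ p : A →ₗ[ℚ] A, (∀ g x, p (α g x) = α g (p x)) ∧ (∀ x, ∀ d ∈ D, α d (p x) = p x) ∧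
      ∀ x, (∀ d ∈ D, α d x = x) → p x = x := by
  classical
  have hc : (Fintype.card D : ℚ) ≠ 0 := by exact_mod_cast Fintype.card_ne_zero
  refine ⟨(Fintype.card D : ℚ)⁻¹ • ∑ d : D, α (d : G), fun g x => ?_, fun x d hd => ?_,
    fun x hx => ?_⟩
  · simp only [LinearMap.smul_apply, LinearMap.sum_apply, map_smul, map_sum]
    congr 1
    refine Fintype.sum_equiv (MulAut.conjNormal g⁻¹ : MulAut D).toEquiv _ _ fun d => ?_
    rw [← LinearMap.comp_apply (α (d : G)), ← Module.End.mul_eq_comp, ← map_mul]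
    rw [← LinearMap.comp_apply (α g), ← Module.End.mul_eq_comp, ← map_mul]
    congr 2
    simp [mul_assoc]
  · simp only [LinearMap.smul_apply, LinearMap.sum_apply, map_smul, map_sum]
    congr 1
    refine Fintype.sum_equiv (Equiv.mulLeft (⟨d, hd⟩ : D)) _ _ fun d' => ?_
    rw [← LinearMap.comp_apply (α d), ← Module.End.mul_eq_comp, ← map_mul]
    rfl
  · simp only [LinearMap.smul_apply, LinearMap.sum_apply]
    rw [Finset.sum_congr rfl (fun (d : D) _ => hx d d.2), Finset.sum_const, Finset.card_univ,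
      ← Nat.cast_smul_eq_nsmul ℚ, smul_smul, inv_mul_cancel₀ hc, one_smul]

end Main

end StarkC.ND

theorem StarkC.ND_thm : StarkC.Stmt_ND := by
  intro G _ hfin D _ Z _ _ π A B _ _ _ _ α β i j n a a' b b' hia hjb hi hj A₀ B₀ e₀ hA hB he
  have : Fintype G := Fintype.ofFinite G
  obtain ⟨e₁, he₁⟩ := StarkC.ND.nd π α β i j n a a' b b' hia hjb hi hj
  obtain ⟨p, hp1, hp2, hp3⟩ := StarkC.ND.exists_proj D α
  have hp0 : ∀ x, p x ∈ A₀ := fun x => (hA _).2 (hp2 x)
  have hpA : ∀ x ∈ A₀, p x = x := fun x hx => hp3 x ((hA x).1 hx)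
  set F : A →ₗ[ℚ] B := B₀.subtype ∘ₗ (e₀ : A₀ →ₗ[ℚ] B₀) ∘ₗ (p.codRestrict A₀ hp0) +
    (e₁ : A →ₗ[ℚ] B) ∘ₗ (LinearMap.id - p) with hF
  have hFx : ∀ x, F x = (e₀ ⟨p x, hp0 x⟩ : B) + e₁ (x - p x) := by
    intro x
    rw [hF]
    simp only [LinearMap.add_apply, LinearMap.comp_apply, LinearMap.sub_apply, LinearMap.id_apply,
      LinearEquiv.coe_coe, Submodule.subtype_apply]
    rfl
  have hinj : Function.Injective F := by
    rw [injective_iff_map_eq_zero]
    intro x hx
    rw [hFx] at hx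
    set y : A := e₁.symm (e₀ ⟨p x, hp0 x⟩ : B) with hy
    have h1 : e₁ y = (e₀ ⟨p x, hp0 x⟩ : B) := by rw [hy]; simp
    have h2 : y = -(x - p x) := by
      apply e₁.injective
      rw [h1, map_neg]
      exact eq_neg_of_add_eq_zero_left hx
    have h3 : p y = y := by
      apply hp3
      intro d hd
      apply e₁.injective
      rw [he₁, h1]
      exact (hB _).1 (e₀ ⟨p x, hp0 x⟩).2 d hd
    have h4 : y = 0 := by
      rw [← h3, h2, map_neg, map_sub, hpA _ (hp0 x), sub_self, neg_zero]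
    have h5 : x = p x := by
      rw [h4] at h2
      have := neg_eq_zero.1 h2.symm
      exact sub_eq_zero.1 this
    rw [h4, map_zero] at h1
    have h6 : e₀ ⟨p x, hp0 x⟩ = 0 := Subtype.ext h1.symm
    have h7 : (⟨p x, hp0 x⟩ : A₀) = 0 := by
      rw [← e₀.map_eq_zero_iff]; exact h6
    rw [h5]
    exact congrArg Subtype.val h7
  have : Module.Finite ℚ A := Module.Finite.of_basis a
  have : Module.Finite ℚ B := Module.Finite.of_basis b
  have hdim : Module.finrank ℚ A = Module.finrank ℚ B := e₁.finrank_eq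
  refine ⟨LinearMap.linearEquivOfInjective F hinj hdim, fun g x => ?_, fun x => ?_⟩
  · simp only [LinearMap.linearEquivOfInjective_apply]
    rw [hFx, hFx, map_add]
    have h1 := he g ⟨p x, hp0 x⟩ ⟨p (α g x), hp0 _⟩ (hp1 g x)
    have h2 : α g x - p (α g x) = α g (x - p x) := by rw [hp1, map_sub]
    rw [h1, h2, he₁]
  · simp only [LinearMap.linearEquivOfInjective_apply]
    rw [hFx]
    have h1 : (⟨p (x : A), hp0 _⟩ : A₀) = x := Subtype.ext (hpA _ x.2)
    rw [h1, hpA _ x.2, sub_self, map_zero, add_zero]
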