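import Pool.Agent.Stark.Stmts

/-!
# Module UDE: Galois descent for `ℚ ⊗ T`-units
-/

open NumberField IsDedekindDomain
open scoped TensorProduct Classical

set_option linter.unusedSectionVars false

namespace StarkC

namespace UDE

section

variable {K L N : Type} [Field K] [NumberField K] [Field L] [NumberField L] [Field N]
  [NumberField N] [Algebra K L] [Algebra K N] [Algebra L N] [IsScalarTower K L N]

theorem under_under' (w : HeightOneSpectrum (𝓞 N)) :
    (w.under (𝓞 L)).under (𝓞 K) = w.under (𝓞 K) := by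
  apply HeightOneSpectrum.ext
  exact Ideal.under_under (A := 𝓞 K) (B := 𝓞 L) w.asIdeal

theorem val_one_iff (w : HeightOneSpectrum (𝓞 N)) (x : L) :
    (w.under (𝓞 L)).valuation L x = 1 ↔ w.valuation N (algebraMap L N x) = 1 := by
  have : w.asIdeal.LiesOver (w.under (𝓞 L)).asIdeal := ⟨rfl⟩
  have h := HeightOneSpectrum.valuation_liesOver (K := L) N (w.under (𝓞 L)) w x
  have he := Ideal.IsDedekindDomain.ramificationIdx'_ne_zero_of_liesOver w.asIdeal
    (w.under (𝓞 L)).ne_bot
  rw [← h]
  exact (pow_eq_one_iff.trans (or_iff_left he)).symm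

theorem exists_over (v : HeightOneSpectrum (𝓞 L)) :
    ∃ w : HeightOneSpectrum (𝓞 N), w.under (𝓞 L) = v := by
  obtain ⟨P, hP, hPv⟩ := v.asIdeal.exists_ideal_over_prime_of_isIntegral_of_isDomain (S := 𝓞 N)
    (by simp)
  refine ⟨⟨P, hP, ?_⟩, HeightOneSpectrum.ext hPv⟩
  rintro rfl
  exact v.ne_bot (by rw [← hPv]; simp)

theorem unit_map (S : Set (HeightOneSpectrum (𝓞 K))) {u : Lˣ}
    (hu : u ∈ (aboveSet K L S).unit L) :
    Units.map (algebraMap L N : L →* N) u ∈ (aboveSet K N S).unit N := by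
  intro w hw
  have h1 : w.under (𝓞 L) ∉ aboveSet K L S := by
    intro h
    apply hw
    change w.under (𝓞 K) ∈ S
    rw [← under_under' (K := K) (L := L) w]
    exact h
  have h2 := hu (w.under (𝓞 L)) h1
  exact (val_one_iff w (u : L)).1 h2

/-- The prime `σ⁻¹ w`. -/
noncomputable def pull (σ : N ≃ₐ[L] N) (w : HeightOneSpectrum (𝓞 N)) : HeightOneSpectrum (𝓞 N) where
  asIdeal := w.asIdeal.comap (RingOfIntegers.mapRingEquiv (σ : N ≃+* N) : 𝓞 N →+* 𝓞 N)
  isPrime := Ideal.comap_isPrime _ _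
  ne_bot := by
    intro h
    apply w.ne_bot
    rw [eq_bot_iff]
    intro x hx
    have h1 : (RingOfIntegers.mapRingEquiv (σ : N ≃+* N)).symm x ∈
        w.asIdeal.comap (RingOfIntegers.mapRingEquiv (σ : N ≃+* N) : 𝓞 N →+* 𝓞 N) := by
      rw [Ideal.mem_comap]
      simpa using hx
    rw [h, Ideal.mem_bot, map_eq_zero_iff _ (RingEquiv.injective _)] at h1
    rw [h1]
    exact Submodule.zero_mem _

theorem pull_under (σ : N ≃ₐ[L] N) (w : HeightOneSpectrum (𝓞 N)) :
    (pull σ w).under (𝓞 L) = w.under (𝓞 L) := by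
  apply HeightOneSpectrum.ext
  ext x
  simp only [HeightOneSpectrum.under_asIdeal, Ideal.under, pull, Ideal.mem_comap]
  have : (RingOfIntegers.mapRingEquiv (σ : N ≃+* N)) (algebraMap (𝓞 L) (𝓞 N) x) =
      algebraMap (𝓞 L) (𝓞 N) x := by
    apply RingOfIntegers.ext
    exact σ.commutes (x : L)
  rw [RingHom.coe_coe, this]

theorem mem_pow_pull (σ : N ≃ₐ[L] N) (w : HeightOneSpectrum (𝓞 N)) (a : 𝓞 N) (n : ℕ) :
    (RingOfIntegers.mapRingEquiv (σ : N ≃+* N)) a ∈ w.asIdeal ^ n ↔ a ∈ (pull σ w).asIdeal ^ n := by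
  have h1 : (pull σ w).asIdeal ^ n =
      (w.asIdeal ^ n).comap (RingOfIntegers.mapRingEquiv (σ : N ≃+* N) : 𝓞 N →+* 𝓞 N) := by
    have h2 := Ideal.map_symm (I := w.asIdeal) (RingOfIntegers.mapRingEquiv (σ : N ≃+* N))
    have h3 := Ideal.map_symm (I := w.asIdeal ^ n) (RingOfIntegers.mapRingEquiv (σ : N ≃+* N))
    change (w.asIdeal.comap (RingOfIntegers.mapRingEquiv (σ : N ≃+* N))) ^ n =
      (w.asIdeal ^ n).comap (RingOfIntegers.mapRingEquiv (σ : N ≃+* N))
    rw [← h2, ← h3, Ideal.map_pow]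
  rw [h1, Ideal.mem_comap]
  rfl

theorem intVal_pull (σ : N ≃ₐ[L] N) (w : HeightOneSpectrum (𝓞 N)) (a : 𝓞 N) :
    w.intValuation ((RingOfIntegers.mapRingEquiv (σ : N ≃+* N)) a) =
      (pull σ w).intValuation a := by
  by_cases ha : a = 0
  · rw [ha, map_zero, map_zero, map_zero]
  have ha' : (RingOfIntegers.mapRingEquiv (σ : N ≃+* N)) a ≠ 0 := by
    rwa [ne_eq, map_eq_zero_iff _ (RingEquiv.injective _)]
  have e1 := HeightOneSpectrum.intValuation_if_neg w ha'
  have e2 := HeightOneSpectrum.intValuation_if_neg (pull σ w) ha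
  have m := mem_pow_pull σ w a
  apply le_antisymm
  · rw [e2, HeightOneSpectrum.intValuation_le_pow_iff_mem, m,
      ← HeightOneSpectrum.intValuation_le_pow_iff_mem, e2]
  · rw [e1, HeightOneSpectrum.intValuation_le_pow_iff_mem, ← m,
      ← HeightOneSpectrum.intValuation_le_pow_iff_mem, e1]

theorem val_pull (σ : N ≃ₐ[L] N) (w : HeightOneSpectrum (𝓞 N)) (x : N) :
    w.valuation N (σ x) = (pull σ w).valuation N x := by
  obtain ⟨a, b, hb, rfl⟩ := IsFractionRing.div_surjective (A := 𝓞 N) x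
  rw [map_div₀, map_div₀, map_div₀]
  have h : ∀ c : 𝓞 N, w.valuation N (σ (algebraMap (𝓞 N) N c)) =
      (pull σ w).valuation N (algebraMap (𝓞 N) N c) := by
    intro c
    have h1 : σ (algebraMap (𝓞 N) N c) =
      algebraMap (𝓞 N) N ((RingOfIntegers.mapRingEquiv (σ : N ≃+* N)) c) := rfl
    rw [h1, HeightOneSpectrum.valuation_of_algebraMap, HeightOneSpectrum.valuation_of_algebraMap,
      intVal_pull]
  rw [h, h]

theorem norm_unit [IsGalois L N] (S : Set (HeightOneSpectrum (𝓞 K))) {u : Nˣ}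
    (hu : u ∈ (aboveSet K N S).unit N) :
    Units.map (Algebra.norm L : N →* L) u ∈ (aboveSet K L S).unit L := by
  intro v hv
  obtain ⟨w, hw⟩ := exists_over (N := N) v
  have h1 := val_one_iff w ((Units.map (Algebra.norm L : N →* L) u : Lˣ) : L)
  rw [hw] at h1
  rw [h1]
  have h2 : algebraMap L N ((Units.map (Algebra.norm L : N →* L) u : Lˣ) : L) =
      ∏ σ : N ≃ₐ[L] N, σ (u : N) := Algebra.norm_eq_prod_automorphisms L (u : N)
  rw [h2, map_prod]
  refine Finset.prod_eq_one fun σ _ => ?_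
  rw [val_pull]
  apply hu
  intro h3
  apply hv
  change v.under (𝓞 K) ∈ S
  rw [← hw, ← pull_under σ w, under_under']
  exact h3

/-- `ℚ ⊗ Nˣ → ℚ ⊗ Lˣ` induced by the norm. -/
noncomputable def nmQ (L N : Type) [Field L] [Field N] [Algebra L N] :
    ℚ ⊗[ℤ] Additive Nˣ →ₗ[ℚ] ℚ ⊗[ℤ] Additive Lˣ :=
  LinearMap.baseChange ℚ
    (MonoidHom.toAdditive (Units.map (Algebra.norm L : N →* L))).toIntLinearMap

theorem jU_tmul (q : ℚ) (u : Additive Lˣ) : jU L N (q ⊗ₜ[ℤ] u) =
    q ⊗ₜ[ℤ] Additive.ofMul (Units.map (algebraMap L N : L →* N) (Additive.toMul u)) := rfl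

theorem nmQ_tmul (q : ℚ) (u : Additive Nˣ) : nmQ L N (q ⊗ₜ[ℤ] u) =
    q ⊗ₜ[ℤ] Additive.ofMul (Units.map (Algebra.norm L : N →* L) (Additive.toMul u)) := rfl

theorem actU_tmul (g : N ≃+* N) (q : ℚ) (u : Additive Nˣ) : actU g (q ⊗ₜ[ℤ] u) =
    q ⊗ₜ[ℤ] Additive.ofMul (Units.map (g : N →* N) (Additive.toMul u)) := rfl

theorem jU_nmQ [IsGalois L N] (x : ℚ ⊗[ℤ] Additive Nˣ) :
    jU L N (nmQ L N x) = ∑ σ : N ≃ₐ[L] N, actU (σ : N ≃+* N) x := by
  induction x using TensorProduct.induction_on with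
  | zero => simp
  | add x y hx hy =>
    simp only [map_add, hx, hy, Finset.sum_add_distrib]
  | tmul q u =>
    rw [nmQ_tmul, jU_tmul]
    simp only [actU_tmul]
    rw [← TensorProduct.tmul_sum]
    congr 1
    rw [← ofMul_prod]
    congr 1
    ext
    rw [Units.coe_prod]
    exact Algebra.norm_eq_prod_automorphisms L ((Additive.toMul u : Nˣ) : N)

end

end UDE

open UDE in
theorem UDE_thm : Stmt_UDE := by
  intro K L N _ _ _ _ _ _ _ _ _ _ _ _ S
  have hGal : IsGalois L N := IsGalois.tower_top_of_isGalois K L N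
  refine ⟨?_, ?_, ?_, ?_⟩
  · intro u hu
    induction hu using Submodule.span_induction with
    | mem x hx =>
      obtain ⟨u', hu', rfl⟩ := hx
      rw [jU_tmul]
      exact Submodule.subset_span ⟨_, unit_map S hu', rfl⟩
    | zero => rw [map_zero]; exact Submodule.zero_mem _
    | add x y _ _ hx hy => rw [map_add]; exact Submodule.add_mem _ hx hy
    | smul c x _ hx => rw [map_smul]; exact Submodule.smul_mem _ _ hx
  · intro u _ hu
    have hinj : Function.Injective (jU L N) := by
      have h1 : Function.Injective (MonoidHom.toAdditive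
          (Units.map (algebraMap L N : L →* N))).toIntLinearMap := by
        intro a b hab
        have h2 : Units.map (algebraMap L N : L →* N) (Additive.toMul a) =
          Units.map (algebraMap L N : L →* N) (Additive.toMul b) := hab
        have h3 : algebraMap L N (Additive.toMul a : Lˣ) = algebraMap L N (Additive.toMul b : Lˣ) :=
          congrArg Units.val h2
        exact Additive.toMul.injective (Units.ext ((algebraMap L N).injective h3))
      exact Module.Flat.lTensor_preserves_injective_linearMap (M := ℚ) _ h1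
    exact hinj (by rw [hu, map_zero])
  · intro g u
    induction u using TensorProduct.induction_on with
    | zero => simp
    | add x y hx hy => simp only [map_add, hx, hy]
    | tmul q u =>
      rw [jU_tmul, actU_tmul, actU_tmul, jU_tmul]
      congr 2
      ext
      exact (AlgEquiv.restrictNormal_commutes g L ((Additive.toMul u : Lˣ) : L)).symm
  · intro x hx hfix
    have hnm : nmQ L N x ∈ QU L (aboveSet K L S) := by
      clear hfix
      induction hx using Submodule.span_induction with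
      | mem x hx =>
        obtain ⟨u', hu', rfl⟩ := hx
        rw [nmQ_tmul]
        exact Submodule.subset_span ⟨_, norm_unit S hu', rfl⟩
      | zero => rw [map_zero]; exact Submodule.zero_mem _
      | add x y _ _ hx hy => rw [map_add]; exact Submodule.add_mem _ hx hy
      | smul c x _ hx => rw [map_smul]; exact Submodule.smul_mem _ _ hx
    have hsum : jU L N (nmQ L N x) = (Fintype.card (N ≃ₐ[L] N) : ℚ) • x := by
      rw [jU_nmQ]
      have h1 : ∀ σ : N ≃ₐ[L] N, actU (σ : N ≃+* N) x = x := by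
        intro σ
        refine hfix (σ.restrictScalars K) ?_
        apply AlgEquiv.ext
        intro y
        apply (algebraMap L N).injective
        have h2 := AlgEquiv.restrictNormal_commutes (σ.restrictScalars K) L y
        rw [AlgEquiv.one_apply]
        exact h2.trans (σ.commutes y)
      rw [Finset.sum_congr rfl fun σ _ => h1 σ, Finset.sum_const, Finset.card_univ,
        Nat.cast_smul_eq_nsmul]
    have hcard : (Fintype.card (N ≃ₐ[L] N) : ℚ) ≠ 0 := by
      exact_mod_cast Fintype.card_ne_zero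
    refine ⟨(Fintype.card (N ≃ₐ[L] N) : ℚ)⁻¹ • nmQ L N x, Submodule.smul_mem _ _ hnm, ?_⟩
    rw [map_smul, hsum, smul_smul, inv_mul_cancel₀ hcard, one_smul]

end StarkC
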