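import Pool.Agent.Stark.Stmts

/-!
# Quasi-elementary groups containing a complex conjugation
-/

namespace StarkC

namespace QE

/-- An element of a group which has odd order and also 2-power order is trivial. -/
theorem eq_one_of_two {A : Type*} [Group A] {a : A} {m n : ℕ} (hm : Odd m) (h1 : a ^ m = 1)
    (h2 : a ^ (2 ^ n) = 1) : a = 1 := by
  have hc : Nat.Coprime m (2 ^ n) := (Nat.Coprime.pow_left n (Nat.coprime_two_left.2 hm)).symm
  have h3 : orderOf a ∣ m := orderOf_dvd_of_pow_eq_one h1
  have h4 : orderOf a ∣ 2 ^ n := orderOf_dvd_of_pow_eq_one h2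
  have h5 : orderOf a ∣ 1 := by
    rw [← Nat.Coprime.gcd_eq_one hc]
    exact Nat.dvd_gcd h3 h4
  exact orderOf_eq_one_iff.1 (Nat.dvd_one.1 h5)

/-- A cyclic finite group has at most one element of order two. -/
theorem unique_two {A : Type*} [Group A] [Finite A] [IsCyclic A] {a b : A} (ha : a ^ 2 = 1)
    (hb : b ^ 2 = 1) (ha1 : a ≠ 1) (hb1 : b ≠ 1) : a = b := by
  classical
  haveI : Fintype A := Fintype.ofFinite A
  by_contra hab
  have h := IsCyclic.card_pow_eq_one_le (α := A) (n := 2) (by norm_num)
  have h3 : ({1, a, b} : Finset A) ⊆ Finset.univ.filter (fun x : A => x ^ 2 = 1) := by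
    intro x hx
    simp only [Finset.mem_insert, Finset.mem_singleton] at hx
    rw [Finset.mem_filter]
    refine ⟨Finset.mem_univ _, ?_⟩
    rcases hx with rfl | rfl | rfl
    · simp
    · exact ha
    · exact hb
  have h4 : ({1, a, b} : Finset A).card = 3 := by
    rw [Finset.card_eq_three]
    exact ⟨1, a, b, fun h => ha1 h.symm, fun h => hb1 h.symm, hab, rfl⟩
  have h5 := Finset.card_le_card h3
  omega

end QE

theorem QE_thm : StarkC.Stmt_QE := by
  intro G _ _ c ψ m hG hm hψ hcc hcent
  obtain ⟨p, C, hp, hCn, hCc, hpC, n, hn⟩ := hG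
  haveI := hCn
  haveI := hCc
  have hψm : ∀ x : G, ψ x ^ m = 1 := by
    intro x
    have := congrArg (fun f : G →* ℂˣ => f x) hψ
    simpa using this
  rcases hp.eq_two_or_odd' with h2 | hodd
  · subst h2
    have hC1 : ∀ x ∈ C, ψ x = 1 := by
      intro x hx
      have hconj : c * x * c⁻¹ ∈ C := hCn.conj_mem x hx c
      have hcinv : c⁻¹ = c := inv_eq_of_mul_eq_one_left hcc
      have hcomm : ∀ a ∈ C, ∀ b ∈ C, a * b = b * a := by
        intro a ha b hb
        letI := IsCyclic.commGroup (α := C)
        have := mul_comm (⟨a, ha⟩ : C) (⟨b, hb⟩ : C)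
        exact congrArg Subtype.val this
      have hy : (x * (c * x * c⁻¹)) * c = c * (x * (c * x * c⁻¹)) := by
        rw [hcomm x hx _ hconj]
        rw [hcinv]
        have e1 : c * x * c * x * c = c * (c * x * c * x) := by
          have h := hcomm x hx _ hconj
          rw [hcinv] at h
          -- x * (c x c) = (c x c) * x
          have h' : c * x * c * x = x * (c * x * c) := h.symm
          calc c * x * c * x * c = (c * x * c) * (x * c) := by group
            _ = c * (x * (c * x * c)) := by group
            _ = c * (c * x * c * x) := by rw [← h']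
        exact e1
      have h1 := hcent _ hy
      have h2 : ψ x ^ 2 = 1 := by
        have : ψ (x * (c * x * c⁻¹)) = ψ x ^ 2 := by
          rw [map_mul, map_mul, map_mul, map_inv, mul_comm (ψ c), mul_assoc (ψ x) (ψ c),
            mul_inv_cancel, mul_one, pow_two]
        rw [← this]
        exact h1
      exact QE.eq_one_of_two (n := 1) hm (hψm x) (by simpa using h2)
    ext x
    have hx : x ^ C.index ∈ C := Subgroup.pow_index_mem C x
    rw [hn] at hx
    have h1 := hC1 _ hx
    rw [map_pow] at h1
    rw [QE.eq_one_of_two hm (hψm x) h1]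
    rfl
  · have hcC : c ∈ C := by
      have h1 : c ^ C.index ∈ C := Subgroup.pow_index_mem C c
      rw [hn] at h1
      have h2 : Odd (p ^ n) := hodd.pow
      obtain ⟨k, hk⟩ := h2
      rw [hk, pow_succ, pow_mul, pow_two, hcc, one_pow, one_mul] at h1
      exact h1
    have hall : ∀ u : G, u * c = c * u := by
      intro u
      by_cases hc1 : c = 1
      · rw [hc1]; simp
      · have hconj : u * c * u⁻¹ ∈ C := hCn.conj_mem c hcC u
        have h1 : (⟨u * c * u⁻¹, hconj⟩ : C) = ⟨c, hcC⟩ := by
          apply QE.unique_two
          · apply Subtype.ext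
            change (u * c * u⁻¹) ^ 2 = 1
            rw [pow_two]
            calc u * c * u⁻¹ * (u * c * u⁻¹) = u * (c * c) * u⁻¹ := by group
              _ = 1 := by rw [hcc]; group
          · apply Subtype.ext
            change c ^ 2 = 1
            rw [pow_two, hcc]
          · intro h
            have h' : u * c * u⁻¹ = 1 := congrArg Subtype.val h
            apply hc1
            have h3 : u * c = u := by
              calc u * c = u * c * u⁻¹ * u := by group
                _ = u := by rw [h', one_mul]
            simpa using h3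
          · intro h
            exact hc1 (congrArg Subtype.val h)
        have h2 : u * c * u⁻¹ = c := congrArg Subtype.val h1
        calc u * c = u * c * u⁻¹ * u := by group
          _ = c * u := by rw [h2]
    ext x
    rw [hcent x (hall x)]
    rfl

end StarkC
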