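import Pool.Agent.Stark.Stmts

open NumberField IsDedekindDomain
open scoped TensorProduct Classical

namespace StarkC

namespace GOOD

set_option linter.unusedSectionVars false

variable {K N : Type} [Field K] [NumberField K] [Field N] [NumberField N] [Algebra K N]
  [IsGalois K N]

theorem symm_apply (H : Subgroup (N ≃ₐ[K] N)) (τ : N ≃ₐ[IntermediateField.fixedField H] N)
    (x : N) : (((IntermediateField.subgroupEquivAlgEquiv H).symm τ : H) : N ≃ₐ[K] N) x = τ x := by
  obtain ⟨h, rfl⟩ := (IntermediateField.subgroupEquivAlgEquiv H).surjective τ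
  rw [MulEquiv.symm_apply_apply]
  rfl

theorem isConj_symm (H : Subgroup (N ≃ₐ[K] N)) (τ : N ≃ₐ[IntermediateField.fixedField H] N)
    (Φ : N →+* ℂ) (h : ComplexEmbedding.IsConj Φ τ) :
    ComplexEmbedding.IsConj Φ (((IntermediateField.subgroupEquivAlgEquiv H).symm τ : H) :
      N ≃ₐ[K] N) := by
  unfold ComplexEmbedding.IsConj at h ⊢
  rw [h]
  ext x
  simp only [RingHom.comp_apply]
  exact congrArg Φ (symm_apply H τ x).symm

theorem totallyComplex (H : Subgroup (N ≃ₐ[K] N)) (hH : ∀ c ∈ H, ¬ IsCC c) :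
    IsTotallyComplex (IntermediateField.fixedField H) := by
  constructor
  intro v
  by_contra hv
  rw [← InfinitePlace.not_isReal_iff_isComplex, not_not] at hv
  have hreal : ComplexEmbedding.IsReal v.embedding := InfinitePlace.isReal_iff.1 hv
  obtain ⟨Φ, hΦ⟩ : ∃ Φ : N →+* ℂ,
      Φ.comp (algebraMap (IntermediateField.fixedField H) N) = v.embedding :=
    ⟨ComplexEmbedding.lift N v.embedding, ComplexEmbedding.lift_comp_algebraMap N v.embedding⟩
  have h1 : Φ.comp (algebraMap (IntermediateField.fixedField H) N) =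
      (ComplexEmbedding.conjugate Φ).comp (algebraMap (IntermediateField.fixedField H) N) := by
    have h2 : (ComplexEmbedding.conjugate Φ).comp (algebraMap (IntermediateField.fixedField H) N) =
        ComplexEmbedding.conjugate (Φ.comp (algebraMap (IntermediateField.fixedField H) N)) := rfl
    rw [h2, hΦ]
    exact (ComplexEmbedding.isReal_iff.1 hreal).symm
  obtain ⟨τ, hτ⟩ := ComplexEmbedding.exists_comp_symm_eq_of_comp_eq Φ
    (ComplexEmbedding.conjugate Φ) h1
  have h3 : ComplexEmbedding.IsConj Φ τ.symm := by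
    unfold ComplexEmbedding.IsConj
    exact hτ.symm
  exact hH _ (SetLike.coe_mem _) ⟨Φ, isConj_symm H τ.symm Φ h3⟩

end GOOD

theorem GOOD_thm : Stmt_GOOD := by
  intro h1 h2 K N _ _ _ _ _ _ H ψ hG
  rcases hG with hG | ⟨⟨n, hn⟩, hG⟩
  · exact h1 (IntermediateField.fixedField H) N (liftChar H ψ) (GOOD.totallyComplex H hG)
  · refine h2 (IntermediateField.fixedField H) N (liftChar H ψ) ⟨n, ?_⟩ ?_
    · ext g
      have h3 := DFunLike.congr_fun hn ((IntermediateField.subgroupEquivAlgEquiv H).symm g)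
      have h4 : ((liftChar H ψ) ^ (2 ^ n)) g = 1 := h3
      rw [h4]
      rfl
    · intro Φ c hc
      exact hG _ ⟨Φ, GOOD.isConj_symm H c Φ hc⟩

end StarkC
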