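import Pool.Agent.Stark.PReg
import Pool.Agent.Stark.THC
import Pool.Agent.Stark.THB
import Pool.Agent.Stark.UNIT
import Pool.Agent.Stark.XRAT
import Pool.Agent.Stark.STB
import Pool.Agent.Stark.INFL
import Pool.Agent.Stark.IND

/-!
# Bridge between the two forms of the definitions: the map `Θ`
-/

open NumberField IsDedekindDomain
open scoped TensorProduct Classical

namespace StarkB

section

variable {L : Type} [Field L] [NumberField L] {T : Set (HeightOneSpectrum (𝓞 L))}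

/-- rational elements of `ℂ ⊗ X` come from `ℚ ⊗ X` -/
theorem exists_rat {x : (L → ℝ) →₀ ℂ} (hx : x ∈ StarkP.XQ L T) :
    ∃ y : StarkC.XQ L T, ∀ a, x a = (((y : (L → ℝ) →₀ ℚ) a : ℚ) : ℂ) := by
  obtain ⟨hx1, hx2⟩ := hx
  set f : ℂ → ℚ := fun z => if h : ∃ q : ℚ, z = (q : ℂ) then h.choose else 0 with hf
  have hf1 : ∀ z : ℂ, (∃ q : ℚ, z = (q : ℂ)) → z = ((f z : ℚ) : ℂ) := by
    intro z hz
    rw [hf]
    simp only [dif_pos hz]
    exact hz.choose_spec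
  have hf0 : f 0 = 0 := by
    have h := hf1 0 ⟨0, by simp⟩
    exact_mod_cast h.symm
  have hy : ∀ a, x a = (((x.mapRange f hf0) a : ℚ) : ℂ) := by
    intro a
    rw [Finsupp.mapRange_apply]
    exact hf1 _ (hx2 a)
  have hsupp : (x.mapRange f hf0).support = x.support := by
    ext a
    rw [Finsupp.mem_support_iff, Finsupp.mem_support_iff, not_iff_not]
    rw [hy a]
    simp
  have hx1' : x ∈ StarkC.XCsub L T := hx1
  rw [StarkC.XCsub, Submodule.mem_inf] at hx1'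
  refine ⟨⟨x.mapRange f hf0, ?_⟩, hy⟩
  rw [StarkC.XQ, Submodule.mem_inf]
  constructor
  · rw [Finsupp.mem_supported, hsupp]
    exact hx1'.1
  · rw [LinearMap.mem_ker, Finsupp.linearCombination_apply, Finsupp.sum, hsupp]
    have h2 := hx1'.2
    rw [LinearMap.mem_ker, Finsupp.linearCombination_apply, Finsupp.sum] at h2
    have h3 : ((∑ a ∈ x.support, (x.mapRange f hf0) a • (1 : ℚ) : ℚ) : ℂ) = 0 := by
      push_cast
      rw [← h2]
      refine Finset.sum_congr rfl fun a _ => ?_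
      rw [hy a]
      simp
    exact_mod_cast h3

theorem QU_form {y : ℚ ⊗[ℤ] Additive Lˣ} (hy : y ∈ StarkC.QU L T) :
    ∃ (n : ℕ) (u : Lˣ), n ≠ 0 ∧ u ∈ T.unit L ∧
      (n : ℚ) • y = (1 : ℚ) ⊗ₜ[ℤ] Additive.ofMul u := by
  induction hy using Submodule.span_induction with
  | mem x h =>
    obtain ⟨u, hu, rfl⟩ := h
    exact ⟨1, u, one_ne_zero, hu, by simp⟩
  | zero =>
    refine ⟨1, 1, one_ne_zero, Subgroup.one_mem _, ?_⟩
    rw [smul_zero, ofMul_one, TensorProduct.tmul_zero]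
  | add x y _ _ hx hy =>
    obtain ⟨n, u, hn, hu, h1⟩ := hx
    obtain ⟨m, v, hm, hv, h2⟩ := hy
    refine ⟨n * m, u ^ m * v ^ n, mul_ne_zero hn hm,
      Subgroup.mul_mem _ (Subgroup.pow_mem _ hu _) (Subgroup.pow_mem _ hv _), ?_⟩
    have e : ∀ w : Lˣ, ∀ k : ℕ, (1 : ℚ) ⊗ₜ[ℤ] Additive.ofMul (w ^ k) =
        (k : ℚ) • ((1 : ℚ) ⊗ₜ[ℤ] Additive.ofMul w : ℚ ⊗[ℤ] Additive Lˣ) := fun w k =>
      StarkC.UNIT.tm_pow w k
    rw [ofMul_mul, TensorProduct.tmul_add, e, e, ← h1, ← h2, smul_smul, smul_smul, smul_add]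
    push_cast
    rw [mul_comm (n : ℚ) (m : ℚ)]
  | smul q x _ hx =>
    obtain ⟨n, u, hn, hu, h1⟩ := hx
    refine ⟨n * q.den, u ^ q.num, mul_ne_zero hn q.den_ne_zero, Subgroup.zpow_mem _ hu _, ?_⟩
    have e := StarkC.UNIT.tm_zpow u q.num
    have e' : (1 : ℚ) ⊗ₜ[ℤ] Additive.ofMul (u ^ q.num) =
        (q.num : ℚ) • ((1 : ℚ) ⊗ₜ[ℤ] Additive.ofMul u : ℚ ⊗[ℤ] Additive Lˣ) := e
    rw [e', ← h1, smul_smul, smul_smul]
    congr 1
    push_cast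
    rw [mul_assoc, mul_comm (q.den : ℚ) q, Rat.mul_den_eq_num, mul_comm]

theorem lamU_of {y : ℚ ⊗[ℤ] Additive Lˣ} (hy : y ∈ StarkC.QU L T) :
    StarkC.lam L T y ∈ StarkP.LamU L T := by
  obtain ⟨n, u, hn, hu, h1⟩ := QU_form hy
  refine ⟨n, u, hn, hu, fun a => ?_⟩
  have h2 := congrArg (fun z => (StarkC.lam L T z) a) h1
  simp only [map_smul, StarkC.UNIT.lam_tmul, one_smul, Finsupp.smul_apply] at h2
  rw [StarkC.UNIT.lamHom_apply] at h2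
  rw [Rat.smul_def, Rat.cast_natCast] at h2
  exact h2

theorem of_lamU {z : (L → ℝ) →₀ ℂ} (hz : z ∈ StarkP.LamU L T) :
    ∃ y ∈ StarkC.QU L T, StarkC.lam L T y = z := by
  obtain ⟨n, u, hn, hu, h1⟩ := hz
  refine ⟨((n : ℚ)⁻¹) • ((1 : ℚ) ⊗ₜ[ℤ] Additive.ofMul u),
    Submodule.smul_mem _ _ (Submodule.subset_span ⟨u, hu, rfl⟩), ?_⟩
  ext a
  rw [map_smul, StarkC.UNIT.lam_tmul, one_smul, Finsupp.smul_apply, Rat.smul_def]
  have h2 : StarkC.lamHom L T (Additive.ofMul u) a = (n : ℂ) * z a := (h1 a).symm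
  rw [h2, Rat.cast_inv, Rat.cast_natCast, inv_mul_cancel_left₀ (Nat.cast_ne_zero.2 hn)]

theorem lam_mem (hT : T.Finite) {y : ℚ ⊗[ℤ] Additive Lˣ} (hy : y ∈ StarkC.QU L T) :
    StarkC.lam L T y ∈ StarkC.XCsub L T := by
  obtain ⟨n, u, hn, hu, h1⟩ := QU_form hy
  have h2 := congrArg (StarkC.lam L T) h1
  rw [map_smul, StarkC.UNIT.lam_tmul, one_smul] at h2
  have h3 := StarkC.UNIT.lamHom_mem hT hu
  rw [← h2] at h3
  have h4 := (StarkC.XCsub L T).smul_mem ((n : ℂ)⁻¹) h3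
  have h5 : ((n : ℂ)⁻¹) • ((n : ℚ) • StarkC.lam L T y) = StarkC.lam L T y := by
    ext a
    rw [Finsupp.smul_apply, Finsupp.smul_apply, Rat.smul_def, Rat.cast_natCast, smul_eq_mul,
      inv_mul_cancel_left₀ (Nat.cast_ne_zero.2 hn)]
  rwa [h5] at h4

theorem lam_inj (hT : T.Finite) (y : StarkC.QU L T)
    (h : StarkC.lam L T (y : ℚ ⊗[ℤ] Additive Lˣ) = 0) : y = 0 := by
  obtain ⟨n, b, c, hbc⟩ := StarkC.UNIT_thm L T hT
  have h1 : (∑ i, ((b.repr y i : ℚ) : ℂ) • c i) = 0 := by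
    apply StarkC.THB.val_inj
    have h2 : StarkC.lam L T (y : ℚ ⊗[ℤ] Additive Lˣ) =
        ∑ i, (b.repr y i) • StarkC.lam L T (b i : ℚ ⊗[ℤ] Additive Lˣ) := by
      conv_lhs => rw [← b.sum_repr y]
      rw [Submodule.coe_sum, map_sum]
      refine Finset.sum_congr rfl fun i _ => ?_
      rw [Submodule.coe_smul, map_smul]
    rw [map_sum, map_zero, ← h, h2]
    refine Finset.sum_congr rfl fun i _ => ?_
    rw [map_smul, hbc]
    ext a
    rw [Finsupp.smul_apply, Finsupp.smul_apply, Rat.smul_def, smul_eq_mul]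
  have h3 := Fintype.linearIndependent_iff.1 c.linearIndependent _ h1
  have h4 : b.repr y = 0 := Finsupp.ext fun i => by exact_mod_cast h3 i
  exact b.repr.map_eq_zero_iff.1 h4

theorem lam_inj' (hT : T.Finite) {y y' : ℚ ⊗[ℤ] Additive Lˣ} (hy : y ∈ StarkC.QU L T)
    (hy' : y' ∈ StarkC.QU L T) (h : StarkC.lam L T y = StarkC.lam L T y') : y = y' := by
  have h1 := lam_inj hT ⟨y - y', Submodule.sub_mem _ hy hy'⟩ (by
    show StarkC.lam L T (y - y') = 0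
    rw [map_sub, h, sub_self])
  exact sub_eq_zero.1 (congrArg Subtype.val h1)

/-- the inclusion of rational combinations into complex ones -/
noncomputable def cplxL (L : Type) : ((L → ℝ) →₀ ℚ) →ₗ[ℚ] ((L → ℝ) →₀ ℂ) :=
  Finsupp.mapRange.linearMap (Algebra.linearMap ℚ ℂ)

omit [Field L] [NumberField L] in
theorem cplxL_apply (x : (L → ℝ) →₀ ℚ) (a : L → ℝ) : cplxL L x a = ((x a : ℚ) : ℂ) := rfl

theorem cplxL_mem (hT : T.Finite) (x : StarkC.XQ L T) :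
    cplxL L (x : (L → ℝ) →₀ ℚ) ∈ StarkP.XQ L T := by
  obtain ⟨z, hz⟩ := StarkC.THB.exists_cplx StarkC.XRAT_thm L T hT x
  have h1 : cplxL L (x : (L → ℝ) →₀ ℚ) = z.val := Finsupp.ext fun a => (hz a).symm
  refine ⟨?_, fun a => ⟨_, cplxL_apply _ a⟩⟩
  rw [h1]
  exact z.2

end

section

variable {K L : Type} [Field K] [NumberField K] [Field L] [NumberField L] [Algebra K L]
variable {T : Set (HeightOneSpectrum (𝓞 L))}

/-- from `φ`, `Θ` to the ambient map -/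
theorem isTheta_of (hT : StarkC.StableT K T) (hfin : T.Finite)
    (φ : StarkC.XQ L T ≃ₗ[ℚ] StarkC.QU L T) (Θ : StarkC.XC L T →ₗ[ℂ] StarkC.XC L T)
    (hφ : StarkC.IsPhiTheta K T φ Θ) (Θ' : ((L → ℝ) →₀ ℂ) →ₗ[ℂ] ((L → ℝ) →₀ ℂ))
    (h : ∀ x : StarkC.XC L T, Θ' x.val = (Θ x).val) : StarkP.IsTheta K T Θ' := by
  have hcomm := StarkC.THC_thm StarkC.XRAT_thm K L T hT φ Θ hfin hφ
  have hbij := StarkC.THB_thm StarkC.XRAT_thm StarkC.UNIT_thm K L T φ Θ hfin hφ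
  refine ⟨?_, ?_, ?_, ?_⟩
  · intro g x hx
    let z : StarkC.XC L T := ⟨x, hx⟩
    have h3 : Θ (StarkC.repX K T hT g z) = StarkC.repX K T hT g (Θ z) :=
      LinearMap.congr_fun (hcomm g) z
    have h4 := h (StarkC.repX K T hT g z)
    rw [h3] at h4
    have h5 : Θ' (StarkC.actC (g : L ≃+* L) z.val) = StarkC.actC (g : L ≃+* L) (Θ z).val := h4
    rw [← h z] at h5
    exact h5
  · intro x hx
    obtain ⟨y, hy⟩ := exists_rat hx
    let z : StarkC.XC L T := ⟨x, hx.1⟩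
    have h1 : (Θ z).val = StarkC.lam L T (φ y) := hφ.2 y z hy
    have h2 : Θ' z.val ∈ StarkP.LamU L T := by
      rw [h, h1]
      exact lamU_of (φ y).2
    exact h2
  · intro x hx x' hx' hxx
    let z : StarkC.XC L T := ⟨x, hx.1⟩
    let z' : StarkC.XC L T := ⟨x', hx'.1⟩
    have h1 : Θ z = Θ z' := StarkC.THB.val_inj ((h z).symm.trans (hxx.trans (h z')))
    exact congrArg Subtype.val (hbij.1 h1)
  · intro z hz
    obtain ⟨y, hy, rfl⟩ := of_lamU hz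
    obtain ⟨w, hw⟩ := StarkC.THB.exists_cplx StarkC.XRAT_thm L T hfin (φ.symm ⟨y, hy⟩)
    refine ⟨w.val, ⟨w.2, fun a => ⟨_, hw a⟩⟩, ?_⟩
    rw [h, hφ.2 _ w hw, LinearEquiv.apply_symm_apply]

omit [NumberField K] in
/-- from the ambient map to `φ`, `Θ` -/
theorem exists_phiTheta (hT : StarkC.StableT K T) (hfin : T.Finite)
    (hU : ∀ g : L ≃ₐ[K] L, ∀ x ∈ StarkC.QU L T, StarkC.actU (g : L ≃+* L) x ∈ StarkC.QU L T)
    (Θ' : ((L → ℝ) →₀ ℂ) →ₗ[ℂ] ((L → ℝ) →₀ ℂ)) (hΘ : StarkP.IsTheta K T Θ') :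
    ∃ (φ : StarkC.XQ L T ≃ₗ[ℚ] StarkC.QU L T) (Θ : StarkC.XC L T →ₗ[ℂ] StarkC.XC L T),
      StarkC.IsPhiTheta K T φ Θ ∧ ∀ x : StarkC.XC L T, Θ' x.val = (Θ x).val := by
  obtain ⟨hg, hmaps, hinj, hsurj⟩ := hΘ
  have hmem : ∀ x ∈ StarkC.XCsub L T, Θ' x ∈ StarkC.XCsub L T := by
    intro x hx
    obtain ⟨n, b, c, hbc⟩ := StarkC.XRAT_thm L T hfin
    let z : StarkC.XC L T := ⟨x, hx⟩
    have h1 : x = ∑ i, c.repr z i • (c i).val := by
      have h2 := congrArg (StarkC.XC.val) (c.sum_repr z)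
      rw [map_sum] at h2
      have h3 : x = z.val := rfl
      rw [h3, ← h2]
      refine Finset.sum_congr rfl fun i _ => ?_
      rw [map_smul]
    rw [h1, map_sum]
    refine Submodule.sum_mem _ fun i _ => ?_
    rw [map_smul]
    refine Submodule.smul_mem _ _ ?_
    obtain ⟨y, hy, hy2⟩ := of_lamU (hmaps (show (c i).val ∈ StarkP.XQ L T from
      ⟨(c i).2, fun a => ⟨_, hbc i a⟩⟩))
    rw [← hy2]
    exact lam_mem hfin hy
  let Θ : StarkC.XC L T →ₗ[ℂ] StarkC.XC L T := Θ'.restrict hmem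
  have hΘ1 : ∀ x : StarkC.XC L T, Θ' x.val = (Θ x).val := fun x => rfl
  let ψ : StarkC.XQ L T →ₗ[ℚ] ((L → ℝ) →₀ ℂ) :=
    (Θ'.restrictScalars ℚ) ∘ₗ (cplxL L) ∘ₗ (StarkC.XQ L T).subtype
  let μ : StarkC.QU L T →ₗ[ℚ] ((L → ℝ) →₀ ℂ) := (StarkC.lam L T) ∘ₗ (StarkC.QU L T).subtype
  have hψa : ∀ x : StarkC.XQ L T, ψ x = Θ' (cplxL L (x : (L → ℝ) →₀ ℚ)) := fun x => rfl
  have hμa : ∀ y : StarkC.QU L T, μ y = StarkC.lam L T (y : ℚ ⊗[ℤ] Additive Lˣ) := fun y => rfl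
  have hψ : Function.Injective ψ := by
    intro x x' hxx
    rw [hψa, hψa] at hxx
    have h1 := hinj (cplxL_mem hfin x) (cplxL_mem hfin x') hxx
    apply Subtype.ext
    refine Finsupp.ext fun a => ?_
    have h2 := DFunLike.congr_fun h1 a
    rw [cplxL_apply, cplxL_apply] at h2
    exact_mod_cast h2
  have hμ : Function.Injective μ := by
    rw [← LinearMap.ker_eq_bot, LinearMap.ker_eq_bot']
    intro y hy
    exact lam_inj hfin y hy
  have hrange : LinearMap.range ψ = LinearMap.range μ := by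
    ext z
    constructor
    · rintro ⟨x, rfl⟩
      obtain ⟨y, hy, hy2⟩ := of_lamU (hmaps (cplxL_mem hfin x))
      exact ⟨⟨y, hy⟩, hy2⟩
    · rintro ⟨y, rfl⟩
      obtain ⟨x, hx, hx2⟩ := hsurj (lamU_of y.2)
      obtain ⟨x', hx'⟩ := exists_rat hx
      refine ⟨x', ?_⟩
      rw [hψa, hμa, ← hx2]
      congr 1
      exact Finsupp.ext fun a => (hx' a).symm
  let φ : StarkC.XQ L T ≃ₗ[ℚ] StarkC.QU L T := (LinearEquiv.ofInjective ψ hψ).trans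
    ((LinearEquiv.ofEq _ _ hrange).trans (LinearEquiv.ofInjective μ hμ).symm)
  have hφ : ∀ x : StarkC.XQ L T, StarkC.lam L T (φ x : ℚ ⊗[ℤ] Additive Lˣ) =
      Θ' (cplxL L (x : (L → ℝ) →₀ ℚ)) := by
    intro x
    have h1 : LinearEquiv.ofInjective μ hμ (φ x) =
        LinearEquiv.ofEq _ _ hrange (LinearEquiv.ofInjective ψ hψ x) :=
      LinearEquiv.apply_symm_apply _ _
    exact congrArg Subtype.val h1
  refine ⟨φ, Θ, ⟨?_, ?_⟩, hΘ1⟩
  · intro g x y hy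
    apply lam_inj' hfin (φ y).2 (hU g _ (φ x).2)
    rw [StarkC.THC.lam_act hT, hφ, hφ, hy]
    have h1 : cplxL L (StarkC.actQ (g : L ≃+* L) (x : (L → ℝ) →₀ ℚ)) =
        StarkP.act (g : L ≃+* L) (cplxL L (x : (L → ℝ) →₀ ℚ)) := by
      refine Finsupp.ext fun a => ?_
      have h2 := StarkC.THC.actC_apply (g : L ≃+* L) (cplxL L (x : (L → ℝ) →₀ ℚ)) a
      have h3 : StarkP.act (g : L ≃+* L) (cplxL L (x : (L → ℝ) →₀ ℚ)) a =
          cplxL L (x : (L → ℝ) →₀ ℚ) (a ∘ (g : L ≃+* L)) := h2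
      rw [h3, cplxL_apply, cplxL_apply, StarkC.THC.actQ_apply]
    rw [h1]
    exact hg g _ (cplxL_mem hfin x).1
  · intro x z hz
    rw [hφ, ← hΘ1]
    congr 1
    exact Finsupp.ext fun a => hz a

/-- **The bridge**: for a set `S`, the two forms of Stark's assertion agree. -/
theorem starkAt_iff (hT : StarkC.StableT K T) (hfin : T.Finite)
    (hU : ∀ g : L ≃ₐ[K] L, ∀ x ∈ StarkC.QU L T, StarkC.actU (g : L ≃+* L) x ∈ StarkC.QU L T)
    (S : Set (HeightOneSpectrum (𝓞 K)))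
    {V V' : Type} [AddCommGroup V] [Module ℂ V] [AddCommGroup V'] [Module ℂ V']
    (ρ : Representation ℂ (L ≃ₐ[K] L) V) (ρ' : Representation ℂ (L ≃ₐ[K] L) V')
    (σ : ℂ ≃+* ℂ) :
    (∀ Θ' : ((L → ℝ) →₀ ℂ) →ₗ[ℂ] ((L → ℝ) →₀ ℂ), StarkP.IsTheta K T Θ' →
      StarkP.StarkAt S T Θ' ρ ρ' σ) ↔
    ∀ (φ : StarkC.XQ L T ≃ₗ[ℚ] StarkC.QU L T) (Θ : StarkC.XC L T →ₗ[ℂ] StarkC.XC L T),
      StarkC.IsPhiTheta K T φ Θ → StarkC.StarkAt S T Θ ρ ρ' σ := by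
  constructor
  · intro h φ Θ hφ
    obtain ⟨Θ', hΘ'⟩ := LinearMap.exists_extend (p := StarkC.XCsub L T)
      (StarkC.XC.val ∘ₗ Θ : StarkC.XCsub L T →ₗ[ℂ] ((L → ℝ) →₀ ℂ))
    have h1 : ∀ x : StarkC.XC L T, Θ' x.val = (Θ x).val := fun x => LinearMap.congr_fun hΘ' x
    obtain ⟨f, f', hf, hf', hff⟩ := h Θ' (isTheta_of hT hfin φ Θ hφ Θ' h1)
    refine ⟨f, f', hf, hf', ?_⟩
    rw [← Reg_eq ρ Θ Θ' h1, ← Reg_eq ρ' Θ Θ' h1]
    exact hff
  · intro h Θ' hΘ'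
    obtain ⟨φ, Θ, hφ, h1⟩ := exists_phiTheta hT hfin hU Θ' hΘ'
    obtain ⟨f, f', hf, hf', hff⟩ := h φ Θ hφ
    refine ⟨f, f', hf, hf', ?_⟩
    rw [Reg_eq ρ Θ Θ' h1, Reg_eq ρ' Θ Θ' h1]
    exact hff

theorem actU_mem' (S : Set (HeightOneSpectrum (𝓞 K))) (g : L ≃ₐ[K] L)
    (x : ℚ ⊗[ℤ] Additive Lˣ) (hx : x ∈ StarkC.QU L (StarkC.aboveSet K L S)) :
    StarkC.actU (g : L ≃+* L) x ∈ StarkC.QU L (StarkC.aboveSet K L S) := by
  have h := @StarkC.INFL.actU_mem K L _ _ _ _ _ StarkC.STB_thm S g x hx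
  exact h

theorem starkAt_iff' (S : Set (HeightOneSpectrum (𝓞 K))) (hS : S.Finite)
    {V V' : Type} [AddCommGroup V] [Module ℂ V] [AddCommGroup V'] [Module ℂ V']
    (ρ : Representation ℂ (L ≃ₐ[K] L) V) (ρ' : Representation ℂ (L ≃ₐ[K] L) V')
    (σ : ℂ ≃+* ℂ) :
    (∀ Θ' : ((L → ℝ) →₀ ℂ) →ₗ[ℂ] ((L → ℝ) →₀ ℂ), StarkP.IsTheta K (StarkC.aboveSet K L S) Θ' →
      StarkP.StarkAt S (StarkC.aboveSet K L S) Θ' ρ ρ' σ) ↔
    ∀ (φ : StarkC.XQ L (StarkC.aboveSet K L S) ≃ₗ[ℚ] StarkC.QU L (StarkC.aboveSet K L S))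
      (Θ : StarkC.XC L (StarkC.aboveSet K L S) →ₗ[ℂ] StarkC.XC L (StarkC.aboveSet K L S)),
      StarkC.IsPhiTheta K (StarkC.aboveSet K L S) φ Θ →
      StarkC.StarkAt S (StarkC.aboveSet K L S) Θ ρ ρ' σ :=
  starkAt_iff (T := StarkC.aboveSet K L S) (StarkC.STB_thm K L S)
    (StarkC.IND.aboveSet_finite S hS) (actU_mem' S) S ρ ρ' σ

omit [NumberField K] [NumberField L] in
theorem aboveSet_eq (S : Set (HeightOneSpectrum (𝓞 K))) :
    StarkP.aboveSet K L S = StarkC.aboveSet K L S := rfl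

/-- The two forms of Stark's assertion for given representations agree. -/
theorem starkRep_iff
    {V V' : Type} [AddCommGroup V] [Module ℂ V] [AddCommGroup V'] [Module ℂ V']
    (ρ : Representation ℂ (L ≃ₐ[K] L) V) (ρ' : Representation ℂ (L ≃ₐ[K] L) V')
    (σ : ℂ ≃+* ℂ) :
    StarkP.StarkRep ρ ρ' σ ↔
    ∀ (S : Finset (HeightOneSpectrum (𝓞 K)))
      (φ : StarkC.XQ L (StarkC.aboveSet K L S) ≃ₗ[ℚ] StarkC.QU L (StarkC.aboveSet K L S))
      (Θ : StarkC.XC L (StarkC.aboveSet K L S) →ₗ[ℂ] StarkC.XC L (StarkC.aboveSet K L S)),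
      StarkC.IsPhiTheta K (StarkC.aboveSet K L S) φ Θ →
      StarkC.StarkAt (S : Set (HeightOneSpectrum (𝓞 K))) (StarkC.aboveSet K L S) Θ ρ ρ' σ := by
  unfold StarkP.StarkRep
  constructor
  · intro h S
    have h1 := h S
    rw [aboveSet_eq] at h1
    have h2 := starkAt_iff' (S : Set (HeightOneSpectrum (𝓞 K))) S.finite_toSet ρ ρ' σ
    exact h2.1 h1
  · intro h S
    have h1 := h S
    rw [aboveSet_eq]
    have h2 := starkAt_iff' (S : Set (HeightOneSpectrum (𝓞 K))) S.finite_toSet ρ ρ' σ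
    exact h2.2 h1

omit [NumberField K] [NumberField L] in
theorem linRep_eq (ψ : (L ≃ₐ[K] L) →* ℂˣ) : StarkP.linRep ψ = StarkC.linRep ψ := rfl

omit [NumberField K] [NumberField L] in
theorem twist_eq (σ : ℂ ≃+* ℂ) (ψ : (L ≃ₐ[K] L) →* ℂˣ) :
    StarkP.twist σ ψ = StarkC.twist σ ψ := rfl

theorem starkLinear_iff (ψ : (L ≃ₐ[K] L) →* ℂˣ) :
    StarkP.StarkLinear K L ψ ↔ StarkC.StarkLinear K L ψ := by
  unfold StarkP.StarkLinear StarkC.StarkLinear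
  have h1 : ∀ σ : ℂ ≃+* ℂ, StarkP.StarkRep (StarkP.linRep ψ) (StarkP.linRep (StarkP.twist σ ψ)) σ ↔
      StarkP.StarkRep (StarkC.linRep ψ) (StarkC.linRep (StarkC.twist σ ψ)) σ := by
    intro σ
    rw [linRep_eq, linRep_eq, twist_eq]
  constructor
  · intro h S φ Θ σ hφ
    exact (starkRep_iff (StarkC.linRep ψ) (StarkC.linRep (StarkC.twist σ ψ)) σ).1
      ((h1 σ).1 (h σ)) S φ Θ hφ
  · intro h σ
    exact (h1 σ).2 ((starkRep_iff (StarkC.linRep ψ) (StarkC.linRep (StarkC.twist σ ψ)) σ).2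
      fun S φ Θ hφ => h S φ Θ σ hφ)

end

end StarkB
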