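import Pool.Agent.Stark.IOT_A
open NumberField IsDedekindDomain
open scoped TensorProduct Classical
namespace StarkC.IOT

set_option linter.unusedSectionVars false

section
variable {L : Type} [Field L] [NumberField L] {N : Type} [Field N] [NumberField N] [Algebra L N]

theorem liesOver_under (w : HeightOneSpectrum (𝓞 N)) :
    w.asIdeal.LiesOver (w.under (𝓞 L)).asIdeal := by
  exact ⟨rfl⟩

/-- Local degree of a finite prime of `N` over `L`. -/
noncomputable def fdeg (L : Type) [Field L] [NumberField L] {N : Type} [Field N] [NumberField N]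
    [Algebra L N] (w : HeightOneSpectrum (𝓞 N)) : ℕ :=
  w.asIdeal.ramificationIdx (𝓞 L) * w.asIdeal.inertiaDeg (𝓞 L)

theorem toNNReal_pow {e e' : NNReal} (he : e ≠ 0) (he' : e' ≠ 0) (f : ℕ) (hef : e' = e ^ f)
    (x : WithZero (Multiplicative ℤ)) (hf : f ≠ 0) :
    WithZeroMulInt.toNNReal he' x = (WithZeroMulInt.toNNReal he x) ^ f := by
  subst hef
  rcases eq_or_ne x 0 with rfl | hx
  · simp [hf]
  · rw [WithZeroMulInt.toNNReal_neg_apply _ hx, WithZeroMulInt.toNNReal_neg_apply _ hx]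
    rw [← zpow_natCast, ← zpow_natCast, ← zpow_mul, ← zpow_mul, mul_comm]

theorem finAbs_algebraMap (w : HeightOneSpectrum (𝓞 N)) (x : L) :
    finAbs N w (algebraMap L N x) = (finAbs L (w.under (𝓞 L)) x) ^ fdeg L w := by
  have := liesOver_under (L := L) w
  have := (w.under (𝓞 L)).isMaximal
  have := w.isMaximal
  have h1 := HeightOneSpectrum.valuation_liesOver N (w.under (𝓞 L)) w x
  have h2 := Ideal.ramificationIdx'_eq_ramificationIdx (w.under (𝓞 L)).asIdeal w.asIdeal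
    (w.under (𝓞 L)).ne_bot
  have h3 := Ideal.inertiaDeg'_eq_inertiaDeg (w.under (𝓞 L)).asIdeal w.asIdeal
  have h4 := Ideal.absNorm_eq_pow_inertiaDeg'_of_liesOver w.asIdeal (w.under (𝓞 L)).asIdeal
    (w.under (𝓞 L)).isPrime (w.under (𝓞 L)).ne_bot
  rw [h2] at h1
  rw [h3] at h4
  rw [finAbs, finAbs, NumberField.HeightOneSpectrum.adicAbv_def,
    NumberField.HeightOneSpectrum.adicAbv_def, ← h1, map_pow,
    toNNReal_pow (NumberField.HeightOneSpectrum.absNorm_ne_zero (w.under (𝓞 L))) _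
      (w.asIdeal.inertiaDeg (𝓞 L)) (by rw [h4]; push_cast; rfl)
      _ (w.asIdeal.inertiaDeg_pos (𝓞 L)).ne', fdeg]
  push_cast
  rw [← pow_mul, mul_comm]

theorem fdeg_pos (w : HeightOneSpectrum (𝓞 N)) : 0 < fdeg L w :=
  have := w.isPrime
  Nat.mul_pos (w.asIdeal.ramificationIdx_pos (𝓞 L)) (w.asIdeal.inertiaDeg_pos (𝓞 L))

/-- Local degree of an infinite place of `N` over `L`. -/
noncomputable def ideg (L : Type) [Field L] [NumberField L] {N : Type} [Field N] [NumberField N]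
    [Algebra L N] (w : InfinitePlace N) : ℕ :=
  (w.comap (algebraMap L N)).inertiaDeg w

theorem liesOver_comap (w : InfinitePlace N) : w.LiesOver (w.comap (algebraMap L N)) :=
  ⟨rfl⟩

theorem mult_mul_ideg (w : InfinitePlace N) :
    (w.comap (algebraMap L N)).mult * ideg L w = w.mult := by
  have := liesOver_comap (L := L) w
  rw [ideg, InfinitePlace.inertiaDeg_eq_finrank, InfinitePlace.mult_mul_finrank]

theorem ideg_pos (w : InfinitePlace N) : 0 < ideg L w := by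
  have h1 := mult_mul_ideg (L := L) w
  have h2 := w.mult_pos
  rw [← h1] at h2
  exact Nat.pos_of_mul_pos_left h2

theorem infAbs_algebraMap (w : InfinitePlace N) (x : L) :
    infAbs N w (algebraMap L N x) = (infAbs L (w.comap (algebraMap L N)) x) ^ ideg L w := by
  rw [infAbs, infAbs, ← mult_mul_ideg (L := L) w, pow_mul, InfinitePlace.comap_apply]

end

/-! ### Uniqueness -/

section uniqueness

variable (L : Type) [Field L] [NumberField L]

theorem finAbs_lt_one_iff (w : HeightOneSpectrum (𝓞 L)) (x : 𝓞 L) :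
    finAbs L w (x : L) < 1 ↔ x ∈ w.asIdeal := by
  rw [← FinitePlace.norm_lt_one_iff_mem L w x, FinitePlace.norm_embedding]
  rfl

theorem finAbs_two_le (w : HeightOneSpectrum (𝓞 L)) : finAbs L w 2 ≤ 1 := by
  have := NumberField.HeightOneSpectrum.adicAbv_natCast_le_one L w 2
  simpa [finAbs] using this

theorem infAbs_two (w : InfinitePlace L) : infAbs L w 2 = 2 ^ w.mult := by
  have h : w 2 = 2 := by
    rw [← InfinitePlace.norm_embedding_eq, map_ofNat]
    exact Complex.norm_ofNat 2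
  rw [infAbs, h]

theorem finAbs_nonneg (w : HeightOneSpectrum (𝓞 L)) (x : L) : 0 ≤ finAbs L w x := by
  unfold finAbs
  exact AbsoluteValue.nonneg _ _

theorem infAbs_nonneg (w : InfinitePlace L) (x : L) : 0 ≤ infAbs L w x := by
  unfold infAbs
  exact pow_nonneg (apply_nonneg _ _) _

theorem ne_of_pow (w : InfinitePlace L) (v : HeightOneSpectrum (𝓞 L)) {n m : ℕ} (hn : 0 < n)
    (h : ∀ x, infAbs L w x ^ n = finAbs L v x ^ m) : False := by
  have h1 := h 2
  rw [infAbs_two, ← pow_mul] at h1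
  have h2 : finAbs L v 2 ^ m ≤ 1 := pow_le_one₀ (finAbs_nonneg L v 2) (finAbs_two_le L v)
  have h3 : (1 : ℝ) < 2 ^ (w.mult * n) := one_lt_pow₀ (by norm_num)
    (Nat.mul_pos w.mult_pos hn).ne'
  linarith

theorem exists_fin (w : HeightOneSpectrum (𝓞 L)) : ∃ x : L, 0 < finAbs L w x ∧
    finAbs L w x < 1 := by
  obtain ⟨x, hx, hx0⟩ := w.asIdeal.exists_mem_ne_zero_of_ne_bot w.ne_bot
  refine ⟨x, ?_, (finAbs_lt_one_iff L w x).2 hx⟩
  unfold finAbs
  rw [AbsoluteValue.pos_iff]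
  simpa using hx0

theorem pow_inj_of_lt_one {t : ℝ} (h0 : 0 < t) (h1 : t < 1) {n m : ℕ} (h : t ^ n = t ^ m) :
    n = m := by
  rcases lt_trichotomy n m with h2 | h2 | h2
  · have := pow_lt_pow_right_of_lt_one₀ h0 h1 h2
    linarith
  · exact h2
  · have := pow_lt_pow_right_of_lt_one₀ h0 h1 h2
    linarith

theorem uniq {a b : L → ℝ} (ha : a ∈ placeSet L Set.univ) (hb : b ∈ placeSet L Set.univ)
    {n m : ℕ} (hn : 0 < n) (hm : 0 < m) (h : ∀ x, a x ^ n = b x ^ m) : a = b ∧ n = m := by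
  rcases ha with ⟨w, rfl⟩ | ⟨w, -, rfl⟩ <;> rcases hb with ⟨v, rfl⟩ | ⟨v, -, rfl⟩
  · have h1 := h 2
    rw [infAbs_two, infAbs_two, ← pow_mul, ← pow_mul] at h1
    have h2 : w.mult * n = v.mult * m := Nat.pow_right_injective (le_refl 2) (by exact_mod_cast h1)
    have h3 : w = v := by
      ext x
      have h4 := h x
      rw [infAbs, infAbs, ← pow_mul, ← pow_mul, h2] at h4
      exact (pow_left_inj₀ (apply_nonneg _ _) (apply_nonneg _ _)
        (Nat.mul_pos v.mult_pos hm).ne').1 h4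
    subst h3
    exact ⟨rfl, Nat.eq_of_mul_eq_mul_left w.mult_pos h2⟩
  · exact (ne_of_pow L w v hn h).elim
  · exact (ne_of_pow L v w hm (fun x => (h x).symm)).elim
  · have h3 : w = v := by
      apply HeightOneSpectrum.ext
      ext x
      rw [← finAbs_lt_one_iff, ← finAbs_lt_one_iff]
      rw [← pow_lt_one_iff_of_nonneg (finAbs_nonneg L w _) hn.ne', h,
        pow_lt_one_iff_of_nonneg (finAbs_nonneg L v _) hm.ne']
    subst h3
    obtain ⟨x, hx0, hx1⟩ := exists_fin L w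
    exact ⟨rfl, pow_inj_of_lt_one hx0 hx1 (h x)⟩

theorem finAbs_inj {v w : HeightOneSpectrum (𝓞 L)} (h : finAbs L v = finAbs L w) : v = w := by
  apply HeightOneSpectrum.ext
  ext x
  rw [← finAbs_lt_one_iff, ← finAbs_lt_one_iff, h]

theorem infAbs_inj {v w : InfinitePlace L} (h : infAbs L v = infAbs L w) : v = w := by
  have h1 := congrFun h 2
  rw [infAbs_two, infAbs_two] at h1
  have h2 : v.mult = w.mult := Nat.pow_right_injective (le_refl 2) (by exact_mod_cast h1)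
  ext x
  have h4 := congrFun h x
  rw [infAbs, infAbs, h2] at h4
  exact (pow_left_inj₀ (apply_nonneg _ _) (apply_nonneg _ _) w.mult_pos.ne').1 h4

theorem infAbs_ne_finAbs (w : InfinitePlace L) (v : HeightOneSpectrum (𝓞 L)) :
    infAbs L w ≠ finAbs L v := fun h =>
  ne_of_pow L w v (n := 1) (m := 1) one_pos (fun x => by rw [h])

theorem placeSet_sub (T : Set (HeightOneSpectrum (𝓞 L))) {a : L → ℝ} (ha : a ∈ placeSet L T) :
    a ∈ placeSet L Set.univ := by
  rcases ha with ⟨w, rfl⟩ | ⟨w, -, rfl⟩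
  · exact Or.inl ⟨w, rfl⟩
  · exact Or.inr ⟨w, Set.mem_univ _, rfl⟩

theorem finAbs_mem_iff (T : Set (HeightOneSpectrum (𝓞 L))) (w : HeightOneSpectrum (𝓞 L)) :
    finAbs L w ∈ placeSet L T ↔ w ∈ T := by
  constructor
  · rintro (⟨v, hv⟩ | ⟨v, hv, hvw⟩)
    · exact (infAbs_ne_finAbs L v w hv).elim
    · rwa [← finAbs_inj L hvw]
  · intro h
    exact Or.inr ⟨w, h, rfl⟩

end uniqueness

/-! ### The place below -/

section below

variable (K : Type) [Field K] [NumberField K] {N : Type} [Field N] [NumberField N] [Algebra K N]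

theorem exists_below {a : N → ℝ} (ha : a ∈ placeSet N Set.univ) :
    ∃ q : (K → ℝ) × ℕ, q.1 ∈ placeSet K Set.univ ∧ 0 < q.2 ∧
      ∀ x : K, a (algebraMap K N x) = q.1 x ^ q.2 := by
  rcases ha with ⟨w, rfl⟩ | ⟨w, -, rfl⟩
  · exact ⟨(infAbs K (w.comap (algebraMap K N)), ideg K w), Or.inl ⟨_, rfl⟩, ideg_pos w,
      infAbs_algebraMap w⟩
  · exact ⟨(finAbs K (w.under (𝓞 K)), fdeg K w), Or.inr ⟨_, Set.mem_univ _, rfl⟩, fdeg_pos w,
      finAbs_algebraMap w⟩

/-- The place of `K` below a place of `N`, and the local degree. -/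
noncomputable def blp (a : N → ℝ) : (K → ℝ) × ℕ :=
  if h : a ∈ placeSet N Set.univ then (exists_below K h).choose else (0, 0)

theorem blp_spec {a : N → ℝ} (ha : a ∈ placeSet N Set.univ) :
    (blp K a).1 ∈ placeSet K Set.univ ∧ 0 < (blp K a).2 ∧
      ∀ x : K, a (algebraMap K N x) = (blp K a).1 x ^ (blp K a).2 := by
  rw [blp, dif_pos ha]
  exact (exists_below K ha).choose_spec

theorem blp_eq {a : N → ℝ} (ha : a ∈ placeSet N Set.univ) {c : K → ℝ} {n : ℕ}
    (hc : c ∈ placeSet K Set.univ) (hn : 0 < n) (h : ∀ x : K, a (algebraMap K N x) = c x ^ n) :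
    blp K a = (c, n) := by
  obtain ⟨h1, h2, h3⟩ := blp_spec K ha
  obtain ⟨h4, h5⟩ := uniq K h1 hc h2 hn (fun x => by rw [← h3, h])
  exact Prod.ext h4 h5

theorem blp_inf (w : InfinitePlace N) :
    blp K (infAbs N w) = (infAbs K (w.comap (algebraMap K N)), ideg K w) :=
  blp_eq K (Or.inl ⟨w, rfl⟩) (Or.inl ⟨_, rfl⟩) (ideg_pos w) (infAbs_algebraMap w)

theorem blp_fin (w : HeightOneSpectrum (𝓞 N)) :
    blp K (finAbs N w) = (finAbs K (w.under (𝓞 K)), fdeg K w) :=
  blp_eq K (Or.inr ⟨w, Set.mem_univ _, rfl⟩) (Or.inr ⟨_, Set.mem_univ _, rfl⟩) (fdeg_pos w)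
    (finAbs_algebraMap w)

theorem mem_above (S : Set (HeightOneSpectrum (𝓞 K))) (a : N → ℝ) :
    a ∈ placeSet N (aboveSet K N S) ↔ a ∈ placeSet N Set.univ ∧ (blp K a).1 ∈ placeSet K S := by
  constructor
  · intro h
    refine ⟨placeSet_sub N _ h, ?_⟩
    rcases h with ⟨w, rfl⟩ | ⟨w, hw, rfl⟩
    · rw [blp_inf]
      exact Or.inl ⟨_, rfl⟩
    · rw [blp_fin]
      exact Or.inr ⟨_, hw, rfl⟩
  · rintro ⟨h1, h2⟩
    rcases h1 with ⟨w, rfl⟩ | ⟨w, -, rfl⟩
    · exact Or.inl ⟨w, rfl⟩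
    · rw [blp_fin, finAbs_mem_iff] at h2
      exact Or.inr ⟨w, h2, rfl⟩

variable (L : Type) [Field L] [NumberField L] [Algebra K L] [Algebra L N] [IsScalarTower K L N]

theorem blp_blp {a : N → ℝ} (ha : a ∈ placeSet N Set.univ) :
    (blp K (blp L a).1).1 = (blp K a).1 := by
  obtain ⟨h1, h2, h3⟩ := blp_spec L ha
  obtain ⟨h4, h5, h6⟩ := blp_spec K h1
  have h7 : blp K a = ((blp K (blp L a).1).1, (blp K (blp L a).1).2 * (blp L a).2) := by
    refine blp_eq K ha h4 (Nat.mul_pos h5 h2) (fun x => ?_)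
    rw [IsScalarTower.algebraMap_apply K L N, h3, h6, pow_mul]
  rw [h7]

theorem blp_mem (S : Set (HeightOneSpectrum (𝓞 K))) {a : N → ℝ}
    (ha : a ∈ placeSet N (aboveSet K N S)) : (blp L a).1 ∈ placeSet L (aboveSet K L S) := by
  rw [mem_above] at ha ⊢
  refine ⟨(blp_spec L ha.1).1, ?_⟩
  rw [blp_blp K L ha.1]
  exact ha.2

theorem mem_of_blp_mem (S : Set (HeightOneSpectrum (𝓞 K))) {a : N → ℝ}
    (ha : a ∈ placeSet N Set.univ) (h : (blp L a).1 ∈ placeSet L (aboveSet K L S)) :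
    a ∈ placeSet N (aboveSet K N S) := by
  rw [mem_above] at h ⊢
  refine ⟨ha, ?_⟩
  rw [← blp_blp K L ha]
  exact h.2

end below

/-! ### Automorphisms -/

section automorphisms

variable {N : Type} [Field N] [NumberField N]

theorem infAbs_comp (g : N ≃+* N) (w : InfinitePlace N) :
    infAbs N w ∘ g = infAbs N (w.comap (g : N →+* N)) := by
  have h : (w.comap (g : N →+* N)).mult = w.mult := by
    have h1 : (w.comap (g : N →+* N)).IsReal ↔ w.IsReal := InfinitePlace.isReal_comap_iff g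
    unfold InfinitePlace.mult
    by_cases hw : w.IsReal
    · rw [if_pos hw, if_pos (h1.2 hw)]
    · rw [if_neg hw, if_neg (fun h => hw (h1.1 h))]
  funext x
  rw [Function.comp_apply, infAbs, infAbs, h]
  rfl

theorem finAbs_comp_aux (g : N ≃+* N) (w : HeightOneSpectrum (𝓞 N)) :
    ∃ (v : HeightOneSpectrum (𝓞 N)) (k : ℕ), 0 < k ∧ ∀ x, finAbs N w (g x) = finAbs N v x ^ k := by
  let : Algebra N N := (g : N →+* N).toAlgebra
  exact ⟨_, _, fdeg_pos (L := N) w, finAbs_algebraMap (L := N) w⟩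

theorem finAbs_comp (g : N ≃+* N) (w : HeightOneSpectrum (𝓞 N)) :
    ∃ v : HeightOneSpectrum (𝓞 N), finAbs N w ∘ g = finAbs N v := by
  obtain ⟨v, k, hk, h1⟩ := finAbs_comp_aux g w
  obtain ⟨u, l, hl, h2⟩ := finAbs_comp_aux g.symm v
  have h3 : ∀ x, finAbs N w x ^ 1 = finAbs N u x ^ (l * k) := by
    intro x
    rw [pow_one, pow_mul, ← h2, ← h1, RingEquiv.apply_symm_apply]
  obtain ⟨-, h4⟩ := uniq N (Or.inr ⟨w, Set.mem_univ _, rfl⟩) (Or.inr ⟨u, Set.mem_univ _, rfl⟩)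
    one_pos (Nat.mul_pos hl hk) h3
  have h5 : k = 1 := (Nat.eq_one_of_mul_eq_one_left h4.symm)
  subst h5
  refine ⟨v, ?_⟩
  funext x
  rw [Function.comp_apply, h1, pow_one]

theorem comp_mem (g : N ≃+* N) {a : N → ℝ} (ha : a ∈ placeSet N Set.univ) :
    a ∘ g ∈ placeSet N Set.univ := by
  rcases ha with ⟨w, rfl⟩ | ⟨w, -, rfl⟩
  · rw [infAbs_comp]
    exact Or.inl ⟨_, rfl⟩
  · obtain ⟨v, hv⟩ := finAbs_comp g w
    rw [hv]
    exact Or.inr ⟨_, Set.mem_univ _, rfl⟩

theorem blp_comp (L : Type) [Field L] [NumberField L] [Algebra L N] (g : N ≃+* N) (h : L ≃+* L)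
    (hgh : ∀ x, g (algebraMap L N x) = algebraMap L N (h x)) {a : N → ℝ}
    (ha : a ∈ placeSet N Set.univ) : blp L (a ∘ g) = ((blp L a).1 ∘ h, (blp L a).2) := by
  obtain ⟨h1, h2, h3⟩ := blp_spec L ha
  refine blp_eq L (comp_mem g ha) (comp_mem h h1) h2 (fun x => ?_)
  rw [Function.comp_apply, hgh, h3]
  rfl

variable (K : Type) [Field K] [NumberField K] [Algebra K N]

theorem stab (S : Set (HeightOneSpectrum (𝓞 K))) (g : N ≃ₐ[K] N) {a : N → ℝ}
    (ha : a ∈ placeSet N (aboveSet K N S)) :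
    a ∘ (g : N ≃+* N) ∈ placeSet N (aboveSet K N S) := by
  rw [mem_above] at ha ⊢
  refine ⟨comp_mem _ ha.1, ?_⟩
  rw [blp_comp K (g : N ≃+* N) (RingEquiv.refl K) (fun x => by simp) ha.1]
  exact ha.2

end automorphisms

end StarkC.IOT
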