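import Pool.Agent.Stark.Defs

/-!
# Reduction of Stark's conjecture: statements of the modules
-/

open NumberField IsDedekindDomain
open scoped TensorProduct Classical

namespace StarkC

/-! ### Group theory -/

/-- Quasi-elementary group: a normal cyclic subgroup `C` of order prime to `p` whose index is a
power of the prime `p`. -/
def IsQuasiElem (G : Type) [Group G] : Prop :=
  ∃ (p : ℕ) (C : Subgroup G), p.Prime ∧ C.Normal ∧ IsCyclic C ∧ ¬ p ∣ Nat.card C ∧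
    ∃ n : ℕ, C.index = p ^ n

/-- The class function of `G` induced from the function `f` on the subgroup `H` (only the values
of `f` on `H` matter). -/
noncomputable def indFun {G : Type} [Group G] [Fintype G] (H : Subgroup G) (f : G → ℂ) : G → ℂ :=
  fun g => (∑ x : G, if x⁻¹ * g * x ∈ H then f (x⁻¹ * g * x) else 0) / (Nat.card H : ℂ)

/-- The extension by zero of a linear character of `H`. -/
noncomputable def extZ {G : Type} [Group G] {H : Subgroup G} (ψ : H →* ℂˣ) : G → ℂ :=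
  fun g => if h : g ∈ H then ((ψ ⟨g, h⟩ : ℂˣ) : ℂ) else 0

/-- `f` is an integral combination of characters induced from linear characters of subgroups. -/
def IsMonComb {G : Type} [Group G] [Fintype G] (f : G → ℂ) : Prop :=
  ∃ (m : ℕ) (H : Fin m → Subgroup G) (ψ : ∀ i, H i →* ℂˣ) (n : Fin m → ℤ),
    ∀ g, f g = ∑ i, (n i : ℂ) * indFun (H i) (extZ (ψ i)) g

/-- Solomon's induction theorem. -/
def Stmt_SOL : Prop :=
  ∀ (G : Type) [Group G] [Fintype G], ∃ (m : ℕ) (H : Fin m → Subgroup G) (n : Fin m → ℤ),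
    (∀ i, IsQuasiElem (H i)) ∧ ∀ g, (1 : ℂ) = ∑ i, (n i : ℂ) * indFun (H i) (fun _ => 1) g

/-- Characters of quasi-elementary groups are integral combinations of monomial characters. -/
def Stmt_MON : Prop :=
  ∀ (G : Type) [Group G] [Fintype G] (V : Type) [AddCommGroup V] [Module ℂ V] [Module.Finite ℂ V]
    (ρ : Representation ℂ G V), IsQuasiElem G → IsMonComb ρ.character

/-- Brauer's induction theorem (monomial form). -/
def Stmt_BRA : Prop :=
  ∀ (G : Type) [Group G] [Fintype G] (V : Type) [AddCommGroup V] [Module ℂ V] [Module.Finite ℂ V]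
    (ρ : Representation ℂ G V), IsMonComb ρ.character

def Stmt_QE : Prop :=
  ∀ (G : Type) [Group G] [Finite G] (c : G) (ψ : G →* ℂˣ) (m : ℕ), IsQuasiElem G → Odd m →
    ψ ^ m = 1 → c * c = 1 → (∀ u : G, u * c = c * u → ψ u = 1) → ψ = 1

/-! ### Arithmetic -/

def Stmt_AR1 : Prop :=
  ∀ (K L : Type) [Field K] [NumberField K] [Field L] [NumberField L] [Algebra K L] [IsGalois K L]
    (H : Subgroup (L ≃ₐ[K] L)) (ψ : H →* ℂˣ) (m : ℕ), Odd m → ψ ^ m = 1 →
    ∃ B : Finset L, ∀ (N : Type) [Field N] [NumberField N] [Algebra K N] [Algebra L N]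
      [IsScalarTower K L N] [IsGalois K N],
      (∀ b ∈ B, ∃ y : N, y ^ 2 = algebraMap L N b) →
      ∀ (Φ : N →+* ℂ) (c u : N ≃ₐ[K] N), AlgEquiv.restrictNormalHom L c ∈ H →
        ∀ hu : AlgEquiv.restrictNormalHom L u ∈ H, ComplexEmbedding.IsConj Φ c → u * c = c * u →
        ψ ⟨AlgEquiv.restrictNormalHom L u, hu⟩ = 1

def Stmt_AR2 : Prop :=
  ∀ (K L : Type) [Field K] [NumberField K] [Field L] [NumberField L] [Algebra K L] [IsGalois K L]
    (H : Subgroup (L ≃ₐ[K] L)) (ψ : H →* ℂˣ),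
    ∃ α : L, (∀ h ∈ H, h α = α) ∧ ∀ (Φ : L →+* ℂ) (c : L ≃ₐ[K] L) (hc : c ∈ H),
      ComplexEmbedding.IsConj Φ c →
        (ψ ⟨c, hc⟩ = 1 → (Φ α).re < 0) ∧ (ψ ⟨c, hc⟩ ≠ 1 → 0 < (Φ α).re)

def Stmt_AR3 : Prop :=
  ∀ (K L : Type) [Field K] [NumberField K] [Field L] [NumberField L] [Algebra K L] [IsGalois K L]
    (B : Finset L), ∃ (N : Type) (_ : Field N) (_ : NumberField N) (_ : Algebra K N)
      (_ : Algebra L N) (_ : IsScalarTower K L N) (_ : IsGalois K N),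
      ∀ b ∈ B, ∃ y : N, y ^ 2 = algebraMap L N b

/-- `c` is a complex conjugation of `N`. -/
def IsCC {K N : Type} [Field K] [Field N] [Algebra K N] (c : N ≃ₐ[K] N) : Prop :=
  ∃ Φ : N →+* ℂ, ComplexEmbedding.IsConj Φ c

/-- `ψ` belongs to one of the two basic cases. -/
def Good {K N : Type} [Field K] [Field N] [Algebra K N] (H : Subgroup (N ≃ₐ[K] N))
    (ψ : H →* ℂˣ) : Prop :=
  (∀ c ∈ H, ¬ IsCC c) ∨
    ((∃ n : ℕ, ψ ^ (2 ^ n) = 1) ∧ ∀ c : H, IsCC (c : N ≃ₐ[K] N) → ((ψ c : ℂˣ) : ℂ) = -1)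

/-- The algebraic part of the reduction. -/
def Stmt_CMB : Prop :=
  ∀ (K L : Type) [Field K] [NumberField K] [Field L] [NumberField L] [Algebra K L] [IsGalois K L]
    (V : Type) [AddCommGroup V] [Module ℂ V] [Module.Finite ℂ V]
    (ρ : Representation ℂ (L ≃ₐ[K] L) V),
    ∃ (N : Type) (_ : Field N) (_ : NumberField N) (_ : Algebra K N)
      (_ : Algebra L N) (_ : IsScalarTower K L N) (_ : IsGalois K N)
      (m : ℕ) (H : Fin m → Subgroup (N ≃ₐ[K] N)) (ψ : ∀ i, H i →* ℂˣ) (n : Fin m → ℤ),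
      (∀ i, Good (H i) (ψ i)) ∧
      ∀ g : N ≃ₐ[K] N, ρ.character (AlgEquiv.restrictNormalHom L g) =
        ∑ i, (n i : ℂ) * indFun (H i) (extZ (ψ i)) g

/-! ### L-series -/

section

variable (N : Type) [Field N] [NumberField N]

/-- The residue characteristic of `w`. -/
noncomputable def rchar (w : HeightOneSpectrum (𝓞 N)) : ℕ := (Ideal.absNorm w.asIdeal).minFac

/-- The weight of the pair `(w, q)`: `(log N(w) / log q) q^(-s)` if `w ∉ T` and `q > 1` is a power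
of the residue characteristic of `w`, and `0` otherwise. -/
noncomputable def wt (T : Set (HeightOneSpectrum (𝓞 N))) (s : ℂ)
    (p : HeightOneSpectrum (𝓞 N) × ℕ) : ℂ :=
  if p.1 ∉ T ∧ ∃ j : ℕ, p.2 = rchar N p.1 ^ (j + 1) then
    ((Real.log (Ideal.absNorm p.1.asIdeal) / Real.log p.2 : ℝ) : ℂ) * (p.2 : ℂ) ^ (-s) else 0

end

def Stmt_LA : Prop :=
  ∀ (N : Type) [Field N] [NumberField N] (T : Set (HeightOneSpectrum (𝓞 N))) (s : ℂ),
    1 < s.re → Summable (fun p => ‖wt N T s p‖)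

/-- The sum over `(w, q)` attached to a function `χ` on the Galois group. -/
noncomputable def coreSum {K N : Type} [Field K] [Field N] [NumberField N] [Algebra K N]
    [FiniteDimensional K N] (χ : (N ≃ₐ[K] N) → ℂ) (T : Set (HeightOneSpectrum (𝓞 N)))
    (s : ℂ) : ℂ :=
  (∑' p : HeightOneSpectrum (𝓞 N) × ℕ, wt N T s p *
    ∑ g ∈ Finset.univ.filter (fun g : N ≃ₐ[K] N => FrobPow N p.1 p.2 g), χ g) /
      (Nat.card (N ≃ₐ[K] N) : ℂ)

def Stmt_LB : Prop :=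
  ∀ (K N : Type) [Field K] [NumberField K] [Field N] [NumberField N] [Algebra K N] [IsGalois K N]
    (χ : (N ≃ₐ[K] N) → ℂ) (S : Set (HeightOneSpectrum (𝓞 K))) (s : ℂ), 1 < s.re →
    logL χ S s = coreSum χ (aboveSet K N S) s

def Stmt_LC : Prop :=
  ∀ (K N : Type) [Field K] [NumberField K] [Field N] [NumberField N] [Algebra K N] [IsGalois K N]
    (H : Subgroup (N ≃ₐ[K] N)) (f : (N ≃ₐ[K] N) → ℂ) (S : Set (HeightOneSpectrum (𝓞 K))) (s : ℂ),
    1 < s.re →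
    coreSum (indFun H f) (aboveSet K N S) s =
      (∑' p : HeightOneSpectrum (𝓞 N) × ℕ, wt N (aboveSet K N S) s p *
        ∑ g ∈ Finset.univ.filter (fun g : N ≃ₐ[K] N => g ∈ H ∧ FrobPow N p.1 p.2 g), f g) /
          (Nat.card H : ℂ)

def Stmt_LINF : Prop :=
  ∀ (K L N : Type) [Field K] [NumberField K] [Field L] [NumberField L] [Field N] [NumberField N]
    [Algebra K L] [Algebra K N] [Algebra L N] [IsScalarTower K L N] [IsGalois K L] [IsGalois K N]
    (χ : (L ≃ₐ[K] L) → ℂ), (∀ g h, χ (h * g * h⁻¹) = χ g) →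
    ∀ (v : HeightOneSpectrum (𝓞 K)) (m : ℕ),
      artinCoef (fun g : N ≃ₐ[K] N => χ (AlgEquiv.restrictNormalHom L g)) v m = artinCoef χ v m

/-! ### Linear algebra -/

def Stmt_TRD : Prop :=
  ∀ (m : ℕ) (W₀ : Type) [AddCommGroup W₀] [Module ℂ W₀] [Module.Finite ℂ W₀] (B₀ : W₀ →ₗ[ℂ] W₀)
    (W : Fin m → Type) [∀ i, AddCommGroup (W i)] [∀ i, Module ℂ (W i)]
    [∀ i, Module.Finite ℂ (W i)] (B : ∀ i, W i →ₗ[ℂ] W i) (n : Fin m → ℤ),
    (∀ i, LinearMap.det (B i) ≠ 0) →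
    (∀ k : ℕ, LinearMap.trace ℂ W₀ (B₀ ^ k) = ∑ i, (n i : ℂ) * LinearMap.trace ℂ (W i) (B i ^ k)) →
    LinearMap.det B₀ = ∏ i, (LinearMap.det (B i)) ^ (n i)

def Stmt_RTR : Prop :=
  ∀ (G : Type) [Group G] [Fintype G] (V X : Type) [AddCommGroup V] [Module ℂ V]
    [Module.Finite ℂ V] [AddCommGroup X] [Module ℂ X] [Module.Finite ℂ X]
    (ρ : Representation ℂ G V) (π : Representation ℂ G X) (Θ : X →ₗ[ℂ] X),
    (∀ g, Θ ∘ₗ π g = π g ∘ₗ Θ) →
    ∀ h : ∀ f ∈ (Representation.linHom ρ.dual π).invariants,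
      LinearMap.compRight ℂ Θ f ∈ (Representation.linHom ρ.dual π).invariants,
    ∀ k : ℕ, LinearMap.trace ℂ (Representation.linHom ρ.dual π).invariants
        (((LinearMap.compRight ℂ Θ).restrict h) ^ k) =
      (∑ g : G, ρ.character g * LinearMap.trace ℂ X (π g ∘ₗ (Θ ^ k))) / (Nat.card G : ℂ)

/-- Noether-Deuring with extension: `A`, `B` are two `G`-stable rational structures of `Z`
(given by `ℚ`-linear maps), `D` a normal subgroup, and `e₀` a `G`-isomorphism between the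
`D`-invariants. -/
def Stmt_ND : Prop :=
  ∀ (G : Type) [Group G] [Finite G] (D : Subgroup G) [D.Normal]
    (Z : Type) [AddCommGroup Z] [Module ℂ Z] (π : Representation ℂ G Z)
    (A B : Type) [AddCommGroup A] [Module ℚ A] [AddCommGroup B] [Module ℚ B]
    (α : Representation ℚ G A) (β : Representation ℚ G B)
    (i : A →+ Z) (j : B →+ Z) (n : ℕ)
    (a : Module.Basis (Fin n) ℚ A) (a' : Module.Basis (Fin n) ℂ Z)
    (b : Module.Basis (Fin n) ℚ B) (b' : Module.Basis (Fin n) ℂ Z),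
    (∀ k, i (a k) = a' k) → (∀ k, j (b k) = b' k) →
    (∀ g x, i (α g x) = π g (i x)) → (∀ g x, j (β g x) = π g (j x)) →
    ∀ (A₀ : Submodule ℚ A) (B₀ : Submodule ℚ B) (e₀ : A₀ ≃ₗ[ℚ] B₀),
      (∀ x : A, x ∈ A₀ ↔ ∀ d ∈ D, α d x = x) → (∀ x : B, x ∈ B₀ ↔ ∀ d ∈ D, β d x = x) →
      (∀ (g : G) (x y : A₀), (y : A) = α g x → (e₀ y : B) = β g (e₀ x)) →
      ∃ e : A ≃ₗ[ℚ] B, (∀ g x, e (α g x) = β g (e x)) ∧ ∀ x : A₀, e (x : A) = e₀ x

/-! ### Units and places -/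

/-- The Dirichlet-Herbrand `T`-unit theorem. -/
def Stmt_UNIT : Prop :=
  ∀ (L : Type) [Field L] [NumberField L] (T : Set (HeightOneSpectrum (𝓞 L))), T.Finite →
    ∃ (n : ℕ) (b : Module.Basis (Fin n) ℚ (QU L T)) (c : Module.Basis (Fin n) ℂ (XC L T)),
      ∀ i, (c i).val = lam L T (b i)

def Stmt_XRAT : Prop :=
  ∀ (L : Type) [Field L] [NumberField L] (T : Set (HeightOneSpectrum (𝓞 L))), T.Finite →
    ∃ (n : ℕ) (b : Module.Basis (Fin n) ℚ (XQ L T)) (c : Module.Basis (Fin n) ℂ (XC L T)),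
      ∀ i a, (c i).val a = ((((b i : XQ L T) : (L → ℝ) →₀ ℚ) a : ℚ) : ℂ)

/-- The set of places `placeSet L T` is stable under `Gal(L/K)`. -/
def StableT (K : Type) {L : Type} [Field K] [Field L] [NumberField L] [Algebra K L]
    (T : Set (HeightOneSpectrum (𝓞 L))) : Prop :=
  ∀ (g : L ≃ₐ[K] L) (a : L → ℝ), a ∈ placeSet L T → a ∘ (g : L ≃+* L).symm ∈ placeSet L T

def Stmt_STB : Prop :=
  ∀ (K L : Type) [Field K] [NumberField K] [Field L] [NumberField L] [Algebra K L]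
    (S : Set (HeightOneSpectrum (𝓞 K))), StableT K (aboveSet K L S)

theorem actC_mem {K L : Type} [Field K] [Field L] [NumberField L] [Algebra K L]
    {T : Set (HeightOneSpectrum (𝓞 L))} (hT : StableT K T) (g : L ≃ₐ[K] L)
    {x : (L → ℝ) →₀ ℂ} (hx : x ∈ XCsub L T) : actC (g : L ≃+* L) x ∈ XCsub L T := by
  rw [XCsub, Submodule.mem_inf] at hx ⊢
  constructor
  · rw [Finsupp.mem_supported] at hx ⊢
    intro a ha
    have h1 := Finsupp.mapDomain_support (f := fun a : L → ℝ => a ∘ (g : L ≃+* L).symm) (s := x)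
      (Finset.mem_coe.1 ha)
    rw [Finset.mem_image] at h1
    obtain ⟨b, hb, rfl⟩ := h1
    exact hT g b (hx.1 (Finset.mem_coe.2 hb))
  · rw [LinearMap.mem_ker] at hx ⊢
    rw [actC, Finsupp.lmapDomain_apply, Finsupp.linearCombination_mapDomain]
    exact hx.2

/-- The representation of `Gal(L/K)` on `ℂ ⊗ X`. -/
noncomputable def repX (K : Type) {L : Type} [Field K] [Field L] [NumberField L] [Algebra K L]
    (T : Set (HeightOneSpectrum (𝓞 L))) (hT : StableT K T) :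
    Representation ℂ (L ≃ₐ[K] L) (XC L T) where
  toFun g := (actC (g : L ≃+* L)).restrict (p := XCsub L T) (q := XCsub L T)
    (fun _ hx => actC_mem hT g hx)
  map_one' := by
    ext1 x
    apply Subtype.ext
    show Finsupp.mapDomain (fun a : L → ℝ => a ∘ ((1 : L ≃ₐ[K] L) : L ≃+* L).symm) x.1 = x.1
    have : (fun a : L → ℝ => a ∘ ((1 : L ≃ₐ[K] L) : L ≃+* L).symm) = id := by
      funext a y
      rfl
    rw [this, Finsupp.mapDomain_id]
  map_mul' g h := by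
    ext1 x
    apply Subtype.ext
    show Finsupp.mapDomain (fun a : L → ℝ => a ∘ ((g * h : L ≃ₐ[K] L) : L ≃+* L).symm) x.1 =
      Finsupp.mapDomain (fun a : L → ℝ => a ∘ (g : L ≃+* L).symm)
        (Finsupp.mapDomain (fun a : L → ℝ => a ∘ (h : L ≃+* L).symm) x.1)
    rw [← Finsupp.mapDomain_comp]
    rfl

theorem repX_val {K L : Type} [Field K] [Field L] [NumberField L] [Algebra K L]
    (T : Set (HeightOneSpectrum (𝓞 L))) (hT : StableT K T) (g : L ≃ₐ[K] L) (x : XC L T) :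
    (repX K T hT g x).val = actC (g : L ≃+* L) x.val := rfl

/-- `Θ` commutes with `G`. -/
def Stmt_THC : Prop :=
  ∀ (K L : Type) [Field K] [NumberField K] [Field L] [NumberField L] [Algebra K L]
    (T : Set (HeightOneSpectrum (𝓞 L))) (hT : StableT K T) (φ : XQ L T ≃ₗ[ℚ] QU L T)
    (Θ : XC L T →ₗ[ℂ] XC L T), T.Finite → IsPhiTheta K T φ Θ →
    ∀ g : L ≃ₐ[K] L, Θ ∘ₗ repX K T hT g = repX K T hT g ∘ₗ Θ

/-- `Θ` is bijective. -/
def Stmt_THB : Prop :=
  ∀ (K L : Type) [Field K] [NumberField K] [Field L] [NumberField L] [Algebra K L]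
    (T : Set (HeightOneSpectrum (𝓞 L))) (φ : XQ L T ≃ₗ[ℚ] QU L T)
    (Θ : XC L T →ₗ[ℂ] XC L T), T.Finite → IsPhiTheta K T φ Θ → Function.Bijective Θ

/-- `Θ` exists for every `G`-isomorphism `φ`. -/
def Stmt_THE : Prop :=
  ∀ (K L : Type) [Field K] [NumberField K] [Field L] [NumberField L] [Algebra K L]
    (T : Set (HeightOneSpectrum (𝓞 L))) (φ : XQ L T ≃ₗ[ℚ] QU L T), T.Finite →
    (∀ (g : L ≃ₐ[K] L) (x y : XQ L T), (y : (L → ℝ) →₀ ℚ) = actQ (g : L ≃+* L) x →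
      (φ y : ℚ ⊗[ℤ] Additive Lˣ) = actU (g : L ≃+* L) (φ x)) →
    ∃ Θ : XC L T →ₗ[ℂ] XC L T, IsPhiTheta K T φ Θ

/-- The regulator is the determinant of an endomorphism with known power traces. -/
def Stmt_RGT : Prop :=
  ∀ (K L : Type) [Field K] [NumberField K] [Field L] [NumberField L] [Algebra K L]
    (T : Set (HeightOneSpectrum (𝓞 L))) (hT : StableT K T) (Θ : XC L T →ₗ[ℂ] XC L T)
    (V : Type) [AddCommGroup V] [Module ℂ V] [Module.Finite ℂ V]
    (ρ : Representation ℂ (L ≃ₐ[K] L) V),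
    T.Finite → (∀ g : L ≃ₐ[K] L, Θ ∘ₗ repX K T hT g = repX K T hT g ∘ₗ Θ) →
    Function.Bijective Θ →
    ∃ (W : Type) (_ : AddCommGroup W) (_ : Module ℂ W) (_ : Module.Finite ℂ W) (B : W →ₗ[ℂ] W),
      LinearMap.det B = Reg T ρ Θ ∧ LinearMap.det B ≠ 0 ∧
      ∀ k : ℕ, LinearMap.trace ℂ W (B ^ k) =
        (∑ g : L ≃ₐ[K] L, ρ.character g * LinearMap.trace ℂ (XC L T) (repX K T hT g ∘ₗ (Θ ^ k))) /
          (Nat.card (L ≃ₐ[K] L) : ℂ)

/-! ### Induction -/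

/-- A linear character of a subgroup `H` of `Gal(N/K)`, as a character of `Gal(N/N^H)`. -/
noncomputable def liftChar {K N : Type} [Field K] [Field N] [Algebra K N] [FiniteDimensional K N]
    (H : Subgroup (N ≃ₐ[K] N)) (ψ : H →* ℂˣ) :
    (N ≃ₐ[IntermediateField.fixedField H] N) →* ℂˣ :=
  ψ.comp (IntermediateField.subgroupEquivAlgEquiv H).symm.toMonoidHom

def Stmt_LIND : Prop :=
  ∀ (K N : Type) [Field K] [NumberField K] [Field N] [NumberField N] [Algebra K N] [IsGalois K N]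
    (H : Subgroup (N ≃ₐ[K] N)) (ψ : H →* ℂˣ) (S : Set (HeightOneSpectrum (𝓞 K)))
    (S' : Set (HeightOneSpectrum (𝓞 (IntermediateField.fixedField H)))) (s : ℂ),
    aboveSet (IntermediateField.fixedField H) N S' = aboveSet K N S → 1 < s.re →
    logL (indFun H (extZ ψ)) S s = logL (fun g => ((liftChar H ψ g : ℂˣ) : ℂ)) S' s

def Stmt_IND : Prop :=
  ∀ (K N : Type) [Field K] [NumberField K] [Field N] [NumberField N] [Algebra K N] [IsGalois K N]
    (S : Finset (HeightOneSpectrum (𝓞 K)))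
    (φ : XQ N (aboveSet K N S) ≃ₗ[ℚ] QU N (aboveSet K N S))
    (Θ : XC N (aboveSet K N S) →ₗ[ℂ] XC N (aboveSet K N S))
    (V V' : Type) [AddCommGroup V] [Module ℂ V] [Module.Finite ℂ V]
    [AddCommGroup V'] [Module ℂ V'] [Module.Finite ℂ V']
    (ρ : Representation ℂ (N ≃ₐ[K] N) V) (ρ' : Representation ℂ (N ≃ₐ[K] N) V') (σ : ℂ ≃+* ℂ)
    (m : ℕ) (H : Fin m → Subgroup (N ≃ₐ[K] N)) (ψ : ∀ i, H i →* ℂˣ) (n : Fin m → ℤ),
    IsPhiTheta K (aboveSet K N S) φ Θ → (∀ g, ρ'.character g = σ (ρ.character g)) →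
    (∀ g, ρ.character g = ∑ i, (n i : ℂ) * indFun (H i) (extZ (ψ i)) g) →
    (∀ i, StarkLinear (IntermediateField.fixedField (H i)) N (liftChar (H i) (ψ i))) →
    StarkAt (S : Set (HeightOneSpectrum (𝓞 K))) (aboveSet K N S) Θ ρ ρ' σ

def Stmt_GOOD : Prop :=
  StarkTotallyComplex → StarkTwoPowerOdd →
  ∀ (K N : Type) [Field K] [NumberField K] [Field N] [NumberField N] [Algebra K N] [IsGalois K N]
    (H : Subgroup (N ≃ₐ[K] N)) (ψ : H →* ℂˣ), Good H ψ →
    StarkLinear (IntermediateField.fixedField H) N (liftChar H ψ)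

/-! ### Inflation -/

/-- The map `ℚ ⊗ Lˣ → ℚ ⊗ Nˣ`. -/
noncomputable def jU (L N : Type) [Field L] [Field N] [Algebra L N] :
    ℚ ⊗[ℤ] Additive Lˣ →ₗ[ℚ] ℚ ⊗[ℤ] Additive Nˣ :=
  LinearMap.baseChange ℚ
    (MonoidHom.toAdditive (Units.map (algebraMap L N : L →* N))).toIntLinearMap

def Stmt_IOT : Prop :=
  ∀ (K L N : Type) [Field K] [NumberField K] [Field L] [NumberField L] [Field N] [NumberField N]
    [Algebra K L] [Algebra K N] [Algebra L N] [IsScalarTower K L N] [IsGalois K L] [IsGalois K N]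
    (S : Finset (HeightOneSpectrum (𝓞 K))),
    ∃ (ιQ : XQ L (aboveSet K L S) →ₗ[ℚ] XQ N (aboveSet K N S))
      (ιC : XC L (aboveSet K L S) →ₗ[ℂ] XC N (aboveSet K N S)),
      Function.Injective ιQ ∧ Function.Injective ιC ∧
      (∀ (x : XQ L (aboveSet K L S)) (z : XC L (aboveSet K L S)),
        (∀ a, z.val a = (((x : (L → ℝ) →₀ ℚ) a : ℚ) : ℂ)) →
        ∀ a, (ιC z).val a = (((ιQ x : (N → ℝ) →₀ ℚ) a : ℚ) : ℂ)) ∧
      (∀ (g : N ≃ₐ[K] N) (x y : XQ L (aboveSet K L S)),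
        (y : (L → ℝ) →₀ ℚ) = actQ (AlgEquiv.restrictNormalHom L g : L ≃+* L) x →
        (ιQ y : (N → ℝ) →₀ ℚ) = actQ (g : N ≃+* N) (ιQ x)) ∧
      (∀ (g : N ≃ₐ[K] N) (x y : XC L (aboveSet K L S)),
        y.val = actC (AlgEquiv.restrictNormalHom L g : L ≃+* L) x.val →
        (ιC y).val = actC (g : N ≃+* N) (ιC x).val) ∧
      (∀ x : XQ N (aboveSet K N S),
        (∀ δ : N ≃ₐ[K] N, AlgEquiv.restrictNormalHom L δ = (1 : L ≃ₐ[K] L) →
          actQ (δ : N ≃+* N) (x : (N → ℝ) →₀ ℚ) = x) → ∃ y, ιQ y = x) ∧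
      (∀ x : XC N (aboveSet K N S),
        (∀ δ : N ≃ₐ[K] N, AlgEquiv.restrictNormalHom L δ = (1 : L ≃ₐ[K] L) →
          actC (δ : N ≃+* N) x.val = x.val) → ∃ y, ιC y = x) ∧
      (∀ (u : ℚ ⊗[ℤ] Additive Lˣ) (z : XC L (aboveSet K L S)),
        z.val = lam L (aboveSet K L S) u → (ιC z).val = lam N (aboveSet K N S) (jU L N u))

def Stmt_UDE : Prop :=
  ∀ (K L N : Type) [Field K] [NumberField K] [Field L] [NumberField L] [Field N] [NumberField N]
    [Algebra K L] [Algebra K N] [Algebra L N] [IsScalarTower K L N] [IsGalois K L] [IsGalois K N]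
    (S : Set (HeightOneSpectrum (𝓞 K))),
    (∀ u ∈ QU L (aboveSet K L S), jU L N u ∈ QU N (aboveSet K N S)) ∧
    (∀ u ∈ QU L (aboveSet K L S), jU L N u = 0 → u = 0) ∧
    (∀ (g : N ≃ₐ[K] N) (u : ℚ ⊗[ℤ] Additive Lˣ), actU (g : N ≃+* N) (jU L N u) =
      jU L N (actU (AlgEquiv.restrictNormalHom L g : L ≃+* L) u)) ∧
    (∀ x ∈ QU N (aboveSet K N S),
      (∀ δ : N ≃ₐ[K] N, AlgEquiv.restrictNormalHom L δ = (1 : L ≃ₐ[K] L) →
        actU (δ : N ≃+* N) x = x) → ∃ u ∈ QU L (aboveSet K L S), jU L N u = x)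

def Stmt_INFL : Prop :=
  ∀ (K L N : Type) [Field K] [NumberField K] [Field L] [NumberField L] [Field N] [NumberField N]
    [Algebra K L] [Algebra K N] [Algebra L N] [IsScalarTower K L N] [IsGalois K L] [IsGalois K N]
    (S : Finset (HeightOneSpectrum (𝓞 K)))
    (φ : XQ L (aboveSet K L S) ≃ₗ[ℚ] QU L (aboveSet K L S))
    (Θ : XC L (aboveSet K L S) →ₗ[ℂ] XC L (aboveSet K L S)),
    IsPhiTheta K (aboveSet K L S) φ Θ →
    ∃ (φ' : XQ N (aboveSet K N S) ≃ₗ[ℚ] QU N (aboveSet K N S))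
      (Θ' : XC N (aboveSet K N S) →ₗ[ℂ] XC N (aboveSet K N S)),
      IsPhiTheta K (aboveSet K N S) φ' Θ' ∧
      ∀ (V : Type) [AddCommGroup V] [Module ℂ V] [Module.Finite ℂ V]
        (ρ : Representation ℂ (L ≃ₐ[K] L) V),
        Reg (aboveSet K N S) (ρ.comp (AlgEquiv.restrictNormalHom L)) Θ' =
          Reg (aboveSet K L S) ρ Θ

/-- The main theorem. -/
def Stmt_MAIN : Prop := StarkConjecture ↔ StarkTotallyComplex ∧ StarkTwoPowerOdd

end StarkC
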