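import Pool.Agent.Stark.RStmts

/-!
RFKS: a large field over which an automorphism fixing two primes that differ on `L` is trivial
on `L` (F. K. Schmidt at a finite level).
-/

open NumberField IsDedekindDomain
open scoped TensorProduct Classical

namespace StarkC

namespace RFKS

/-- existence of a Galois extension `N / K` containing `L` over which a polynomial splits -/
theorem split_ext (K L : Type) [Field K] [NumberField K] [Field L] [NumberField L] [Algebra K L]
    (h : Polynomial L) :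
    ∃ (N : Type) (_ : Field N) (_ : NumberField N) (_ : Algebra K N)
      (_ : Algebra L N) (_ : IsScalarTower K L N) (_ : IsGalois K N),
      (h.map (algebraMap L N)).Splits := by
  let Ω := AlgebraicClosure L
  have hK : IsAlgClosure K Ω :=
    ⟨inferInstance, Algebra.IsAlgebraic.trans K L Ω⟩
  have hnorm : Normal K Ω := IsAlgClosure.normal K Ω
  let F : IntermediateField L Ω := IntermediateField.adjoin L
    (((h.map (algebraMap L Ω)).roots.toFinset : Finset Ω) : Set Ω)
  have hF : FiniteDimensional L F := IntermediateField.finiteDimensional_adjoin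
    fun x _ => Algebra.IsIntegral.isIntegral x
  let M : IntermediateField K Ω := F.restrictScalars K
  have hM : FiniteDimensional K M := by
    have : FiniteDimensional K F := FiniteDimensional.trans K L F
    exact this
  let N : IntermediateField K Ω := IntermediateField.normalClosure K M Ω
  have hMN : M ≤ N := IntermediateField.le_normalClosure M
  have hN : FiniteDimensional K N := inferInstance
  have hnf : NumberField N := NumberField.of_module_finite K N
  have hnn : Normal K N := inferInstance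
  have hL : ∀ x : L, algebraMap L Ω x ∈ N := fun x => hMN (F.algebraMap_mem x)
  let ι : L →ₐ[K] N := (IsScalarTower.toAlgHom K L Ω).codRestrict N.toSubalgebra hL
  let algLN : Algebra L N := ι.toRingHom.toAlgebra
  have hst : IsScalarTower K L N := IsScalarTower.of_algebraMap_eq fun x => (ι.commutes x).symm
  refine ⟨N, inferInstance, hnf, inferInstance, inferInstance, hst, ⟨⟩, ?_⟩
  have hcomp : (algebraMap N Ω).comp (algebraMap L N) = algebraMap L Ω := by
    ext x
    rfl
  refine Polynomial.Splits.of_splits_map (algebraMap N Ω) ?_ ?_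
  · exact IsAlgClosed.splits _
  · intro a ha
    rw [Polynomial.map_map, hcomp] at ha
    have hmemF : a ∈ F := IntermediateField.subset_adjoin L _
      (Finset.mem_coe.2 (Multiset.mem_toFinset.2 ha))
    have hmem : a ∈ N := hMN (show a ∈ M from hmemF)
    exact ⟨⟨a, hmem⟩, rfl⟩

/-- restriction of decomposition groups -/
theorem dec_under (K L N : Type) [Field K] [NumberField K] [Field L] [NumberField L]
    [Algebra K L] [IsGalois K L] [Field N] [NumberField N] [Algebra K N] [Algebra L N]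
    [IsScalarTower K L N] [IsGalois K N] (σ : N ≃ₐ[K] N) (P : HeightOneSpectrum (𝓞 N))
    (hP : Dec P σ) : Dec (P.under (𝓞 L)) (AlgEquiv.restrictNormalHom L σ) := by
  intro x y hxy hx
  change algebraMap (𝓞 L) (𝓞 N) x ∈ P.asIdeal at hx
  change algebraMap (𝓞 L) (𝓞 N) y ∈ P.asIdeal
  refine hP (algebraMap (𝓞 L) (𝓞 N) x) (algebraMap (𝓞 L) (𝓞 N) y) ?_ hx
  have h1 : ((algebraMap (𝓞 L) (𝓞 N) y : 𝓞 N) : N) = algebraMap L N (y : L) := rfl
  have h2 : ((algebraMap (𝓞 L) (𝓞 N) x : 𝓞 N) : N) = algebraMap L N (x : L) := rfl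
  rw [h1, h2, hxy]
  exact AlgEquiv.restrictNormal_commutes σ L (x : L)

end RFKS

theorem RFKS_thm (hR : Stmt_RPOLY) : Stmt_RFKS := by
  intro K L _ _ _ _ _ _ W
  have hex : ∀ t : (L ≃ₐ[K] L) × HeightOneSpectrum (𝓞 L) × HeightOneSpectrum (𝓞 L),
      ∃ h : Polynomial L, h ≠ 0 ∧ (t.1 ≠ 1 → Dec t.2.1 t.1 → Dec t.2.2 t.1 → t.2.1 ≠ t.2.2 →
        ∀ (N : Type) [Field N] [NumberField N] [Algebra K N] [Algebra L N] [IsScalarTower K L N]
          [IsGalois K N], (h.map (algebraMap L N)).Splits →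
          ∀ (σ : N ≃ₐ[K] N) (P Q : HeightOneSpectrum (𝓞 N)), Dec P σ → Dec Q σ →
            P.under (𝓞 L) = t.2.1 → Q.under (𝓞 L) = t.2.2 →
            AlgEquiv.restrictNormalHom L σ ≠ t.1) := by
    intro t
    by_cases hc : t.1 ≠ 1 ∧ Dec t.2.1 t.1 ∧ Dec t.2.2 t.1 ∧ t.2.1 ≠ t.2.2
    · obtain ⟨h, h0, hh⟩ := hR K L t.1 t.2.1 t.2.2 hc.1 hc.2.1 hc.2.2.1 hc.2.2.2
      exact ⟨h, h0, fun _ _ _ _ => hh⟩
    · exact ⟨1, one_ne_zero, fun a b c d => (hc ⟨a, b, c, d⟩).elim⟩
  choose hp hp0 hpp using hex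
  obtain ⟨T, hT⟩ : ∃ T : Finset ((L ≃ₐ[K] L) × HeightOneSpectrum (𝓞 L) ×
      HeightOneSpectrum (𝓞 L)), T = Finset.univ ×ˢ W ×ˢ W := ⟨_, rfl⟩
  obtain ⟨N, i1, i2, i3, i4, i5, i6, hs⟩ := RFKS.split_ext K L (∏ t ∈ T, hp t)
  refine ⟨N, i1, i2, i3, i4, i5, i6, fun σ P Q hP hQ hPW hQW hPQ => ?_⟩
  by_contra hne
  have ht : (AlgEquiv.restrictNormalHom L σ, P.under (𝓞 L), Q.under (𝓞 L)) ∈ T := by
    rw [hT]
    simp only [Finset.mem_product, Finset.mem_univ, true_and]
    exact ⟨hPW, hQW⟩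
  have hdvd : hp (AlgEquiv.restrictNormalHom L σ, P.under (𝓞 L), Q.under (𝓞 L)) ∣
      ∏ t ∈ T, hp t := Finset.dvd_prod_of_mem _ ht
  have hprod : (∏ t ∈ T, hp t) ≠ 0 := Finset.prod_ne_zero_iff.2 fun t _ => hp0 t
  have hs' : ((hp (AlgEquiv.restrictNormalHom L σ, P.under (𝓞 L), Q.under (𝓞 L))).map
      (algebraMap L N)).Splits := by
    refine Polynomial.Splits.of_dvd hs ?_ (Polynomial.map_dvd _ hdvd)
    exact (Polynomial.map_ne_zero_iff (algebraMap L N).injective).2 hprod
  exact hpp (AlgEquiv.restrictNormalHom L σ, P.under (𝓞 L), Q.under (𝓞 L)) hne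
    (RFKS.dec_under K L N σ P hP) (RFKS.dec_under K L N σ Q hQ) hPQ N hs' σ P Q hP hQ rfl rfl rfl

end StarkC
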