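import Pool.Agent.Stark.Stmts

/-!
# Elements commuting with a complex conjugation act trivially (module AR1)
-/

open NumberField
open scoped Classical

namespace StarkC.AR1

/-- An element of `L` whose stabiliser is a given subgroup. -/
theorem exists_theta (K L : Type) [Field K] [NumberField K] [Field L] [NumberField L]
    [Algebra K L] [IsGalois K L] (H : Subgroup (L ≃ₐ[K] L)) :
    ∃ θ : L, ∀ h : L ≃ₐ[K] L, h θ = θ ↔ h ∈ H := by
  set M : IntermediateField K L := IntermediateField.fixedField H with hM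
  obtain ⟨α, hα⟩ := Field.exists_primitive_element K M
  obtain ⟨β, hβ⟩ : ∃ β : L, IntermediateField.adjoin K {β} = M := by
    refine ⟨(α : L), ?_⟩
    have h1 : IntermediateField.lift (IntermediateField.adjoin K {α}) =
        IntermediateField.lift (⊤ : IntermediateField K M) := by rw [hα]
    rw [IntermediateField.lift_adjoin, IntermediateField.lift_top] at h1
    simpa using h1
  refine ⟨β, fun h => ?_⟩
  have hfix : M.fixingSubgroup = H := IntermediateField.fixingSubgroup_fixedField H
  rw [← hfix, IntermediateField.mem_fixingSubgroup_iff]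
  constructor
  · intro hh x hx
    rw [← hβ] at hx
    have h2 : IntermediateField.adjoin K {β} ≤
        IntermediateField.fixedField (Subgroup.zpowers h) := by
      rw [IntermediateField.adjoin_le_iff]
      intro y hy
      rw [Set.mem_singleton_iff] at hy
      subst hy
      change _ ∈ IntermediateField.fixedField (Subgroup.zpowers h)
      rw [IntermediateField.mem_fixedField_iff]
      intro g hg
      have h3 : Subgroup.zpowers h ≤ MulAction.stabilizer (L ≃ₐ[K] L) y := by
        rw [Subgroup.zpowers_le]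
        exact hh
      exact h3 hg
    have h4 := h2 hx
    rw [IntermediateField.mem_fixedField_iff] at h4
    exact h4 h (Subgroup.mem_zpowers h)
  · intro hh
    apply hh
    rw [← hβ]
    exact IntermediateField.mem_adjoin_simple_self K β

theorem conj_of_sq_neg {z : ℂ} {r : ℝ} (hz : z ^ 2 = (r : ℂ)) (hr : r < 0) :
    (starRingEnd ℂ) z = -z := by
  have h1 := congrArg Complex.re hz
  have h2 := congrArg Complex.im hz
  rw [sq, Complex.mul_re, Complex.ofReal_re] at h1
  rw [sq, Complex.mul_im, Complex.ofReal_im] at h2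
  have h3 : z.re = 0 := by
    by_contra hne
    have h4 : z.im = 0 := by
      have : z.re * z.im = 0 := by linarith
      rcases mul_eq_zero.mp this with h | h
      · exact absurd h hne
      · exact h
    rw [h4] at h1
    nlinarith [mul_self_nonneg z.re]
  apply Complex.ext
  · simp [h3]
  · simp

theorem conj_of_sq_pos {z : ℂ} {r : ℝ} (hz : z ^ 2 = (r : ℂ)) (hr : 0 < r) :
    (starRingEnd ℂ) z = z := by
  have h1 := congrArg Complex.re hz
  have h2 := congrArg Complex.im hz
  rw [sq, Complex.mul_re, Complex.ofReal_re] at h1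
  rw [sq, Complex.mul_im, Complex.ofReal_im] at h2
  have h3 : z.im = 0 := by
    by_contra hne
    have h4 : z.re = 0 := by
      have : z.re * z.im = 0 := by linarith
      rcases mul_eq_zero.mp this with h | h
      · exact h
      · exact absurd h hne
    rw [h4] at h1
    nlinarith [mul_self_nonneg z.im]
  apply Complex.ext
  · simp
  · simp [h3]

/-- A rational number between two real numbers. -/
theorem exists_q (a b : ℝ) : ∃ q : ℚ, a < b → a < q ∧ (q : ℝ) < b := by
  by_cases h : a < b
  · obtain ⟨q, h1, h2⟩ := exists_rat_btwn h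
    exact ⟨q, fun _ => ⟨h1, h2⟩⟩
  · exact ⟨0, fun h' => absurd h' h⟩

/-- The rational number between two real numbers. -/
noncomputable def qb (a b : ℝ) : ℚ := (exists_q a b).choose

theorem qb_spec {a b : ℝ} (h : a < b) : a < qb a b ∧ (qb a b : ℝ) < b :=
  (exists_q a b).choose_spec h

/-- The core contradiction. -/
theorem core {K N : Type} [Field K] [Field N] [NumberField N] [Algebra K N] (Φ : N →+* ℂ)
    (c u : N ≃ₐ[K] N) (hc : ComplexEmbedding.IsConj Φ c) (huc : u * c = c * u) (t : N)
    (ht : c t = t) (q : ℚ) (b : N) (hb : b ^ 2 = t - (q : N))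
    (hq : ((Φ t).re < q ∧ (q : ℝ) < (Φ (u t)).re) ∨ ((Φ (u t)).re < q ∧ (q : ℝ) < (Φ t).re)) :
    False := by
  have hconj : ∀ x : N, Φ (c x) = (starRingEnd ℂ) (Φ x) := fun x => hc.eq x
  have hcomm : ∀ x : N, c (u x) = u (c x) := fun x => by
    have := DFunLike.congr_fun huc x
    exact this.symm
  have hut : c (u t) = u t := by rw [hcomm, ht]
  have hr1 : ((Φ t).re : ℂ) = Φ t := by
    have := hconj t
    rw [ht] at this
    exact Complex.conj_eq_iff_re.mp this.symm
  have hr2 : ((Φ (u t)).re : ℂ) = Φ (u t) := by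
    have := hconj (u t)
    rw [hut] at this
    exact Complex.conj_eq_iff_re.mp this.symm
  have hs1 : (Φ b) ^ 2 = (((Φ t).re - q : ℝ) : ℂ) := by
    rw [← map_pow, hb, map_sub, map_ratCast, Complex.ofReal_sub, hr1]
    simp
  have hs2 : (Φ (u b)) ^ 2 = (((Φ (u t)).re - q : ℝ) : ℂ) := by
    rw [← map_pow, ← map_pow, hb, map_sub, map_sub, map_ratCast, map_ratCast,
      Complex.ofReal_sub, hr2]
    simp
  have hb0 : b ≠ 0 := by
    intro h0
    rw [h0, map_zero] at hs1
    have h1 : ((Φ t).re - q : ℝ) = 0 := by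
      have : (((Φ t).re - q : ℝ) : ℂ) = 0 := by rw [← hs1]; simp
      exact_mod_cast this
    rcases hq with h | h
    · linarith [h.1]
    · linarith [h.2]
  have hub0 : u b ≠ 0 := fun h => hb0 (by simpa using h)
  have hinj : Function.Injective Φ := Φ.injective
  rcases hq with h | h
  · have h1 : c b = -b := by
      apply hinj
      rw [hconj, map_neg]
      exact conj_of_sq_neg hs1 (by linarith [h.1])
    have h2 : c (u b) = u b := by
      apply hinj
      rw [hconj]
      exact conj_of_sq_pos hs2 (by linarith [h.2])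
    rw [hcomm, h1, map_neg] at h2
    exact hub0 (CharZero.neg_eq_self_iff.mp h2)
  · have h1 : c b = b := by
      apply hinj
      rw [hconj]
      exact conj_of_sq_pos hs1 (by linarith [h.2])
    have h2 : c (u b) = -(u b) := by
      apply hinj
      rw [hconj, map_neg]
      exact conj_of_sq_neg hs2 (by linarith [h.1])
    rw [hcomm, h1] at h2
    exact hub0 (CharZero.eq_neg_self_iff.mp h2)

theorem unit_eq_one {G : Type} [Monoid G] {x : G} {m : ℕ} (hm : Odd m) (h1 : x ^ 2 = 1)
    (h2 : x ^ m = 1) : x = 1 := by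
  obtain ⟨k, hk⟩ := hm
  rw [hk, pow_add, pow_mul, h1, one_pow, pow_one, one_mul] at h2
  exact h2

end StarkC.AR1

namespace StarkC

open StarkC.AR1

theorem AR1_thm : StarkC.Stmt_AR1 := by
  intro K L _ _ _ _ _ _ H ψ m hm hψ
  obtain ⟨θ, hθ⟩ := exists_theta K L ((ψ.ker).map H.subtype)
  refine ⟨(Finset.univ : Finset ((L →+* ℂ) × (L →+* ℂ))).image
    (fun p => θ - ((qb (p.1 θ).re (p.2 θ).re : ℚ) : L)), ?_⟩
  intro N _ _ _ _ _ _ hB Φ c u hcH hu hconj huc
  by_contra hne
  have hmem : ∀ h : H, (h : L ≃ₐ[K] L) θ = θ ↔ ψ h = 1 := by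
    intro h
    rw [hθ]
    constructor
    · rintro ⟨x, hx, hx'⟩
      have : x = h := Subtype.ext hx'
      rw [← this]
      exact hx
    · intro h1
      exact ⟨h, h1, rfl⟩
  have hcc : c * c = 1 := by
    ext x
    apply Φ.injective
    have h1 : Φ (c (c x)) = star (Φ (c x)) := hconj.eq (c x)
    have h2 : Φ (c x) = star (Φ x) := hconj.eq x
    rw [h2, star_star] at h1
    exact h1
  have hψc : ψ ⟨AlgEquiv.restrictNormalHom L c, hcH⟩ = 1 := by
    apply unit_eq_one hm
    · rw [← map_pow]
      have : (⟨AlgEquiv.restrictNormalHom L c, hcH⟩ : H) ^ 2 = 1 := by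
        apply Subtype.ext
        change (AlgEquiv.restrictNormalHom L c) ^ 2 = 1
        rw [← map_pow, sq, hcc, map_one]
      rw [this, map_one]
    · have := DFunLike.congr_fun hψ ⟨AlgEquiv.restrictNormalHom L c, hcH⟩
      exact this
  have hcθ : (AlgEquiv.restrictNormalHom L c) θ = θ := (hmem ⟨_, hcH⟩).mpr hψc
  have huθ : (AlgEquiv.restrictNormalHom L u) θ ≠ θ := fun h => hne ((hmem ⟨_, hu⟩).mp h)
  have hres : ∀ (g : N ≃ₐ[K] N) (x : L),
      algebraMap L N ((AlgEquiv.restrictNormalHom L g) x) = g (algebraMap L N x) :=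
    fun g x => AlgEquiv.restrictNormal_commutes g L x
  have hcu' : ∀ x : N, c (u x) = u (c x) := fun x => by
    have := DFunLike.congr_fun huc x
    exact this.symm
  set t : N := algebraMap L N θ with ht
  have hct : c t = t := by rw [ht, ← hres, hcθ]
  have hreal : ∀ x : N, c x = x → ((Φ x).re : ℂ) = Φ x := by
    intro x hx
    have h1 : Φ (c x) = (starRingEnd ℂ) (Φ x) := hconj.eq x
    rw [hx] at h1
    exact Complex.conj_eq_iff_re.mp h1.symm
  have hne2 : (Φ t).re ≠ (Φ (u t)).re := by
    intro h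
    have h1 : Φ t = Φ (u t) := by
      rw [← hreal t hct, ← hreal (u t) (by rw [hcu', hct]), h]
    have h2 := Φ.injective h1
    rw [ht, ← hres] at h2
    exact huθ ((algebraMap L N).injective h2).symm
  have key : ∀ τ₁ τ₂ : L →+* ℂ, ∃ b : N,
      b ^ 2 = t - ((qb (τ₁ θ).re (τ₂ θ).re : ℚ) : N) := by
    intro τ₁ τ₂
    obtain ⟨y, hy⟩ := hB (θ - ((qb (τ₁ θ).re (τ₂ θ).re : ℚ) : L))
      (Finset.mem_image.mpr ⟨(τ₁, τ₂), Finset.mem_univ _, rfl⟩)
    refine ⟨y, ?_⟩
    rw [hy, map_sub, map_ratCast]
  rcases lt_or_gt_of_ne hne2 with hlt | hlt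
  · obtain ⟨b, hb⟩ := key (Φ.comp (algebraMap L N))
      ((Φ.comp (u : N →+* N)).comp (algebraMap L N))
    have hs := qb_spec hlt
    exact core Φ c u hconj huc t hct _ b hb (Or.inl hs)
  · obtain ⟨b, hb⟩ := key ((Φ.comp (u : N →+* N)).comp (algebraMap L N))
      (Φ.comp (algebraMap L N))
    have hs := qb_spec hlt
    exact core Φ c u hconj huc t hct _ b hb (Or.inr hs)

end StarkC
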