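import Pool.Agent.Stark.RStmts

/-!
# Module STR_RFIN: finitely many primes ramify
-/

open NumberField IsDedekindDomain
open scoped TensorProduct Classical

namespace StarkC

namespace RFINaux

/-- only finitely many primes contain a nonzero element -/
theorem fin_mem {L : Type} [Field L] [NumberField L] {a : 𝓞 L} (ha : a ≠ 0) :
    {w : HeightOneSpectrum (𝓞 L) | a ∈ w.asIdeal}.Finite := by
  have h1 : Ideal.span {a} ≠ 0 := by
    rw [Ne, Ideal.zero_eq_bot, Ideal.span_singleton_eq_bot]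
    exact ha
  refine (Ideal.finite_factors h1).subset fun w hw => ?_
  rw [Set.mem_ofPred_eq, Ideal.dvd_span_singleton]
  exact hw

/-- the integral image -/
noncomputable def im {K L : Type} [Field K] [NumberField K] [Field L] [NumberField L] [Algebra K L]
    (g : L ≃ₐ[K] L) (x : 𝓞 L) : 𝓞 L :=
  ⟨g (x : L), map_isIntegral_int g (RingOfIntegers.isIntegral_coe x)⟩

theorem exists_ne {K L : Type} [Field K] [NumberField K] [Field L] [NumberField L] [Algebra K L]
    {g : L ≃ₐ[K] L} (hg : g ≠ 1) : ∃ x : 𝓞 L, im g x - x ≠ 0 := by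
  by_contra hcon
  push Not at hcon
  apply hg
  have h1 : ∀ x : 𝓞 L, g (x : L) = x := by
    intro x
    have h2 := sub_eq_zero.1 (hcon x)
    exact congrArg (fun y : 𝓞 L => (y : L)) h2
  ext z
  obtain ⟨a, b, hb, rfl⟩ := IsFractionRing.div_surjective (A := 𝓞 L) z
  rw [map_div₀]
  have h2 := h1 a
  have h3 := h1 b
  rw [AlgEquiv.one_apply]
  exact congrArg₂ (· / ·) h2 h3

end RFINaux

open RFINaux in
/-- MODULE STR_RFIN -/
theorem RFIN_thm : Stmt_RFIN := by
  intro K L _ _ _ _ _ _ T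
  have h1 : ∀ g : L ≃ₐ[K] L, {w : HeightOneSpectrum (𝓞 L) | g ≠ 1 ∧ FrobPow L w 1 g}.Finite := by
    intro g
    by_cases hg : g = 1
    · refine Set.finite_empty.subset fun w hw => ?_
      exact absurd hg hw.1
    · obtain ⟨x, hx⟩ := exists_ne hg
      refine (fin_mem hx).subset fun w hw => ?_
      have := hw.2 x (im g x) rfl
      rw [pow_one] at this
      exact this
  have h2 : ∀ p : ℕ, {w : HeightOneSpectrum (𝓞 L) | p.Prime ∧ (p : 𝓞 L) ∈ w.asIdeal}.Finite := by
    intro p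
    by_cases hp : p.Prime
    · refine (fin_mem (a := (p : 𝓞 L)) (by exact_mod_cast hp.ne_zero)).subset fun w hw => hw.2
    · refine Set.finite_empty.subset fun w hw => ?_
      exact absurd hw.1 hp
  have h3 := Set.finite_iUnion h1
  have h4 : (⋃ p ∈ T, {w : HeightOneSpectrum (𝓞 L) | p.Prime ∧ (p : 𝓞 L) ∈ w.asIdeal}).Finite :=
    T.finite_toSet.biUnion fun p _ => h2 p
  refine ⟨(h3.union h4).toFinset, ?_⟩
  intro w hw
  rw [Set.Finite.mem_toFinset]
  rcases hw with ⟨g, hg, h⟩ | ⟨p, hp, hpp, h⟩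
  · left
    rw [Set.mem_iUnion]
    exact ⟨g, hg, h⟩
  · right
    rw [Set.mem_iUnion₂]
    exact ⟨p, hp, hpp, h⟩

end StarkC
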