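import Pool.Agent.Stark.RBasic
import Pool.Agent.Stark.IND

/-!
RKEY: the linear characters of quasi-elementary subgroups (helper74).
-/

open NumberField IsDedekindDomain
open scoped TensorProduct Classical

namespace StarkC

namespace RKEY

/-- a rational prime below a prime -/
theorem exists_prime_below {N : Type} [Field N] [NumberField N] (w : HeightOneSpectrum (𝓞 N)) :
    ∃ l : ℕ, l.Prime ∧ (l : 𝓞 N) ∈ w.asIdeal := by
  have h0 : Ideal.absNorm w.asIdeal ≠ 0 := by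
    rw [Ne, Ideal.absNorm_eq_zero_iff]
    exact w.ne_bot
  have hmem : ((Ideal.absNorm w.asIdeal : ℕ) : 𝓞 N) ∈ w.asIdeal := Ideal.absNorm_mem _
  have key : ∀ n : ℕ, n ≠ 0 → ((n : ℕ) : 𝓞 N) ∈ w.asIdeal →
      ∃ l : ℕ, l.Prime ∧ (l : 𝓞 N) ∈ w.asIdeal := by
    intro n
    induction n using Nat.recOnMul with
    | zero => intro h; exact absurd rfl h
    | one =>
      intro _ h
      rw [Nat.cast_one] at h
      exact absurd ((Ideal.eq_top_iff_one _).2 h) w.isPrime.ne_top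
    | prime p hp => intro _ h; exact ⟨p, hp, h⟩
    | mul a b iha ihb =>
      intro hab h
      rw [Nat.cast_mul] at h
      rcases w.isPrime.mem_or_mem h with h1 | h1
      · exact iha (left_ne_zero_of_mul hab) h1
      · exact ihb (right_ne_zero_of_mul hab) h1
  exact key _ h0 hmem

/-- an element with nontrivial image under a homomorphism has a power of prime power order with
nontrivial image -/
theorem exists_primary {G A : Type} [Group G] [Finite G] [CommGroup A] (f : G →* A) (x : G)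
    (hx : f x ≠ 1) : ∃ (q b m : ℕ), q.Prime ∧ (x ^ m) ^ (q ^ b) = 1 ∧ f (x ^ m) ≠ 1 ∧
      q ∣ orderOf (f x) := by
  have hd : orderOf (f x) ≠ 1 := by
    rw [Ne, orderOf_eq_one_iff]
    exact hx
  obtain ⟨q, hq, hqd⟩ := Nat.exists_prime_and_dvd hd
  have hpos : orderOf x ≠ 0 := (orderOf_pos x).ne'
  obtain ⟨b, m, hm, he⟩ := Nat.exists_eq_pow_mul_and_not_dvd hpos q hq.ne_one
  refine ⟨q, b, m, hq, ?_, ?_, hqd⟩
  · rw [← pow_mul, mul_comm, ← he, pow_orderOf_eq_one]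
  · rw [map_pow]
    intro h
    exact hm (hqd.trans (orderOf_dvd_of_pow_eq_one h))

end RKEY

open RKEY in
theorem RKEY_thm (h1 : StarkC.Stmt_RFKS) (h2 : StarkC.Stmt_RTOR) (h3 : StarkC.Stmt_RQE) :
    StarkC.Stmt_RKEY := by
  intro K L _ _ _ _ _ _ ψ W htc
  -- the stable set of primes
  let W0 : Finset (HeightOneSpectrum (𝓞 L)) :=
    (W ×ˢ (Finset.univ : Finset (L ≃ₐ[K] L))).image
      (fun t => STB.mv ((t.2 : L ≃ₐ[K] L) : L ≃+* L) t.1)
  have hW0 : ∀ w, w ∈ W0 ↔ ∃ v ∈ W, ∃ g : L ≃ₐ[K] L, STB.mv (g : L ≃+* L) v = w := by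
    intro w
    simp only [W0, Finset.mem_image, Finset.mem_product, Finset.mem_univ, and_true, Prod.exists]
    constructor
    · rintro ⟨v, g, hv, rfl⟩
      exact ⟨v, hv, g, rfl⟩
    · rintro ⟨v, hv, g, rfl⟩
      exact ⟨v, g, hv, rfl⟩
  have hWW0 : ∀ w ∈ W, w ∈ W0 := fun w hw => (hW0 w).2 ⟨w, hw, 1, RB.mv_one w⟩
  have hst : ∀ w ∈ W0, ∀ g : L ≃ₐ[K] L, STB.mv (g : L ≃+* L) w ∈ W0 := by
    intro w hw g
    obtain ⟨v, hv, h, rfl⟩ := (hW0 w).1 hw
    exact (hW0 _).2 ⟨v, hv, g * h, RB.mv_mul g h v⟩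
  -- the tower
  obtain ⟨L', _, _, _, _, _, _, hA⟩ := h1 K L W0
  obtain ⟨L₁, _, _, _, _, _, _, hB⟩ := h2 K L' htc (Nat.factorial (Nat.card (L ≃ₐ[K] L)))
    (Nat.factorial_pos _)
  let algLL₁ : Algebra L L₁ := ((algebraMap L' L₁).comp (algebraMap L L')).toAlgebra
  have t1 : IsScalarTower L L' L₁ := IsScalarTower.of_algebraMap_eq fun _ => rfl
  have t2 : IsScalarTower K L L₁ := IsScalarTower.of_algebraMap_eq fun x => by
    rw [IsScalarTower.algebraMap_apply K L' L₁, IsScalarTower.algebraMap_apply K L L',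
      IsScalarTower.algebraMap_apply L L' L₁]
  have hfin : {w : HeightOneSpectrum (𝓞 L₁) | w.under (𝓞 L) ∈ W0}.Finite := by
    have := IND.aboveSet_finite (K := L) (N := L₁) (W0 : Set (HeightOneSpectrum (𝓞 L)))
      W0.finite_toSet
    exact this
  obtain ⟨M, _, _, _, _, _, _, hC⟩ := h1 K L₁ hfin.toFinset
  let algL'M : Algebra L' M := ((algebraMap L₁ M).comp (algebraMap L' L₁)).toAlgebra
  have t3 : IsScalarTower L' L₁ M := IsScalarTower.of_algebraMap_eq fun _ => rfl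
  have t4 : IsScalarTower K L' M := IsScalarTower.of_algebraMap_eq fun x => by
    rw [IsScalarTower.algebraMap_apply K L₁ M, IsScalarTower.algebraMap_apply K L' L₁,
      IsScalarTower.algebraMap_apply L' L₁ M]
  let algLM : Algebra L M := ((algebraMap L₁ M).comp (algebraMap L L₁)).toAlgebra
  have t5 : IsScalarTower L L₁ M := IsScalarTower.of_algebraMap_eq fun _ => rfl
  have t6 : IsScalarTower K L M := IsScalarTower.of_algebraMap_eq fun x => by
    rw [IsScalarTower.algebraMap_apply K L₁ M, IsScalarTower.algebraMap_apply K L L₁,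
      IsScalarTower.algebraMap_apply L L₁ M]
  have t7 : IsScalarTower L L' M := IsScalarTower.of_algebraMap_eq fun x => by
    rw [IsScalarTower.algebraMap_apply L L₁ M, IsScalarTower.algebraMap_apply L L' L₁,
      IsScalarTower.algebraMap_apply L' L₁ M]
  -- compatibility of the restrictions
  have r1 : ∀ g : M ≃ₐ[K] M, AlgEquiv.restrictNormalHom L
      (AlgEquiv.restrictNormalHom L' (AlgEquiv.restrictNormalHom L₁ g : L₁ ≃ₐ[K] L₁) :
        L' ≃ₐ[K] L') = AlgEquiv.restrictNormalHom L g := by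
    intro g
    rw [← IsScalarTower.AlgEquiv.restrictNormalHom_comp_apply L' L₁,
      ← IsScalarTower.AlgEquiv.restrictNormalHom_comp_apply L L']
  have hW1 : ∀ w : HeightOneSpectrum (𝓞 M), w.under (𝓞 L) ∈ W0 →
      w.under (𝓞 L₁) ∈ hfin.toFinset := by
    intro w hw
    rw [Set.Finite.mem_toFinset, Set.mem_ofPred_eq, RB.under_under]
    exact hw
  refine ⟨M, inferInstance, inferInstance, inferInstance, algLM, t6, inferInstance, ?_⟩
  intro H hH
  obtain ⟨p, C, hp, hCn, hCc, hpC, n, hidx⟩ := hH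
  by_cases hall : ∀ x ∈ C, ψ (AlgEquiv.restrictNormalHom L (x : M ≃ₐ[K] M)) = 1
  · left
    refine ⟨p, n, hp, fun g hg => ?_⟩
    have hmem : (⟨g, hg⟩ : H) ^ (p ^ n) ∈ C := by
      have := hCn
      exact hidx ▸ Subgroup.pow_index_mem C (⟨g, hg⟩ : H)
    have := hall _ hmem
    rw [Subgroup.coe_pow, map_pow, map_pow] at this
    exact this
  right
  push Not at hall
  obtain ⟨x0, hx0C, hx0⟩ := hall
  -- the homomorphism on `H`
  let f : H →* ℂˣ := (ψ.comp (AlgEquiv.restrictNormalHom L)).comp H.subtype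
  obtain ⟨q, b, m, hq, hxq, hxψ, hqd⟩ := exists_primary f x0 hx0
  set x : H := x0 ^ m with hx
  have hxC : x ∈ C := Subgroup.pow_mem C hx0C m
  have hqe : (q - 1) ∣ Nat.factorial (Nat.card (L ≃ₐ[K] L)) := by
    have e1 : orderOf (f x0) ∣ orderOf (AlgEquiv.restrictNormalHom L (x0 : M ≃ₐ[K] M)) :=
      orderOf_map_dvd ψ _
    have e2 : q ∣ Nat.card (L ≃ₐ[K] L) := hqd.trans (e1.trans (orderOf_dvd_natCard _))
    have e3 : q ≤ Nat.card (L ≃ₐ[K] L) := Nat.le_of_dvd Nat.card_pos e2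
    have := hq.two_le
    exact Nat.dvd_factorial (by omega) (by omega)
  -- the claim on bad primes
  have claim : ∀ w : HeightOneSpectrum (𝓞 M), w.under (𝓞 L) ∈ W0 → ∀ τ ∈ H, Dec w τ →
      ψ (AlgEquiv.restrictNormalHom L τ) ≠ 1 →
      Dec (w.under (𝓞 L₁)) (AlgEquiv.restrictNormalHom L₁ (x : M ≃ₐ[K] M) : L₁ ≃ₐ[K] L₁) := by
    intro w hw τ hτ hdec hψ
    apply RB.dec_of_under
    by_contra hne
    have hcomm := h3 H p C n hp hCn hCc hpC hidx q b x ⟨τ, hτ⟩ hq hxC hxq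
    have hcomm' : τ ^ (q - 1) * (x : M ≃ₐ[K] M) = (x : M ≃ₐ[K] M) * τ ^ (q - 1) := by
      have := congrArg (Subtype.val) hcomm
      simpa using this
    have hρ : Dec w (τ ^ (q - 1) : M ≃ₐ[K] M) := RB.dec_pow hdec (q - 1)
    have hρ' : Dec (STB.mv ((x : M ≃ₐ[K] M) : M ≃+* M) w) (τ ^ (q - 1) : M ≃ₐ[K] M) := by
      have h5 := RB.dec_conj hρ (x : M ≃ₐ[K] M)
      rwa [← hcomm', mul_inv_cancel_right] at h5
    have hmvW : (STB.mv ((x : M ≃ₐ[K] M) : M ≃+* M) w).under (𝓞 L) ∈ W0 := by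
      rw [RB.mv_under]
      exact hst _ hw _
    have h6 := hC (τ ^ (q - 1)) (STB.mv ((x : M ≃ₐ[K] M) : M ≃+* M) w) w hρ' hρ
      (hW1 _ hmvW) (hW1 _ hw) hne
    rw [map_pow] at h6
    obtain ⟨c, hc⟩ := hqe
    have h7 := hB (AlgEquiv.restrictNormalHom L₁ τ) (by rw [hc, pow_mul, h6, one_pow])
    apply hψ
    rw [← r1 τ, h7, map_one, map_one]
  by_cases hbad : ∃ w : HeightOneSpectrum (𝓞 M), w.under (𝓞 L) ∈ W0 ∧ ∃ τ ∈ H, Dec w τ ∧
      ψ (AlgEquiv.restrictNormalHom L τ) ≠ 1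
  · obtain ⟨w0, hw0, τ0, hτ0, hd0, hψ0⟩ := hbad
    obtain ⟨l, hl, hlw⟩ := exists_prime_below w0
    refine ⟨l, hl, fun w' hw' hlw' g hg hdec => ?_⟩
    by_contra hψ
    have hw'0 := hWW0 _ hw'
    have d1 := claim w0 hw0 τ0 hτ0 hd0 hψ0
    have d2 := claim w' hw'0 g hg hdec hψ
    have d1' := RB.dec_restrict (L := L') d1
    have d2' := RB.dec_restrict (L := L') d2
    have u0 : ((w0.under (𝓞 L₁)).under (𝓞 L')).under (𝓞 L) = w0.under (𝓞 L) := by
      rw [RB.under_under, RB.under_under]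
    have u' : ((w'.under (𝓞 L₁)).under (𝓞 L')).under (𝓞 L) = w'.under (𝓞 L) := by
      rw [RB.under_under, RB.under_under]
    have hne : w0.under (𝓞 L) ≠ w'.under (𝓞 L) := by
      intro he
      apply hlw'
      rw [← RB.natCast_mem_under (L := L) w' l, ← he, RB.natCast_mem_under]
      exact hlw
    have h8 := hA _ _ _ d1' d2' (by rw [u0]; exact hw0) (by rw [u']; exact hw'0)
      (by rw [u0, u']; exact hne)
    rw [r1] at h8
    apply hxψ
    show ψ (AlgEquiv.restrictNormalHom L (x : M ≃ₐ[K] M)) = 1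
    rw [h8, map_one]
  · push Not at hbad
    exact ⟨2, Nat.prime_two, fun w hw _ g hg hdec => hbad w (hWW0 _ hw) g hg hdec⟩

end StarkC
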