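import Pool.Agent.Stark.DefsE

/-!
# Stark's conjecture: linear characters ramified above one rational prime
-/

open NumberField IsDedekindDomain
open scoped TensorProduct Classical

namespace StarkC

/-- `g` maps the prime `w` into itself (for an automorphism `g`: `g` lies in the decomposition
group of `w`). -/
def Dec {N : Type} [Field N] [NumberField N] (w : HeightOneSpectrum (𝓞 N)) (g : N → N) : Prop :=
  ∀ x y : 𝓞 N, (y : N) = g (x : N) → x ∈ w.asIdeal → y ∈ w.asIdeal

/-- Stark's conjecture for those linear characters `ψ` over totally complex base fields `K` which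
have prime power order, or for which there is a rational prime `l` such that `ψ` is unramified at
all primes not above `l` and trivial on the decomposition groups of all primes which lie above a
prime number in `T` and not above `l`. -/
def StarkTotallyComplexR (T : Finset ℕ) : Prop :=
  ∀ (K L : Type) [Field K] [NumberField K] [Field L] [NumberField L] [Algebra K L] [IsGalois K L]
    (ψ : (L ≃ₐ[K] L) →* ℂˣ), IsTotallyComplex K →
    ((∃ p n : ℕ, p.Prime ∧ ψ ^ (p ^ n) = 1) ∨
      ∃ l : ℕ, l.Prime ∧
        (∀ w : HeightOneSpectrum (𝓞 L), (l : 𝓞 L) ∉ w.asIdeal →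
          ∀ g : L ≃ₐ[K] L, FrobPow L w 1 g → ψ g = 1) ∧
        (∀ w : HeightOneSpectrum (𝓞 L), (l : 𝓞 L) ∉ w.asIdeal →
          (∃ p ∈ T, p.Prime ∧ (p : 𝓞 L) ∈ w.asIdeal) →
          ∀ g : L ≃ₐ[K] L, Dec w g → ψ g = 1)) →
    StarkLinear K L ψ

end StarkC
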