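import Pool.Agent.Stark.Stmts
import Pool.Agent.Stark.RDefs

/-!
# Stark's conjecture, reduction of the ramification: statements of the modules

See `PAPER_R.md`.
-/

open NumberField IsDedekindDomain
open scoped TensorProduct Classical

namespace StarkC

/-- RFKS (F. K. Schmidt at a finite level): over a large field an automorphism which fixes two
primes that differ on `L` is trivial on `L`. -/
def Stmt_RFKS : Prop :=
  ∀ (K L : Type) [Field K] [NumberField K] [Field L] [NumberField L] [Algebra K L] [IsGalois K L]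
    (W : Finset (HeightOneSpectrum (𝓞 L))),
    ∃ (N : Type) (_ : Field N) (_ : NumberField N) (_ : Algebra K N)
      (_ : Algebra L N) (_ : IsScalarTower K L N) (_ : IsGalois K N),
      ∀ (σ : N ≃ₐ[K] N) (P Q : HeightOneSpectrum (𝓞 N)), Dec P σ → Dec Q σ →
        P.under (𝓞 L) ∈ W → Q.under (𝓞 L) ∈ W → P.under (𝓞 L) ≠ Q.under (𝓞 L) →
        AlgEquiv.restrictNormalHom L σ = 1

/-- The valuation theoretic core of RFKS.  `F₀` is the fixed field of `s`, `θ` generates `L/F₀`. -/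
def Stmt_RPOLY : Prop :=
  ∀ (K L : Type) [Field K] [NumberField K] [Field L] [NumberField L] [Algebra K L] [IsGalois K L]
    (s : L ≃ₐ[K] L) (P₀ Q₀ : HeightOneSpectrum (𝓞 L)), s ≠ 1 → Dec P₀ s → Dec Q₀ s → P₀ ≠ Q₀ →
    ∃ h : Polynomial L, h ≠ 0 ∧
      ∀ (N : Type) [Field N] [NumberField N] [Algebra K N] [Algebra L N] [IsScalarTower K L N]
        [IsGalois K N], (h.map (algebraMap L N)).Splits →
        ∀ (σ : N ≃ₐ[K] N) (P Q : HeightOneSpectrum (𝓞 N)), Dec P σ → Dec Q σ →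
          P.under (𝓞 L) = P₀ → Q.under (𝓞 L) = Q₀ → AlgEquiv.restrictNormalHom L σ ≠ s

/-- RSSQ: `-1` is a sum of squares in a totally complex number field. -/
def Stmt_RSSQ : Prop :=
  ∀ (K : Type) [Field K] [NumberField K], IsTotallyComplex K →
    ∃ (n : ℕ) (x : Fin n → K), ∑ i, x i ^ 2 = -1

/-- RAS: the theorem of Artin and Schreier for totally complex number fields. -/
def Stmt_RAS : Prop :=
  ∀ (K : Type) [Field K] [NumberField K], IsTotallyComplex K →
    ∀ (σ : AlgebraicClosure K ≃ₐ[K] AlgebraicClosure K) (e : ℕ), 0 < e → σ ^ e = 1 → σ = 1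

/-- RTOR: the theorem of Artin and Schreier at a finite level. -/
def Stmt_RTOR : Prop :=
  ∀ (K L : Type) [Field K] [NumberField K] [Field L] [NumberField L] [Algebra K L] [IsGalois K L],
    IsTotallyComplex K → ∀ e : ℕ, 0 < e →
    ∃ (N : Type) (_ : Field N) (_ : NumberField N) (_ : Algebra K N)
      (_ : Algebra L N) (_ : IsScalarTower K L N) (_ : IsGalois K N),
      ∀ σ : N ≃ₐ[K] N, σ ^ e = 1 → AlgEquiv.restrictNormalHom L σ = 1

/-- RQE: powers of elements of a quasi-elementary group commute with elements of `C`. -/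
def Stmt_RQE : Prop :=
  ∀ (G : Type) [Group G] [Finite G] (p : ℕ) (C : Subgroup G) (n : ℕ), p.Prime → C.Normal →
    IsCyclic C → ¬ p ∣ Nat.card C → C.index = p ^ n →
    ∀ (q b : ℕ) (x τ : G), q.Prime → x ∈ C → x ^ (q ^ b) = 1 →
      τ ^ (q - 1) * x = x * τ ^ (q - 1)

/-- RKEY: the linear characters of quasi-elementary subgroups. -/
def Stmt_RKEY : Prop :=
  ∀ (K L : Type) [Field K] [NumberField K] [Field L] [NumberField L] [Algebra K L] [IsGalois K L]
    (ψ : (L ≃ₐ[K] L) →* ℂˣ) (W : Finset (HeightOneSpectrum (𝓞 L))), IsTotallyComplex K →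
    ∃ (N : Type) (_ : Field N) (_ : NumberField N) (_ : Algebra K N)
      (_ : Algebra L N) (_ : IsScalarTower K L N) (_ : IsGalois K N),
      ∀ H : Subgroup (N ≃ₐ[K] N), IsQuasiElem H →
        (∃ p n : ℕ, p.Prime ∧ ∀ g ∈ H, ψ (AlgEquiv.restrictNormalHom L g) ^ (p ^ n) = 1) ∨
        ∃ l : ℕ, l.Prime ∧ ∀ w : HeightOneSpectrum (𝓞 N), w.under (𝓞 L) ∈ W →
          (l : 𝓞 N) ∉ w.asIdeal → ∀ g ∈ H, Dec w g → ψ (AlgEquiv.restrictNormalHom L g) = 1

/-- RFIN: finitely many primes ramify. -/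
def Stmt_RFIN : Prop :=
  ∀ (K L : Type) [Field K] [NumberField K] [Field L] [NumberField L] [Algebra K L] [IsGalois K L]
    (T : Finset ℕ), ∃ W : Finset (HeightOneSpectrum (𝓞 L)), ∀ w : HeightOneSpectrum (𝓞 L),
      ((∃ g : L ≃ₐ[K] L, g ≠ 1 ∧ FrobPow L w 1 g) ∨ (∃ p ∈ T, p.Prime ∧ (p : 𝓞 L) ∈ w.asIdeal)) →
      w ∈ W

/-- RASM: the assembly. -/
def Stmt_RTC : Prop := ∀ T : Finset ℕ, StarkTotallyComplexR T → StarkTotallyComplex

/-- The main theorem. -/
def Stmt_RMAINR : Prop :=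
  ∀ (T : Finset ℕ) (ε : ℝ), 0 < ε →
    (StarkTotallyComplex ↔ StarkTotallyComplexR T) ∧
    (StarkConjecture ↔ StarkTotallyComplexR T ∧ StarkTwoPowerOddE ε)

end StarkC
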