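import Pool.Agent.Stark.Stmts

/-!
# Module AR2: an element of the fixed field with prescribed signs
-/

open NumberField IsDedekindDomain
open scoped TensorProduct Classical

namespace StarkC

namespace AR2

/-- weak approximation at the infinite places -/
theorem weak (L : Type) [Field L] [NumberField L] (t : InfinitePlace L → L) :
    ∃ β : L, ∀ v : InfinitePlace L, v (β - t v) < 1 := by
  obtain ⟨β, hβ⟩ := Metric.denseRange_iff.mp (InfinitePlace.denseRange_algebraMap_pi L)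
    (fun v => (WithAbs.equiv v.1).symm (t v)) 1 one_pos
  refine ⟨β, fun v => ?_⟩
  have h1 := (dist_pi_lt_iff one_pos).mp hβ v
  rw [dist_comm, dist_eq_norm] at h1
  rw [InfinitePlace.coe_apply]
  have e : ((algebraMap L (WithAbs v.1)) β).ofAbs = β := rfl
  simpa [WithAbs.norm_eq_apply_ofAbs, e] using h1

theorem conj_isConj {K L : Type} [Field K] [Field L] [Algebra K L] {Φ : L →+* ℂ}
    {c : L ≃ₐ[K] L} (h : ComplexEmbedding.IsConj Φ c) :
    ComplexEmbedding.IsConj (ComplexEmbedding.conjugate Φ) c := by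
  unfold ComplexEmbedding.IsConj at h ⊢
  ext x
  have h1 := RingHom.congr_fun h x
  simp only [ComplexEmbedding.conjugate_coe_eq, RingHom.comp_apply] at h1 ⊢
  rw [h1]

theorem conj_unique {K L : Type} [Field K] [Field L] [NumberField L] [Algebra K L]
    {Φ Φ' : L →+* ℂ} {c c' : L ≃ₐ[K] L} (h : ComplexEmbedding.IsConj Φ c)
    (h' : ComplexEmbedding.IsConj Φ' c') (hm : InfinitePlace.mk Φ = InfinitePlace.mk Φ') :
    c = c' := by
  rcases InfinitePlace.mk_eq_iff.mp hm with h1 | h1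
  · subst h1
    exact h.ext h'
  · have := conj_isConj h
    rw [h1] at this
    exact this.ext h'

end AR2

open AR2 in
theorem AR2_thm : Stmt_AR2 := by
  intro K L _ _ _ _ _ _ H ψ
  obtain ⟨β, hβ⟩ := weak L (fun v => if ∃ (Φ : L →+* ℂ) (c : L ≃ₐ[K] L) (hc : c ∈ H),
    ComplexEmbedding.IsConj Φ c ∧ InfinitePlace.mk Φ = v ∧ ψ ⟨c, hc⟩ = 1 then -1 else 1)
  refine ⟨∑ h : H, (h : L ≃ₐ[K] L) β, ?_, ?_⟩
  · intro h hh
    rw [map_sum]
    apply Fintype.sum_equiv (Equiv.mulLeft (⟨h, hh⟩ : H))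
    intro x
    simp
  · intro Φ c hc hconj
    have key : ∀ h : H, ∃ (hc' : (h : L ≃ₐ[K] L)⁻¹ * c * (h : L ≃ₐ[K] L) ∈ H),
        ComplexEmbedding.IsConj (Φ.comp ((h : L ≃ₐ[K] L) : L →+* L))
          ((h : L ≃ₐ[K] L)⁻¹ * c * (h : L ≃ₐ[K] L)) ∧
        ψ ⟨(h : L ≃ₐ[K] L)⁻¹ * c * (h : L ≃ₐ[K] L), hc'⟩ = ψ ⟨c, hc⟩ := by
      intro h
      refine ⟨H.mul_mem (H.mul_mem (H.inv_mem h.2) hc) h.2, hconj.comp _, ?_⟩
      have e : (⟨(h : L ≃ₐ[K] L)⁻¹ * c * (h : L ≃ₐ[K] L),
          H.mul_mem (H.mul_mem (H.inv_mem h.2) hc) h.2⟩ : H) = h⁻¹ * ⟨c, hc⟩ * h := by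
        ext1
        simp
      rw [e, map_mul, map_mul, map_inv, mul_comm, mul_inv_cancel_left]
    have hre : ∀ h : H, ∀ t : L, ∀ r : ℝ, (Φ ((h : L ≃ₐ[K] L) t) = (r : ℂ)) →
        InfinitePlace.mk (Φ.comp ((h : L ≃ₐ[K] L) : L →+* L)) (β - t) < 1 →
        |(Φ ((h : L ≃ₐ[K] L) β)).re - r| < 1 := by
      intro h t r ht hlt
      rw [InfinitePlace.apply] at hlt
      have e : (Φ.comp ((h : L ≃ₐ[K] L) : L →+* L)) (β - t) = Φ ((h : L ≃ₐ[K] L) β) - (r : ℂ) := by
        rw [map_sub, RingHom.comp_apply, RingHom.comp_apply, ← ht]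
        rfl
      rw [e] at hlt
      have := Complex.abs_re_le_norm (Φ ((h : L ≃ₐ[K] L) β) - (r : ℂ))
      rw [Complex.sub_re, Complex.ofReal_re] at this
      linarith
    have hne : (Finset.univ : Finset H).Nonempty := ⟨1, Finset.mem_univ _⟩
    rw [map_sum, Complex.re_sum]
    constructor
    · intro h1
      apply Finset.sum_neg _ hne
      intro h _
      obtain ⟨hc', k1, k2⟩ := key h
      have h3 := hβ (InfinitePlace.mk (Φ.comp ((h : L ≃ₐ[K] L) : L →+* L)))
      rw [if_pos ⟨_, _, hc', k1, rfl, by rw [k2, h1]⟩] at h3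
      have h4 := hre h (-1) (-1) (by simp) h3
      rw [abs_lt] at h4
      linarith [h4.2]
    · intro h1
      apply Finset.sum_pos _ hne
      intro h _
      obtain ⟨hc', k1, k2⟩ := key h
      have h3 := hβ (InfinitePlace.mk (Φ.comp ((h : L ≃ₐ[K] L) : L →+* L)))
      rw [if_neg] at h3
      · have h4 := hre h 1 1 (by simp) h3
        rw [abs_lt] at h4
        linarith [h4.1]
      · rintro ⟨Φ', d, hd, e1, e2, e3⟩
        have e4 := conj_unique e1 k1 e2
        subst e4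
        exact h1 (by rw [← k2]; exact e3)

end StarkC
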