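import Pool.Agent.Stark.StmtsN
import Pool.Agent.Stark.CMB

/-!
# Reduction of Stark's conjecture: the algebraic part, refined by the order (module CMBN)
-/

open NumberField IsDedekindDomain
open scoped TensorProduct Classical

namespace StarkC
namespace CMBN

open CMB

/-- Decomposition of a linear character into a part of 2-power order and a part of odd order. -/
theorem odd_part {H : Type} [Group H] (n M : ℕ) (hM : Odd M) (ψ : H →* ℂˣ)
    (h1 : ψ ^ (2 ^ n * M) = 1) :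
    ∃ (ψ2 ψo : H →* ℂˣ), ψ = ψ2 * ψo ∧ ψo ^ M = 1 ∧ ψ2 ^ (2 ^ n) = 1 := by
  have hcop : IsCoprime ((2 ^ n : ℕ) : ℤ) (M : ℤ) := by
    rw [Nat.isCoprime_iff_coprime]
    exact Nat.Coprime.pow_left n (Nat.coprime_two_left.2 hM)
  obtain ⟨u, v, huv⟩ := hcop
  have h2 : ∀ x, (ψ x) ^ ((2 ^ n * M : ℕ) : ℤ) = 1 := by
    intro x
    rw [zpow_natCast, ← MonoidHom.pow_apply, h1, MonoidHom.one_apply]
  refine ⟨(zpowGroupHom (v * (M : ℤ))).comp ψ, (zpowGroupHom (u * ((2 ^ n : ℕ) : ℤ))).comp ψ,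
    ?_, ?_, ?_⟩
  · refine MonoidHom.ext fun x => ?_
    show ψ x = (ψ x) ^ (v * (M : ℤ)) * (ψ x) ^ (u * ((2 ^ n : ℕ) : ℤ))
    rw [← zpow_add, add_comm, huv, zpow_one]
  · refine MonoidHom.ext fun x => ?_
    rw [MonoidHom.pow_apply, MonoidHom.one_apply]
    show ((ψ x) ^ (u * ((2 ^ n : ℕ) : ℤ))) ^ M = 1
    rw [← zpow_natCast, ← zpow_mul]
    have : u * ((2 ^ n : ℕ) : ℤ) * (M : ℤ) = ((2 ^ n * M : ℕ) : ℤ) * u := by push_cast; ring
    rw [this, zpow_mul, h2, one_zpow]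
  · refine MonoidHom.ext fun x => ?_
    rw [MonoidHom.pow_apply, MonoidHom.one_apply]
    show ((ψ x) ^ (v * (M : ℤ))) ^ (2 ^ n) = 1
    rw [← zpow_natCast, ← zpow_mul]
    have : v * (M : ℤ) * ((2 ^ n : ℕ) : ℤ) = ((2 ^ n * M : ℕ) : ℤ) * v := by push_cast; ring
    rw [this, zpow_mul, h2, one_zpow]

theorem comp_pow {A B : Type} [Group A] [Group B] (f : A →* B) (ψ : B →* ℂˣ) (k : ℕ)
    (h : ψ ^ k = 1) : (ψ.comp f) ^ k = 1 := by
  refine MonoidHom.ext fun x => ?_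
  rw [MonoidHom.pow_apply, MonoidHom.one_apply, MonoidHom.comp_apply, ← MonoidHom.pow_apply, h,
    MonoidHom.one_apply]

section arith

variable {K L N : Type} [Field K] [NumberField K] [Field L] [NumberField L] [Field N]
  [NumberField N] [Algebra K L] [Algebra K N] [Algebra L N] [IsScalarTower K L N] [IsGalois K L]
  [IsGalois K N]

/-- The step `(i)`: the odd part may be removed. -/
theorem step1 (n : ℕ) (hSOL : Stmt_SOL) (hQE : Stmt_QE) (H : Subgroup (N ≃ₐ[K] N))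
    (ψ ψ2 ψo : H →* ℂˣ) (m : ℕ) (hψ : ψ = ψ2 * ψo) (hm : Odd m) (hψo : ψo ^ m = 1)
    (hψ2 : ψ2 ^ (2 ^ n) = 1)
    (hAR : ∀ c u : H, IsCC (c : N ≃ₐ[K] N) → u * c = c * u → ψo u = 1) :
    indFun H (extZ ψ) - indFun H (extZ ψ2) ∈ GS (G := N ≃ₐ[K] N) (fun H ψ => GoodN n H ψ) := by
  obtain ⟨k, J, c, hJ, h1⟩ := hSOL H
  have e1 : indFun H (extZ ψ) - indFun H (extZ ψ2) =
      ∑ j, c j • indFun ((J j).map H.subtype) (fun x => extZ ψ x - extZ ψ2 x) := by
    funext g
    rw [Pi.sub_apply, ← indFun_sub, indFun_subgroup H _ ?_ k J c h1, Finset.sum_apply]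
    · refine Finset.sum_congr rfl fun j _ => ?_
      rw [Pi.smul_apply, zsmul_eq_mul]
    · intro x g hx hg
      rw [extZ_class ψ x g hx hg, extZ_class ψ2 x g hx hg]
  rw [e1]
  refine Submodule.sum_mem _ fun j _ => Submodule.smul_mem _ _ ?_
  by_cases hcc : ∃ c ∈ (J j).map H.subtype, IsCC c
  · have : indFun ((J j).map H.subtype) (fun x => extZ ψ x - extZ ψ2 x) = 0 := by
      obtain ⟨c, ⟨c', hc', rfl⟩, hcc⟩ := hcc
      have h2 := hQE (J j) (⟨c', hc'⟩ : J j) (ψo.comp (J j).subtype) m (hJ j) hm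
        (by
          refine MonoidHom.ext fun x => ?_
          rw [MonoidHom.pow_apply, MonoidHom.one_apply, MonoidHom.comp_apply,
            ← MonoidHom.pow_apply, hψo, MonoidHom.one_apply])
        (by
          have := isCC_sq hcc
          apply Subtype.ext
          apply Subtype.ext
          exact this)
        (by
          intro u hu
          refine hAR c' u.1 hcc ?_
          exact congrArg Subtype.val hu)
      funext g
      apply indFun_zero
      rintro g ⟨g', hg', rfl⟩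
      have h3 : ψo g' = 1 := by
        have := DFunLike.congr_fun h2 (⟨g', hg'⟩ : J j)
        exact this
      show extZ ψ (g' : N ≃ₐ[K] N) - extZ ψ2 (g' : N ≃ₐ[K] N) = 0
      rw [extZ_apply, extZ_apply, hψ, MonoidHom.mul_apply, h3, mul_one, sub_self]
    rw [this]
    exact Submodule.zero_mem _
  · have hcc : ∀ c ∈ (J j).map H.subtype, ¬ IsCC c := fun c hc h => hcc ⟨c, hc, h⟩
    have hle : (J j).map H.subtype ≤ H := Subgroup.map_subtype_le _
    have : indFun ((J j).map H.subtype) (fun x => extZ ψ x - extZ ψ2 x) =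
        indFun ((J j).map H.subtype) (extZ (ψ.comp (Subgroup.inclusion hle))) -
        indFun ((J j).map H.subtype) (extZ (ψ2.comp (Subgroup.inclusion hle))) := by
      rw [indFun_restrict, indFun_restrict]
      funext g
      rw [indFun_sub]
      rfl
    rw [this]
    have hψ2x : ∀ x, (ψ2 x) ^ (2 ^ n) = 1 := fun x => by
      rw [← MonoidHom.pow_apply, hψ2, MonoidHom.one_apply]
    have hψox : ∀ x, (ψo x) ^ m = 1 := fun x => by
      rw [← MonoidHom.pow_apply, hψo, MonoidHom.one_apply]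
    have hψ2m : ψ2 ^ (2 ^ n * m) = 1 := by
      refine MonoidHom.ext fun x => ?_
      rw [MonoidHom.pow_apply, MonoidHom.one_apply, pow_mul, hψ2x, one_pow]
    have hψm : ψ ^ (2 ^ n * m) = 1 := by
      refine MonoidHom.ext fun x => ?_
      rw [MonoidHom.pow_apply, MonoidHom.one_apply, hψ, MonoidHom.mul_apply, mul_pow, pow_mul,
        hψ2x, one_pow, one_mul, mul_comm (2 ^ n) m, pow_mul, hψox, one_pow]
    exact Submodule.sub_mem _
      (mem_GS_of _ _ (Or.inl ⟨hcc, m, hm, comp_pow _ _ _ hψm⟩))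
      (mem_GS_of _ _ (Or.inl ⟨hcc, m, hm, comp_pow _ _ _ hψ2m⟩))

/-- The step `(ii)`: a linear character of 2-power order. -/
theorem step2 (n : ℕ) (hn : 1 ≤ n) (H : Subgroup (N ≃ₐ[K] N)) (ψ : H →* ℂˣ) (hψ : ψ ^ (2 ^ n) = 1) (b : N)
    (hH : ∀ h : H, (h : N ≃ₐ[K] N) (b ^ 2) = b ^ 2)
    (hAR : ∀ (Φ : N →+* ℂ) (c : H), ComplexEmbedding.IsConj Φ (c : N ≃ₐ[K] N) →
      (ψ c = 1 → (Φ (b ^ 2)).re < 0) ∧ (ψ c ≠ 1 → 0 < (Φ (b ^ 2)).re)) :
    indFun H (extZ ψ) ∈ GS (G := N ≃ₐ[K] N) (fun H ψ => GoodN n H ψ) := by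
  by_cases hno : ∀ c ∈ H, ¬ IsCC c
  · exact mem_GS_of _ _ (Or.inl ⟨hno, 1, odd_one, by rw [mul_one]; exact hψ⟩)
  push Not at hno
  obtain ⟨c0, hc0, Φ0, hΦ0⟩ := hno
  have hb : b ≠ 0 := by
    rintro rfl
    have h := hAR Φ0 ⟨c0, hc0⟩ hΦ0
    by_cases h1 : ψ ⟨c0, hc0⟩ = 1
    · simpa using h.1 h1
    · simpa using h.2 h1
  have hb2 : b ≠ -b := by
    intro h
    apply hb
    have h2 : (2 : N) * b = 0 := by rw [two_mul]; nth_rewrite 1 [h]; simp
    rcases mul_eq_zero.1 h2 with h3 | h3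
    · norm_num at h3
    · exact h3
  have hpm : ∀ g : H, (g : N ≃ₐ[K] N) b = b ∨ (g : N ≃ₐ[K] N) b = -b := by
    intro g
    have h := hH g
    rw [map_pow] at h
    exact sq_eq_sq_iff_eq_or_eq_neg.1 h
  have hneu : (-1 : ℂˣ) ≠ 1 := by
    intro h
    have := congrArg (fun u : ℂˣ => (u : ℂ)) h
    norm_num at this
  let eps : H →* ℂˣ :=
    { toFun := fun g => if (g : N ≃ₐ[K] N) b = b then 1 else -1
      map_one' := by
        rw [if_pos]
        rfl
      map_mul' := by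
        intro g h
        have e : ((g * h : H) : N ≃ₐ[K] N) b = (g : N ≃ₐ[K] N) ((h : N ≃ₐ[K] N) b) := rfl
        rw [e]
        rcases hpm g with hg | hg <;> rcases hpm h with hh | hh
        · rw [hh, hg]; simp
        · rw [hh, map_neg, hg, if_neg hb2.symm, if_pos rfl]; simp
        · rw [hh, hg, if_neg hb2.symm, if_pos rfl]; simp
        · rw [hh, map_neg, hg, neg_neg, if_pos rfl, if_neg hb2.symm]; simp }
  have heps1 : ∀ g : H, (g : N ≃ₐ[K] N) b = b → eps g = 1 := fun g hg => if_pos hg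
  have heps2 : ∀ g : H, (g : N ≃ₐ[K] N) b = -b → eps g = -1 := by
    intro g hg
    show (if (g : N ≃ₐ[K] N) b = b then (1 : ℂˣ) else -1) = -1
    rw [if_neg]
    rw [hg]
    exact hb2.symm
  have hsq : ∀ c : H, IsCC (c : N ≃ₐ[K] N) → ∀ χ : H →* ℂˣ, χ c ≠ 1 → ((χ c : ℂˣ) : ℂ) = -1 := by
    intro c hc χ hχ
    have h1 : c * c = 1 := Subtype.ext (isCC_sq hc)
    have h2 : χ c * χ c = 1 := by rw [← map_mul, h1, map_one]
    have h3 : ((χ c : ℂˣ) : ℂ) * ((χ c : ℂˣ) : ℂ) = 1 := by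
      rw [← Units.val_mul, h2, Units.val_one]
    rcases mul_self_eq_one_iff.1 h3 with h4 | h4
    · exact absurd (Units.ext h4) hχ
    · exact h4
  -- sign of `Φ (b ^ 2)`
  have hpos : ∀ (Φ : N →+* ℂ) (c : H), ComplexEmbedding.IsConj Φ (c : N ≃ₐ[K] N) →
      (c : N ≃ₐ[K] N) b = b → ψ c ≠ 1 := by
    intro Φ c hΦ hcb h1
    have h2 := (hAR Φ c hΦ).1 h1
    have h3 : Φ b = star (Φ b) := by
      have := hΦ.eq b
      rwa [hcb] at this
    have h4 : (Φ b).im = 0 := by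
      have := congrArg Complex.im h3
      rw [Complex.star_def, Complex.conj_im] at this
      linarith
    rw [map_pow, sq, Complex.mul_re, h4] at h2
    nlinarith [mul_self_nonneg (Φ b).re]
  have hnegv : ∀ (Φ : N →+* ℂ) (c : H), ComplexEmbedding.IsConj Φ (c : N ≃ₐ[K] N) →
      (c : N ≃ₐ[K] N) b = -b → ψ c = 1 := by
    intro Φ c hΦ hcb
    by_contra h1
    have h2 := (hAR Φ c hΦ).2 h1
    have h3 : Φ (-b) = star (Φ b) := by
      have := hΦ.eq b
      rwa [hcb] at this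
    have h4 : (Φ b).re = 0 := by
      have := congrArg Complex.re h3
      rw [map_neg, Complex.neg_re, Complex.star_def, Complex.conj_re] at this
      linarith
    rw [map_pow, sq, Complex.mul_re, h4] at h2
    nlinarith [mul_self_nonneg (Φ b).im]
  by_cases hall : ∀ g : H, eps g = 1
  · refine mem_GS_of _ _ (Or.inr ⟨hψ, ?_⟩)
    intro c hc
    have hcb : (c : N ≃ₐ[K] N) b = b := by
      rcases hpm c with h | h
      · exact h
      · exact absurd ((heps2 c h).symm.trans (hall c)) hneu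
    apply hsq c hc
    obtain ⟨Φ, hΦ⟩ := hc
    exact hpos Φ c hΦ hcb
  · push Not at hall
    obtain ⟨g0, hg0⟩ := hall
    have h12 : ∀ g, eps g = 1 ∨ eps g = -1 := by
      intro g
      rcases hpm g with h | h
      · exact Or.inl (heps1 g h)
      · exact Or.inr (heps2 g h)
    set J : Subgroup (N ≃ₐ[K] N) := eps.ker.map H.subtype with hJdef
    have hle : J ≤ H := Subgroup.map_subtype_le _
    have key : indFun H (extZ ψ) = indFun J (extZ (ψ.comp (Subgroup.inclusion hle))) -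
        indFun H (extZ (ψ * eps)) := by
      funext g
      rw [indFun_restrict, Pi.sub_apply]
      have e1 := indFun_trans H eps.ker (extZ ψ) (fun x => extZ ψ x + extZ (ψ * eps) x) (by
        intro h
        rw [indFun_class eps.ker (fun y : H => extZ ψ y)
          (fun x g => extZ_class ψ x g x.2 g.2) h, half eps h12 g0 hg0 h]
        show extZ ψ (h : N ≃ₐ[K] N) + extZ (ψ * eps) (h : N ≃ₐ[K] N) =
          extZ ψ (h : N ≃ₐ[K] N) * (1 + (eps h : ℂ))
        rw [extZ_apply, extZ_apply, MonoidHom.mul_apply, Units.val_mul]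
        ring) g
      rw [hJdef, ← e1]
      have e2 : indFun H (fun x => extZ ψ x + extZ (ψ * eps) x) g =
          indFun H (extZ ψ) g + indFun H (extZ (ψ * eps)) g := by
        have := indFun_sub H (fun x => extZ ψ x + extZ (ψ * eps) x) (extZ (ψ * eps)) g
        rw [sub_eq_iff_eq_add.1 this.symm]
        congr 2
        funext x
        ring
      rw [e2]
      ring
    rw [key]
    refine Submodule.sub_mem _ (mem_GS_of _ _ (Or.inr ⟨?_, ?_⟩))
      (mem_GS_of _ _ (Or.inr ⟨?_, ?_⟩))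
    · refine MonoidHom.ext fun x => ?_
      rw [MonoidHom.pow_apply, MonoidHom.one_apply, MonoidHom.comp_apply, ← MonoidHom.pow_apply,
        hψ, MonoidHom.one_apply]
    · intro c hc
      have h1 : eps (Subgroup.inclusion hle c) = 1 := by
        obtain ⟨c', hc', hcc'⟩ := c.2
        have : Subgroup.inclusion hle c = c' := Subtype.ext hcc'.symm
        rw [this]
        exact hc'
      have hcb : (c : N ≃ₐ[K] N) b = b := by
        rcases hpm (Subgroup.inclusion hle c) with h | h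
        · exact h
        · exact absurd ((heps2 _ h).symm.trans h1) hneu
      refine hsq (Subgroup.inclusion hle c) hc ψ ?_
      obtain ⟨Φ, hΦ⟩ := hc
      exact hpos Φ (Subgroup.inclusion hle c) hΦ hcb
    · refine MonoidHom.ext fun x => ?_
      rw [MonoidHom.pow_apply, MonoidHom.one_apply, MonoidHom.mul_apply, mul_pow]
      have e1 : (ψ x) ^ (2 ^ n) = 1 := by
        rw [← MonoidHom.pow_apply, hψ, MonoidHom.one_apply]
      have e2 : (eps x) ^ (2 ^ n) = 1 := by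
        obtain ⟨n', rfl⟩ : ∃ n', n = n' + 1 := ⟨n - 1, by omega⟩
        rw [pow_succ', pow_mul]
        rcases h12 x with h | h <;> rw [h] <;> simp
      rw [e1, e2, mul_one]
    · intro c hc
      rcases hpm c with h | h
      · rw [MonoidHom.mul_apply, heps1 c h, mul_one]
        apply hsq c hc
        obtain ⟨Φ, hΦ⟩ := hc
        exact hpos Φ c hΦ h
      · obtain ⟨Φ, hΦ⟩ := hc
        rw [MonoidHom.mul_apply, heps2 c h, hnegv Φ c hΦ h, one_mul]
        simp

end arith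

theorem bra_aux (h2 : Stmt_BRA) (n M : ℕ) (G Q : Type) [Group G] [Fintype G] [Group Q] [Fintype Q]
    (π : G →* Q) (hπ : Function.Surjective π) (hM : ∀ g : G, π (g ^ (2 ^ n * M)) = 1)
    (V : Type) [AddCommGroup V] [Module ℂ V] [Module.Finite ℂ V] (ρ : Representation ℂ G V)
    (ρ' : Representation ℂ Q V) (hρ : ∀ g, ρ' (π g) = ρ g) :
    ∃ (k : ℕ) (H : Fin k → Subgroup G) (ψ : ∀ i, H i →* ℂˣ) (c : Fin k → ℤ),
      (∀ i, (ψ i) ^ (2 ^ n * M) = 1) ∧
      ∀ g, ρ.character g = ∑ i, (c i : ℂ) * indFun (H i) (extZ (ψ i)) g := by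
  obtain ⟨k, H, ψ, c, hχ⟩ := h2 Q V ρ'
  refine ⟨k, fun i => (H i).comap π, fun i => (ψ i).comp (π.subgroupComap (H i)), c, ?_, ?_⟩
  · intro i
    refine MonoidHom.ext fun x => ?_
    rw [MonoidHom.pow_apply, MonoidHom.one_apply, ← map_pow]
    have h3 : π.subgroupComap (H i) (x ^ (2 ^ n * M)) = 1 := by
      apply Subtype.ext
      exact hM x
    rw [MonoidHom.comp_apply, h3, map_one]
  · intro g
    have h4 : ρ.character g = ρ'.character (π g) := by
      show LinearMap.trace ℂ V (ρ g) = LinearMap.trace ℂ V (ρ' (π g))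
      rw [hρ]
    rw [h4, hχ]
    refine Finset.sum_congr rfl fun i _ => ?_
    rw [CMB.indFun_infl π hπ]
    rfl

theorem bra_odd (n : ℕ) (G : Type) [Group G] [Fintype G]
    (V : Type) [AddCommGroup V] [Module ℂ V] (ρ : Representation ℂ G V)
    (hρ : ∀ g : G, ∃ m : ℕ, Odd m ∧ ρ (g ^ (2 ^ n * m)) = 1) :
    ∃ M : ℕ, Odd M ∧ ∀ g : G, g ^ (2 ^ n * M) ∈ MonoidHom.ker ρ := by
  choose m hm1 hm2 using hρ
  refine ⟨∏ g, m g, ?_, ?_⟩
  · refine Finset.prod_induction _ Odd (fun _ _ => Odd.mul) odd_one fun g _ => hm1 g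
  · intro g
    obtain ⟨c, hc⟩ : m g ∣ ∏ g, m g := Finset.dvd_prod_of_mem _ (Finset.mem_univ g)
    rw [MonoidHom.mem_ker, hc]
    rw [← mul_assoc, pow_mul, map_pow, hm2 g, one_pow]

theorem bra_quot {G M : Type} [Group G] [Finite G] [Monoid M] (ρ : G →* M) :
    ∃ (Q : Type) (_ : Group Q) (_ : Fintype Q) (π : G →* Q) (ρ' : Q →* M),
      Function.Surjective π ∧ (∀ g, g ∈ MonoidHom.ker ρ → π g = 1) ∧ ∀ g, ρ' (π g) = ρ g := by
  refine ⟨G ⧸ MonoidHom.ker ρ, inferInstance, Fintype.ofFinite _,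
    QuotientGroup.mk' (MonoidHom.ker ρ),
    QuotientGroup.lift (MonoidHom.ker ρ) ρ (fun _ hg => hg), QuotientGroup.mk'_surjective _, ?_, ?_⟩
  · intro g hg
    exact (QuotientGroup.eq_one_iff _).2 hg
  · intro g
    rfl

/-- Brauer's theorem with control of the orders. -/
theorem bra (h2 : Stmt_BRA) (n : ℕ) (G : Type) [Group G] [Fintype G]
    (V : Type) [AddCommGroup V] [Module ℂ V] [Module.Finite ℂ V] (ρ : Representation ℂ G V)
    (hρ : ∀ g : G, ∃ m : ℕ, Odd m ∧ ρ (g ^ (2 ^ n * m)) = 1) :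
    ∃ M : ℕ, Odd M ∧ ∃ (k : ℕ) (H : Fin k → Subgroup G) (ψ : ∀ i, H i →* ℂˣ) (c : Fin k → ℤ),
      (∀ i, (ψ i) ^ (2 ^ n * M) = 1) ∧
      ∀ g, ρ.character g = ∑ i, (c i : ℂ) * indFun (H i) (extZ (ψ i)) g := by
  obtain ⟨M, hM1, hM2⟩ := bra_odd n G V ρ hρ
  obtain ⟨Q, iQ, iF, π, ρ', hπ, hker, hρ'⟩ := bra_quot ρ
  exact ⟨M, hM1, bra_aux h2 n M G Q π hπ (fun g => hker _ (hM2 g)) V ρ ρ' hρ'⟩

end CMBN

theorem CMBN_thm (h1 : StarkC.Stmt_SOL) (h2 : StarkC.Stmt_BRA) (h3 : StarkC.Stmt_QE)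
    (h4 : StarkC.Stmt_AR1) (h5 : StarkC.Stmt_AR2) (h6 : StarkC.Stmt_AR3) : StarkC.Stmt_CMBN := by
  intro n hn K L _ _ _ _ _ _ V _ _ _ ρ hρ
  obtain ⟨M, hMo, k, H, ψ, c, hψM, hχ⟩ := CMBN.bra h2 n (L ≃ₐ[K] L) V ρ hρ
  have hdec := fun i => CMBN.odd_part n M hMo (ψ i) (hψM i)
  choose ψ2 ψo hψ hψo hψ2 using hdec
  have hB := fun i => h4 K L (H i) (ψo i) M hMo (hψo i)
  choose B hB using hB
  have hα := fun i => h5 K L (H i) (ψ2 i)
  choose α hα1 hα2 using hα
  obtain ⟨N, iF, iN, iA, iL, iT, iG, hN⟩ :=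
    h6 K L (Finset.univ.biUnion (fun i => insert (α i) (B i)))
  refine ⟨N, iF, iN, iA, iL, iT, iG, CMB.of_mem_GS
    (f := fun g : N ≃ₐ[K] N => ρ.character (AlgEquiv.restrictNormalHom L g)) ?_⟩
  set r : (N ≃ₐ[K] N) →* (L ≃ₐ[K] L) := AlgEquiv.restrictNormalHom L with hr
  have hsurj : Function.Surjective r := AlgEquiv.restrictNormalHom_surjective N
  let lift : ∀ i, (H i →* ℂˣ) → ((H i).comap r →* ℂˣ) := fun i χ => χ.comp (r.subgroupComap (H i))
  have hlift : ∀ i (χ : H i →* ℂˣ), extZ (lift i χ) = fun x => extZ χ (r x) := fun i χ => rfl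
  have e1 : (fun g : N ≃ₐ[K] N => ρ.character (r g)) =
      ∑ i, c i • indFun ((H i).comap r) (extZ (lift i (ψ i))) := by
    funext g
    rw [hχ, Finset.sum_apply]
    refine Finset.sum_congr rfl fun i _ => ?_
    rw [Pi.smul_apply, zsmul_eq_mul, CMB.indFun_infl r hsurj, hlift]
  rw [e1]
  refine Submodule.sum_mem _ fun i _ => Submodule.smul_mem _ _ ?_
  have hs1 := CMBN.step1 (K := K) (N := N) n h1 h3 ((H i).comap r) (lift i (ψ i)) (lift i (ψ2 i))
    (lift i (ψo i)) M (by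
      refine MonoidHom.ext fun x => ?_
      show ψ i _ = ψ2 i _ * ψo i _
      rw [hψ i]
      rfl) hMo (CMBN.comp_pow _ _ _ (hψo i)) (CMBN.comp_pow _ _ _ (hψ2 i)) (by
      intro c u hc hu
      obtain ⟨Φ, hΦ⟩ := hc
      refine hB i N (fun b hb => hN b ?_) Φ c.1 u.1 c.2 u.2 hΦ (congrArg Subtype.val hu)
      rw [Finset.mem_biUnion]
      exact ⟨i, Finset.mem_univ _, Finset.mem_insert_of_mem hb⟩)
  obtain ⟨b, hb⟩ := hN (α i) (by
    rw [Finset.mem_biUnion]
    exact ⟨i, Finset.mem_univ _, Finset.mem_insert_self _ _⟩)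
  have hs2 := CMBN.step2 (K := K) (N := N) n hn ((H i).comap r) (lift i (ψ2 i))
    (CMBN.comp_pow _ _ _ (hψ2 i)) b (by
      intro h
      rw [hb]
      have e2 : algebraMap L N (r h.1 (α i)) = h.1 (algebraMap L N (α i)) :=
        AlgEquiv.restrictNormal_commutes h.1 L (α i)
      rw [← e2, hα1 i _ h.2]) (by
      intro Φ c hΦ
      rw [hb]
      exact hα2 i (Φ.comp (algebraMap L N)) (r c.1) c.2 (CMB.isConj_restrict hΦ))
  have := Submodule.add_mem _ hs1 hs2
  rwa [sub_add_cancel] at this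

end StarkC
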