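import Mathlib

/-!
# Stark's conjecture: definitions

Number fields live in `Type`.  A place of a number field `L` is represented by its normalised
absolute value, a function `L → ℝ`; the finite primes of `L` are the elements of
`HeightOneSpectrum (𝓞 L)`.
-/

open NumberField IsDedekindDomain
open scoped TensorProduct Classical

namespace StarkC

/-! ### Places, units, the logarithm map -/

section Places

variable (L : Type) [Field L] [NumberField L]

/-- The normalised absolute value of an infinite place: `|x|` at a real place and `|x|^2` at a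
complex place. -/
noncomputable def infAbs (w : InfinitePlace L) : L → ℝ := fun x => (w x) ^ w.mult

/-- The normalised absolute value of a finite prime: `N(w)^(-ord_w x)`. -/
noncomputable def finAbs (w : HeightOneSpectrum (𝓞 L)) : L → ℝ :=
  fun x => HeightOneSpectrum.adicAbv L w x

/-- The set of places `S(L)`: all infinite places of `L` and the finite primes in `T`, each
represented by its normalised absolute value. -/
def placeSet (T : Set (HeightOneSpectrum (𝓞 L))) : Set (L → ℝ) :=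
  Set.range (infAbs L) ∪ finAbs L '' T

/-- `ℂ ⊗ X` as a subspace of the formal `ℂ`-linear combinations of all functions `L → ℝ`:
combinations of the places in `placeSet L T` whose coefficients have sum zero. -/
noncomputable def XCsub (T : Set (HeightOneSpectrum (𝓞 L))) : Submodule ℂ ((L → ℝ) →₀ ℂ) :=
  Finsupp.supported ℂ ℂ (placeSet L T) ⊓
    LinearMap.ker (Finsupp.linearCombination ℂ (fun _ : L → ℝ => (1 : ℂ)))

/-- The complex vector space `ℂ ⊗ X`. -/
def XC (T : Set (HeightOneSpectrum (𝓞 L))) : Type := ↥(XCsub L T)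

noncomputable instance (T : Set (HeightOneSpectrum (𝓞 L))) : AddCommGroup (XC L T) :=
  inferInstanceAs (AddCommGroup ↥(XCsub L T))

noncomputable instance (T : Set (HeightOneSpectrum (𝓞 L))) : Module ℂ (XC L T) :=
  inferInstanceAs (Module ℂ ↥(XCsub L T))

/-- The inclusion of `ℂ ⊗ X` into the formal linear combinations. -/
noncomputable def XC.val {L : Type} [Field L] [NumberField L] {T : Set (HeightOneSpectrum (𝓞 L))} :
    XC L T →ₗ[ℂ] ((L → ℝ) →₀ ℂ) := (XCsub L T).subtype

/-- `ℚ ⊗ X`: formal `ℚ`-linear combinations of the places in `placeSet L T` whose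
coefficients have sum zero. -/
noncomputable def XQ (T : Set (HeightOneSpectrum (𝓞 L))) : Submodule ℚ ((L → ℝ) →₀ ℚ) :=
  Finsupp.supported ℚ ℚ (placeSet L T) ⊓
    LinearMap.ker (Finsupp.linearCombination ℚ (fun _ : L → ℝ => (1 : ℚ)))

/-- `ℚ ⊗ U` for the group `U` of `T`-units of `L`, as the `ℚ`-span of the elements `1 ⊗ u`
(`u ∈ U`) in `ℚ ⊗ Lˣ`. -/
noncomputable def QU (T : Set (HeightOneSpectrum (𝓞 L))) :
    Submodule ℚ (ℚ ⊗[ℤ] Additive Lˣ) :=
  Submodule.span ℚ {x | ∃ u : Lˣ, u ∈ T.unit L ∧ x = (1 : ℚ) ⊗ₜ[ℤ] Additive.ofMul u}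

theorem finite_log_ne (u : Lˣ) :
    {w : HeightOneSpectrum (𝓞 L) | finAbs L w (u : L) ≠ 1}.Finite := by
  have h := FinitePlace.hasFiniteMulSupport (K := L) (x := (u : L)) u.ne_zero
  have h2 : (Function.mulSupport fun w : FinitePlace L => w (u : L)).Finite := h
  refine (h2.preimage (f := FinitePlace.mk) ?_).subset ?_
  · intro a _ b _ hab
    exact FinitePlace.mk_eq_iff.1 hab
  · intro w hw
    simp only [Set.mem_preimage, Function.mem_mulSupport]
    simpa [finAbs, FinitePlace.mk_apply, FinitePlace.norm_embedding] using hw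

theorem finite_lam_support (T : Set (HeightOneSpectrum (𝓞 L))) (u : Lˣ) :
    (Function.support fun a : L → ℝ => if a ∈ placeSet L T then
      -((Real.log (a (u : L)) : ℝ) : ℂ) else 0).Finite := by
  refine ((Set.finite_range (infAbs L)).union ((finite_log_ne L u).image (finAbs L))).subset ?_
  intro a ha
  simp only [Function.mem_support, ne_eq, ite_eq_right_iff, not_forall] at ha
  obtain ⟨h1, h2⟩ := ha
  rcases h1 with h1 | ⟨w, hw, rfl⟩
  · exact Or.inl h1
  · refine Or.inr ⟨w, ?_, rfl⟩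
    intro h
    apply h2
    rw [h]
    simp

theorem placeSet_mul (T : Set (HeightOneSpectrum (𝓞 L))) {a : L → ℝ} (ha : a ∈ placeSet L T)
    (x y : L) : a (x * y) = a x * a y := by
  rcases ha with ⟨w, rfl⟩ | ⟨w, hw, rfl⟩
  · simp [infAbs, mul_pow]
  · simp [finAbs]

theorem placeSet_ne_zero (T : Set (HeightOneSpectrum (𝓞 L))) {a : L → ℝ}
    (ha : a ∈ placeSet L T) {x : L} (hx : x ≠ 0) : a x ≠ 0 := by
  rcases ha with ⟨w, rfl⟩ | ⟨w, hw, rfl⟩
  · simp [infAbs, hx]
  · simp [finAbs, hx]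

/-- `u ↦ -∑_{a ∈ S(L)} log|u|_a · a`, a homomorphism on `Lˣ` with values in the formal
`ℂ`-linear combinations of places. -/
noncomputable def lamHom (T : Set (HeightOneSpectrum (𝓞 L))) :
    Additive Lˣ →+ ((L → ℝ) →₀ ℂ) where
  toFun u := Finsupp.ofSupportFinite (fun a : L → ℝ => if a ∈ placeSet L T then
      -((Real.log (a ((Additive.toMul u : Lˣ) : L)) : ℝ) : ℂ) else 0)
      (finite_lam_support L T (Additive.toMul u))
  map_zero' := by
    ext a
    simp only [Finsupp.ofSupportFinite_coe, toMul_zero, Units.val_one, Finsupp.coe_zero,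
      Pi.zero_apply, ite_eq_right_iff]
    intro ha
    have h1 : a 1 * a 1 = a 1 := by rw [← placeSet_mul L T ha, one_mul]
    have h2 : a 1 = 1 := by
      have := placeSet_ne_zero L T ha (one_ne_zero)
      field_simp at h1
      exact h1
    simp [h2]
  map_add' u v := by
    ext a
    simp only [Finsupp.ofSupportFinite_coe, toMul_add, Units.val_mul, Finsupp.coe_add, Pi.add_apply]
    split_ifs with ha
    · rw [placeSet_mul L T ha, Real.log_mul (placeSet_ne_zero L T ha (Units.ne_zero _))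
        (placeSet_ne_zero L T ha (Units.ne_zero _))]
      push_cast
      ring
    · simp

/-- The logarithm map `λ`, extended `ℚ`-linearly to `ℚ ⊗ Lˣ`:
`λ (c ⊗ u) = -c ∑_{a ∈ S(L)} log|u|_a · a`. -/
noncomputable def lam (T : Set (HeightOneSpectrum (𝓞 L))) :
    ℚ ⊗[ℤ] Additive Lˣ →ₗ[ℚ] ((L → ℝ) →₀ ℂ) :=
  LinearMap.liftBaseChange ℚ (lamHom L T).toIntLinearMap

variable {L}

/-- The action of a field automorphism `g` on formal `ℂ`-linear combinations of places: the
place `|·|_a` goes to the place `x ↦ |g⁻¹ x|_a`. -/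
noncomputable def actC (g : L ≃+* L) : ((L → ℝ) →₀ ℂ) →ₗ[ℂ] ((L → ℝ) →₀ ℂ) :=
  Finsupp.lmapDomain ℂ ℂ (fun a : L → ℝ => a ∘ g.symm)

/-- The same action on formal `ℚ`-linear combinations of places. -/
noncomputable def actQ (g : L ≃+* L) : ((L → ℝ) →₀ ℚ) →ₗ[ℚ] ((L → ℝ) →₀ ℚ) :=
  Finsupp.lmapDomain ℚ ℚ (fun a : L → ℝ => a ∘ g.symm)

/-- The action of a field automorphism on `ℚ ⊗ Lˣ`. -/
noncomputable def actU (g : L ≃+* L) : ℚ ⊗[ℤ] Additive Lˣ →ₗ[ℚ] ℚ ⊗[ℤ] Additive Lˣ :=
  LinearMap.baseChange ℚ (MonoidHom.toAdditive (Units.map (g : L →* L))).toIntLinearMap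

end Places

/-! ### The regulator -/

section Regulator

variable {K L : Type} [Field K] [Field L] [NumberField L] [Algebra K L]
variable {V : Type} [AddCommGroup V] [Module ℂ V]

/-- `Hom_{ℂ[G]}(V^*, ℂ ⊗ X)`, `V^*` being the contragredient representation. -/
noncomputable def homG (T : Set (HeightOneSpectrum (𝓞 L))) (ρ : Representation ℂ (L ≃ₐ[K] L) V) :
    Submodule ℂ (Module.Dual ℂ V →ₗ[ℂ] XC L T) where
  carrier := {f | ∀ (g : L ≃ₐ[K] L) (α : Module.Dual ℂ V),
    (f (ρ.dual g α)).val = actC (g : L ≃+* L) (f α).val}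
  add_mem' := by
    intro a b ha hb g α
    have h1 := ha g α
    have h2 := hb g α
    rw [LinearMap.add_apply, LinearMap.add_apply, map_add, map_add, map_add, h1, h2]
  zero_mem' := by
    intro g α
    simp
  smul_mem' := by
    intro c a ha g α
    have h1 := ha g α
    rw [LinearMap.smul_apply, LinearMap.smul_apply, map_smul, map_smul, map_smul, h1]

/-- The regulator: the determinant of `f ↦ Θ ∘ f` on `Hom_{ℂ[G]}(V^*, ℂ ⊗ X)` (this space is
stable under `f ↦ Θ ∘ f` whenever `Θ` commutes with `G`). -/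
noncomputable def Reg (T : Set (HeightOneSpectrum (𝓞 L))) (ρ : Representation ℂ (L ≃ₐ[K] L) V)
    (Θ : XC L T →ₗ[ℂ] XC L T) : ℂ :=
  if h : ∀ f ∈ homG T ρ, LinearMap.compRight ℂ Θ f ∈ homG T ρ then
    LinearMap.det (M := homG T ρ) ((LinearMap.compRight ℂ Θ).restrict h) else 0

end Regulator

/-! ### Artin L-series -/

section LSeries

variable (K L : Type) [Field K] [NumberField K] [Field L] [NumberField L] [Algebra K L]

/-- `g` acts on the residue field of `w` as `x ↦ x^q`. -/
def FrobPow (w : HeightOneSpectrum (𝓞 L)) (q : ℕ) (g : L → L) : Prop :=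
  ∀ x y : 𝓞 L, (y : L) = g (x : L) → y - x ^ q ∈ w.asIdeal

/-- The primes of `L` above a prime `v` of `K`. -/
def above (v : HeightOneSpectrum (𝓞 K)) : Set (HeightOneSpectrum (𝓞 L)) :=
  {w | w.under (𝓞 K) = v}

/-- The primes of `L` above the primes in `S`. -/
def aboveSet (S : Set (HeightOneSpectrum (𝓞 K))) : Set (HeightOneSpectrum (𝓞 L)) :=
  {w | w.under (𝓞 K) ∈ S}

variable {K L}

/-- The average of `χ` over all `g` in the decomposition group of `w` which act on the residue
field as `x ↦ x^q`.  For `q = N(v)^m`, `w ∣ v`, this is the trace of the `m`-th power of a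
Frobenius automorphism of `w` on the inertia invariants of a representation with character `χ`. -/
noncomputable def localTrace (χ : (L ≃ₐ[K] L) → ℂ) (w : HeightOneSpectrum (𝓞 L)) (q : ℕ) : ℂ :=
  (∑ g ∈ Finset.univ.filter (fun g : L ≃ₐ[K] L => FrobPow L w q g), χ g) /
    (Finset.univ.filter (fun g : L ≃ₐ[K] L => FrobPow L w 1 g)).card

/-- The average of `localTrace χ w (N(v)^m)` over the primes `w` of `L` above `v` (all these
values are equal). -/
noncomputable def artinCoef (χ : (L ≃ₐ[K] L) → ℂ) (v : HeightOneSpectrum (𝓞 K)) (m : ℕ) : ℂ :=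
  (∑ᶠ w ∈ above K L v, localTrace χ w (Ideal.absNorm v.asIdeal ^ m)) / (above K L v).ncard

/-- The logarithm of the Artin `L`-series of `χ` without the Euler factors in `S`, for
`Re s > 1`: the sum over `v ∉ S` and `m ≥ 1` of `artinCoef χ v m / (m N(v)^(ms))`. -/
noncomputable def logL (χ : (L ≃ₐ[K] L) → ℂ) (S : Set (HeightOneSpectrum (𝓞 K))) (s : ℂ) : ℂ :=
  ∑' p : HeightOneSpectrum (𝓞 K) × ℕ, if p.1 ∈ S then 0 else
    artinCoef χ p.1 (p.2 + 1) /
      (((p.2 + 1 : ℕ) : ℂ) * (Ideal.absNorm p.1.asIdeal : ℂ) ^ (((p.2 + 1 : ℕ) : ℂ) * s))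

/-- `f` is the meromorphic continuation to `ℂ` of the Artin `L`-series of `χ` without the Euler
factors in `S`. -/
def IsArtinL (χ : (L ≃ₐ[K] L) → ℂ) (S : Set (HeightOneSpectrum (𝓞 K))) (f : ℂ → ℂ) : Prop :=
  (∀ z, MeromorphicAt f z) ∧ ∀ s : ℂ, 1 < s.re → f s = Complex.exp (logL χ S s)

end LSeries

/-! ### Stark's conjecture -/

section Stark

variable {K L : Type} [Field K] [NumberField K] [Field L] [NumberField L] [Algebra K L]

/-- The data entering the regulator: a `G`-isomorphism `φ : ℚ ⊗ X → ℚ ⊗ U`, and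
`Θ : ℂ ⊗ X → ℂ ⊗ X`, the `ℂ`-linear extension of `λ ∘ φ`. -/
def IsPhiTheta (K : Type) {L : Type} [Field K] [Field L] [NumberField L] [Algebra K L]
    (T : Set (HeightOneSpectrum (𝓞 L))) (φ : XQ L T ≃ₗ[ℚ] QU L T)
    (Θ : XC L T →ₗ[ℂ] XC L T) : Prop :=
  (∀ (g : L ≃ₐ[K] L) (x y : XQ L T), (y : (L → ℝ) →₀ ℚ) = actQ (g : L ≃+* L) x →
    (φ y : ℚ ⊗[ℤ] Additive Lˣ) = actU (g : L ≃+* L) (φ x)) ∧
  ∀ (x : XQ L T) (z : XC L T),
    (∀ a, z.val a = (((x : (L → ℝ) →₀ ℚ) a : ℚ) : ℂ)) → (Θ z).val = lam L T (φ x)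

/-- Stark's assertion `(R/L^*)(χ)^σ = (R/L^*)(χ^σ)` for given `S`, `Θ` and given representations
`ρ`, `ρ'` with characters `χ`, `χ^σ`; here `T` is the set of primes above `S`. -/
def StarkAt (S : Set (HeightOneSpectrum (𝓞 K))) (T : Set (HeightOneSpectrum (𝓞 L)))
    (Θ : XC L T →ₗ[ℂ] XC L T)
    {V V' : Type} [AddCommGroup V] [Module ℂ V] [AddCommGroup V'] [Module ℂ V']
    (ρ : Representation ℂ (L ≃ₐ[K] L) V) (ρ' : Representation ℂ (L ≃ₐ[K] L) V')
    (σ : ℂ ≃+* ℂ) : Prop :=
  ∃ f f' : ℂ → ℂ, IsArtinL ρ.character S f ∧ IsArtinL ρ'.character S f' ∧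
    σ (Reg T ρ Θ / meromorphicTrailingCoeffAt f 0) = Reg T ρ' Θ / meromorphicTrailingCoeffAt f' 0

end Stark

/-- The one-dimensional representation of a linear character. -/
noncomputable def linRep {G : Type} [Group G] (ψ : G →* ℂˣ) : Representation ℂ G ℂ where
  toFun g := LinearMap.lsmul ℂ ℂ (ψ g : ℂ)
  map_one' := by ext; simp
  map_mul' a b := by ext; simp

/-- The character `σ ∘ ψ`. -/
noncomputable def twist {G : Type} [Group G] (σ : ℂ ≃+* ℂ) (ψ : G →* ℂˣ) : G →* ℂˣ :=
  (Units.map (σ : ℂ →* ℂ)).comp ψ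

/-- **Stark's conjecture**, for all finite Galois extensions of number fields, all `S`, `φ`, all
characters and all automorphisms of `ℂ`. -/
def StarkConjecture : Prop :=
  ∀ (K L : Type) [Field K] [NumberField K] [Field L] [NumberField L] [Algebra K L] [IsGalois K L]
    (S : Finset (HeightOneSpectrum (𝓞 K)))
    (φ : XQ L (aboveSet K L S) ≃ₗ[ℚ] QU L (aboveSet K L S))
    (Θ : XC L (aboveSet K L S) →ₗ[ℂ] XC L (aboveSet K L S))
    (V V' : Type) [AddCommGroup V] [Module ℂ V] [Module.Finite ℂ V]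
    [AddCommGroup V'] [Module ℂ V'] [Module.Finite ℂ V']
    (ρ : Representation ℂ (L ≃ₐ[K] L) V) (ρ' : Representation ℂ (L ≃ₐ[K] L) V') (σ : ℂ ≃+* ℂ),
    IsPhiTheta K (aboveSet K L S) φ Θ → (∀ g, ρ'.character g = σ (ρ.character g)) →
    StarkAt (S : Set (HeightOneSpectrum (𝓞 K))) (aboveSet K L S) Θ ρ ρ' σ

/-- Stark's assertion for a linear character `ψ` of `Gal(L/K)`, all `S`, `φ`, `σ`. -/
def StarkLinear (K L : Type) [Field K] [NumberField K] [Field L] [NumberField L] [Algebra K L]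
    (ψ : (L ≃ₐ[K] L) →* ℂˣ) : Prop :=
  ∀ (S : Finset (HeightOneSpectrum (𝓞 K)))
    (φ : XQ L (aboveSet K L S) ≃ₗ[ℚ] QU L (aboveSet K L S))
    (Θ : XC L (aboveSet K L S) →ₗ[ℂ] XC L (aboveSet K L S)) (σ : ℂ ≃+* ℂ),
    IsPhiTheta K (aboveSet K L S) φ Θ →
    StarkAt (S : Set (HeightOneSpectrum (𝓞 K))) (aboveSet K L S) Θ (linRep ψ)
      (linRep (twist σ ψ)) σ

/-- Stark's conjecture for linear characters over totally complex base fields. -/
def StarkTotallyComplex : Prop :=
  ∀ (K L : Type) [Field K] [NumberField K] [Field L] [NumberField L] [Algebra K L] [IsGalois K L]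
    (ψ : (L ≃ₐ[K] L) →* ℂˣ), IsTotallyComplex K → StarkLinear K L ψ

/-- Stark's conjecture for linear characters of 2-power order which are odd at every real place
of the base field (`ψ(c) = -1` for every complex conjugation `c ∈ Gal(L/K)`). -/
def StarkTwoPowerOdd : Prop :=
  ∀ (K L : Type) [Field K] [NumberField K] [Field L] [NumberField L] [Algebra K L] [IsGalois K L]
    (ψ : (L ≃ₐ[K] L) →* ℂˣ), (∃ n : ℕ, ψ ^ (2 ^ n) = 1) →
    (∀ (Φ : L →+* ℂ) (c : L ≃ₐ[K] L), ComplexEmbedding.IsConj Φ c → (ψ c : ℂ) = -1) →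
    StarkLinear K L ψ

end StarkC
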