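import Pool.Agent.Stark.Defs

/-!
# Stark's conjecture: the second basic case, for base fields with few real places
-/

open NumberField IsDedekindDomain
open scoped TensorProduct Classical

namespace StarkC

/-- Stark's conjecture for linear characters of 2-power order which are odd at every real place
of the base field (`ψ(c) = -1` for every complex conjugation `c ∈ Gal(L/K)`), for base fields `K`
with at most `ε [K : ℚ]` real places. -/
def StarkTwoPowerOddE (ε : ℝ) : Prop :=
  ∀ (K L : Type) [Field K] [NumberField K] [Field L] [NumberField L] [Algebra K L] [IsGalois K L]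
    (ψ : (L ≃ₐ[K] L) →* ℂˣ),
    (InfinitePlace.nrRealPlaces K : ℝ) ≤ ε * (Module.finrank ℚ K : ℝ) →
    (∃ n : ℕ, ψ ^ (2 ^ n) = 1) →
    (∀ (Φ : L →+* ℂ) (c : L ≃ₐ[K] L), ComplexEmbedding.IsConj Φ c → (ψ c : ℂ) = -1) →
    StarkLinear K L ψ

end StarkC
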