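import Pool.Agent.Stark.Defs

/-!
# Stark's conjecture: refined classes of characters

The classes are graded by a bound `2^n` for the 2-part of the exponent of the image group.
-/

open NumberField IsDedekindDomain
open scoped TensorProduct Classical

namespace StarkC

/-- **Stark's conjecture** for all finite Galois extensions `L/K` of number fields, all `S`, `φ`,
all automorphisms of `ℂ` and all representations `ρ` of `Gal(L/K)` such that the 2-part of the
exponent of the image group `ρ(Gal(L/K))` divides `2^n`. -/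
def StarkConjectureN (n : ℕ) : Prop :=
  ∀ (K L : Type) [Field K] [NumberField K] [Field L] [NumberField L] [Algebra K L] [IsGalois K L]
    (S : Finset (HeightOneSpectrum (𝓞 K)))
    (φ : XQ L (aboveSet K L S) ≃ₗ[ℚ] QU L (aboveSet K L S))
    (Θ : XC L (aboveSet K L S) →ₗ[ℂ] XC L (aboveSet K L S))
    (V V' : Type) [AddCommGroup V] [Module ℂ V] [Module.Finite ℂ V]
    [AddCommGroup V'] [Module ℂ V'] [Module.Finite ℂ V']
    (ρ : Representation ℂ (L ≃ₐ[K] L) V) (ρ' : Representation ℂ (L ≃ₐ[K] L) V') (σ : ℂ ≃+* ℂ),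
    (∀ g : L ≃ₐ[K] L, ∃ m : ℕ, Odd m ∧ ρ (g ^ (2 ^ n * m)) = 1) →
    IsPhiTheta K (aboveSet K L S) φ Θ → (∀ g, ρ'.character g = σ (ρ.character g)) →
    StarkAt (S : Set (HeightOneSpectrum (𝓞 K))) (aboveSet K L S) Θ ρ ρ' σ

/-- Stark's conjecture for linear characters `ψ` over totally complex base fields, the 2-part of
the order of `ψ` dividing `2^n`. -/
def StarkTotallyComplexN (n : ℕ) : Prop :=
  ∀ (K L : Type) [Field K] [NumberField K] [Field L] [NumberField L] [Algebra K L] [IsGalois K L]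
    (ψ : (L ≃ₐ[K] L) →* ℂˣ), IsTotallyComplex K → (∃ m : ℕ, Odd m ∧ ψ ^ (2 ^ n * m) = 1) →
    StarkLinear K L ψ

/-- Stark's conjecture for linear characters `ψ` with `ψ^(2^n) = 1` which are odd at every real
place of the base field `K` (`ψ(c) = -1` for every complex conjugation `c ∈ Gal(L/K)`), where `K`
has at most `ε [K : ℚ]` real places. -/
def StarkTwoPowerOddN (n : ℕ) (ε : ℝ) : Prop :=
  ∀ (K L : Type) [Field K] [NumberField K] [Field L] [NumberField L] [Algebra K L] [IsGalois K L]
    (ψ : (L ≃ₐ[K] L) →* ℂˣ),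
    (InfinitePlace.nrRealPlaces K : ℝ) ≤ ε * (Module.finrank ℚ K : ℝ) →
    ψ ^ (2 ^ n) = 1 →
    (∀ (Φ : L →+* ℂ) (c : L ≃ₐ[K] L), ComplexEmbedding.IsConj Φ c → (ψ c : ℂ) = -1) →
    StarkLinear K L ψ

end StarkC
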