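import Pool.Agent.Stark.SPARSEa

/-!
# The fields `K(2^(1/l))` and `K(ζ_l)`
-/

open NumberField IsDedekindDomain Polynomial
open scoped TensorProduct Classical IntermediateField

namespace StarkC

namespace SPARSE

theorem exists_N (K L : Type) [Field K] [NumberField K] [Field L] [NumberField L] [Algebra K L]
    [IsGalois K L] (l : ℕ) [Fact l.Prime] :
    ∃ (N : Type) (_ : Field N) (_ : NumberField N) (_ : Algebra K N)
      (_ : Algebra L N) (_ : IsScalarTower K L N) (_ : IsGalois K N) (α ζ : N),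
      α ^ l = 2 ∧ IsPrimitiveRoot ζ l := by
  have hl : l ≠ 0 := (Fact.out : l.Prime).ne_zero
  have hl1 : 1 < l := (Fact.out : l.Prime).one_lt
  let p : L[X] := (X ^ l - C 2) * cyclotomic l L
  let E := p.SplittingField
  have hKE : FiniteDimensional K E := FiniteDimensional.trans K L E
  have hQE : FiniteDimensional ℚ E := FiniteDimensional.trans ℚ L E
  have hcE : CharZero E := charZero_of_injective_algebraMap (algebraMap L E).injective
  have hNE : NumberField E := ⟨⟩
  have hp0 : p ≠ 0 := mul_ne_zero (X_pow_sub_C_ne_zero (Nat.pos_of_ne_zero hl) _)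
    (cyclotomic_ne_zero _ _)
  have hsp : (p.map (algebraMap L E)).Splits := SplittingField.splits p
  have hroot : ∀ q : L[X], q ∣ p → q.degree ≠ 0 → ∃ x : E, aeval x q = 0 := by
    intro q hq hd
    have h1 : (q.map (algebraMap L E)).Splits :=
      Splits.of_dvd hsp (by
        rw [Ne, Polynomial.map_eq_zero]; exact hp0) (Polynomial.map_dvd _ hq)
    obtain ⟨x, hx⟩ := h1.exists_eval_eq_zero (by rwa [degree_map])
    exact ⟨x, by rwa [aeval_def, ← eval_map]⟩
  obtain ⟨α, hα⟩ := hroot (X ^ l - C 2) (dvd_mul_right _ _) (by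
    rw [degree_X_pow_sub_C (Nat.pos_of_ne_zero hl)]
    exact_mod_cast hl)
  obtain ⟨ζ, hζ⟩ := hroot (cyclotomic l L) (dvd_mul_left _ _) (by
    rw [degree_cyclotomic]
    exact_mod_cast (Nat.totient_pos.2 (Nat.pos_of_ne_zero hl)).ne')
  have hα' : α ^ l = 2 := by
    simp only [map_sub, map_pow, aeval_X, map_ofNat] at hα
    exact sub_eq_zero.1 hα
  have hζ' : IsPrimitiveRoot ζ l := by
    have : NeZero (l : E) := ⟨by exact_mod_cast hl⟩
    rw [← isRoot_cyclotomic_iff, IsRoot, ← map_cyclotomic l (algebraMap L E), eval_map,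
      ← aeval_def]
    exact hζ
  have hcl : IsAlgClosure K (AlgebraicClosure E) :=
    ⟨inferInstance, Algebra.IsAlgebraic.trans K E (AlgebraicClosure E)⟩
  have hno : Normal K (AlgebraicClosure E) := IsAlgClosure.normal K _
  let N := IntermediateField.normalClosure K E (AlgebraicClosure E)
  have hfd : FiniteDimensional K N := inferInstance
  have hQN : FiniteDimensional ℚ N := FiniteDimensional.trans ℚ K N
  have hcN : CharZero N := charZero_of_injective_algebraMap (algebraMap K N).injective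
  have hNN : NumberField N := ⟨⟩
  let hLN : Algebra L N := ((algebraMap E N).comp (algebraMap L E)).toAlgebra
  have hT : IsScalarTower K L N := by
    refine IsScalarTower.of_algebraMap_eq fun x => ?_
    show algebraMap K N x = algebraMap E N (algebraMap L E (algebraMap K L x))
    rw [← IsScalarTower.algebraMap_apply K L E, ← IsScalarTower.algebraMap_apply K E N]
  have hnormal : Normal K N := inferInstance
  have hG : IsGalois K N := ⟨⟩
  refine ⟨N, inferInstance, hNN, inferInstance, hLN, hT, hG, algebraMap E N α, algebraMap E N ζ,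
    ?_, hζ'.map_of_injective (algebraMap E N).injective⟩
  rw [← map_pow, hα', map_ofNat]

section Coord

variable {K N : Type} [Field K] [NumberField K] [Field N] [NumberField N] [Algebra K N]
  [IsGalois K N] {l : ℕ} [Fact l.Prime] {α ζ : N}

theorem zpow_eq_iff (hζ : IsPrimitiveRoot ζ l) (m n : ℕ) :
    ζ ^ m = ζ ^ n ↔ (m : ZMod l) = (n : ZMod l) := by
  have hl : 0 < l := (Fact.out : l.Prime).pos
  have h1 : ∀ k : ℕ, ζ ^ k = ζ ^ (k % l) := by
    intro k
    conv_lhs => rw [← Nat.div_add_mod k l, pow_add, pow_mul, hζ.pow_eq_one, one_pow, one_mul]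
  rw [ZMod.natCast_eq_natCast_iff, h1 m, h1 n]
  constructor
  · intro h
    exact hζ.pow_inj (Nat.mod_lt _ hl) (Nat.mod_lt _ hl) h
  · intro h
    have h' : m % l = n % l := h
    rw [h']

theorem alpha_ne (hα : α ^ l = 2) : α ≠ 0 := by
  rintro rfl
  rw [zero_pow (Fact.out : l.Prime).ne_zero] at hα
  exact two_ne_zero hα.symm

theorem exists_b (hα : α ^ l = 2) (hζ : IsPrimitiveRoot ζ l) (x : N ≃ₐ[K] N) :
    ∃ y : ZMod l, x α = ζ ^ y.val * α := by
  have h0 := alpha_ne hα
  have h1 : (x α / α) ^ l = 1 := by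
    rw [div_pow, ← map_pow, hα, map_ofNat]
    exact div_self two_ne_zero
  have : NeZero l := ⟨(Fact.out : l.Prime).ne_zero⟩
  obtain ⟨i, hi, h2⟩ := hζ.eq_pow_of_pow_eq_one h1
  refine ⟨(i : ZMod l), ?_⟩
  rw [ZMod.val_natCast, Nat.mod_eq_of_lt hi, h2, div_mul_cancel₀ _ h0]

/-- the translation part -/
noncomputable def bb (hα : α ^ l = 2) (hζ : IsPrimitiveRoot ζ l) (x : N ≃ₐ[K] N) : ZMod l :=
  (exists_b hα hζ x).choose

theorem bb_spec (hα : α ^ l = 2) (hζ : IsPrimitiveRoot ζ l) (x : N ≃ₐ[K] N) :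
    x α = ζ ^ (bb hα hζ x).val * α := (exists_b hα hζ x).choose_spec

theorem bb_unique (hα : α ^ l = 2) (hζ : IsPrimitiveRoot ζ l) (x : N ≃ₐ[K] N) (m : ℕ)
    (h : x α = ζ ^ m * α) : bb hα hζ x = (m : ZMod l) := by
  have : NeZero l := ⟨(Fact.out : l.Prime).ne_zero⟩
  rw [bb_spec hα hζ x] at h
  have h1 := mul_right_cancel₀ (alpha_ne hα) h
  rw [zpow_eq_iff hζ] at h1
  rwa [ZMod.natCast_val, ZMod.cast_id] at h1

/-- the linear part -/
noncomputable def ee (K : Type) {N : Type} [Field K] [Field N] [Algebra K N] {l : ℕ}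
    [Fact l.Prime] {ζ : N} (hζ : IsPrimitiveRoot ζ l) :
    (N ≃ₐ[K] N) →* (ZMod l)ˣ :=
  have : NeZero l := ⟨(Fact.out : l.Prime).ne_zero⟩
  hζ.autToPow K

theorem ee_spec (hζ : IsPrimitiveRoot ζ l) (x : N ≃ₐ[K] N) :
    x ζ = ζ ^ ((ee K hζ x : (ZMod l)ˣ) : ZMod l).val := by
  have : NeZero l := ⟨(Fact.out : l.Prime).ne_zero⟩
  exact (hζ.autToPow_spec K x).symm

theorem bb_mul (hα : α ^ l = 2) (hζ : IsPrimitiveRoot ζ l) (x y : N ≃ₐ[K] N) :
    bb hα hζ (x * y) = bb hα hζ x + (ee K hζ x : ZMod l) * bb hα hζ y := by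
  have : NeZero l := ⟨(Fact.out : l.Prime).ne_zero⟩
  have h := bb_unique hα hζ (x * y)
    (((ee K hζ x : (ZMod l)ˣ) : ZMod l).val * (bb hα hζ y).val + (bb hα hζ x).val) (by
      rw [AlgEquiv.mul_apply, bb_spec hα hζ y, map_mul, map_pow, ee_spec hζ x,
        bb_spec hα hζ x, pow_add, pow_mul, mul_assoc])
  rw [h]
  push_cast
  rw [ZMod.natCast_val, ZMod.natCast_val, ZMod.natCast_val, ZMod.cast_id, ZMod.cast_id,
    ZMod.cast_id]
  ring

theorem not_pow (hl : ¬ l ∣ Module.finrank ℚ K) (b : K) : b ^ l ≠ 2 := by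
  intro h
  have h1 : (Algebra.norm ℚ b) ^ l = 2 ^ Module.finrank ℚ K := by
    rw [← map_pow, h]
    have := Algebra.norm_algebraMap (R := ℚ) (S := K) (2 : ℚ)
    rwa [map_ofNat] at this
  have h2 : Algebra.norm ℚ b ≠ 0 := by
    intro h0
    rw [h0, zero_pow (Fact.out : l.Prime).ne_zero] at h1
    exact pow_ne_zero _ two_ne_zero h1.symm
  have : Fact (Nat.Prime 2) := ⟨Nat.prime_two⟩
  have h3 := congrArg (padicValRat 2) h1
  rw [padicValRat.pow, padicValRat.pow] at h3
  have h4 : padicValRat 2 (2 : ℚ) = 1 := by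
    have := padicValRat.self (p := 2) (by norm_num)
    exact_mod_cast this
  rw [h4, mul_one] at h3
  exact hl (by
    have : (l : ℤ) ∣ (Module.finrank ℚ K : ℤ) := ⟨_, h3.symm⟩
    exact_mod_cast this)

theorem minpoly_alpha (hl : ¬ l ∣ Module.finrank ℚ K) {β : N} (hβ : β ^ l = 2) :
    minpoly K β = X ^ l - C 2 := by
  have hlp : l.Prime := Fact.out
  have hirr : Irreducible (X ^ l - C (2 : K)) :=
    X_pow_sub_C_irreducible_of_prime hlp fun b => not_pow hl b
  refine (minpoly.eq_of_irreducible_of_monic hirr ?_ (monic_X_pow_sub_C _ hlp.ne_zero)).symm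
  rw [map_sub, map_pow, aeval_X, hβ, aeval_C, map_ofNat, sub_self]

theorem bb_surj (hl : ¬ l ∣ Module.finrank ℚ K) (hα : α ^ l = 2) (hζ : IsPrimitiveRoot ζ l) :
    Function.Surjective (bb (K := K) hα hζ) := by
  have : NeZero l := ⟨(Fact.out : l.Prime).ne_zero⟩
  intro y
  have h1 : (ζ ^ y.val * α) ^ l = 2 := by
    rw [mul_pow, ← pow_mul, mul_comm y.val, pow_mul, hζ.pow_eq_one, one_pow, one_mul, hα]
  have h2 : minpoly K (ζ ^ y.val * α) = minpoly K α := by
    rw [minpoly_alpha hl h1, minpoly_alpha hl hα]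
  obtain ⟨x, hx⟩ := (Normal.minpoly_eq_iff_mem_orbit N).1 h2
  refine ⟨x, ?_⟩
  have h3 := bb_unique hα hζ x y.val hx
  rw [h3, ZMod.natCast_val, ZMod.cast_id]

theorem fixed_stab (hα : α ^ l = 2) (hζ : IsPrimitiveRoot ζ l) :
    IntermediateField.fixedField (stab (ee K hζ) (bb hα hζ) (bb_mul hα hζ)) = K⟮α⟯ := by
  have : NeZero l := ⟨(Fact.out : l.Prime).ne_zero⟩
  have hmem : ∀ x : N ≃ₐ[K] N, x ∈ stab (ee K hζ) (bb hα hζ) (bb_mul hα hζ) ↔ x α = α := by
    intro x
    rw [mem_stab]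
    constructor
    · intro h
      rw [bb_spec hα hζ x, h, ZMod.val_zero, pow_zero, one_mul]
    · intro h
      have := bb_unique hα hζ x 0 (by rw [h, pow_zero, one_mul])
      rwa [Nat.cast_zero] at this
  apply le_antisymm
  · rw [← IsGalois.fixedField_fixingSubgroup K⟮α⟯]
    refine IntermediateField.fixedField_antitone ?_
    intro x hx
    rw [hmem]
    exact (IntermediateField.mem_fixingSubgroup_iff _ _).1 hx α
      (IntermediateField.mem_adjoin_simple_self K α)
  · rw [IntermediateField.adjoin_simple_le_iff, IntermediateField.mem_fixedField_iff]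
    intro x hx
    exact (hmem x).1 hx

theorem mem_fixed_ker (hζ : IsPrimitiveRoot ζ l) :
    ζ ∈ IntermediateField.fixedField (ee K hζ).ker := by
  have : Fact (1 < l) := ⟨(Fact.out : l.Prime).one_lt⟩
  rw [IntermediateField.mem_fixedField_iff]
  intro x hx
  rw [MonoidHom.mem_ker] at hx
  rw [ee_spec hζ x, hx, Units.val_one, ZMod.val_one, pow_one]

theorem real_root (hodd : Odd l) {F : Type} [Field F] (φ₁ φ₂ : F →+* ℂ) {β : F}
    (hβ : β ^ l = 2) (h1 : ComplexEmbedding.IsReal φ₁) (h2 : ComplexEmbedding.IsReal φ₂) :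
    φ₁ β = φ₂ β := by
  have hre : ∀ φ : F →+* ℂ, ComplexEmbedding.IsReal φ → ((φ β).re : ℂ) = φ β := by
    intro φ hφ
    have := RingHom.congr_fun hφ β
    exact Complex.conj_eq_iff_re.1 this
  have e1 : ((φ₁ β).re) ^ l = 2 := by
    have : (((φ₁ β).re : ℂ)) ^ l = 2 := by rw [hre φ₁ h1, ← map_pow, hβ, map_ofNat]
    exact_mod_cast this
  have e2 : ((φ₂ β).re) ^ l = 2 := by
    have : (((φ₂ β).re : ℂ)) ^ l = 2 := by rw [hre φ₂ h2, ← map_pow, hβ, map_ofNat]
    exact_mod_cast this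
  have e3 : (φ₁ β).re = (φ₂ β).re := hodd.strictMono_pow.injective (by
    show (φ₁ β).re ^ l = (φ₂ β).re ^ l
    rw [e1, e2])
  rw [← hre φ₁ h1, ← hre φ₂ h2, e3]

theorem nrReal_le (hodd : Odd l) (hα : α ^ l = 2) (F : IntermediateField K N) (hF : F = K⟮α⟯) :
    InfinitePlace.nrRealPlaces F ≤ Module.finrank ℚ K := by
  rw [← InfinitePlace.card_real_embeddings, ← Embeddings.card K ℂ]
  refine Fintype.card_le_of_injective
    (fun φ : {φ : F →+* ℂ // ComplexEmbedding.IsReal φ} => φ.1.comp (algebraMap K F)) ?_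
  rintro ⟨φ₁, h1⟩ ⟨φ₂, h2⟩ h
  apply Subtype.ext
  have h' : φ₁.comp (algebraMap K F) = φ₂.comp (algebraMap K F) := h
  let _ : Algebra K ℂ := (φ₁.comp (algebraMap K F)).toAlgebra
  let f₁ : F →ₐ[K] ℂ := { φ₁ with commutes' := fun r => rfl }
  let f₂ : F →ₐ[K] ℂ := { φ₂ with commutes' := fun r => (RingHom.congr_fun h' r).symm }
  have hαF : α ∈ F := by
    rw [hF]
    exact IntermediateField.mem_adjoin_simple_self K α
  have h3 : f₁ = f₂ := by
    refine IntermediateField.algHom_ext_of_eq_adjoin K hF ?_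
    intro x hx
    rw [Set.mem_singleton_iff] at hx
    subst hx
    have hβ : (⟨x, hαF⟩ : F) ^ l = 2 := by
      apply Subtype.ext
      rw [SubmonoidClass.coe_pow]
      exact hα
    exact real_root hodd φ₁ φ₂ hβ h1 h2
  exact congrArg (fun f : F →ₐ[K] ℂ => (f : F →+* ℂ)) h3

theorem finrank_F (hl : ¬ l ∣ Module.finrank ℚ K) (hα : α ^ l = 2) (F : IntermediateField K N)
    (hF : F = K⟮α⟯) : Module.finrank ℚ F = Module.finrank ℚ K * l := by
  have h1 : Module.finrank K F = l := by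
    rw [hF, IntermediateField.adjoin.finrank (Algebra.IsIntegral.isIntegral α),
      minpoly_alpha hl hα, natDegree_X_pow_sub_C]
  rw [← Module.finrank_mul_finrank ℚ K F, h1]

theorem ratio_F (hl : ¬ l ∣ Module.finrank ℚ K) (hodd : Odd l) (hα : α ^ l = 2) {ε : ℝ}
    (hε : 1 ≤ ε * l) (F : IntermediateField K N) (hF : F = K⟮α⟯) :
    (InfinitePlace.nrRealPlaces F : ℝ) ≤ ε * (Module.finrank ℚ F : ℝ) := by
  rw [finrank_F hl hα F hF]
  have h1 := nrReal_le hodd hα F hF
  have h2 : (InfinitePlace.nrRealPlaces F : ℝ) ≤ (Module.finrank ℚ K : ℝ) := by exact_mod_cast h1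
  push_cast
  have h3 : (0 : ℝ) ≤ (Module.finrank ℚ K : ℝ) := by positivity
  nlinarith

theorem tc_ker (hodd : Odd l) (hζ : IsPrimitiveRoot ζ l) :
    IsTotallyComplex (IntermediateField.fixedField (ee K hζ).ker) := by
  refine ⟨fun w => ?_⟩
  rw [← InfinitePlace.not_isReal_iff_isComplex]
  intro hw
  have hre : ComplexEmbedding.IsReal w.embedding := InfinitePlace.isReal_iff.1 hw
  let z : IntermediateField.fixedField (ee K hζ).ker := ⟨ζ, mem_fixed_ker hζ⟩
  have h1 : w.embedding z ^ l = 1 := by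
    rw [← map_pow]
    have : z ^ l = 1 := by
      apply Subtype.ext
      exact hζ.pow_eq_one
    rw [this, map_one]
  have h2 : ((w.embedding z).re : ℂ) = w.embedding z :=
    Complex.conj_eq_iff_re.1 (RingHom.congr_fun hre z)
  have h3 : ((w.embedding z).re) ^ l = 1 := by
    rw [← h2] at h1
    exact_mod_cast h1
  have h4 : (w.embedding z).re = 1 := hodd.strictMono_pow.injective (by
    show (w.embedding z).re ^ l = (1 : ℝ) ^ l
    rw [h3, one_pow])
  rw [h4, Complex.ofReal_one] at h2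
  have h5 : z = 1 := w.embedding.injective (by rw [map_one, h2])
  have h6 : ζ = 1 := congrArg Subtype.val h5
  exact hζ.ne_one (Fact.out : l.Prime).one_lt h6

end Coord

end SPARSE

end StarkC
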