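import Pool.Agent.Stark.Stmts2
import Pool.Agent.Stark.MAIN
import Pool.Agent.Stark.GOOD
import Pool.Agent.Stark.SPARSEb

/-!
# Reduction of Stark's conjecture: base fields with few real places
-/

open NumberField IsDedekindDomain
open scoped TensorProduct Classical IntermediateField

namespace StarkC

namespace SPARSE

/-- restriction of complex conjugations -/
theorem isConj_restrict {K L N : Type} [Field K] [Field L] [Field N]
    [Algebra K L] [Algebra K N] [Algebra L N] [IsScalarTower K L N] [Normal K L]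
    (Φ : N →+* ℂ) (c : N ≃ₐ[K] N) (h : ComplexEmbedding.IsConj Φ c) :
    ComplexEmbedding.IsConj (Φ.comp (algebraMap L N)) (AlgEquiv.restrictNormalHom L c) := by
  unfold ComplexEmbedding.IsConj at h ⊢
  ext x
  have h1 := RingHom.congr_fun h (algebraMap L N x)
  have h2 : algebraMap L N (AlgEquiv.restrictNormalHom L c x) = c (algebraMap L N x) :=
    AlgEquiv.restrictNormal_commutes c L x
  exact h1.trans (congrArg Φ h2.symm)

/-- Stark's assertion for a representation of `Gal(L/K)` from a combination of induced characters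
over a larger field -/
theorem of_comb (hI : Stmt_INFL) (hD : Stmt_IND) (hL : Stmt_LINF)
    {K L N : Type} [Field K] [NumberField K] [Field L] [NumberField L] [Field N] [NumberField N]
    [Algebra K L] [Algebra K N] [Algebra L N] [IsScalarTower K L N] [IsGalois K L] [IsGalois K N]
    (S : Finset (HeightOneSpectrum (𝓞 K)))
    (φ : XQ L (aboveSet K L S) ≃ₗ[ℚ] QU L (aboveSet K L S))
    (Θ : XC L (aboveSet K L S) →ₗ[ℂ] XC L (aboveSet K L S))
    (V V' : Type) [AddCommGroup V] [Module ℂ V] [Module.Finite ℂ V]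
    [AddCommGroup V'] [Module ℂ V'] [Module.Finite ℂ V']
    (ρ : Representation ℂ (L ≃ₐ[K] L) V) (ρ' : Representation ℂ (L ≃ₐ[K] L) V') (σ : ℂ ≃+* ℂ)
    (hφ : IsPhiTheta K (aboveSet K L S) φ Θ) (hσ : ∀ g, ρ'.character g = σ (ρ.character g))
    {ι : Type} [Fintype ι] (H : ι → Subgroup (N ≃ₐ[K] N)) (ψ : ∀ i, H i →* ℂˣ) (n : ι → ℤ)
    (hchar : ∀ g : N ≃ₐ[K] N, ρ.character (AlgEquiv.restrictNormalHom L g) =
        ∑ i, (n i : ℂ) * indFun (H i) (extZ (ψ i)) g)
    (hgood : ∀ i, StarkLinear (IntermediateField.fixedField (H i)) N (liftChar (H i) (ψ i))) :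
    StarkAt (S : Set (HeightOneSpectrum (𝓞 K))) (aboveSet K L S) Θ ρ ρ' σ := by
  obtain ⟨φ', Θ', hφ', hR⟩ := hI K L N S φ Θ hφ
  let e := Fintype.equivFin ι
  have hchar' : ∀ g : N ≃ₐ[K] N, ρ.character (AlgEquiv.restrictNormalHom L g) =
      ∑ j : Fin (Fintype.card ι), (n (e.symm j) : ℂ) *
        indFun (H (e.symm j)) (extZ (ψ (e.symm j))) g := by
    intro g
    rw [hchar g]
    exact Fintype.sum_equiv e _ _ fun i => by rw [Equiv.symm_apply_apply]
  have h3 := hD K N S φ' Θ' V V' (ρ.comp (AlgEquiv.restrictNormalHom L))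
    (ρ'.comp (AlgEquiv.restrictNormalHom L)) σ (Fintype.card ι) (fun j => H (e.symm j))
    (fun j => ψ (e.symm j)) (fun j => n (e.symm j)) hφ' (fun g => hσ _) hchar'
    (fun j => hgood (e.symm j))
  obtain ⟨f, f', hf, hf', hE⟩ := h3
  refine ⟨f, f', ⟨hf.1, fun s hs => ?_⟩, ⟨hf'.1, fun s hs => ?_⟩, ?_⟩
  · rw [hf.2 s hs, MAIN.logL_infl hL]
  · rw [hf'.2 s hs, MAIN.logL_infl hL]
  · rw [hR V ρ, hR V' ρ'] at hE
    exact hE

/-- **the second basic case follows from its part with few real places and the first case** -/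
theorem odd_of_sparse (hI : Stmt_INFL) (hD : Stmt_IND) (hL : Stmt_LINF) {ε : ℝ} (hε : 0 < ε)
    (h1 : StarkTotallyComplex) (h2 : StarkTwoPowerOddE ε) : StarkTwoPowerOdd := by
  intro K L _ _ _ _ _ _ ψ hpow hodd S φ Θ σ hφ
  obtain ⟨l, hlge, hlp⟩ := Nat.exists_infinite_primes
    (Module.finrank ℚ K + 3 + ⌈1 / ε⌉₊)
  have hFact : Fact l.Prime := ⟨hlp⟩
  have hl3 : 3 ≤ l := by omega
  have hlodd : Odd l := hlp.odd_of_ne_two (by omega)
  have hldvd : ¬ l ∣ Module.finrank ℚ K := by
    intro h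
    have := Nat.le_of_dvd Module.finrank_pos h
    omega
  have hεl : 1 ≤ ε * l := by
    have h3 : 1 / ε ≤ (⌈1 / ε⌉₊ : ℝ) := Nat.le_ceil _
    have h4 : (⌈1 / ε⌉₊ : ℝ) ≤ (l : ℝ) := by
      have : ⌈1 / ε⌉₊ ≤ l := by omega
      exact_mod_cast this
    have h5 : 1 / ε ≤ (l : ℝ) := h3.trans h4
    rwa [div_le_iff₀ hε, mul_comm] at h5
  obtain ⟨N, _, _, _, _, _, _, α, ζ, hα, hζ⟩ := exists_N K L l
  let e := ee K hζ
  let b : (N ≃ₐ[K] N) → ZMod l := bb hα hζ
  have hb : ∀ x y, b (x * y) = b x + (e x : ZMod l) * b y := bb_mul hα hζ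
  have hs : Function.Surjective b := bb_surj hldvd hα hζ
  let Ψ : (N ≃ₐ[K] N) →* ℂˣ := ψ.comp (AlgEquiv.restrictNormalHom L)
  let H : Option ((ZMod l)ˣ ⧸ e.range) → Subgroup (N ≃ₐ[K] N) := fun i =>
    match i with
    | none => stab e b hb
    | some _ => e.ker
  let χ : ∀ i, H i →* ℂˣ := fun i =>
    match i with
    | none => Ψ.comp (stab e b hb).subtype
    | some q => Ψ.comp e.ker.subtype * omega e b hb (Quotient.out q)
  let n : Option ((ZMod l)ˣ ⧸ e.range) → ℤ := fun i =>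
    match i with
    | none => 1
    | some _ => -1
  refine of_comb hI hD hL S φ Θ ℂ ℂ (linRep ψ) (linRep (twist σ ψ)) σ hφ ?_ H χ n ?_ ?_
  · intro g
    rw [MAIN.linRep_character, MAIN.linRep_character]
    rfl
  · intro g
    rw [MAIN.linRep_character, Fintype.sum_option]
    have h3 := affine_psi e b hb hs Ψ g
    have h4 : ((ψ (AlgEquiv.restrictNormalHom L g) : ℂˣ) : ℂ) = ((Ψ g : ℂˣ) : ℂ) := rfl
    rw [h4, h3]
    show _ = ((1 : ℤ) : ℂ) * indFun (stab e b hb) (extZ (Ψ.comp (stab e b hb).subtype)) g +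
      ∑ q : (ZMod l)ˣ ⧸ e.range, ((-1 : ℤ) : ℂ) *
        indFun e.ker (extZ (Ψ.comp e.ker.subtype * omega e b hb (Quotient.out q))) g
    rw [← Finset.mul_sum]
    push_cast
    ring
  · intro i
    match i with
    | none =>
      show StarkLinear (IntermediateField.fixedField (stab e b hb)) N
        (liftChar (stab e b hb) (Ψ.comp (stab e b hb).subtype))
      have hF : IntermediateField.fixedField (stab e b hb) = K⟮α⟯ := fixed_stab hα hζ
      refine h2 _ N _ (ratio_F hldvd hlodd hα hεl _ hF) ?_ ?_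
      · obtain ⟨k, hk⟩ := hpow
        refine ⟨k, ?_⟩
        ext g
        have h3 := DFunLike.congr_fun hk (AlgEquiv.restrictNormalHom L
          (((IntermediateField.subgroupEquivAlgEquiv (stab e b hb)).symm g : stab e b hb) :
            N ≃ₐ[K] N))
        have h4 : (liftChar (stab e b hb) (Ψ.comp (stab e b hb).subtype) ^ (2 ^ k)) g = 1 := h3
        rw [h4]
        rfl
      · intro Φ c hc
        have h3 := GOOD.isConj_symm (stab e b hb) c Φ hc
        have h4 := isConj_restrict (L := L) Φ _ h3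
        exact hodd _ _ h4
    | some q =>
      exact h1 (IntermediateField.fixedField e.ker) N _ (tc_ker hlodd hζ)

end SPARSE

/-- **Stark's conjecture is equivalent to its two basic cases, with few real places in the second
one.** -/
theorem MAINE_of_MAIN (hM : Stmt_MAIN) (hI : Stmt_INFL) (hD : Stmt_IND) (hL : Stmt_LINF) :
    Stmt_MAINE := by
  intro ε hε
  constructor
  · intro h
    obtain ⟨h1, h2⟩ := hM.1 h
    exact ⟨h1, fun K L _ _ _ _ _ _ ψ _ hp ho => h2 K L ψ hp ho⟩
  · rintro ⟨h1, h2⟩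
    exact hM.2 ⟨h1, SPARSE.odd_of_sparse hI hD hL hε h1 h2⟩

end StarkC
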