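import Pool.Agent.Stark.StmtsN
import Pool.Agent.Stark.EPS

/-!
# Reduction of Stark's conjecture: base fields with few real places, refined by the order
-/

open NumberField IsDedekindDomain
open scoped TensorProduct Classical IntermediateField

namespace StarkC

namespace SPARSE

theorem omega_pow {G : Type} [Group G] [Fintype G] {l : ℕ} [Fact l.Prime] (e : G →* (ZMod l)ˣ)
    (b : G → ZMod l) (hb : ∀ x y, b (x * y) = b x + (e x : ZMod l) * b y) (u : (ZMod l)ˣ) :
    (omega e b hb u) ^ l = 1 := by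
  ext x
  have h0 : ((omega e b hb u) ^ l) x = (omega e b hb u x) ^ l := rfl
  have h1 : ((((omega e b hb u) ^ l) x : ℂˣ) : ℂ) = 1 := by
    rw [h0, Units.val_pow_eq_pow_val, omega_apply, ← AddChar.map_nsmul_eq_pow]
    have h2 : l • ((u : ZMod l) * b x) = 0 := by
      rw [nsmul_eq_mul, ZMod.natCast_self, zero_mul]
    rw [h2, AddChar.map_zero_eq_one]
  exact h1

theorem liftChar_pow {K N : Type} [Field K] [Field N] [NumberField N] [Algebra K N]
    [NumberField K] (H : Subgroup (N ≃ₐ[K] N)) (ψ : H →* ℂˣ) (k : ℕ) (hk : ψ ^ k = 1) :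
    (liftChar H ψ) ^ k = 1 := by
  ext g
  have h3 := DFunLike.congr_fun hk ((IntermediateField.subgroupEquivAlgEquiv H).symm g)
  have h4 : ((liftChar H ψ) ^ k) g = 1 := h3
  rw [h4]
  rfl

/-- **the second basic case follows from its part with few real places and the first case**,
with bounded orders -/
theorem odd_of_sparseN (hI : Stmt_INFL) (hD : Stmt_IND) (hL : Stmt_LINF) {n : ℕ} {ε : ℝ}
    (hε : 0 < ε) (h1 : StarkTotallyComplexN n) (h2 : StarkTwoPowerOddN n ε)
    (K L : Type) [Field K] [NumberField K] [Field L] [NumberField L] [Algebra K L] [IsGalois K L]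
    (ψ : (L ≃ₐ[K] L) →* ℂˣ) (hpow : ψ ^ (2 ^ n) = 1)
    (hodd : ∀ (Φ : L →+* ℂ) (c : L ≃ₐ[K] L), ComplexEmbedding.IsConj Φ c → (ψ c : ℂ) = -1) :
    StarkLinear K L ψ := by
  intro S φ Θ σ hφ
  obtain ⟨l, hlge, hlp⟩ := Nat.exists_infinite_primes
    (Module.finrank ℚ K + 3 + ⌈1 / ε⌉₊)
  have hFact : Fact l.Prime := ⟨hlp⟩
  have hl3 : 3 ≤ l := by omega
  have hlodd : Odd l := hlp.odd_of_ne_two (by omega)
  have hldvd : ¬ l ∣ Module.finrank ℚ K := by
    intro h
    have := Nat.le_of_dvd Module.finrank_pos h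
    omega
  have hεl : 1 ≤ ε * l := by
    have h3 : 1 / ε ≤ (⌈1 / ε⌉₊ : ℝ) := Nat.le_ceil _
    have h4 : (⌈1 / ε⌉₊ : ℝ) ≤ (l : ℝ) := by
      have : ⌈1 / ε⌉₊ ≤ l := by omega
      exact_mod_cast this
    have h5 : 1 / ε ≤ (l : ℝ) := h3.trans h4
    rwa [div_le_iff₀ hε, mul_comm] at h5
  obtain ⟨N, _, _, _, _, _, _, α, ζ, hα, hζ⟩ := exists_N K L l
  let e := ee K hζ
  let b : (N ≃ₐ[K] N) → ZMod l := bb hα hζ
  have hb : ∀ x y, b (x * y) = b x + (e x : ZMod l) * b y := bb_mul hα hζ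
  have hs : Function.Surjective b := bb_surj hldvd hα hζ
  let Ψ : (N ≃ₐ[K] N) →* ℂˣ := ψ.comp (AlgEquiv.restrictNormalHom L)
  have hΨ : Ψ ^ (2 ^ n) = 1 := by
    ext g
    have h3 := DFunLike.congr_fun hpow (AlgEquiv.restrictNormalHom L g)
    have h4 : (Ψ ^ (2 ^ n)) g = 1 := h3
    rw [h4]
    rfl
  let H : Option ((ZMod l)ˣ ⧸ e.range) → Subgroup (N ≃ₐ[K] N) := fun i =>
    match i with
    | none => stab e b hb
    | some _ => e.ker
  let χ : ∀ i, H i →* ℂˣ := fun i =>
    match i with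
    | none => Ψ.comp (stab e b hb).subtype
    | some q => Ψ.comp e.ker.subtype * omega e b hb (Quotient.out q)
  let m : Option ((ZMod l)ˣ ⧸ e.range) → ℤ := fun i =>
    match i with
    | none => 1
    | some _ => -1
  refine of_comb hI hD hL S φ Θ ℂ ℂ (linRep ψ) (linRep (twist σ ψ)) σ hφ ?_ H χ m ?_ ?_
  · intro g
    rw [MAIN.linRep_character, MAIN.linRep_character]
    rfl
  · intro g
    rw [MAIN.linRep_character, Fintype.sum_option]
    have h3 := affine_psi e b hb hs Ψ g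
    have h4 : ((ψ (AlgEquiv.restrictNormalHom L g) : ℂˣ) : ℂ) = ((Ψ g : ℂˣ) : ℂ) := rfl
    rw [h4, h3]
    show _ = ((1 : ℤ) : ℂ) * indFun (stab e b hb) (extZ (Ψ.comp (stab e b hb).subtype)) g +
      ∑ q : (ZMod l)ˣ ⧸ e.range, ((-1 : ℤ) : ℂ) *
        indFun e.ker (extZ (Ψ.comp e.ker.subtype * omega e b hb (Quotient.out q))) g
    rw [← Finset.mul_sum]
    push_cast
    ring
  · intro i
    match i with
    | none =>
      show StarkLinear (IntermediateField.fixedField (stab e b hb)) N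
        (liftChar (stab e b hb) (Ψ.comp (stab e b hb).subtype))
      have hF : IntermediateField.fixedField (stab e b hb) = K⟮α⟯ := fixed_stab hα hζ
      refine h2 _ N _ (ratio_F hldvd hlodd hα hεl _ hF) ?_ ?_
      · refine liftChar_pow (stab e b hb) _ (2 ^ n) ?_
        ext g
        have h3 := DFunLike.congr_fun hΨ (g : N ≃ₐ[K] N)
        have h4 : ((Ψ.comp (stab e b hb).subtype) ^ (2 ^ n)) g = 1 := h3
        rw [h4]
        rfl
      · intro Φ c hc
        have h3 := GOOD.isConj_symm (stab e b hb) c Φ hc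
        have h4 := isConj_restrict (L := L) Φ _ h3
        exact hodd _ _ h4
    | some q =>
      refine h1 (IntermediateField.fixedField e.ker) N _ (tc_ker hlodd hζ) ⟨l, hlodd, ?_⟩
      refine liftChar_pow e.ker (Ψ.comp e.ker.subtype * omega e b hb (Quotient.out q))
        (2 ^ n * l) ?_
      have h3 : (Ψ.comp e.ker.subtype) ^ (2 ^ n) = 1 := by
        ext g
        have h5 := DFunLike.congr_fun hΨ (g : N ≃ₐ[K] N)
        have h4 : ((Ψ.comp e.ker.subtype) ^ (2 ^ n)) g = 1 := h5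
        rw [h4]
        rfl
      have h6 := omega_pow e b hb (Quotient.out q)
      generalize omega e b hb (Quotient.out q) = B at h6 ⊢
      generalize Ψ.comp e.ker.subtype = A at h3 ⊢
      ext g
      have h7 : (A g) ^ (2 ^ n) = 1 := DFunLike.congr_fun h3 g
      have h8 : (B g) ^ l = 1 := DFunLike.congr_fun h6 g
      have h9 : ((A * B) ^ (2 ^ n * l)) g = (A g * B g) ^ (2 ^ n * l) := rfl
      rw [h9, mul_pow, pow_mul, h7, one_pow, one_mul, mul_comm (2 ^ n) l, pow_mul, h8, one_pow]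
      rfl

end SPARSE

/-- Few real places suffice in the second case, with bounded orders. -/
theorem EPSN_thm (hI : Stmt_INFL) (hD : Stmt_IND) (hL : Stmt_LINF) : Stmt_EPSN := by
  intro n ε hε h1 h2 K L _ _ _ _ _ _ ψ hpow hodd
  exact SPARSE.odd_of_sparseN hI hD hL hε h1 h2 K L ψ hpow hodd

end StarkC
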