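import Pool.Agent.Stark.Stmts

/-!
# The map `ι` from places of `L` to places of `N`: abstract part
-/

open scoped Classical

namespace StarkC.IOT

section abstractPart

set_option linter.unusedSectionVars false

variable {A B R : Type*} [Field R] [CharZero R]

/-- Finitely supported functions on `A` with support in `P` and sum zero. -/
noncomputable def Xg (R : Type*) [Field R] {A : Type*} (P : Set A) : Submodule R (A →₀ R) :=
  Finsupp.supported R R P ⊓ LinearMap.ker (Finsupp.linearCombination R (fun _ : A => (1 : R)))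

/-- The pull back of functions along `p` with weights `n`. -/
noncomputable def iota (R : Type*) [Field R] {A B : Type*} (P' : Finset B) (p : B → A)
    (n : B → ℕ) : (A →₀ R) →ₗ[R] (B →₀ R) where
  toFun x := Finsupp.onFinset P' (fun b => if b ∈ P' then (n b : R) * x (p b) else 0) (by
    intro b hb
    by_contra h
    simp [h] at hb)
  map_add' x y := by
    ext b
    simp only [Finsupp.onFinset_apply, Finsupp.coe_add, Pi.add_apply]
    split_ifs
    · ring
    · simp
  map_smul' c x := by
    ext b
    simp only [Finsupp.onFinset_apply, Finsupp.coe_smul, Pi.smul_apply, smul_eq_mul,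
      RingHom.id_apply]
    split_ifs
    · ring
    · simp

theorem iota_apply (P' : Finset B) (p : B → A) (n : B → ℕ) (x : A →₀ R) (b : B) :
    iota R P' p n x b = if b ∈ P' then (n b : R) * x (p b) else 0 := rfl

/-- The degree data. -/
structure Dat (P : Set A) (P' : Finset B) (p : B → A) (n : B → ℕ) (d : ℕ) : Prop where
  mem : ∀ b ∈ P', p b ∈ P
  pos : ∀ b ∈ P', 0 < n b
  deg : ∀ a ∈ P, ∑ b ∈ P' with p b = a, n b = d
  dpos : 0 < d

theorem Dat.surj {P : Set A} {P' : Finset B} {p : B → A} {n : B → ℕ} {d : ℕ}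
    (h : Dat P P' p n d) {a : A} (ha : a ∈ P) : ∃ b ∈ P', p b = a := by
  by_contra hc
  push Not at hc
  have h1 := h.deg a ha
  rw [Finset.sum_eq_zero] at h1
  · have := h.dpos
    omega
  · intro b hb
    rw [Finset.mem_filter] at hb
    exact absurd hb.2 (hc b hb.1)

theorem linComb_one (x : A →₀ R) :
    Finsupp.linearCombination R (fun _ : A => (1 : R)) x = x.sum (fun _ c => c) := by
  rw [Finsupp.linearCombination_apply]
  simp

theorem sum_iota {P : Set A} {P' : Finset B} {p : B → A} {n : B → ℕ} {d : ℕ}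
    (h : Dat P P' p n d) (x : A →₀ R) (hx : ∀ a, x a ≠ 0 → a ∈ P) :
    Finsupp.linearCombination R (fun _ : B => (1 : R)) (iota R P' p n x) =
      (d : R) * Finsupp.linearCombination R (fun _ : A => (1 : R)) x := by
  rw [linComb_one, linComb_one]
  have h1 : (iota R P' p n x).sum (fun _ c => c) = ∑ b ∈ P', (n b : R) * x (p b) := by
    rw [Finsupp.sum_of_support_subset (s := P')]
    · refine Finset.sum_congr rfl fun b hb => ?_
      rw [iota_apply, if_pos hb]
    · intro b hb
      by_contra hc
      rw [Finsupp.mem_support_iff, iota_apply, if_neg hc] at hb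
      exact hb rfl
    · intro i hi
      rfl
  rw [h1, Finsupp.sum, Finset.mul_sum]
  have h2 : ∑ b ∈ P', (n b : R) * x (p b) =
      ∑ b ∈ P' with p b ∈ x.support, (n b : R) * x (p b) := by
    rw [Finset.sum_filter]
    refine Finset.sum_congr rfl fun b hb => ?_
    split_ifs with hc
    · rfl
    · rw [Finsupp.notMem_support_iff.1 hc, mul_zero]
  rw [h2, ← Finset.sum_fiberwise_of_maps_to (t := x.support) (g := p)]
  · refine Finset.sum_congr rfl fun a ha => ?_
    have h3 := h.deg a (hx a (Finsupp.mem_support_iff.1 ha))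
    rw [← h3]
    push_cast
    rw [Finset.sum_mul, Finset.filter_filter]
    have h4 : (P'.filter fun b => p b ∈ x.support ∧ p b = a) = P'.filter fun b => p b = a := by
      refine Finset.filter_congr fun b hb => ?_
      constructor
      · exact fun h => h.2
      · intro h
        exact ⟨by rw [h]; exact ha, h⟩
    rw [h4]
    refine Finset.sum_congr rfl fun b hb => ?_
    rw [(Finset.mem_filter.1 hb).2]
  · intro b hb
    exact (Finset.mem_filter.1 hb).2

theorem mem_Xg {P : Set A} {x : A →₀ R} : x ∈ Xg R P ↔ (∀ a, x a ≠ 0 → a ∈ P) ∧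
    Finsupp.linearCombination R (fun _ : A => (1 : R)) x = 0 := by
  rw [Xg, Submodule.mem_inf, Finsupp.mem_supported, LinearMap.mem_ker]
  refine and_congr ?_ Iff.rfl
  constructor
  · intro h a ha
    exact h (Finset.mem_coe.2 (Finsupp.mem_support_iff.2 ha))
  · intro h a ha
    exact h a (Finsupp.mem_support_iff.1 (Finset.mem_coe.1 ha))

theorem iota_mem {P : Set A} {P' : Finset B} {p : B → A} {n : B → ℕ} {d : ℕ}
    (h : Dat P P' p n d) {x : A →₀ R} (hx : x ∈ Xg R P) :
    iota R P' p n x ∈ Xg R (P' : Set B) := by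
  rw [mem_Xg] at hx ⊢
  constructor
  · intro b hb
    by_contra hc
    rw [iota_apply, if_neg (by simpa using hc)] at hb
    exact hb rfl
  · rw [sum_iota h x hx.1, hx.2, mul_zero]

theorem iota_inj {P : Set A} {P' : Finset B} {p : B → A} {n : B → ℕ} {d : ℕ}
    (h : Dat P P' p n d) {x : A →₀ R} (hx : x ∈ Xg R P) (h0 : iota R P' p n x = 0) : x = 0 := by
  ext a
  by_contra hc
  obtain ⟨b, hb, hba⟩ := h.surj ((mem_Xg.1 hx).1 a hc)
  have h1 : iota R P' p n x b = 0 := by rw [h0]; rfl
  rw [iota_apply, if_pos hb, hba] at h1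
  rcases mul_eq_zero.1 h1 with h2 | h2
  · have := h.pos b hb
    rw [Nat.cast_eq_zero] at h2
    omega
  · exact hc h2

/-- The range of `iota`. -/
theorem iota_range [Nonempty B] {P : Set A} {P' : Finset B} {p : B → A} {n : B → ℕ} {d : ℕ}
    (h : Dat P P' p n d) {x : B →₀ R} (hx : x ∈ Xg R (P' : Set B))
    (hc : ∀ b ∈ P', ∀ c ∈ P', p b = p c → x b = x c ∧ n b = n c) :
    ∃ y ∈ Xg R P, iota R P' p n y = x := by
  choose! s hs using fun (a : A) (ha : a ∈ P) => h.surj ha
  have hfin : P.Finite := by
    refine (P'.image p).finite_toSet.subset ?_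
    intro a ha
    rw [Finset.coe_image]
    exact ⟨s a, (hs a ha).1, (hs a ha).2⟩
  let y : A →₀ R := Finsupp.onFinset hfin.toFinset
    (fun a => if a ∈ P then x (s a) / (n (s a) : R) else 0) (by
      intro a ha
      by_contra hc
      rw [Set.Finite.mem_toFinset] at hc
      simp [hc] at ha)
  have hy : ∀ a, y a = if a ∈ P then x (s a) / (n (s a) : R) else 0 := fun a => rfl
  have hyP : ∀ a, y a ≠ 0 → a ∈ P := by
    intro a ha
    by_contra hc
    rw [hy, if_neg hc] at ha
    exact ha rfl
  have h1 : iota R P' p n y = x := by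
    ext b
    rw [iota_apply]
    split_ifs with hb
    · rw [hy, if_pos (h.mem b hb)]
      obtain ⟨h2, h3⟩ := hs _ (h.mem b hb)
      obtain ⟨h4, h5⟩ := hc _ h2 b hb h3
      rw [h4, h5]
      have h6 : (n b : R) ≠ 0 := by
        have := h.pos b hb
        rw [Ne, Nat.cast_eq_zero]
        omega
      field_simp
    · by_contra hcc
      exact hb (by simpa using (mem_Xg.1 hx).1 b (Ne.symm hcc))
  refine ⟨y, ?_, h1⟩
  rw [mem_Xg]
  refine ⟨hyP, ?_⟩
  have h2 := sum_iota h y hyP
  rw [h1, (mem_Xg.1 hx).2] at h2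
  have h3 : (d : R) ≠ 0 := by
    have := h.dpos
    rw [Ne, Nat.cast_eq_zero]
    omega
  rcases mul_eq_zero.1 h2.symm with h4 | h4
  · exact absurd h4 h3
  · exact h4

end abstractPart

end StarkC.IOT
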