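import Pool.Agent.Stark.IOT_B

/-!
# Transitivity of the Galois group and the degree formula
-/

open NumberField IsDedekindDomain
open scoped TensorProduct Classical
open scoped Pointwise

namespace StarkC.IOT

set_option linter.unusedSectionVars false

section trans

variable (K L N : Type) [Field K] [NumberField K] [Field L] [NumberField L] [Field N]
  [NumberField N] [Algebra K L] [Algebra K N] [Algebra L N] [IsScalarTower K L N]
  [IsGalois K L] [IsGalois K N]

theorem restrict_one (σ : N ≃ₐ[L] N) :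
    AlgEquiv.restrictNormalHom L (σ.restrictScalars K) = (1 : L ≃ₐ[K] L) := by
  ext x
  apply (algebraMap L N).injective
  have h := AlgEquiv.restrictNormal_commutes (σ.restrictScalars K) L x
  have h2 : (σ.restrictScalars K) (algebraMap L N x) = algebraMap L N x := σ.commutes x
  rw [h2] at h
  exact h

theorem trans_aux [IsGalois L N] {a b : N → ℝ} (ha : a ∈ placeSet N Set.univ) (hb : b ∈ placeSet N Set.univ)
    (h : (blp L a).1 = (blp L b).1) : ∃ σ : N ≃ₐ[L] N, a ∘ σ = b := by
  rcases ha with ⟨w, rfl⟩ | ⟨w, -, rfl⟩ <;> rcases hb with ⟨v, rfl⟩ | ⟨v, -, rfl⟩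
  · rw [blp_inf, blp_inf] at h
    obtain ⟨σ, hσ⟩ := InfinitePlace.exists_smul_eq_of_comap_eq (infAbs_inj L h)
    refine ⟨σ.symm, ?_⟩
    have h1 := infAbs_comp (σ.symm : N ≃+* N) w
    rw [← hσ, InfinitePlace.smul_eq_comap]
    exact h1
  · rw [blp_inf, blp_fin] at h
    exact (infAbs_ne_finAbs L _ _ h).elim
  · rw [blp_inf, blp_fin] at h
    exact (infAbs_ne_finAbs L _ _ h.symm).elim
  · rw [blp_fin, blp_fin] at h
    have h1 := finAbs_inj L h
    have h2 := liesOver_under (L := L) w
    have h3 := liesOver_under (L := L) v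
    rw [← h1] at h3
    have := w.isPrime
    have := v.isPrime
    obtain ⟨σ, hσ⟩ := Ideal.exists_smul_eq_of_isGaloisGroup (w.under (𝓞 L)).asIdeal w.asIdeal
      v.asIdeal (N ≃ₐ[L] N)
    refine ⟨σ⁻¹, ?_⟩
    obtain ⟨u, hu⟩ := finAbs_comp ((σ⁻¹ : N ≃ₐ[L] N) : N ≃+* N) w
    have h4 : u = v := by
      apply HeightOneSpectrum.ext
      ext x
      rw [← finAbs_lt_one_iff, ← hu, ← hσ, Ideal.mem_pointwise_smul_iff_inv_smul_mem,
        ← finAbs_lt_one_iff]
      rfl
    rw [← h4]
    exact hu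

end trans

section deg

variable (K L N : Type) [Field K] [NumberField K] [Field L] [NumberField L] [Field N]
  [NumberField N] [Algebra K L] [Algebra K N] [Algebra L N] [IsScalarTower K L N]

theorem finite_above (S : Finset (HeightOneSpectrum (𝓞 K))) :
    (aboveSet K N (S : Set (HeightOneSpectrum (𝓞 K)))).Finite := by
  have h : aboveSet K N (S : Set (HeightOneSpectrum (𝓞 K))) =
      ⋃ v ∈ S, {w : HeightOneSpectrum (𝓞 N) | w.under (𝓞 K) = v} := by
    ext w
    simp [aboveSet]
  rw [h]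
  refine Set.Finite.biUnion S.finite_toSet fun v _ => ?_
  have := v.isPrime
  have := v.isMaximal
  have h1 := IsDedekindDomain.primesOver_finite (B := 𝓞 N) v.asIdeal
  refine (h1.preimage (f := HeightOneSpectrum.asIdeal) ?_).subset ?_
  · intro a _ b _ hab
    exact HeightOneSpectrum.ext hab
  · rintro w rfl
    exact ⟨w.isPrime, ⟨rfl⟩⟩

theorem finite_placeSet (S : Finset (HeightOneSpectrum (𝓞 K))) :
    (placeSet N (aboveSet K N (S : Set (HeightOneSpectrum (𝓞 K))))).Finite :=
  (Set.finite_range _).union ((finite_above K N S).image _)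

theorem sum_inf (v : InfinitePlace L) :
    ∃ F : Finset (N → ℝ), (∀ b, b ∈ F ↔ b ∈ placeSet N Set.univ ∧ (blp L b).1 = infAbs L v) ∧
      ∑ b ∈ F, (blp L b).2 = Module.finrank L N := by
  refine ⟨((InfinitePlace.placesOver N v).toFinset).image (infAbs N), ?_, ?_⟩
  · intro b
    rw [Finset.mem_image]
    constructor
    · rintro ⟨w, hw, rfl⟩
      refine ⟨Or.inl ⟨w, rfl⟩, ?_⟩
      rw [Set.mem_toFinset] at hw
      have : w.LiesOver v := hw
      rw [blp_inf, InfinitePlace.LiesOver.comap_eq w v]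
    · rintro ⟨hb | ⟨w, -, rfl⟩, h⟩
      · obtain ⟨w, rfl⟩ := hb
        refine ⟨w, ?_, rfl⟩
        rw [Set.mem_toFinset]
        rw [blp_inf] at h
        have h1 := infAbs_inj L h
        show w.LiesOver v
        rw [← h1]
        exact liesOver_comap w
      · rw [blp_fin] at h
        exact (infAbs_ne_finAbs L _ _ h.symm).elim
  · rw [Finset.sum_image (fun a _ b _ hab => infAbs_inj N hab),
      ← InfinitePlace.sum_inertiaDeg_eq_finrank L N v]
    refine Finset.sum_congr rfl fun w hw => ?_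
    rw [Set.mem_toFinset] at hw
    have : w.LiesOver v := hw
    rw [blp_inf, ideg, InfinitePlace.LiesOver.comap_eq w v]

theorem sum_fin (v : HeightOneSpectrum (𝓞 L)) :
    ∃ F : Finset (N → ℝ), (∀ b, b ∈ F ↔ b ∈ placeSet N Set.univ ∧ (blp L b).1 = finAbs L v) ∧
      ∑ b ∈ F, (blp L b).2 = Module.finrank L N := by
  have := v.isPrime
  have := v.isMaximal
  have hfin : Fintype (v.asIdeal.primesOver (𝓞 N)) :=
    (IsDedekindDomain.primesOver_finite (B := 𝓞 N) v.asIdeal).fintype
  let f : v.asIdeal.primesOver (𝓞 N) → HeightOneSpectrum (𝓞 N) := fun q =>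
    ⟨q.1, q.2.1, Ideal.ne_bot_of_mem_primesOver v.ne_bot q.2⟩
  have hf : ∀ q, (f q).under (𝓞 L) = v := by
    intro q
    apply HeightOneSpectrum.ext
    exact q.2.2.over.symm
  refine ⟨Finset.univ.image (fun q => finAbs N (f q)), ?_, ?_⟩
  · intro b
    rw [Finset.mem_image]
    constructor
    · rintro ⟨q, -, rfl⟩
      refine ⟨Or.inr ⟨_, Set.mem_univ _, rfl⟩, ?_⟩
      rw [blp_fin, hf]
    · rintro ⟨⟨w, rfl⟩ | ⟨w, -, rfl⟩, h⟩
      · rw [blp_inf] at h
        exact (infAbs_ne_finAbs L _ _ h).elim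
      · rw [blp_fin] at h
        have h1 := finAbs_inj L h
        refine ⟨⟨w.asIdeal, w.isPrime, ⟨by rw [← h1]; rfl⟩⟩, Finset.mem_univ _, rfl⟩
  · rw [Finset.sum_image (fun a _ b _ hab => by
      have h1 := finAbs_inj N hab
      exact Subtype.ext (congrArg HeightOneSpectrum.asIdeal h1)),
      IsFractionRing.finrank_eq (𝓞 L) L (𝓞 N) N,
      ← Ideal.sum_ramification_inertia_eq_finrank v.asIdeal (𝓞 N)]
    refine Finset.sum_congr rfl fun q _ => ?_
    rw [blp_fin]
    rfl

theorem dat (S : Finset (HeightOneSpectrum (𝓞 K))) :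
    Dat (placeSet L (aboveSet K L (S : Set (HeightOneSpectrum (𝓞 K)))))
      (finite_placeSet K N S).toFinset (fun a => (blp L a).1) (fun a => (blp L a).2)
      (Module.finrank L N) where
  mem b hb := by
    rw [Set.Finite.mem_toFinset] at hb
    exact blp_mem K L _ hb
  pos b hb := by
    rw [Set.Finite.mem_toFinset] at hb
    exact (blp_spec L (placeSet_sub N _ hb)).2.1
  deg a ha := by
    have h1 : ∃ F : Finset (N → ℝ), (∀ b, b ∈ F ↔ b ∈ placeSet N Set.univ ∧ (blp L b).1 = a) ∧
        ∑ b ∈ F, (blp L b).2 = Module.finrank L N := by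
      rcases ha with ⟨v, rfl⟩ | ⟨v, -, rfl⟩
      · exact sum_inf L N v
      · exact sum_fin L N v
    obtain ⟨F, h2, h3⟩ := h1
    rw [← h3]
    refine Finset.sum_congr ?_ fun _ _ => rfl
    ext b
    rw [Finset.mem_filter, h2, Set.Finite.mem_toFinset]
    constructor
    · rintro ⟨h4, h5⟩
      exact ⟨placeSet_sub N _ h4, h5⟩
    · rintro ⟨h4, h5⟩
      exact ⟨mem_of_blp_mem K L _ h4 (by rw [h5]; exact ha), h5⟩
  dpos := Module.finrank_pos

end deg

end StarkC.IOT
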