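import Pool.Agent.Stark.StmtsN
import Pool.Agent.Stark.MAIN
import Pool.Agent.Stark.GOOD

open NumberField IsDedekindDomain
open scoped TensorProduct Classical

namespace StarkC

namespace MAINN

theorem linRep_apply {G : Type} [Group G] (ψ : G →* ℂˣ) (g : G) (x : ℂ) :
    linRep ψ g x = (ψ g : ℂ) * x := rfl

theorem linRep_eq_one {G : Type} [Group G] (ψ : G →* ℂˣ) (g : G) (h : ψ g = 1) :
    linRep ψ g = 1 := by
  ext
  simp [linRep_apply, h]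

theorem of_conjN (n : ℕ) (ε : ℝ) (h : StarkConjectureN n) :
    StarkTotallyComplexN n ∧ StarkTwoPowerOddN n ε := by
  have key : ∀ (K L : Type) [Field K] [NumberField K] [Field L] [NumberField L] [Algebra K L]
      [IsGalois K L] (ψ : (L ≃ₐ[K] L) →* ℂˣ), (∃ m : ℕ, Odd m ∧ ψ ^ (2 ^ n * m) = 1) →
      StarkLinear K L ψ := by
    intro K L _ _ _ _ _ _ ψ hψ S φ Θ σ hφ
    refine h K L S φ Θ ℂ ℂ (linRep ψ) (linRep (twist σ ψ)) σ ?_ hφ ?_
    · obtain ⟨m, hm, hψ⟩ := hψ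
      intro g
      refine ⟨m, hm, ?_⟩
      apply linRep_eq_one
      have := DFunLike.congr_fun hψ g
      rw [map_pow]
      exact this
    · intro g
      rw [MAIN.linRep_character, MAIN.linRep_character]
      rfl
  refine ⟨fun K L _ _ _ _ _ _ ψ _ hψ => key K L ψ hψ, fun K L _ _ _ _ _ _ ψ _ hψ _ => ?_⟩
  exact key K L ψ ⟨1, odd_one, by rw [mul_one]; exact hψ⟩

theorem good_linear (n : ℕ) (h1 : StarkTotallyComplexN n)
    (h2 : ∀ (K L : Type) [Field K] [NumberField K] [Field L] [NumberField L] [Algebra K L]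
      [IsGalois K L] (ψ : (L ≃ₐ[K] L) →* ℂˣ), ψ ^ (2 ^ n) = 1 →
      (∀ (Φ : L →+* ℂ) (c : L ≃ₐ[K] L), ComplexEmbedding.IsConj Φ c → (ψ c : ℂ) = -1) →
      StarkLinear K L ψ)
    (K N : Type) [Field K] [NumberField K] [Field N] [NumberField N] [Algebra K N] [IsGalois K N]
    (H : Subgroup (N ≃ₐ[K] N)) (ψ : H →* ℂˣ) (hG : GoodN n H ψ) :
    StarkLinear (IntermediateField.fixedField H) N (liftChar H ψ) := by
  have hpow : ∀ k : ℕ, ψ ^ k = 1 → (liftChar H ψ) ^ k = 1 := by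
    intro k hk
    ext g
    have h3 := DFunLike.congr_fun hk ((IntermediateField.subgroupEquivAlgEquiv H).symm g)
    have h4 : ((liftChar H ψ) ^ k) g = 1 := h3
    rw [h4]
    rfl
  rcases hG with ⟨hG, m, hm, hψ⟩ | ⟨hn, hG⟩
  · exact h1 (IntermediateField.fixedField H) N (liftChar H ψ) (GOOD.totallyComplex H hG)
      ⟨m, hm, hpow _ hψ⟩
  · refine h2 (IntermediateField.fixedField H) N (liftChar H ψ) (hpow _ hn) ?_
    intro Φ c hc
    exact hG _ ⟨Φ, GOOD.isConj_symm H c Φ hc⟩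

end MAINN

theorem MAINN_thm (hC : Stmt_CMBN) (hI : Stmt_INFL) (hD : Stmt_IND) (hE : Stmt_EPSN)
    (hL : Stmt_LINF) : Stmt_MAINN := by
  intro n ε hn hε
  refine ⟨MAINN.of_conjN n ε, ?_⟩
  rintro ⟨h1, h2⟩
  intro K L _ _ _ _ _ _ S φ Θ V V' _ _ _ _ _ _ ρ ρ' σ hρ hφ hσ
  obtain ⟨N, _, _, _, _, _, _, m, H, ψ, c, hgood, hchar⟩ := hC n hn K L V ρ hρ
  obtain ⟨φ', Θ', hφ', hR⟩ := hI K L N S φ Θ hφ
  have h3 := hD K N S φ' Θ' V V' (ρ.comp (AlgEquiv.restrictNormalHom L))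
    (ρ'.comp (AlgEquiv.restrictNormalHom L)) σ m H ψ c hφ' (fun g => hσ _) hchar
    (fun i => MAINN.good_linear n h1 (hE n ε hε h1 h2) K N (H i) (ψ i) (hgood i))
  obtain ⟨f, f', hf, hf', hEq⟩ := h3
  refine ⟨f, f', ⟨hf.1, fun s hs => ?_⟩, ⟨hf'.1, fun s hs => ?_⟩, ?_⟩
  · rw [hf.2 s hs, MAIN.logL_infl hL]
  · rw [hf'.2 s hs, MAIN.logL_infl hL]
  · rw [hR V ρ, hR V' ρ'] at hEq
    exact hEq

/-- Stark's conjecture is the union of its refined versions. -/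
theorem starkConjecture_iff : StarkConjecture ↔ ∀ n : ℕ, StarkConjectureN n := by
  constructor
  · intro h n K L _ _ _ _ _ _ S φ Θ V V' _ _ _ _ _ _ ρ ρ' σ _ hφ hσ
    exact h K L S φ Θ V V' ρ ρ' σ hφ hσ
  · intro h K L _ _ _ _ _ _ S φ Θ V V' _ _ _ _ _ _ ρ ρ' σ hφ hσ
    obtain ⟨n, m, hm, hN⟩ := Nat.exists_eq_two_pow_mul_odd
      (Nat.card_pos (α := L ≃ₐ[K] L)).ne'
    refine h n K L S φ Θ V V' ρ ρ' σ (fun g => ⟨m, hm, ?_⟩) hφ hσ
    rw [← hN, pow_card_eq_one', map_one]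

end StarkC
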