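import Pool.Agent.Stark.PDefs

/-!
# Stark's conjecture: classes of characters

The classes are graded by a bound `2^n` for the 2-part of the exponent of the image group.
-/

open NumberField IsDedekindDomain
open scoped Classical

namespace StarkP

/-- Stark's assertion for `Gal(L/K)`, all `S`, `φ`, `σ` and all characters `χ`, `χ^σ` of
representations on the spaces `V`, `V'` such that the 2-part of the exponent of the image group
`ρ(Gal(L/K))`, where `ρ` affords `χ`, divides `2^n`. -/
def StarkSpacesN (n : ℕ) (K L V V' : Type) [Field K] [NumberField K] [Field L] [NumberField L]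
    [Algebra K L] [AddCommGroup V] [Module ℂ V] [AddCommGroup V'] [Module ℂ V'] : Prop :=
  ∀ (ρ : Representation ℂ (L ≃ₐ[K] L) V) (ρ' : Representation ℂ (L ≃ₐ[K] L) V') (σ : ℂ ≃+* ℂ),
    (∀ g : L ≃ₐ[K] L, ∃ m : ℕ, Odd m ∧ ρ (g ^ (2 ^ n * m)) = 1) →
    (∀ g, ρ'.character g = σ (ρ.character g)) → StarkRep ρ ρ' σ

/-- **Stark's conjecture** for all finite Galois extensions `L/K` of number fields, all `S`, `φ`,
all automorphisms of `ℂ` and all characters afforded by representations whose image group has an
exponent with 2-part dividing `2^n`. -/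
def StarkConjectureN (n : ℕ) : Prop :=
  ∀ (K L V V' : Type) [Field K] [NumberField K] [Field L] [NumberField L] [Algebra K L]
    [IsGalois K L] [AddCommGroup V] [Module ℂ V] [Module.Finite ℂ V]
    [AddCommGroup V'] [Module ℂ V'] [Module.Finite ℂ V'], StarkSpacesN n K L V V'

/-- Stark's assertion for the linear characters `ψ` of `Gal(L/K)` if `K` is totally complex, the
2-part of the order of `ψ` dividing `2^n`. -/
def StarkLinearTC (n : ℕ) (K L : Type) [Field K] [NumberField K] [Field L] [NumberField L]
    [Algebra K L] : Prop :=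
  IsTotallyComplex K → ∀ (ψ : (L ≃ₐ[K] L) →* ℂˣ) (m : ℕ), Odd m → ψ ^ (2 ^ n * m) = 1 →
    StarkLinear K L ψ

/-- Stark's conjecture for linear characters `ψ` over totally complex base fields, the 2-part of
the order of `ψ` dividing `2^n`. -/
def StarkTotallyComplexN (n : ℕ) : Prop :=
  ∀ (K L : Type) [Field K] [NumberField K] [Field L] [NumberField L] [Algebra K L] [IsGalois K L],
    StarkLinearTC n K L

/-- Stark's assertion for the linear characters `ψ` of `Gal(L/K)` with `ψ^(2^n) = 1` which are odd
at every real place of `K` (`ψ(c) = -1` for every complex conjugation `c ∈ Gal(L/K)`), if `K` has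
at most `ε [K : ℚ]` real places. -/
def StarkLinearOdd (n : ℕ) (ε : ℝ) (K L : Type) [Field K] [NumberField K] [Field L] [NumberField L]
    [Algebra K L] : Prop :=
  (InfinitePlace.nrRealPlaces K : ℝ) ≤ ε * (Module.finrank ℚ K : ℝ) →
    ∀ ψ : (L ≃ₐ[K] L) →* ℂˣ, ψ ^ (2 ^ n) = 1 →
    (∀ (Φ : L →+* ℂ) (c : L ≃ₐ[K] L), ComplexEmbedding.IsConj Φ c → (ψ c : ℂ) = -1) →
    StarkLinear K L ψ

/-- Stark's conjecture for linear characters `ψ` with `ψ^(2^n) = 1` which are odd at every real
place of the base field `K`, where `K` has at most `ε [K : ℚ]` real places. -/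
def StarkTwoPowerOddN (n : ℕ) (ε : ℝ) : Prop :=
  ∀ (K L : Type) [Field K] [NumberField K] [Field L] [NumberField L] [Algebra K L] [IsGalois K L],
    StarkLinearOdd n ε K L

end StarkP
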