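import Pool.Agent.Stark.PBridge
import Pool.Agent.Stark.PDefsN
import Pool.Agent.Stark.DefsN

/-!
# Bridge between the two forms of the definitions: the classes of characters
-/

open NumberField IsDedekindDomain
open scoped TensorProduct Classical

namespace StarkB

theorem starkConjecture_iff : StarkP.StarkConjecture ↔ StarkC.StarkConjecture := by
  constructor
  · intro h K L _ _ _ _ _ _ S φ Θ V V' _ _ _ _ _ _ ρ ρ' σ hφ hχ
    exact (starkRep_iff ρ ρ' σ).1 (h K L V V' ρ ρ' σ hχ) S φ Θ hφ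
  · intro h K L V V' _ _ _ _ _ _ _ _ _ _ _ _ ρ ρ' σ hχ
    exact (starkRep_iff ρ ρ' σ).2 fun S φ Θ hφ => h K L S φ Θ V V' ρ ρ' σ hφ hχ

theorem starkConjectureN_iff (n : ℕ) :
    StarkP.StarkConjectureN n ↔ StarkC.StarkConjectureN n := by
  constructor
  · intro h K L _ _ _ _ _ _ S φ Θ V V' _ _ _ _ _ _ ρ ρ' σ hn hφ hχ
    exact (starkRep_iff ρ ρ' σ).1 (h K L V V' ρ ρ' σ hn hχ) S φ Θ hφ
  · intro h K L V V' _ _ _ _ _ _ _ _ _ _ _ _ ρ ρ' σ hn hχ
    exact (starkRep_iff ρ ρ' σ).2 fun S φ Θ hφ => h K L S φ Θ V V' ρ ρ' σ hn hφ hχ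

theorem starkTotallyComplexN_iff (n : ℕ) :
    StarkP.StarkTotallyComplexN n ↔ StarkC.StarkTotallyComplexN n := by
  constructor
  · intro h K L _ _ _ _ _ _ ψ hK hψ
    obtain ⟨m, hm, hψm⟩ := hψ
    exact (starkLinear_iff ψ).1 (h K L hK ψ m hm hψm)
  · intro h K L _ _ _ _ _ _ hK ψ m hm hψm
    exact (starkLinear_iff ψ).2 (h K L ψ hK ⟨m, hm, hψm⟩)

theorem starkTwoPowerOddN_iff (n : ℕ) (ε : ℝ) :
    StarkP.StarkTwoPowerOddN n ε ↔ StarkC.StarkTwoPowerOddN n ε := by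
  constructor
  · intro h K L _ _ _ _ _ _ ψ hK hψ hodd
    exact (starkLinear_iff ψ).1 (h K L hK ψ hψ hodd)
  · intro h K L _ _ _ _ _ _ hK ψ hψ hodd
    exact (starkLinear_iff ψ).2 (h K L ψ hK hψ hodd)

end StarkB
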