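import Pool.Agent.Stark.PDefsN

/-!
# Stark's conjecture: linear characters ramified above one rational prime
-/

open NumberField IsDedekindDomain
open scoped Classical

namespace StarkP

/-- `g` maps the prime `w` into itself (for an automorphism `g`: `g` lies in the decomposition
group of `w`). -/
def Dec {L : Type} [Field L] [NumberField L] (w : HeightOneSpectrum (𝓞 L)) (g : L → L) : Prop :=
  ∀ x y : 𝓞 L, (y : L) = g (x : L) → x ∈ w.asIdeal → y ∈ w.asIdeal

/-- The linear character `ψ` of `Gal(L/K)` is trivial on the inertia groups of all primes of `L`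
not above `l`, and on the decomposition groups of all primes of `L` which lie above a prime number
in `T` and not above `l`. -/
def RamifiedOnlyAbove {K L : Type} [Field K] [Field L] [NumberField L] [Algebra K L]
    (T : Finset ℕ) (l : ℕ) (ψ : (L ≃ₐ[K] L) →* ℂˣ) : Prop :=
  (∀ w : HeightOneSpectrum (𝓞 L), (l : 𝓞 L) ∉ w.asIdeal →
    ∀ g : L ≃ₐ[K] L, FrobPow L w 1 g → ψ g = 1) ∧
  ∀ w : HeightOneSpectrum (𝓞 L), (l : 𝓞 L) ∉ w.asIdeal →
    (∃ p ∈ T, p.Prime ∧ (p : 𝓞 L) ∈ w.asIdeal) → ∀ g : L ≃ₐ[K] L, Dec w g → ψ g = 1

/-- Stark's assertion for the following linear characters `ψ` of `Gal(L/K)` if `K` is totally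
complex: the 2-part of the order of `ψ` divides `2^n`, and `ψ` has prime power order or is
ramified only above one rational prime `l` (and then trivial on the decomposition groups above the
primes of `T` other than `l`). -/
def StarkLinearTCR (n : ℕ) (T : Finset ℕ) (K L : Type) [Field K] [NumberField K] [Field L]
    [NumberField L] [Algebra K L] : Prop :=
  IsTotallyComplex K → ∀ (ψ : (L ≃ₐ[K] L) →* ℂˣ) (m : ℕ), Odd m → ψ ^ (2 ^ n * m) = 1 →
    ((∃ p k : ℕ, p.Prime ∧ ψ ^ (p ^ k) = 1) ∨ ∃ l : ℕ, l.Prime ∧ RamifiedOnlyAbove T l ψ) →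
    StarkLinear K L ψ

/-- Stark's conjecture for linear characters `ψ` over totally complex base fields, the 2-part of
the order of `ψ` dividing `2^n`, which have prime power order or are ramified only above one
rational prime `l` (and then trivial on the decomposition groups above the primes of `T` other
than `l`). -/
def StarkTotallyComplexRN (n : ℕ) (T : Finset ℕ) : Prop :=
  ∀ (K L : Type) [Field K] [NumberField K] [Field L] [NumberField L] [Algebra K L] [IsGalois K L],
    StarkLinearTCR n T K L

end StarkP
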