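import Pool.Agent.Stark.DefsN
import Pool.Agent.Stark.RDefs

/-!
# Stark's conjecture: linear characters ramified above one rational prime, graded by the order
-/

open NumberField IsDedekindDomain
open scoped TensorProduct Classical

namespace StarkC

/-- Stark's conjecture for those linear characters `ψ` over totally complex base fields `K`, the
2-part of the order of `ψ` dividing `2^n`, which have prime power order, or for which there is a
rational prime `l` such that `ψ` is unramified at all primes not above `l` and trivial on the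
decomposition groups of all primes which lie above a prime number in `T` and not above `l`. -/
def StarkTotallyComplexRN (n : ℕ) (T : Finset ℕ) : Prop :=
  ∀ (K L : Type) [Field K] [NumberField K] [Field L] [NumberField L] [Algebra K L] [IsGalois K L]
    (ψ : (L ≃ₐ[K] L) →* ℂˣ), IsTotallyComplex K → (∃ m : ℕ, Odd m ∧ ψ ^ (2 ^ n * m) = 1) →
    ((∃ p k : ℕ, p.Prime ∧ ψ ^ (p ^ k) = 1) ∨
      ∃ l : ℕ, l.Prime ∧
        (∀ w : HeightOneSpectrum (𝓞 L), (l : 𝓞 L) ∉ w.asIdeal →
          ∀ g : L ≃ₐ[K] L, FrobPow L w 1 g → ψ g = 1) ∧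
        (∀ w : HeightOneSpectrum (𝓞 L), (l : 𝓞 L) ∉ w.asIdeal →
          (∃ p ∈ T, p.Prime ∧ (p : 𝓞 L) ∈ w.asIdeal) →
          ∀ g : L ≃ₐ[K] L, Dec w g → ψ g = 1)) →
    StarkLinear K L ψ

end StarkC
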