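import Pool.Agent.Stark.PBridgeN
import Pool.Agent.Stark.PDefsR
import Pool.Agent.Stark.RDefsN

/-!
# Bridge between the two forms of the definitions: characters ramified above one rational prime
-/

open NumberField IsDedekindDomain
open scoped TensorProduct Classical

namespace StarkB

theorem starkTotallyComplexRN_iff (n : ℕ) (T : Finset ℕ) :
    StarkP.StarkTotallyComplexRN n T ↔ StarkC.StarkTotallyComplexRN n T := by
  constructor
  · intro h K L _ _ _ _ _ _ ψ hK hψ hR
    obtain ⟨m, hm, hψm⟩ := hψ
    exact (starkLinear_iff ψ).1 (h K L hK ψ m hm hψm hR)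
  · intro h K L _ _ _ _ _ _ hK ψ m hm hψm hR
    exact (starkLinear_iff ψ).2 (h K L ψ hK ⟨m, hm, hψm⟩ hR)

end StarkB
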