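import Pool.Agent.Stark.PDefs
import Pool.Agent.Stark.Stmts

/-!
# Bridge between the two forms of the definitions: the regulator
-/

open NumberField IsDedekindDomain
open scoped TensorProduct Classical

namespace StarkB

variable {K L : Type} [Field K] [Field L] [NumberField L] [Algebra K L]
variable {T : Set (HeightOneSpectrum (𝓞 L))}
variable {V : Type} [AddCommGroup V] [Module ℂ V]

/-- the subspace behind `StarkP.homG` -/
noncomputable def homW (T : Set (HeightOneSpectrum (𝓞 L))) (ρ : Representation ℂ (L ≃ₐ[K] L) V) :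
    Submodule ℂ (Module.Dual ℂ V →ₗ[ℂ] ((L → ℝ) →₀ ℂ)) where
  carrier := {f | (∀ α, f α ∈ StarkP.XC L T) ∧ ∀ (g : L ≃ₐ[K] L) (α : Module.Dual ℂ V),
    f (ρ.dual g α) = StarkP.act (g : L ≃+* L) (f α)}
  add_mem' := by
    intro a b ha hb
    refine ⟨fun α => (StarkP.XC L T).add_mem (ha.1 α) (hb.1 α), fun g α => ?_⟩
    rw [LinearMap.add_apply, LinearMap.add_apply, map_add, ha.2, hb.2]
  zero_mem' := by
    refine ⟨fun α => (StarkP.XC L T).zero_mem, fun g α => ?_⟩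
    simp
  smul_mem' := by
    intro c a ha
    refine ⟨fun α => (StarkP.XC L T).smul_mem c (ha.1 α), fun g α => ?_⟩
    rw [LinearMap.smul_apply, LinearMap.smul_apply, map_smul, ha.2]

theorem homG_eq (ρ : Representation ℂ (L ≃ₐ[K] L) V) : StarkP.homG T ρ = homW T ρ :=
  Submodule.span_eq (homW T ρ)

theorem mem_homG (ρ : Representation ℂ (L ≃ₐ[K] L) V)
    (f : Module.Dual ℂ V →ₗ[ℂ] ((L → ℝ) →₀ ℂ)) : f ∈ StarkP.homG T ρ ↔
    (∀ α, f α ∈ StarkC.XCsub L T) ∧ ∀ (g : L ≃ₐ[K] L) (α : Module.Dual ℂ V),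
      f (ρ.dual g α) = StarkC.actC (g : L ≃+* L) (f α) := by
  rw [homG_eq]
  rfl

/-- the two spaces of homomorphisms are isomorphic -/
noncomputable def homE (T : Set (HeightOneSpectrum (𝓞 L))) (ρ : Representation ℂ (L ≃ₐ[K] L) V) :
    StarkC.homG T ρ ≃ₗ[ℂ] StarkP.homG T ρ where
  toFun f := ⟨StarkC.XC.val ∘ₗ f.1, (mem_homG ρ _).2 ⟨fun α => (f.1 α).2, fun g α => f.2 g α⟩⟩
  map_add' f g := by
    apply Subtype.ext
    exact LinearMap.comp_add _ _ _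
  map_smul' c f := by
    apply Subtype.ext
    exact LinearMap.comp_smul _ _ _
  invFun f := ⟨(LinearMap.codRestrict (StarkC.XCsub L T) f.1 ((mem_homG ρ _).1 f.2).1 :
      Module.Dual ℂ V →ₗ[ℂ] StarkC.XCsub L T), ((mem_homG ρ _).1 f.2).2⟩
  left_inv f := by
    apply Subtype.ext
    rfl
  right_inv f := by
    apply Subtype.ext
    rfl

theorem detOn_eq {M N : Type} [AddCommGroup M] [Module ℂ M] [AddCommGroup N] [Module ℂ N]
    (A : N →ₗ[ℂ] N) (W : Submodule ℂ N) (hW : ∀ x ∈ W, A x ∈ W) (f : M →ₗ[ℂ] M) (e : M ≃ₗ[ℂ] W)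
    (h : ∀ x, A (e x : N) = (e (f x) : N)) : StarkP.detOn A W = LinearMap.det f := by
  unfold StarkP.detOn
  rw [dif_pos hW]
  have h1 : A.restrict hW = (e : M →ₗ[ℂ] W) ∘ₗ f ∘ₗ (e.symm : W →ₗ[ℂ] M) := by
    refine LinearMap.ext fun x => ?_
    apply Subtype.ext
    have h2 := h (e.symm x)
    rw [LinearEquiv.apply_symm_apply] at h2
    exact h2
  rw [h1, LinearMap.det_conj]

theorem detOn_neg {N : Type} [AddCommGroup N] [Module ℂ N]
    (A : N →ₗ[ℂ] N) (W : Submodule ℂ N) (hW : ¬ ∀ x ∈ W, A x ∈ W) : StarkP.detOn A W = 0 := by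
  unfold StarkP.detOn
  rw [dif_neg hW]

theorem Reg_eq (ρ : Representation ℂ (L ≃ₐ[K] L) V) (Θ : StarkC.XC L T →ₗ[ℂ] StarkC.XC L T)
    (Θ' : ((L → ℝ) →₀ ℂ) →ₗ[ℂ] ((L → ℝ) →₀ ℂ))
    (h : ∀ x : StarkC.XC L T, Θ' x.val = (Θ x).val) :
    StarkP.Reg T ρ Θ' = StarkC.Reg T ρ Θ := by
  have key : ∀ f : StarkC.homG T ρ, LinearMap.compRight ℂ Θ' (homE T ρ f).1 =
      StarkC.XC.val ∘ₗ (LinearMap.compRight ℂ Θ f.1) := by
    intro f
    refine LinearMap.ext fun α => ?_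
    exact h (f.1 α)
  unfold StarkP.Reg StarkC.Reg
  by_cases hold : ∀ f ∈ StarkC.homG T ρ, LinearMap.compRight ℂ Θ f ∈ StarkC.homG T ρ
  · have hnew : ∀ x ∈ StarkP.homG T ρ, LinearMap.compRight ℂ Θ' x ∈ StarkP.homG T ρ := by
      intro x hx
      have h1 := key ((homE T ρ).symm ⟨x, hx⟩)
      rw [LinearEquiv.apply_symm_apply] at h1
      rw [h1]
      exact (homE T ρ ⟨_, hold _ ((homE T ρ).symm ⟨x, hx⟩).2⟩).2
    rw [dif_pos hold]
    exact detOn_eq (M := StarkC.homG T ρ) (N := Module.Dual ℂ V →ₗ[ℂ] ((L → ℝ) →₀ ℂ)) _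
      (StarkP.homG T ρ) hnew ((LinearMap.compRight ℂ Θ).restrict hold) (homE T ρ) key
  · have hnew : ¬ ∀ x ∈ StarkP.homG T ρ, LinearMap.compRight ℂ Θ' x ∈ StarkP.homG T ρ := by
      intro hn
      apply hold
      intro f hf
      have h1 := hn _ (homE T ρ ⟨f, hf⟩).2
      have h2 := key ⟨f, hf⟩
      rw [h2] at h1
      have h3 := ((mem_homG ρ _).1 h1).2
      exact h3
    rw [dif_neg hold]
    exact detOn_neg (N := Module.Dual ℂ V →ₗ[ℂ] ((L → ℝ) →₀ ℂ)) _ _ hnew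

end StarkB
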