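import Pool.Agent.Stark.RStmts

/-!
# The theorem of Artin and Schreier for totally complex number fields
-/

open NumberField IsDedekindDomain
open scoped TensorProduct Classical

namespace StarkC
namespace RAS

variable {K E : Type} [Field K] [Field E] [Algebra K E]

theorem pow_succ_apply (t : E ≃ₐ[K] E) (j : ℕ) (y : E) : (t ^ (j + 1)) y = t ((t ^ j) y) := by
  rw [pow_succ', AlgEquiv.mul_apply]

theorem pow_eq_iff {r : ℕ} (hr : 0 < r) {ζ : E} (hζ : IsPrimitiveRoot ζ r) (i j : ℕ) :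
    ζ ^ i = ζ ^ j ↔ i ≡ j [MOD r] := by
  have h : ∀ i, ζ ^ i = ζ ^ (i % r) := by
    intro i
    conv_lhs => rw [← Nat.mod_add_div i r, pow_add, pow_mul, hζ.pow_eq_one, one_pow, mul_one]
  constructor
  · intro h1
    rw [h i, h j] at h1
    exact hζ.pow_inj (Nat.mod_lt _ hr) (Nat.mod_lt _ hr) h1
  · intro h1
    rw [h i, h j, show i % r = j % r from h1]

/-- roots of unity of order `r` are fixed -/
theorem fix_root (t : E ≃ₐ[K] E) {r : ℕ} (hr : r.Prime) (ht : t ^ r = 1) {ζ : E}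
    (hζ : IsPrimitiveRoot ζ r) : t ζ = ζ := by
  have : NeZero r := ⟨hr.ne_zero⟩
  have h1 : (t ζ) ^ r = 1 := by rw [← map_pow, hζ.pow_eq_one, map_one]
  obtain ⟨u, -, hu⟩ := hζ.eq_pow_of_pow_eq_one h1
  have h2 : ∀ j : ℕ, (t ^ j) ζ = ζ ^ (u ^ j) := by
    intro j
    induction j with
    | zero => simp
    | succ j ih => rw [pow_succ_apply, ih, map_pow, ← hu, ← pow_mul, ← pow_succ']
  have h3 : ζ ^ (u ^ r) = ζ ^ 1 := by
    rw [← h2 r, ht, pow_one]
    rfl
  rw [pow_eq_iff hr.pos hζ] at h3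
  have : Fact r.Prime := ⟨hr⟩
  have h4 : u ^ r ≡ u [MOD r] := by
    rw [← ZMod.natCast_eq_natCast_iff]
    push_cast
    exact ZMod.pow_card _
  have h5 : u ≡ 1 [MOD r] := h4.symm.trans h3
  rw [← hu]
  conv_rhs => rw [← pow_one ζ]
  rw [pow_eq_iff hr.pos hζ]
  exact h5

/-- an eigenvector with eigenvalue `ζ` -/
theorem eigen (t : E ≃ₐ[K] E) {r : ℕ} (hr : r.Prime) (ht : t ^ r = 1) (h1 : t ≠ 1) {ζ : E}
    (hζ : IsPrimitiveRoot ζ r) : ∃ b : E, b ≠ 0 ∧ t b = ζ * b := by
  have hfix := fix_root t hr ht hζ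
  have : Fact r.Prime := ⟨hr⟩
  have hord : orderOf t = r := orderOf_eq_prime ht h1
  have hζ0 : ζ ≠ 0 := hζ.ne_zero hr.ne_zero
  -- the powers of `t` are different multiplicative maps
  let f : Fin r → (E →* E) := fun i => ((t ^ (i : ℕ) : E ≃ₐ[K] E) : E →* E)
  have hf : Function.Injective f := by
    intro i j hij
    have h2 : t ^ (i : ℕ) = t ^ (j : ℕ) := by
      ext y
      have := DFunLike.congr_fun hij y
      exact this
    have h3 := pow_injOn_Iio_orderOf (x := t) (by rw [Set.mem_Iio, hord]; exact i.2)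
      (by rw [Set.mem_Iio, hord]; exact j.2) h2
    exact Fin.ext h3
  have hli := (linearIndependent_monoidHom E E).comp f hf
  by_contra hno
  push Not at hno
  have hz : ∀ y : E, ∑ i : Fin r, (ζ⁻¹ ^ (i : ℕ)) * (t ^ (i : ℕ)) y = 0 := by
    intro y
    by_contra hne
    refine hno _ hne ?_
    rw [map_sum, Finset.mul_sum]
    rw [Fin.sum_univ_eq_sum_range (fun i => t (ζ⁻¹ ^ i * (t ^ i) y)) r,
      Fin.sum_univ_eq_sum_range (fun i => ζ * (ζ⁻¹ ^ i * (t ^ i) y)) r]
    obtain ⟨m, rfl⟩ := Nat.exists_eq_succ_of_ne_zero hr.ne_zero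
    have e1 : ∀ i, t (ζ⁻¹ ^ i * (t ^ i) y) = ζ * (ζ⁻¹ ^ (i + 1) * (t ^ (i + 1)) y) := by
      intro i
      rw [map_mul, map_pow, map_inv₀, hfix, pow_succ_apply, pow_succ]
      field_simp
    rw [Finset.sum_range_succ, Finset.sum_range_succ', e1 m, Nat.succ_eq_add_one] at *
    rw [ht, inv_pow, hζ.pow_eq_one]
    simp only [pow_zero, AlgEquiv.one_apply, inv_one]
    congr 1
    exact Finset.sum_congr rfl fun i _ => e1 i
  rw [Fintype.linearIndependent_iff] at hli
  have h4 := hli (fun i => ζ⁻¹ ^ (i : ℕ)) (by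
    ext y
    have := hz y
    simpa [Finset.sum_apply, f] using this) ⟨0, hr.pos⟩
  simp at h4

/-- sums of squares of fixed elements are squares of fixed elements -/
theorem sq_sum [IsAlgClosed E] (t : E ≃ₐ[K] E) (ht : t ^ 2 = 1) {η : E} (hη : η ^ 2 = -1)
    (htη : t η = -η) {ι : Type} (s : Finset ι) (x : ι → E) (hx : ∀ i, t (x i) = x i) :
    ∃ w : E, t w = w ∧ w ^ 2 = ∑ i ∈ s, x i ^ 2 := by
  induction s using Finset.induction_on with
  | empty => exact ⟨0, by simp, by simp⟩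
  | insert a s ha ih =>
    obtain ⟨w, hw1, hw2⟩ := ih
    obtain ⟨c, hc⟩ := IsAlgClosed.exists_pow_nat_eq (x a + η * w) (show 0 < 2 by norm_num)
    have htt : t (t c) = c := by
      have h1 : (t ^ 2) c = t (t c) := by
        rw [pow_succ_apply, pow_one]
      rw [← h1, ht]
      rfl
    have hc2 : (t c) ^ 2 = x a - η * w := by
      rw [← map_pow, hc, map_add, map_mul, hx, htη, hw1]
      ring
    refine ⟨c * t c, ?_, ?_⟩
    · rw [map_mul, htt, mul_comm]
    · rw [Finset.sum_insert ha, ← hw2, mul_pow, hc, hc2]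
      linear_combination (-w ^ 2) * hη

/-- the theorem of Artin and Schreier for automorphisms of prime order -/
theorem prime_case [IsAlgClosed E] [CharZero E] {r : ℕ} (hr : r.Prime) (t : E ≃ₐ[K] E)
    (ht : t ^ r = 1) (h1 : t ≠ 1) {n : ℕ} (x : Fin n → K) (hx : ∑ i, x i ^ 2 = -1) : False := by
  have : NeZero (r : E) := ⟨by exact_mod_cast hr.ne_zero⟩
  obtain ⟨ζ, hζ⟩ : ∃ ζ : E, IsPrimitiveRoot ζ r := by
    obtain ⟨ζ, hζ⟩ := IsAlgClosed.exists_root (Polynomial.cyclotomic r E)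
      (Polynomial.degree_cyclotomic_pos r E hr.pos).ne'
    exact ⟨ζ, Polynomial.isRoot_cyclotomic_iff.1 hζ⟩
  have hfix := fix_root t hr ht hζ
  have hζ0 : ζ ≠ 0 := hζ.ne_zero hr.ne_zero
  obtain ⟨b, hb0, hb⟩ := eigen t hr ht h1 hζ
  obtain ⟨c, hc⟩ := IsAlgClosed.exists_pow_nat_eq b hr.pos
  have hc0 : c ≠ 0 := by
    rintro rfl
    rw [zero_pow hr.ne_zero] at hc
    exact hb0 hc.symm
  obtain ⟨η, hη⟩ : ∃ η : E, t c = η * c := ⟨t c / c, by field_simp⟩
  have hηr : η ^ r = ζ := by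
    have h2 : (t c) ^ r = ζ * c ^ r := by rw [← map_pow, hc, hb]
    rw [hη, mul_pow] at h2
    exact mul_right_cancel₀ (pow_ne_zero r hc0) h2
  have hη0 : η ≠ 0 := by
    rintro rfl
    rw [zero_pow hr.ne_zero] at hηr
    exact hζ0 hηr.symm
  have h2 : (t η / η) ^ r = 1 := by
    rw [div_pow, ← map_pow, hηr, hfix, div_self hζ0]
  have : NeZero r := ⟨hr.ne_zero⟩
  obtain ⟨k, -, hk⟩ := hζ.eq_pow_of_pow_eq_one h2
  have htη : t η = ζ ^ k * η := by rw [hk]; field_simp
  have hj : ∀ j : ℕ, (t ^ j) c = ζ ^ (k * j.choose 2) * η ^ j * c := by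
    intro j
    induction j with
    | zero => simp
    | succ j ih =>
      rw [pow_succ_apply, ih, map_mul, map_mul, map_pow, map_pow, hfix, htη, hη]
      have e1 : (j + 1).choose 2 = j.choose 2 + j := by
        rw [Nat.choose_succ_succ' j 1, Nat.choose_one_right, add_comm]
      rw [e1, mul_add, pow_add, mul_pow, pow_mul ζ k j]
      ring
  have h3 : ζ ^ (k * r.choose 2 + 1) = 1 := by
    have h4 := hj r
    rw [ht, hηr] at h4
    have h5 : (1 : E) * c = ζ ^ (k * r.choose 2 + 1) * c := by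
      rw [one_mul, pow_succ]
      exact h4
    exact (mul_right_cancel₀ hc0 h5).symm
  have h4 : r ∣ k * r.choose 2 + 1 := (hζ.pow_eq_one_iff_dvd _).1 h3
  rcases hr.eq_two_or_odd' with h5 | h5
  · subst h5
    have h6 : ¬ 2 ∣ k := by
      intro h7
      have : Nat.choose 2 2 = 1 := rfl
      rw [this, mul_one] at h4
      omega
    have hζ1 : ζ = -1 := hζ.eq_neg_one_of_two_right
    have h7 : Odd k := by
      rw [← Nat.not_even_iff_odd, even_iff_two_dvd]
      exact h6
    rw [hζ1, h7.neg_one_pow, neg_one_mul] at htη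
    rw [hζ1] at hηr
    obtain ⟨w, hw1, hw2⟩ := sq_sum t ht hηr htη Finset.univ (fun i => algebraMap K E (x i))
      (fun i => t.commutes (x i))
    have h8 : w ^ 2 = -1 := by
      rw [hw2]
      have := congrArg (algebraMap K E) hx
      simpa using this
    have h9 : w = η ∨ w = -η := sq_eq_sq_iff_eq_or_eq_neg.1 (h8.trans hηr.symm)
    have h10 : η = 0 := by
      rcases h9 with h9 | h9
      · rw [h9, htη] at hw1
        exact self_eq_neg.1 hw1.symm
      · rw [h9, map_neg, htη, neg_neg] at hw1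
        exact self_eq_neg.1 hw1
    exact hη0 h10
  · have h6 : r ∣ r.choose 2 := by
      apply hr.dvd_choose_self (by norm_num)
      rcases hr.two_le.lt_or_eq with h7 | h7
      · exact h7
      · rw [← h7] at h5
        exact absurd h5 (by decide)
    have h7 : r ∣ 1 := (Nat.dvd_add_right (h6.mul_left k)).1 h4
    exact hr.one_lt.ne' (Nat.dvd_one.1 h7)

end RAS

/-- **RAS**: elements of finite order of the absolute Galois group of a totally complex number
field are trivial. -/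
theorem RAS_thm (h : Stmt_RSSQ) : Stmt_RAS := by
  intro K _ _ hK σ e he hσ
  by_contra hne
  obtain ⟨n, x, hx⟩ := h K hK
  have hfin : IsOfFinOrder σ := isOfFinOrder_iff_pow_eq_one.2 ⟨e, he, hσ⟩
  have hn0 : orderOf σ ≠ 0 := hfin.orderOf_pos.ne'
  have hn1 : orderOf σ ≠ 1 := fun h1 => hne (orderOf_eq_one_iff.1 h1)
  have hr := Nat.minFac_prime hn1
  have hord := orderOf_pow_orderOf_div hn0 (Nat.minFac_dvd (orderOf σ))
  have : CharZero (AlgebraicClosure K) := charZero_of_injective_algebraMap (algebraMap K _).injective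
  refine RAS.prime_case hr (σ ^ (orderOf σ / (orderOf σ).minFac)) ?_ ?_ x hx
  · have h2 := pow_orderOf_eq_one (σ ^ (orderOf σ / (orderOf σ).minFac))
    rw [hord] at h2
    exact h2
  · intro h1
    rw [h1, orderOf_one] at hord
    exact hr.one_lt.ne hord

end StarkC
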