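import Pool.Agent.Stark.RBasic

/-!
# The valuation theoretic core of F. K. Schmidt's theorem at a finite level
-/

set_option linter.unusedSectionVars false

open NumberField IsDedekindDomain
open scoped Classical

namespace StarkC

namespace RPOLY

open Polynomial

/-- if a product is at most `t ^ card`, then some factor is at most `t` -/
theorem exists_small {N : Type} (r : Multiset N) (f : N → (WithZero (Multiplicative ℤ)))
    (t : (WithZero (Multiplicative ℤ))) (hr : 0 < r.card)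
    (h : (r.map f).prod ≤ t ^ r.card) : ∃ a ∈ r, f a ≤ t := by
  by_contra hcon
  push Not at hcon
  have key : ∀ r : Multiset N, 0 < r.card → (∀ a ∈ r, t < f a) → t ^ r.card < (r.map f).prod := by
    intro r
    induction r using Multiset.induction with
    | empty => intro hr; simp at hr
    | cons a r ih =>
      intro _ hcon
      rw [Multiset.card_cons, pow_succ', Multiset.map_cons, Multiset.prod_cons]
      have ha := hcon a (Multiset.mem_cons_self a r)
      rcases Nat.eq_zero_or_pos r.card with h0 | h0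
      · rw [Multiset.card_eq_zero] at h0
        subst h0
        simpa using ha
      · have ih' := ih h0 (fun b hb => hcon b (Multiset.mem_cons_of_mem hb))
        exact mul_lt_mul'' ha ih' zero_le zero_le
  exact absurd h (not_le.2 (key r hr hcon))

theorem exists_exp_lt (y : (WithZero (Multiplicative ℤ))) (hy : y ≠ 0) : ∃ D : ℕ, ∀ D' : ℕ, D ≤ D' →
    WithZero.exp (-(D' : ℤ)) < y := by
  refine ⟨(-(WithZero.log y)).toNat + 1, fun D' hD => ?_⟩
  have h1 : y = WithZero.exp (WithZero.log y) := (WithZero.exp_log hy).symm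
  rw [h1, WithZero.exp_lt_exp]
  omega

theorem exp_neg_mul (D n : ℕ) : WithZero.exp (-((n * D : ℕ) : ℤ)) =
    (WithZero.exp (-(D : ℤ)) : (WithZero (Multiplicative ℤ))) ^ n := by
  rw [← WithZero.exp_nsmul]
  congr 1
  push_cast
  rw [nsmul_eq_mul]
  ring

theorem exp_neg_le_one (D : ℕ) : WithZero.exp (-(D : ℤ)) ≤ (1 : (WithZero (Multiplicative ℤ))) := by
  rw [← WithZero.exp_zero, WithZero.exp_le_exp]
  omega

section One

variable {K L : Type} [Field K] [Field L] [NumberField L] [Algebra K L] [FiniteDimensional K L]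

theorem dec_zpowers {w : HeightOneSpectrum (𝓞 L)} {s : L ≃ₐ[K] L} (hs : Dec w s)
    (t : Subgroup.zpowers s) : Dec w (t : L ≃ₐ[K] L) := by
  obtain ⟨t, k, rfl⟩ := t
  show Dec w ((s ^ k : L ≃ₐ[K] L))
  cases k with
  | ofNat k => exact RB.dec_pow hs k
  | negSucc k =>
    rw [zpow_negSucc]
    exact RB.dec_inv (RB.dec_pow hs _)

/-- the product of the conjugates of `e` -/
noncomputable def EE (s : L ≃ₐ[K] L) (e : L) : L :=
  ∏ t : Subgroup.zpowers s, (t : L ≃ₐ[K] L) e

/-- the product of the `X - t θ` -/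
noncomputable def gg (s : L ≃ₐ[K] L) (θ : L) : L[X] :=
  ∏ t : Subgroup.zpowers s, (X - C ((t : L ≃ₐ[K] L) θ))

/-- the product of the `X - i` -/
noncomputable def pp (n : ℕ) : L[X] := ∏ i ∈ Finset.range n, (X - C ((i : ℕ) : L))

theorem EE_inv (s : L ≃ₐ[K] L) (e : L) : s (EE s e) = EE s e := by
  unfold EE
  rw [map_prod]
  refine Fintype.prod_equiv (Equiv.mulLeft (⟨s, Subgroup.mem_zpowers s⟩ : Subgroup.zpowers s))
    _ _ (fun t => ?_)
  rfl

theorem gg_inv (s : L ≃ₐ[K] L) (θ : L) : (gg s θ).map (s : L →+* L) = gg s θ := by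
  unfold gg
  rw [Polynomial.map_prod]
  refine Fintype.prod_equiv (Equiv.mulLeft (⟨s, Subgroup.mem_zpowers s⟩ : Subgroup.zpowers s))
    _ _ (fun t => ?_)
  rw [Polynomial.map_sub, Polynomial.map_X, Polynomial.map_C]
  rfl

theorem pp_inv (s : L ≃ₐ[K] L) (n : ℕ) : (pp n : L[X]).map (s : L →+* L) = pp n := by
  unfold pp
  rw [Polynomial.map_prod]
  refine Finset.prod_congr rfl fun i _ => ?_
  rw [Polynomial.map_sub, Polynomial.map_X, Polynomial.map_C, map_natCast]

theorem gg_monic (s : L ≃ₐ[K] L) (θ : L) : (gg s θ).Monic :=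
  monic_prod_of_monic _ _ fun _ _ => monic_X_sub_C _

theorem pp_monic (n : ℕ) : (pp n : L[X]).Monic :=
  monic_prod_of_monic _ _ fun _ _ => monic_X_sub_C _

theorem gg_natDegree (s : L ≃ₐ[K] L) (θ : L) :
    (gg s θ).natDegree = Fintype.card (Subgroup.zpowers s) := by
  unfold gg
  rw [natDegree_prod_of_monic _ _ fun _ _ => monic_X_sub_C _]
  simp

theorem pp_natDegree (n : ℕ) : (pp n : L[X]).natDegree = n := by
  unfold pp
  rw [natDegree_prod_of_monic _ _ fun _ _ => monic_X_sub_C _]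
  simp only [natDegree_X_sub_C, Finset.sum_const, Finset.card_range, smul_eq_mul, mul_one]

/-- the polynomial `E g + (1 - E) p`, written as `p + E (g - p)` -/
noncomputable def hh (s : L ≃ₐ[K] L) (e θ : L) : L[X] :=
  pp (Fintype.card (Subgroup.zpowers s)) +
    C (EE s e) * (gg s θ - pp (Fintype.card (Subgroup.zpowers s)))

theorem hh_inv (s : L ≃ₐ[K] L) (e θ : L) : (hh s e θ).map (s : L →+* L) = hh s e θ := by
  unfold hh
  rw [Polynomial.map_add, Polynomial.map_mul, Polynomial.map_sub, gg_inv, pp_inv,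
    Polynomial.map_C]
  congr 3
  exact EE_inv s e

theorem hh_degree_aux (s : L ≃ₐ[K] L) (e θ : L) :
    (C (EE s e) * (gg s θ - pp (Fintype.card (Subgroup.zpowers s)))).degree <
      (pp (Fintype.card (Subgroup.zpowers s)) : L[X]).degree := by
  set n := Fintype.card (Subgroup.zpowers s) with hn
  have hg := gg_monic s θ
  have hp : (pp n : L[X]).Monic := pp_monic n
  have hdeg : (gg s θ).degree = (pp n : L[X]).degree := by
    rw [degree_eq_natDegree hg.ne_zero, degree_eq_natDegree hp.ne_zero, gg_natDegree,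
      pp_natDegree]
  have h1 : (gg s θ - pp n).degree < (gg s θ).degree :=
    degree_sub_lt_left hdeg hg.ne_zero (by rw [hg.leadingCoeff, hp.leadingCoeff])
  rw [hdeg] at h1
  refine lt_of_le_of_lt ?_ h1
  refine (degree_mul_le _ _).trans ?_
  calc (C (EE s e)).degree + (gg s θ - pp n).degree ≤ 0 + (gg s θ - pp n).degree :=
        add_le_add_left degree_C_le _
    _ = _ := zero_add _

theorem hh_monic (s : L ≃ₐ[K] L) (e θ : L) : (hh s e θ).Monic :=
  (pp_monic _).add_of_left (hh_degree_aux s e θ)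

theorem hh_natDegree (s : L ≃ₐ[K] L) (e θ : L) :
    (hh s e θ).natDegree = Fintype.card (Subgroup.zpowers s) := by
  unfold hh
  rw [natDegree_add_eq_left_of_degree_lt (hh_degree_aux s e θ), pp_natDegree]

theorem hh_eval_nat (s : L ≃ₐ[K] L) (e θ : L) (i : ℕ)
    (hi : i < Fintype.card (Subgroup.zpowers s)) :
    (hh s e θ).eval (i : L) = EE s e * ∏ t : Subgroup.zpowers s, ((i : L) - (t : L ≃ₐ[K] L) θ) := by
  unfold hh gg pp
  have h0 : ∏ j ∈ Finset.range (Fintype.card (Subgroup.zpowers s)), ((i : L) - (j : L)) = 0 :=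
    Finset.prod_eq_zero (Finset.mem_range.2 hi) (sub_self _)
  simp only [eval_add, eval_mul, eval_sub, eval_prod, eval_X, eval_C]
  rw [h0]
  ring

theorem hh_eval_theta (s : L ≃ₐ[K] L) (e θ : L) :
    (hh s e θ).eval θ = (1 - EE s e) *
      ∏ j ∈ Finset.range (Fintype.card (Subgroup.zpowers s)), (θ - (j : L)) := by
  unfold hh gg pp
  have h0 : ∏ t : Subgroup.zpowers s, (θ - (t : L ≃ₐ[K] L) θ) = 0 :=
    Finset.prod_eq_zero (Finset.mem_univ (1 : Subgroup.zpowers s)) (sub_self _)
  simp only [eval_add, eval_mul, eval_sub, eval_prod, eval_X, eval_C]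
  rw [h0]
  ring

/-- the product of the conjugates is close to one where `e` is -/
theorem EE_close_one (w : HeightOneSpectrum (𝓞 L)) (s : L ≃ₐ[K] L) (hs : Dec w s) (e : L) (δ : (WithZero (Multiplicative ℤ)))
    (hδ : δ ≤ 1) (he : w.valuation L (1 - e) ≤ δ) : w.valuation L (1 - EE s e) ≤ δ := by
  unfold EE
  refine Finset.prod_induction _ (fun x => w.valuation L (1 - x) ≤ δ) ?_ ?_ ?_
  · intro x y hx hy
    have hx1 : w.valuation L x ≤ 1 := by
      have h1 : x = 1 - (1 - x) := by ring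
      rw [h1]
      refine (Valuation.map_sub _ _ _).trans (max_le ?_ (hx.trans hδ))
      rw [map_one]
    have h1 : 1 - x * y = (1 - x) + x * (1 - y) := by ring
    rw [h1]
    refine (Valuation.map_add _ _ _).trans (max_le hx ?_)
    rw [map_mul]
    calc w.valuation L x * w.valuation L (1 - y) ≤ 1 * δ := mul_le_mul' hx1 hy
      _ = δ := one_mul _
  · rw [sub_self, map_zero]
    exact zero_le
  · intro t _
    have h1 : (1 : L) - (t : L ≃ₐ[K] L) e = (t : L ≃ₐ[K] L) (1 - e) := by
      rw [map_sub, map_one]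
    rw [h1, RB.val_dec (dec_zpowers hs t)]
    exact he

theorem EE_small (w : HeightOneSpectrum (𝓞 L)) (s : L ≃ₐ[K] L) (hs : Dec w s) (e : L) (δ : (WithZero (Multiplicative ℤ)))
    (hδ : δ ≤ 1) (he : w.valuation L e ≤ δ) : w.valuation L (EE s e) ≤ δ := by
  unfold EE
  rw [map_prod]
  have h1 : ∀ t : Subgroup.zpowers s,
      w.valuation L ((t : L ≃ₐ[K] L) e) = w.valuation L e := fun t =>
    RB.val_dec (dec_zpowers hs t) e
  simp only [h1]
  rw [Finset.prod_const, Finset.card_univ]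
  refine (pow_le_of_le_one zero_le (he.trans hδ) Fintype.card_ne_zero).trans he

end One

section Val

variable {L : Type} [Field L] [NumberField L]

theorem val_int_le_one (w : HeightOneSpectrum (𝓞 L)) (x : 𝓞 L) :
    w.valuation L (x : L) ≤ 1 := w.valuation_le_one x

theorem prod_le_one {ι : Type} (w : HeightOneSpectrum (𝓞 L)) (S : Finset ι) (f : ι → L)
    (hf : ∀ i ∈ S, w.valuation L (f i) ≤ 1) : w.valuation L (∏ i ∈ S, f i) ≤ 1 := by
  rw [map_prod]
  exact Finset.prod_le_one' hf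

theorem val_eval (w : HeightOneSpectrum (𝓞 L)) (h : L[X]) (hspl : h.Splits) (hmon : h.Monic)
    (y : L) : (h.roots.map (fun x => w.valuation L (y - x))).prod = w.valuation L (h.eval y) := by
  rw [hspl.eval_eq_prod_roots_of_monic hmon, map_multiset_prod, Multiset.map_map]
  rfl

end Val

theorem exists_moved {K L : Type} [Field K] [Field L] [NumberField L] [Algebra K L]
    (s : L ≃ₐ[K] L) (hs : s ≠ 1) : ∃ θ : 𝓞 L, s (θ : L) ≠ (θ : L) := by
  by_contra hcon
  push Not at hcon
  apply hs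
  ext x
  obtain ⟨a, b, _, rfl⟩ := IsFractionRing.div_surjective (A := 𝓞 L) x
  rw [map_div₀]
  have ha : s (algebraMap (𝓞 L) L a) = algebraMap (𝓞 L) L a := hcon a
  have hb : s (algebraMap (𝓞 L) L b) = algebraMap (𝓞 L) L b := hcon b
  rw [ha, hb]
  rfl

theorem core {K L : Type} [Field K] [Field L] [NumberField L] [Algebra K L]
    [FiniteDimensional K L] (s : L ≃ₐ[K] L) (P₀ Q₀ : HeightOneSpectrum (𝓞 L)) (hs : s ≠ 1)
    (hP : Dec P₀ s) (hQ : Dec Q₀ s) (hne : P₀ ≠ Q₀) :
    ∃ (D : ℕ) (e θ : L),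
      WithZero.exp (-(D : ℤ)) < P₀.valuation L (s θ - θ) ∧
      (∀ i j : ℕ, i < Fintype.card (Subgroup.zpowers s) → j < Fintype.card (Subgroup.zpowers s) →
        i ≠ j → WithZero.exp (-(D : ℤ)) < Q₀.valuation L ((i : L) - (j : L))) ∧
      P₀.valuation L ((hh s e θ).eval θ) ≤
        (WithZero.exp (-(D : ℤ)) : (WithZero (Multiplicative ℤ))) ^ Fintype.card (Subgroup.zpowers s) ∧
      ∀ i < Fintype.card (Subgroup.zpowers s), Q₀.valuation L ((hh s e θ).eval (i : L)) ≤
        (WithZero.exp (-(D : ℤ)) : (WithZero (Multiplicative ℤ))) ^ Fintype.card (Subgroup.zpowers s) := by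
  set n := Fintype.card (Subgroup.zpowers s) with hn
  obtain ⟨θ, hθ⟩ := exists_moved s hs
  obtain ⟨D1, hD1⟩ := exists_exp_lt (P₀.valuation L (s (θ : L) - (θ : L)))
    ((Valuation.ne_zero_iff _).2 (sub_ne_zero.2 hθ))
  have hpair : ∀ p : ℕ × ℕ, ∃ D : ℕ, ∀ D' : ℕ, D ≤ D' → p.1 ≠ p.2 →
      WithZero.exp (-(D' : ℤ)) < Q₀.valuation L ((p.1 : L) - (p.2 : L)) := by
    intro p
    by_cases hp : p.1 = p.2
    · exact ⟨0, fun _ _ h => absurd hp h⟩
    · obtain ⟨D, hD⟩ := exists_exp_lt (Q₀.valuation L ((p.1 : L) - (p.2 : L)))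
        ((Valuation.ne_zero_iff _).2 (sub_ne_zero.2 (by exact_mod_cast hp)))
      exact ⟨D, fun D' h _ => hD D' h⟩
  choose Df hDf using hpair
  set D := max D1 ((Finset.range n ×ˢ Finset.range n).sup Df) with hD
  have hcop : IsCoprime (P₀.asIdeal ^ (n * D)) (Q₀.asIdeal ^ (n * D)) := by
    apply IsCoprime.pow
    have := P₀.isMaximal
    have := Q₀.isMaximal
    exact Ideal.isCoprime_of_isMaximal (fun h => hne (HeightOneSpectrum.ext h))
  obtain ⟨a, ha, b, hb, hab⟩ := Ideal.isCoprime_iff_exists.1 hcop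
  have hvb : Q₀.valuation L ((b : 𝓞 L) : L) ≤ (WithZero.exp (-(D : ℤ)) : (WithZero (Multiplicative ℤ))) ^ n := by
    rw [← exp_neg_mul]
    have h1 : Q₀.valuation L (algebraMap (𝓞 L) L b) = Q₀.intValuation b :=
      HeightOneSpectrum.valuation_of_algebraMap Q₀ b
    refine (le_of_eq h1).trans ?_
    exact (HeightOneSpectrum.intValuation_le_pow_iff_mem Q₀ b (n * D)).2 hb
  have hva : P₀.valuation L (1 - ((b : 𝓞 L) : L)) ≤ (WithZero.exp (-(D : ℤ)) : (WithZero (Multiplicative ℤ))) ^ n := by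
    rw [← exp_neg_mul]
    have h0 : (1 : L) - ((b : 𝓞 L) : L) = algebraMap (𝓞 L) L a := by
      have h2 : ((a + b : 𝓞 L) : L) = 1 := by rw [hab]; rfl
      have h3 : ((a + b : 𝓞 L) : L) = (a : L) + (b : L) := rfl
      rw [h3] at h2
      rw [← h2]
      show (a : L) + (b : L) - (b : L) = (a : L)
      ring
    rw [h0, HeightOneSpectrum.valuation_of_algebraMap]
    exact (HeightOneSpectrum.intValuation_le_pow_iff_mem P₀ a (n * D)).2 ha
  have hδ : (WithZero.exp (-(D : ℤ)) : (WithZero (Multiplicative ℤ))) ^ n ≤ 1 := pow_le_one' (exp_neg_le_one D) n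
  refine ⟨D, (b : L), (θ : L), hD1 D (le_max_left _ _), ?_, ?_, ?_⟩
  · intro i j hi hj hij
    refine hDf (i, j) D (le_trans ?_ (le_max_right _ _)) hij
    exact Finset.le_sup (f := Df) (Finset.mk_mem_product (Finset.mem_range.2 hi)
      (Finset.mem_range.2 hj))
  · rw [hh_eval_theta, map_mul]
    have h1 := EE_close_one P₀ s hP (b : L) _ hδ hva
    have h2 : P₀.valuation L (∏ j ∈ Finset.range n, ((θ : L) - (j : L))) ≤ 1 := by
      refine prod_le_one P₀ _ _ fun j _ => ?_
      have : ((θ : L) - (j : L)) = ((θ - (j : 𝓞 L) : 𝓞 L) : L) := by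
        show (θ : L) - (j : L) = (θ : L) - ((j : 𝓞 L) : L)
        have hj : ((j : 𝓞 L) : L) = (j : L) := map_natCast (algebraMap (𝓞 L) L) j
        rw [hj]
      rw [this]
      exact val_int_le_one P₀ _
    calc P₀.valuation L (1 - EE s (b : L)) * P₀.valuation L (∏ j ∈ Finset.range n, ((θ : L) - (j : L)))
        ≤ (WithZero.exp (-(D : ℤ)) : (WithZero (Multiplicative ℤ))) ^ n * 1 := mul_le_mul' h1 h2
      _ = _ := mul_one _
  · intro i hi
    rw [hh_eval_nat s _ _ i hi, map_mul]
    have h1 := EE_small Q₀ s hQ (b : L) _ hδ hvb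
    have h2 : Q₀.valuation L (∏ t : Subgroup.zpowers s, ((i : L) - (t : L ≃ₐ[K] L) (θ : L))) ≤ 1 := by
      refine prod_le_one Q₀ _ _ fun t _ => ?_
      have : ((i : L) - (t : L ≃ₐ[K] L) (θ : L)) =
          (((i : 𝓞 L) - STB.oMap ((t : L ≃ₐ[K] L) : L ≃+* L) θ : 𝓞 L) : L) := by
        show (i : L) - (t : L ≃ₐ[K] L) (θ : L) =
          ((i : 𝓞 L) : L) - (t : L ≃ₐ[K] L) (θ : L)
        have hj : ((i : 𝓞 L) : L) = (i : L) := map_natCast (algebraMap (𝓞 L) L) i
        rw [hj]
      rw [this]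
      exact val_int_le_one Q₀ _
    calc Q₀.valuation L (EE s (b : L)) *
          Q₀.valuation L (∏ t : Subgroup.zpowers s, ((i : L) - (t : L ≃ₐ[K] L) (θ : L)))
        ≤ (WithZero.exp (-(D : ℤ)) : (WithZero (Multiplicative ℤ))) ^ n * 1 := mul_le_mul' h1 h2
      _ = _ := mul_one _

end RPOLY

open RPOLY Polynomial in
theorem RPOLY_thm : Stmt_RPOLY := by
  intro K L _ _ _ _ _ _ s P₀ Q₀ hs hP hQ hne
  obtain ⟨D, e, θ, h1, h2, h3, h4⟩ := core s P₀ Q₀ hs hP hQ hne
  set n := Fintype.card (Subgroup.zpowers s) with hn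
  have hn0 : 0 < n := Fintype.card_pos
  refine ⟨hh s e θ, (hh_monic s e θ).ne_zero, ?_⟩
  intro N _ _ _ _ _ _ hspl σ P Q hσP hσQ hP0 hQ0 hres
  subst hP0 hQ0
  set h' : N[X] := (hh s e θ).map (algebraMap L N) with hh'
  have hmon : h'.Monic := (hh_monic s e θ).map _
  have hcard : h'.roots.card = n := by
    rw [← hspl.natDegree_eq_card_roots, hh', natDegree_map, hh_natDegree]
  have hσ : ∀ y : L, σ (algebraMap L N y) = algebraMap L N (s y) := by
    intro y
    rw [← hres]
    exact (AlgEquiv.restrictNormal_commutes σ L y).symm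
  have hroot : ∀ x ∈ h'.roots, σ x ∈ h'.roots := by
    intro x hx
    rw [mem_roots hmon.ne_zero] at hx ⊢
    have hmap : h'.map (σ : N →+* N) = h' := by
      rw [hh', Polynomial.map_map]
      have h5 : (σ : N →+* N).comp (algebraMap L N) = (algebraMap L N).comp (s : L →+* L) := by
        ext y
        exact hσ y
      rw [h5, ← Polynomial.map_map, hh_inv]
    have h5 : IsRoot (h'.map (σ : N →+* N)) ((σ : N →+* N) x) := hx.map
    rw [hmap] at h5
    exact h5
  obtain ⟨eQ, heQ, hvQ⟩ := RB.val_liesOver (L := L) Q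
  obtain ⟨eP, heP, hvP⟩ := RB.val_liesOver (L := L) P
  have heval : ∀ y : L, h'.eval (algebraMap L N y) = algebraMap L N ((hh s e θ).eval y) := by
    intro y
    rw [hh', eval_map, eval₂_at_apply]
  -- every root is close to exactly one of the integers `0, …, n - 1`
  set τ : WithZero (Multiplicative ℤ) := (WithZero.exp (-(D : ℤ))) ^ eQ with hτ
  have hclose : ∀ i : Fin n, ∃ x ∈ h'.roots, Q.valuation N (((i : ℕ) : N) - x) ≤ τ := by
    intro i
    refine exists_small h'.roots (fun x => Q.valuation N (((i : ℕ) : N) - x)) τ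
      (by rw [hcard]; exact hn0) ?_
    rw [val_eval Q h' hspl hmon, hcard, ← map_natCast (algebraMap L N), heval, hvQ, hτ, ← pow_mul,
      mul_comm eQ n, pow_mul]
    exact pow_le_pow_left' (h4 i i.2) eQ
  have huniq : ∀ (i j : Fin n) (y : N), Q.valuation N (((i : ℕ) : N) - y) ≤ τ →
      Q.valuation N (((j : ℕ) : N) - y) ≤ τ → i = j := by
    intro i j y hi hj
    by_contra hij
    have h5 : (i : ℕ) ≠ (j : ℕ) := fun h => hij (Fin.ext h)
    have h6 := h2 i j i.2 j.2 h5
    have h7 : Q.valuation N (((i : ℕ) : N) - ((j : ℕ) : N)) ≤ τ := by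
      have h8 : (((i : ℕ) : N) - ((j : ℕ) : N)) =
          (((i : ℕ) : N) - y) - (((j : ℕ) : N) - y) := by ring
      rw [h8]
      exact (Valuation.map_sub _ _ _).trans (max_le hi hj)
    have h9 : (((i : ℕ) : N) - ((j : ℕ) : N)) =
        algebraMap L N (((i : ℕ) : L) - ((j : ℕ) : L)) := by
      rw [map_sub, map_natCast, map_natCast]
    rw [h9, hvQ] at h7
    exact absurd h7 (not_le.2 (pow_lt_pow_left₀ h6 zero_le heQ.ne'))
  choose f hf1 hf2 using hclose
  have hinj : Function.Injective f := fun i j hij =>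
    huniq i j (f i) (hf2 i) (by rw [hij]; exact hf2 j)
  have himg : Finset.univ.image f = h'.roots.toFinset := by
    apply Finset.eq_of_subset_of_card_le
    · intro x hx
      rw [Finset.mem_image] at hx
      obtain ⟨i, _, rfl⟩ := hx
      exact Multiset.mem_toFinset.2 (hf1 i)
    · rw [Finset.card_image_of_injective _ hinj, Finset.card_univ, Fintype.card_fin, ← hcard]
      exact Multiset.toFinset_card_le _
  have hsurj : ∀ x ∈ h'.roots, ∃ i, f i = x := by
    intro x hx
    have h5 : x ∈ Finset.univ.image f := by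
      rw [himg]
      exact Multiset.mem_toFinset.2 hx
    obtain ⟨i, _, hi⟩ := Finset.mem_image.1 h5
    exact ⟨i, hi⟩
  have hfix : ∀ x ∈ h'.roots, σ x = x := by
    intro x hx
    obtain ⟨i, rfl⟩ := hsurj x hx
    obtain ⟨j, hj⟩ := hsurj _ (hroot _ hx)
    have h5 : Q.valuation N (((i : ℕ) : N) - σ (f i)) ≤ τ := by
      have h6 : (((i : ℕ) : N) - σ (f i)) = σ (((i : ℕ) : N) - f i) := by
        rw [map_sub, map_natCast]
      rw [h6, RB.val_dec hσQ]
      exact hf2 i
    have h6 : Q.valuation N (((j : ℕ) : N) - σ (f i)) ≤ τ := by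
      rw [← hj]
      exact hf2 j
    have h7 := huniq i j _ h5 h6
    rw [← hj, h7]
  -- a root close to `θ` at `P`
  obtain ⟨x, hx, hxθ⟩ := exists_small h'.roots
    (fun x => P.valuation N (algebraMap L N θ - x)) ((WithZero.exp (-(D : ℤ))) ^ eP)
    (by rw [hcard]; exact hn0) (by
      rw [val_eval P h' hspl hmon, hcard, heval, hvP, ← pow_mul, mul_comm eP n, pow_mul]
      exact pow_le_pow_left' h3 eP)
  have h5 : P.valuation N (σ (algebraMap L N θ) - x) ≤ (WithZero.exp (-(D : ℤ))) ^ eP := by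
    have h6 : σ (algebraMap L N θ) - x = σ (algebraMap L N θ - x) := by
      rw [map_sub, hfix x hx]
    rw [h6, RB.val_dec hσP]
    exact hxθ
  have h6 : P.valuation N (algebraMap L N (s θ - θ)) ≤ (WithZero.exp (-(D : ℤ))) ^ eP := by
    have h7 : algebraMap L N (s θ - θ) = (σ (algebraMap L N θ) - x) - (algebraMap L N θ - x) := by
      rw [map_sub, hσ]
      ring
    rw [h7]
    exact (Valuation.map_sub _ _ _).trans (max_le h5 hxθ)
  rw [hvP] at h6
  exact absurd h6 (not_le.2 (pow_lt_pow_left₀ h1 zero_le heP.ne'))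

end StarkC
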