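import Pool.Agent.Stark.RStmts

/-!
RQE: powers of elements of a quasi-elementary group commute with elements of the cyclic part.
-/

namespace StarkC

theorem RQE_thm : StarkC.Stmt_RQE := by
  intro G _ _ p C n hp hN hC hpC hidx q b x τ hq hx hxq
  haveI := hN
  haveI := hC
  haveI := Fact.mk hq
  haveI := Fact.mk hp
  obtain ⟨c, hc⟩ := IsCyclic.exists_monoid_generator (α := C)
  obtain ⟨u, hu⟩ := (Submonoid.mem_powers_iff _ _).1
    (hc ⟨τ * (c : G) * τ⁻¹, hN.conj_mem _ c.2 τ⟩)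
  obtain ⟨j, hj⟩ := (Submonoid.mem_powers_iff _ _).1 (hc ⟨x, hx⟩)
  have hu' : (c : G) ^ u = τ * (c : G) * τ⁻¹ := by
    have := congrArg (Subtype.val) hu
    simpa using this
  have hj' : (c : G) ^ j = x := by
    have := congrArg (Subtype.val) hj
    simpa using this
  have hconj : τ * x * τ⁻¹ = x ^ u := by
    rw [← hj', ← conj_pow, ← hu', ← pow_mul, ← pow_mul, mul_comm]
  have hk : ∀ k : ℕ, τ ^ k * x * (τ ^ k)⁻¹ = x ^ (u ^ k) := by
    intro k
    induction k with
    | zero => simp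
    | succ k ih =>
      have : τ ^ (k + 1) * x * (τ ^ (k + 1))⁻¹ = τ * (τ ^ k * x * (τ ^ k)⁻¹) * τ⁻¹ := by
        rw [pow_succ']
        group
      rw [this, ih, ← conj_pow, hconj, ← pow_mul, ← pow_succ']
  have hcomm : ∀ k : ℕ, x ^ (u ^ k) = x → τ ^ k * x = x * τ ^ k := by
    intro k h
    have := (hk k).trans h
    rw [mul_inv_eq_iff_eq_mul] at this
    exact this
  by_cases hx1 : x = 1
  · subst hx1
    simp
  apply hcomm
  -- the power of `τ` in `C`
  have hmem : τ ^ (p ^ n) ∈ C := hidx ▸ Subgroup.pow_index_mem C τ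
  have hcc : x ^ (u ^ (p ^ n)) = x := by
    rw [← hk (p ^ n)]
    have hcg : τ ^ (p ^ n) * x = x * τ ^ (p ^ n) := by
      letI := IsCyclic.commGroup (α := C)
      have := mul_comm (⟨τ ^ (p ^ n), hmem⟩ : C) ⟨x, hx⟩
      have := congrArg (Subtype.val) this
      simpa using this
    rw [hcg, mul_assoc, mul_inv_cancel, mul_one]
  -- the order of `x`
  obtain ⟨b', hb', hord⟩ := (Nat.dvd_prime_pow hq).1 (orderOf_dvd_of_pow_eq_one hxq)
  have hb0 : b' ≠ 0 := by
    rintro rfl
    exact hx1 (orderOf_eq_one_iff.1 (by simpa using hord))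
  have hqp : q ≠ p := by
    rintro rfl
    apply hpC
    have h1 : orderOf (⟨x, hx⟩ : C) ∣ Nat.card C := orderOf_dvd_natCard _
    have h2 : orderOf (⟨x, hx⟩ : C) = orderOf x := (Subgroup.orderOf_mk x hx)
    rw [h2, hord] at h1
    exact (dvd_pow_self q hb0).trans h1
  have hmod : u ^ (p ^ n) ≡ 1 [MOD q ^ b'] := by
    rw [← hord]
    apply (pow_eq_pow_iff_modEq).1
    rw [hcc, pow_one]
  have hcop : Nat.Coprime u (q ^ b') := by
    have h1 : Nat.Coprime (u ^ (p ^ n)) (q ^ b') := by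
      have := hmod.gcd_eq
      rw [Nat.Coprime, this, Nat.gcd_one_left]
    exact Nat.Coprime.coprime_dvd_left (dvd_pow_self u (pow_ne_zero n hp.ne_zero)) h1
  set v : (ZMod (q ^ b'))ˣ := ZMod.unitOfCoprime u hcop with hv
  have hv1 : v ^ (p ^ n) = 1 := by
    apply Units.ext
    have := (ZMod.natCast_eq_natCast_iff _ _ _).2 hmod
    simpa [hv] using this
  have hv2 : v ^ (q ^ (b' - 1) * (q - 1)) = 1 := by
    have := ZMod.pow_totient v
    rwa [Nat.totient_prime_pow hq (Nat.pos_of_ne_zero hb0)] at this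
  have hv3 : v ^ (q - 1) = 1 := by
    have h1 := orderOf_dvd_of_pow_eq_one hv1
    have h2 := orderOf_dvd_of_pow_eq_one hv2
    have h3 : Nat.Coprime (orderOf v) (q ^ (b' - 1)) :=
      Nat.Coprime.coprime_dvd_left h1 (Nat.coprime_pow_primes _ _ hp hq (Ne.symm hqp))
    exact orderOf_dvd_iff_pow_eq_one.1 (h3.dvd_of_dvd_mul_left h2)
  have hmod2 : u ^ (q - 1) ≡ 1 [MOD q ^ b'] := by
    apply (ZMod.natCast_eq_natCast_iff _ _ _).1
    have := congrArg (Units.val) hv3
    simpa [hv] using this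
  rw [← hord] at hmod2
  have := (pow_eq_pow_iff_modEq (x := x)).2 hmod2
  rwa [pow_one] at this

end StarkC
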