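import Pool.Agent.Stark.RStmts

/-!
# Stark's conjecture, reduction of the ramification: RSSQ

`-1` is a sum of squares in a totally complex number field.
-/

open NumberField IsDedekindDomain
open scoped TensorProduct Classical

namespace StarkC
namespace RSSQ

/-- A preordering, as a set. -/
structure IsPre {K : Type} [Field K] (S : Set K) : Prop where
  add : ∀ {x y : K}, x ∈ S → y ∈ S → x + y ∈ S
  mul : ∀ {x y : K}, x ∈ S → y ∈ S → x * y ∈ S
  sq : ∀ x : K, x * x ∈ S
  neg_one : (-1 : K) ∉ S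

/-- Every preordering is contained in a maximal one. -/
theorem exists_maximal {K : Type} [Field K] (S : Set K) (hS : IsPre S) :
    ∃ M : Set K, S ⊆ M ∧ Maximal (· ∈ {T : Set K | IsPre T}) M := by
  refine zorn_subset_nonempty {T : Set K | IsPre T} ?_ S hS
  intro c hc hchain hne
  obtain ⟨T₀, hT₀⟩ := hne
  refine ⟨⋃₀ c, ?_, fun s hs => Set.subset_sUnion_of_mem hs⟩
  have two : ∀ {x y : K}, x ∈ ⋃₀ c → y ∈ ⋃₀ c → ∃ T ∈ c, x ∈ T ∧ y ∈ T := by
    rintro x y ⟨T, hT, hx⟩ ⟨U, hU, hy⟩
    rcases hchain.total hT hU with h | h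
    · exact ⟨U, hU, h hx, hy⟩
    · exact ⟨T, hT, hx, h hy⟩
  refine ⟨?_, ?_, ?_, ?_⟩
  · intro x y hx hy
    obtain ⟨T, hT, hx, hy⟩ := two hx hy
    exact ⟨T, hT, (hc hT).add hx hy⟩
  · intro x y hx hy
    obtain ⟨T, hT, hx, hy⟩ := two hx hy
    exact ⟨T, hT, (hc hT).mul hx hy⟩
  · intro x
    exact ⟨T₀, hT₀, (hc hT₀).sq x⟩
  · rintro ⟨T, hT, h⟩
    exact (hc hT).neg_one h

/-- If `x` is not in the maximal preordering `M`, then `-1 = a + x b` with `a`, `b` in `M`. -/
theorem exists_of_notMem {K : Type} [Field K] {M : Set K}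
    (hM : Maximal (· ∈ {T : Set K | IsPre T}) M) {x : K} (hx : x ∉ M) :
    ∃ a ∈ M, ∃ b ∈ M, (-1 : K) = a + x * b := by
  by_contra hcon
  push Not at hcon
  have hP : IsPre M := hM.prop
  have h0 : (0 : K) ∈ M := by simpa using hP.sq 0
  have h1 : (1 : K) ∈ M := by simpa using hP.sq 1
  have hQ : IsPre {y : K | ∃ a ∈ M, ∃ b ∈ M, y = a + x * b} := by
    refine ⟨?_, ?_, ?_, ?_⟩
    · rintro _ _ ⟨a, ha, b, hb, rfl⟩ ⟨a', ha', b', hb', rfl⟩
      exact ⟨a + a', hP.add ha ha', b + b', hP.add hb hb', by ring⟩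
    · rintro _ _ ⟨a, ha, b, hb, rfl⟩ ⟨a', ha', b', hb', rfl⟩
      exact ⟨a * a' + (x * x) * (b * b'),
        hP.add (hP.mul ha ha') (hP.mul (hP.sq x) (hP.mul hb hb')),
        a * b' + a' * b, hP.add (hP.mul ha hb') (hP.mul ha' hb), by ring⟩
    · intro y
      exact ⟨y * y, hP.sq y, 0, h0, by ring⟩
    · rintro ⟨a, ha, b, hb, h⟩
      exact hcon a ha b hb h
  have hsub : M ⊆ {y : K | ∃ a ∈ M, ∃ b ∈ M, y = a + x * b} :=
    fun a ha => ⟨a, ha, 0, h0, by ring⟩
  exact hx (hM.le_of_ge hQ hsub ⟨0, h0, 1, h1, by ring⟩)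

/-- A maximal preordering contains `x` or `-x`. -/
theorem mem_or_neg_mem' {K : Type} [Field K] {M : Set K}
    (hM : Maximal (· ∈ {T : Set K | IsPre T}) M) (x : K) : x ∈ M ∨ -x ∈ M := by
  by_contra hcon
  push Not at hcon
  have hP : IsPre M := hM.prop
  obtain ⟨a, ha, b, hb, h⟩ := exists_of_notMem hM hcon.1
  obtain ⟨c, hc, d, hd, h'⟩ := exists_of_notMem hM hcon.2
  refine hP.neg_one ?_
  have key : (-1 : K) = a + c + a * c + (x * x) * (b * d) := by
    linear_combination (1 + c) * h - (x * b) * h'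
  rw [key]
  exact hP.add (hP.add (hP.add ha hc) (hP.mul ha hc)) (hP.mul (hP.sq x) (hP.mul hb hd))

/-- The support of a preordering of a field is trivial. -/
theorem eq_zero_of_mem {K : Type} [Field K] {M : Set K} (hP : IsPre M) {x : K}
    (h : x ∈ M) (h' : -x ∈ M) : x = 0 := by
  by_contra hx
  refine hP.neg_one ?_
  have : (-1 : K) = -x * (x * (x⁻¹ * x⁻¹)) := by field_simp
  rw [this]
  exact hP.mul h' (hP.mul h (hP.sq _))

/-- An algebraic ordered field is archimedean. -/
theorem archimedean_of_algebraic (K : Type) [Field K] [LinearOrder K] [IsStrictOrderedRing K]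
    [Algebra ℚ K] [Algebra.IsAlgebraic ℚ K] : Archimedean K := by
  rw [archimedean_iff_nat_le]
  intro x
  by_cases hx1 : x ≤ 1
  · exact ⟨1, by simpa using hx1⟩
  push Not at hx1
  have hint : IsIntegral ℚ x := (Algebra.IsAlgebraic.isAlgebraic x).isIntegral
  set p := minpoly ℚ x with hp
  have hmon : p.Monic := minpoly.monic hint
  have hroot : Polynomial.aeval x p = 0 := minpoly.aeval ℚ x
  have hdeg : 0 < p.natDegree := minpoly.natDegree_pos hint
  obtain ⟨m, hm⟩ : ∃ m, p.natDegree = m + 1 := ⟨p.natDegree - 1, by omega⟩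
  rw [Polynomial.aeval_eq_sum_range, hm, Finset.sum_range_succ] at hroot
  have hlead : p.coeff (m + 1) = 1 := by rw [← hm]; exact hmon
  rw [hlead, one_smul] at hroot
  have hcast : ∀ q : ℚ, (algebraMap ℚ K) q = (q : K) := fun q => by
    simp
  have hxpos : 0 < x := lt_trans one_pos hx1
  have hxm : 0 < x ^ m := pow_pos hxpos m
  have hbound : x ^ (m + 1) ≤ (∑ i ∈ Finset.range (m + 1), |((p.coeff i : ℚ) : K)|) * x ^ m := by
    have h1 : x ^ (m + 1) = ∑ i ∈ Finset.range (m + 1), -(((p.coeff i : ℚ) : K) * x ^ i) := by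
      rw [Finset.sum_neg_distrib]
      rw [eq_neg_iff_add_eq_zero, add_comm]
      rw [← hroot]
      congr 1
      refine Finset.sum_congr rfl fun i _ => ?_
      rw [Algebra.smul_def, hcast]
    rw [h1, Finset.sum_mul]
    refine Finset.sum_le_sum fun i hi => ?_
    have hi' : i ≤ m := by
      have := Finset.mem_range.mp hi
      omega
    have h2 : x ^ i ≤ x ^ m := pow_le_pow_right₀ hx1.le hi'
    calc -(((p.coeff i : ℚ) : K) * x ^ i) ≤ |((p.coeff i : ℚ) : K) * x ^ i| := neg_le_abs _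
      _ = |((p.coeff i : ℚ) : K)| * x ^ i := by
          rw [abs_mul, abs_of_pos (pow_pos hxpos i)]
      _ ≤ |((p.coeff i : ℚ) : K)| * x ^ m :=
          mul_le_mul_of_nonneg_left h2 (abs_nonneg _)
  have hle : x ≤ ∑ i ∈ Finset.range (m + 1), |((p.coeff i : ℚ) : K)| := by
    rw [pow_succ, mul_comm] at hbound
    exact le_of_mul_le_mul_right hbound hxm
  obtain ⟨n, hn⟩ := exists_nat_ge (∑ i ∈ Finset.range (m + 1), |(p.coeff i : ℚ)|)
  refine ⟨n, hle.trans ?_⟩
  have : ((∑ i ∈ Finset.range (m + 1), |(p.coeff i : ℚ)| : ℚ) : K) ≤ ((n : ℚ) : K) := by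
    exact_mod_cast hn
  simpa using this

/-- A maximal preordering of an algebraic field gives a real embedding. -/
theorem exists_real_hom (K : Type) [Field K] [NumberField K] {M : Set K}
    (hM : Maximal (· ∈ {T : Set K | IsPre T}) M) : Nonempty (K →+* ℝ) := by
  have hP : IsPre M := hM.prop
  have h0 : (0 : K) ∈ M := by simpa using hP.sq 0
  have h1 : (1 : K) ∈ M := by simpa using hP.sq 1
  let C : RingCone K :=
    { carrier := M
      mul_mem' := hP.mul
      one_mem' := h1
      add_mem' := hP.add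
      zero_mem' := h0
      eq_zero_of_mem_of_neg_mem' := fun h h' => eq_zero_of_mem hP h h' }
  have : HasMemOrNegMem C := ⟨fun x => mem_or_neg_mem' hM x⟩
  let _ : LinearOrder K := LinearOrder.mkOfAddGroupCone C
  have : IsOrderedRing K := IsOrderedRing.mkOfCone C
  have : IsStrictOrderedRing K := IsOrderedRing.toIsStrictOrderedRing K
  have : Archimedean K := archimedean_of_algebraic K
  obtain ⟨f⟩ := (Real.nonemptyOrderRingHom K)
  exact ⟨f.toRingHom⟩

end RSSQ

theorem RSSQ_thm : Stmt_RSSQ := by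
  intro K _ _ htc
  by_contra hcon
  push Not at hcon
  have hpre : RSSQ.IsPre {y : K | IsSumSq y} := by
    refine ⟨?_, ?_, ?_, ?_⟩
    · intro x y hx hy
      exact IsSumSq.add hx hy
    · intro x y hx hy
      exact IsSumSq.mul hx hy
    · intro x
      exact IsSumSq.mul_self x
    · intro h
      have hex : ∀ y : K, IsSumSq y → ∃ (n : ℕ) (x : Fin n → K), ∑ i, x i ^ 2 = y := by
        intro y hy
        induction hy with
        | zero => exact ⟨0, fun _ => 0, by simp⟩
        | @sq_add a s hs ih =>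
          obtain ⟨n, x, hx⟩ := ih
          refine ⟨n + 1, Fin.cons a x, ?_⟩
          rw [Fin.sum_univ_succ, ← hx]
          simp [pow_two]
      obtain ⟨n, x, hx⟩ := hex _ h
      exact hcon n x hx
  obtain ⟨M, -, hM⟩ := RSSQ.exists_maximal _ hpre
  obtain ⟨f⟩ := RSSQ.exists_real_hom K hM
  refine IsTotallyComplex.complexEmbedding_not_isReal (Complex.ofRealHom.comp f) ?_
  rw [ComplexEmbedding.isReal_iff]
  ext x
  simp [ComplexEmbedding.conjugate]

end StarkC
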