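import Pool.Agent.Stark.RBasic

/-!
RTOR: the theorem of Artin and Schreier at a finite level, by compactness of the absolute Galois
group.
-/

open NumberField IsDedekindDomain
open scoped TensorProduct Classical

namespace StarkC

namespace RTOR

/-- the stabiliser of an algebraic element is closed -/
theorem stab_closed {K E : Type} [Field K] [Field E] [Algebra K E] [Algebra.IsIntegral K E]
    (x : E) : IsClosed {σ : E ≃ₐ[K] E | σ x = x} := by
  have h := (MulAction.stabilizer (E ≃ₐ[K] E) x).isClosed_of_isOpen
    (stabilizer_isOpen_of_isIntegral (K := K) x)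
  exact h

/-- the stabiliser of an algebraic element is open -/
theorem stab_open {K E : Type} [Field K] [Field E] [Algebra K E] [Algebra.IsIntegral K E]
    (x : E) : IsOpen {σ : E ≃ₐ[K] E | σ x = x} :=
  stabilizer_isOpen_of_isIntegral (K := K) x

/-- compactness -/
theorem exists_finset {K E : Type} [Field K] [Field E] [Algebra K E] [IsGalois K E] (e : ℕ)
    (hE : ∀ σ : E ≃ₐ[K] E, σ ^ e = 1 → σ = 1) (y : E) :
    ∃ t : Finset E, ∀ σ : E ≃ₐ[K] E, (∀ x ∈ t, (σ ^ e) x = x) → σ y = y := by
  have hA : IsCompact {σ : E ≃ₐ[K] E | σ y = y}ᶜ := (stab_open y).isClosed_compl.isCompact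
  obtain ⟨t, ht⟩ := hA.elim_finite_subfamily_closed
    (fun x : E => {σ : E ≃ₐ[K] E | (σ ^ e) x = x})
    (fun x => (stab_closed x).preimage (continuous_pow e)) (by
      rw [Set.eq_empty_iff_forall_notMem]
      rintro σ ⟨h1, h2⟩
      apply h1
      have h3 : σ ^ e = 1 := by
        ext x
        exact Set.mem_iInter.1 h2 x
      have h4 := hE σ h3
      rw [Set.mem_ofPred_eq, h4]
      rfl)
  refine ⟨t, fun σ hσ => ?_⟩
  by_contra h1
  rw [Set.eq_empty_iff_forall_notMem] at ht
  exact ht σ ⟨h1, Set.mem_iInter₂.2 hσ⟩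

end RTOR

/-- **RTOR** -/
theorem RTOR_thm (h : Stmt_RAS) : Stmt_RTOR := by
  intro K L _ _ _ _ _ _ hK e he
  let E := AlgebraicClosure K
  have hgal : IsGalois K E := inferInstance
  let ι : L →ₐ[K] E := IsAlgClosed.lift
  obtain ⟨θ, hθ⟩ := Field.exists_primitive_element K L
  obtain ⟨t, ht⟩ := RTOR.exists_finset (K := K) (E := E) e (fun σ hσ => h K hK σ e he hσ) (ι θ)
  let F : IntermediateField K E := IntermediateField.adjoin K ((insert (ι θ) t : Finset E) : Set E)
  have hF : FiniteDimensional K F := IntermediateField.finiteDimensional_adjoin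
    fun x _ => Algebra.IsIntegral.isIntegral x
  let N : IntermediateField K E := IntermediateField.normalClosure K F E
  have hFN : F ≤ N := IntermediateField.le_normalClosure F
  have hN : FiniteDimensional K N := inferInstance
  have hnf : NumberField N := NumberField.of_module_finite K N
  have hnn : Normal K N := inferInstance
  have hgn : IsGalois K N := ⟨⟩
  have hmem : ∀ x ∈ (insert (ι θ) t : Finset E), x ∈ N := fun x hx =>
    hFN (IntermediateField.subset_adjoin K _ (Finset.mem_coe.2 hx))
  have hL : ∀ x : L, ι x ∈ N := by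
    have h1 : (⊤ : IntermediateField K L) ≤ N.comap ι := by
      rw [← hθ, IntermediateField.adjoin_simple_le_iff]
      exact hmem _ (Finset.mem_insert_self _ _)
    intro x
    exact h1 (IntermediateField.mem_top (x := x))
  let j : L →ₐ[K] N := ι.codRestrict N.toSubalgebra hL
  let algLN : Algebra L N := j.toRingHom.toAlgebra
  have hst : IsScalarTower K L N := IsScalarTower.of_algebraMap_eq fun x => (j.commutes x).symm
  refine ⟨N, inferInstance, hnf, inferInstance, inferInstance, hst, hgn, fun σ hσ => ?_⟩
  obtain ⟨τ, hτ⟩ := AlgEquiv.restrictNormalHom_surjective (F := K) (K₁ := N) E σ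
  have hval : ∀ (ρ : E ≃ₐ[K] E) (x : N),
      ((AlgEquiv.restrictNormalHom N ρ x : N) : E) = ρ (x : E) := fun ρ x =>
    AlgEquiv.restrictNormal_commutes ρ N x
  have h2 : τ (ι θ) = ι θ := by
    apply ht τ
    intro x hx
    have hxN : x ∈ N := hmem x (Finset.mem_insert_of_mem hx)
    have h3 := hval (τ ^ e) ⟨x, hxN⟩
    rw [map_pow, hτ, hσ] at h3
    exact h3.symm
  have h4 : σ (algebraMap L N θ) = algebraMap L N θ := by
    apply Subtype.ext
    rw [← hτ]
    exact (hval τ (algebraMap L N θ)).trans h2
  have h5 : (AlgEquiv.restrictNormalHom L σ) θ = θ := by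
    apply (algebraMap L N).injective
    rw [← h4]
    exact AlgEquiv.restrictNormal_commutes σ L θ
  have h6 : (⊤ : IntermediateField K L) ≤
      IntermediateField.fixedField (Subgroup.zpowers (AlgEquiv.restrictNormalHom L σ)) := by
    rw [← hθ, IntermediateField.adjoin_simple_le_iff, IntermediateField.mem_fixedField_iff]
    intro g hg
    have h7 : Subgroup.zpowers (AlgEquiv.restrictNormalHom L σ) ≤
        MulAction.stabilizer (L ≃ₐ[K] L) θ := by
      rw [Subgroup.zpowers_le]
      exact h5
    exact h7 hg
  ext x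
  have h8 := h6 (IntermediateField.mem_top (x := x))
  rw [IntermediateField.mem_fixedField_iff] at h8
  exact h8 _ (Subgroup.mem_zpowers _)

end StarkC
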