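import Pool.Agent.Stark.RMAINN
import Pool.Agent.Stark.RPOLY
import Pool.Agent.Stark.RFKS
import Pool.Agent.Stark.RSSQ
import Pool.Agent.Stark.RAS
import Pool.Agent.Stark.RTOR
import Pool.Agent.Stark.RQE
import Pool.Agent.Stark.RKEY
import Pool.Agent.Stark.RFIN
import Pool.Agent.Stark.EPSN
import Pool.Agent.Stark.CMBN
import Pool.Agent.Stark.SOL
import Pool.Agent.Stark.MON
import Pool.Agent.Stark.BRA
import Pool.Agent.Stark.QE
import Pool.Agent.Stark.AR1
import Pool.Agent.Stark.AR2
import Pool.Agent.Stark.AR3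
import Pool.Agent.Stark.INFL
import Pool.Agent.Stark.IND
import Pool.Agent.Stark.LINF
import Pool.Agent.Stark.LIND
import Pool.Agent.Stark.LA
import Pool.Agent.Stark.LB
import Pool.Agent.Stark.LC
import Pool.Agent.Stark.TRD
import Pool.Agent.Stark.RTR
import Pool.Agent.Stark.RGT
import Pool.Agent.Stark.ND
import Pool.Agent.Stark.UNIT
import Pool.Agent.Stark.XRAT
import Pool.Agent.Stark.THB
import Pool.Agent.Stark.THC
import Pool.Agent.Stark.THE
import Pool.Agent.Stark.UDE
import Pool.Agent.Stark.IOT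
import Pool.Agent.Stark.STB

/-!
# Stark's conjecture, reduction of the ramification: all modules together
-/

open NumberField IsDedekindDomain
open scoped TensorProduct Classical

namespace StarkC

namespace RFULL

theorem lb : Stmt_LB := LB_thm LA_thm

theorem infl : Stmt_INFL :=
  INFL_thm ND_thm XRAT_thm UNIT_thm (THE_thm XRAT_thm UNIT_thm) IOT_thm UDE_thm STB_thm

theorem ind : Stmt_IND :=
  IND_thm LA_thm lb (LIND_thm LA_thm lb (LC_thm LA_thm)) TRD_thm (RGT_thm RTR_thm) STB_thm
    (THC_thm XRAT_thm) (THB_thm XRAT_thm UNIT_thm)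

theorem cmbn : Stmt_CMBN :=
  CMBN_thm SOL_thm (BRA_thm SOL_thm MON_thm) QE_thm AR1_thm AR2_thm AR3_thm

theorem mainn : Stmt_MAINN :=
  MAINN_thm cmbn infl ind (EPSN_thm infl ind LINF_thm) LINF_thm

theorem rkey : Stmt_RKEY :=
  RKEY_thm (RFKS_thm RPOLY_thm) (RTOR_thm (RAS_thm RSSQ_thm)) RQE_thm

end RFULL

/-- **The reduction of the ramification**, graded by the order. -/
theorem RMAINN_full : Stmt_RMAINN :=
  RMAINN_thm RFULL.mainn SOL_thm RFULL.rkey RFIN_thm RFULL.infl RFULL.ind LINF_thm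

end StarkC
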