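import Pool.Agent.Stark.RTC
import Pool.Agent.Stark.RDefsN
import Pool.Agent.Stark.MAINN

/-!
# Stark's conjecture, reduction of the ramification: the graded main theorem
-/

open NumberField IsDedekindDomain
open scoped TensorProduct Classical

namespace StarkC

/-- The graded main theorem: Stark's conjecture, restricted to representations whose image has an
exponent with 2-part dividing `2^n`, is equivalent to its restriction to the two classes. -/
def Stmt_RMAINN : Prop :=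
  ∀ (n : ℕ) (ε : ℝ) (T : Finset ℕ), 1 ≤ n → 0 < ε →
    (StarkConjectureN n ↔ StarkTotallyComplexRN n T ∧ StarkTwoPowerOddN n ε)

/-- The graded assembly over totally complex fields. -/
theorem RTCN_thm (hS : Stmt_SOL) (hK : Stmt_RKEY) (hF : Stmt_RFIN) (hI : Stmt_INFL)
    (hD : Stmt_IND) (hL : Stmt_LINF) (n : ℕ) (T : Finset ℕ) (hT : StarkTotallyComplexRN n T) :
    StarkTotallyComplexN n := by
  intro K L _ _ _ _ _ _ ψ hC hψ
  obtain ⟨m, hm, hψ⟩ := hψ
  exact RTC.reduce hS hK hF hI hD hL T K L ψ hC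
    fun F N _ _ _ _ _ _ χ hF' hpow hχ => hT F N χ hF' ⟨m, hm, hpow _ hψ⟩ hχ

theorem RMAINN_thm (hM : Stmt_MAINN) (hS : Stmt_SOL) (hK : Stmt_RKEY) (hF : Stmt_RFIN)
    (hI : Stmt_INFL) (hD : Stmt_IND) (hL : Stmt_LINF) : Stmt_RMAINN := by
  intro n ε T hn hε
  constructor
  · intro h
    obtain ⟨h1, h2⟩ := (hM n ε hn hε).1 h
    exact ⟨fun K L _ _ _ _ _ _ ψ hC hψ _ => h1 K L ψ hC hψ, h2⟩
  · rintro ⟨h1, h2⟩
    exact (hM n ε hn hε).2 ⟨RTCN_thm hS hK hF hI hD hL n T h1, h2⟩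

/-- The ungraded main theorem. -/
theorem RMAINR_thm (hM : Stmt_MAINE) (hS : Stmt_SOL) (hK : Stmt_RKEY) (hF : Stmt_RFIN)
    (hI : Stmt_INFL) (hD : Stmt_IND) (hL : Stmt_LINF) : Stmt_RMAINR := by
  intro T ε hε
  have h0 : StarkTotallyComplex ↔ StarkTotallyComplexR T :=
    ⟨fun h K L _ _ _ _ _ _ ψ hC _ => h K L ψ hC, RTC_thm hS hK hF hI hD hL T⟩
  refine ⟨h0, ?_⟩
  rw [← h0]
  exact hM ε hε

end StarkC
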