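import Pool.Agent.Stark.RStmts
import Pool.Agent.Stark.RBasic
import Pool.Agent.Stark.EPS

/-!
# Stark's conjecture, reduction of the ramification: the assembly over totally complex fields
-/

open NumberField IsDedekindDomain
open scoped TensorProduct Classical

namespace StarkC

/-- The condition on the linear character `ψ`: it has prime power order, or there is a rational
prime `l` such that `ψ` is unramified at all primes not above `l` and trivial on the decomposition
groups of all primes which lie above a prime number in `T` and not above `l`. -/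
def RCond (T : Finset ℕ) (K L : Type) [Field K] [NumberField K] [Field L] [NumberField L]
    [Algebra K L] (ψ : (L ≃ₐ[K] L) →* ℂˣ) : Prop :=
  (∃ p n : ℕ, p.Prime ∧ ψ ^ (p ^ n) = 1) ∨
    ∃ l : ℕ, l.Prime ∧
      (∀ w : HeightOneSpectrum (𝓞 L), (l : 𝓞 L) ∉ w.asIdeal →
        ∀ g : L ≃ₐ[K] L, FrobPow L w 1 g → ψ g = 1) ∧
      (∀ w : HeightOneSpectrum (𝓞 L), (l : 𝓞 L) ∉ w.asIdeal →
        (∃ p ∈ T, p.Prime ∧ (p : 𝓞 L) ∈ w.asIdeal) →
        ∀ g : L ≃ₐ[K] L, Dec w g → ψ g = 1)

namespace RTC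

theorem indFun_mul_char {G : Type} [Group G] [Fintype G] (H : Subgroup G) (χ : G →* ℂˣ) (g : G) :
    ((χ g : ℂˣ) : ℂ) * indFun H (fun _ => 1) g = indFun H (extZ (χ.comp H.subtype)) g := by
  unfold indFun
  rw [← mul_div_assoc, Finset.mul_sum]
  congr 1
  refine Finset.sum_congr rfl fun x _ => ?_
  split_ifs with h
  · rw [mul_one]
    unfold extZ
    rw [dif_pos h]
    show _ = ((χ (x⁻¹ * g * x) : ℂˣ) : ℂ)
    rw [map_mul, map_mul, map_inv, mul_right_comm, inv_mul_cancel, one_mul]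
  · rw [mul_zero]

/-- The reduction, for one character. -/
theorem reduce (hS : Stmt_SOL) (hK : Stmt_RKEY) (hF : Stmt_RFIN) (hI : Stmt_INFL)
    (hD : Stmt_IND) (hL : Stmt_LINF) (T : Finset ℕ)
    (K L : Type) [Field K] [NumberField K] [Field L] [NumberField L] [Algebra K L] [IsGalois K L]
    (ψ : (L ≃ₐ[K] L) →* ℂˣ) (hC : IsTotallyComplex K)
    (h : ∀ (F N : Type) [Field F] [NumberField F] [Field N] [NumberField N] [Algebra F N]
      [IsGalois F N] (χ : (N ≃ₐ[F] N) →* ℂˣ), IsTotallyComplex F →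
      (∀ m : ℕ, ψ ^ m = 1 → χ ^ m = 1) → RCond T F N χ → StarkLinear F N χ) :
    StarkLinear K L ψ := by
  intro S φ Θ σ hφ
  obtain ⟨W, hW⟩ := hF K L T
  obtain ⟨N, _, _, _, _, _, _, hN⟩ := hK K L ψ W hC
  obtain ⟨m, H, n, hQ, h1⟩ := hS (N ≃ₐ[K] N)
  let Ψ : (N ≃ₐ[K] N) →* ℂˣ := ψ.comp (AlgEquiv.restrictNormalHom L)
  refine SPARSE.of_comb hI hD hL S φ Θ ℂ ℂ (linRep ψ) (linRep (twist σ ψ)) σ hφ ?_ H
    (fun i => Ψ.comp (H i).subtype) n ?_ ?_
  · intro g
    rw [MAIN.linRep_character, MAIN.linRep_character]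
    rfl
  · intro g
    rw [MAIN.linRep_character]
    have h2 : ((ψ (AlgEquiv.restrictNormalHom L g) : ℂˣ) : ℂ) = ((Ψ g : ℂˣ) : ℂ) := rfl
    rw [h2]
    calc ((Ψ g : ℂˣ) : ℂ) = ((Ψ g : ℂˣ) : ℂ) * 1 := (mul_one _).symm
      _ = ((Ψ g : ℂˣ) : ℂ) * ∑ i, (n i : ℂ) * indFun (H i) (fun _ => 1) g := by rw [← h1 g]
      _ = ∑ i, (n i : ℂ) * indFun (H i) (extZ (Ψ.comp (H i).subtype)) g := by
        rw [Finset.mul_sum]
        refine Finset.sum_congr rfl fun i _ => ?_
        rw [← indFun_mul_char]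
        ring
  · intro i
    have hg : ∀ g : N ≃ₐ[IntermediateField.fixedField (H i)] N,
        liftChar (H i) (Ψ.comp (H i).subtype) g =
          ψ (AlgEquiv.restrictNormalHom L
            (((IntermediateField.subgroupEquivAlgEquiv (H i)).symm g : H i) : N ≃ₐ[K] N)) :=
      fun g => rfl
    have hfun : ∀ g : N ≃ₐ[IntermediateField.fixedField (H i)] N,
        (g : N → N) = (((IntermediateField.subgroupEquivAlgEquiv (H i)).symm g : H i) :
          N ≃ₐ[K] N) := by
      intro g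
      funext x
      exact (GOOD.symm_apply (H i) g x).symm
    have hF' : IsTotallyComplex (IntermediateField.fixedField (H i)) :=
      isTotallyComplex_of_algebra K _
    refine h (IntermediateField.fixedField (H i)) N _ hF' ?_ ?_
    · intro m hm
      ext g
      have h3 := DFunLike.congr_fun hm (AlgEquiv.restrictNormalHom L
        (((IntermediateField.subgroupEquivAlgEquiv (H i)).symm g : H i) : N ≃ₐ[K] N))
      have h4 : (liftChar (H i) (Ψ.comp (H i).subtype) ^ m) g = 1 := h3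
      rw [h4]
      rfl
    · rcases hN (H i) (hQ i) with ⟨p, k, hp, hk⟩ | ⟨l, hl, hk⟩
      · refine Or.inl ⟨p, k, hp, ?_⟩
        ext g
        have h3 := hk _ (SetLike.coe_mem ((IntermediateField.subgroupEquivAlgEquiv (H i)).symm g))
        have h4 : (liftChar (H i) (Ψ.comp (H i).subtype) ^ (p ^ k)) g = 1 := h3
        rw [h4]
        rfl
      · refine Or.inr ⟨l, hl, fun w hw g hgw => ?_, fun w hw hT g hgw => ?_⟩
        · rw [hg]
          rw [hfun] at hgw
          by_contra hne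
          refine hne (hk w (hW _ (Or.inl ⟨_, ?_, RB.frob_restrict (L := L) hgw⟩)) hw _
            (SetLike.coe_mem _) (RB.dec_of_frob hgw))
          intro h5
          rw [h5, map_one] at hne
          exact hne rfl
        · rw [hg]
          rw [hfun] at hgw
          refine hk w (hW _ (Or.inr ?_)) hw _ (SetLike.coe_mem _) hgw
          obtain ⟨p, hpT, hp, hpw⟩ := hT
          exact ⟨p, hpT, hp, (RB.natCast_mem_under w p).2 hpw⟩

end RTC

theorem RTC_thm (hS : Stmt_SOL) (hK : Stmt_RKEY) (hF : Stmt_RFIN) (hI : Stmt_INFL)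
    (hD : Stmt_IND) (hL : Stmt_LINF) : Stmt_RTC := by
  intro T hT K L _ _ _ _ _ _ ψ hC
  exact RTC.reduce hS hK hF hI hD hL T K L ψ hC
    fun F N _ _ _ _ _ _ χ hF' _ hχ => hT F N χ hF' hχ

end StarkC
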