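import Pool.Agent.Stark.Stmts

/-!
# Affine groups: the trivial character is a combination of characters induced from a point
stabiliser and from the group of translations
-/

open scoped Classical

namespace StarkC

namespace SPARSE

section Affine

variable {G : Type} [Group G] [Fintype G] {l : ℕ} [Fact l.Prime]

/-- The stabiliser of the point `0`. -/
def stab (e : G →* (ZMod l)ˣ) (b : G → ZMod l)
    (hb : ∀ x y, b (x * y) = b x + (e x : ZMod l) * b y) : Subgroup G where
  carrier := {x | b x = 0}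
  mul_mem' := by
    intro x y hx hy
    have hx' : b x = 0 := hx
    have hy' : b y = 0 := hy
    show b (x * y) = 0
    rw [hb, hx', hy']; ring
  one_mem' := by
    have := hb 1 1
    simpa using this
  inv_mem' := by
    intro x hx
    have hx' : b x = 0 := hx
    have h1 : b 1 = 0 := by have := hb 1 1; simpa using this
    have h2 := hb x⁻¹ x
    rw [inv_mul_cancel, h1, hx', mul_zero, add_zero] at h2
    exact h2.symm

theorem mem_stab (e : G →* (ZMod l)ˣ) (b : G → ZMod l)
    (hb : ∀ x y, b (x * y) = b x + (e x : ZMod l) * b y) (x : G) :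
    x ∈ stab e b hb ↔ b x = 0 := Iff.rfl

/-- The character `x ↦ exp (2 π i u b(x) / l)` of the group of translations. -/
noncomputable def omega (e : G →* (ZMod l)ˣ) (b : G → ZMod l)
    (hb : ∀ x y, b (x * y) = b x + (e x : ZMod l) * b y) (u : (ZMod l)ˣ) : e.ker →* ℂˣ :=
  MonoidHom.toHomUnits
    { toFun := fun x => ZMod.stdAddChar ((u : ZMod l) * b x)
      map_one' := by
        have h1 : b 1 = 0 := by have := hb 1 1; simpa using this
        simp [h1]
      map_mul' := by
        intro x y
        have hx : e (x : G) = 1 := x.2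
        have h2 := hb (x : G) (y : G)
        rw [hx] at h2
        rw [Subgroup.coe_mul, h2, Units.val_one, one_mul, mul_add, AddChar.map_add_eq_mul] }

theorem omega_apply (e : G →* (ZMod l)ˣ) (b : G → ZMod l)
    (hb : ∀ x y, b (x * y) = b x + (e x : ZMod l) * b y) (u : (ZMod l)ˣ) (x : e.ker) :
    ((omega e b hb u x : ℂˣ) : ℂ) = ZMod.stdAddChar ((u : ZMod l) * b x) := rfl

variable (e : G →* (ZMod l)ˣ) (b : G → ZMod l)
    (hb : ∀ x y, b (x * y) = b x + (e x : ZMod l) * b y)

include hb

theorem b_one : b 1 = 0 := by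
  have := hb 1 1
  simpa using this

theorem b_inv (x : G) : b x⁻¹ = -(((e x)⁻¹ : (ZMod l)ˣ) : ZMod l) * b x := by
  have h := hb x⁻¹ x
  rw [inv_mul_cancel, b_one e b hb, map_inv] at h
  linear_combination -h

theorem b_conj (g x : G) : b (x⁻¹ * g * x) =
    (((e x)⁻¹ : (ZMod l)ˣ) : ZMod l) * (b g + ((e g : ZMod l) - 1) * b x) := by
  rw [mul_assoc, hb, hb, b_inv e b hb, map_inv]
  ring

/-- sums over the group of functions of `b` -/
theorem sum_b (hs : Function.Surjective b) (F : ZMod l → ℂ) :
    ∑ x, F (b x) = (Nat.card (stab e b hb) : ℂ) * ∑ y, F y := by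
  have h0 := Finset.sum_comp (s := (Finset.univ : Finset G)) F b
  rw [h0]
  have h1 : (Finset.univ : Finset G).image b = Finset.univ :=
    Finset.image_univ_of_surjective hs
  rw [h1, Finset.mul_sum]
  refine Finset.sum_congr rfl fun y _ => ?_
  obtain ⟨x0, hx0⟩ := hs y
  have h2 : (Finset.univ.filter fun a : G => b a = y).card = Nat.card (stab e b hb) := by
    rw [Nat.card_eq_fintype_card, ← Finset.card_univ]
    symm
    refine Finset.card_bij (fun h _ => x0 * (h : G)) ?_ ?_ ?_
    · intro h _
      have hh : b (h : G) = 0 := h.2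
      simp [hb, hh, hx0]
    · intro h _ h' _ hhh
      exact Subtype.ext (mul_left_cancel hhh)
    · intro a ha
      simp only [Finset.mem_filter, Finset.mem_univ, true_and] at ha
      refine ⟨⟨x0⁻¹ * a, ?_⟩, Finset.mem_univ _, by simp⟩
      rw [mem_stab, hb, b_inv e b hb, map_inv, hx0, ha]
      ring
  rw [h2, nsmul_eq_mul]

omit hb in
/-- sums over the group of functions of `e` -/
theorem sum_e (F : (ZMod l)ˣ → ℂ) :
    ∑ x, F (e x) = (Nat.card e.ker : ℂ) * ∑ a : e.range, F a := by
  have h0 := Finset.sum_comp (s := (Finset.univ : Finset G)) (fun a : e.range => F a)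
    e.rangeRestrict
  have h00 : ∑ x, F (e x) = ∑ x : G, (fun a : e.range => F a) (e.rangeRestrict x) := rfl
  rw [h00, h0]
  have h1 : (Finset.univ : Finset G).image e.rangeRestrict = Finset.univ :=
    Finset.image_univ_of_surjective e.rangeRestrict_surjective
  rw [h1, Finset.mul_sum]
  refine Finset.sum_congr rfl fun y _ => ?_
  obtain ⟨x0, hx0⟩ := e.rangeRestrict_surjective y
  have h2 : (Finset.univ.filter fun a : G => e.rangeRestrict a = y).card = Nat.card e.ker := by
    rw [Nat.card_eq_fintype_card, ← Finset.card_univ]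
    symm
    refine Finset.card_bij (fun h _ => x0 * (h : G)) ?_ ?_ ?_
    · intro h _
      have hh : e.rangeRestrict (h : G) = 1 := by
        apply Subtype.ext
        exact h.2
      simp [hh, hx0]
    · intro h _ h' _ hhh
      exact Subtype.ext (mul_left_cancel hhh)
    · intro a ha
      simp only [Finset.mem_filter, Finset.mem_univ, true_and] at ha
      refine ⟨⟨x0⁻¹ * a, ?_⟩, Finset.mem_univ _, by simp⟩
      rw [MonoidHom.mem_ker]
      have : e.rangeRestrict (x0⁻¹ * a) = 1 := by
        rw [map_mul, map_inv, hx0, ha, inv_mul_cancel]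
      exact congrArg Subtype.val this
  rw [h2, nsmul_eq_mul]

/-- the permutation character -/
theorem ind_stab (hs : Function.Surjective b) (g : G) :
    indFun (stab e b hb) (fun _ => 1) g =
      ∑ y : ZMod l, if b g + ((e g : ZMod l) - 1) * y = 0 then (1 : ℂ) else 0 := by
  unfold indFun
  have h1 : ∀ x : G, (x⁻¹ * g * x ∈ stab e b hb) ↔ b g + ((e g : ZMod l) - 1) * b x = 0 := by
    intro x
    rw [mem_stab, b_conj e b hb]
    constructor
    · intro h
      rcases mul_eq_zero.1 h with h | h
      · exact absurd h (Units.ne_zero _)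
      · exact h
    · intro h
      rw [h, mul_zero]
  simp only [h1]
  rw [sum_b e b hb hs (fun y => if b g + ((e g : ZMod l) - 1) * y = 0 then (1 : ℂ) else 0)]
  have hc : (Nat.card (stab e b hb) : ℂ) ≠ 0 := by
    exact_mod_cast Nat.card_pos.ne'
  rw [mul_comm, mul_div_assoc, div_self hc, mul_one]

/-- the characters induced from the translations -/
theorem ind_ker (u : (ZMod l)ˣ) (g : G) :
    indFun e.ker (extZ (omega e b hb u)) g =
      if e g = 1 then ∑ a : e.range, ZMod.stdAddChar ((u : ZMod l) * ((a : (ZMod l)ˣ) : ZMod l)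
        * b g) else 0 := by
  unfold indFun
  have h1 : ∀ x : G, (x⁻¹ * g * x ∈ e.ker) ↔ e g = 1 := by
    intro x
    rw [MonoidHom.mem_ker, map_mul, map_mul, map_inv, mul_comm, ← mul_assoc, mul_inv_cancel,
      one_mul]
  split_ifs with hg
  · have h2 : ∀ x : G, extZ (omega e b hb u) (x⁻¹ * g * x) =
        ZMod.stdAddChar ((u : ZMod l) * ((e x⁻¹ : (ZMod l)ˣ) : ZMod l) * b g) := by
      intro x
      unfold extZ
      rw [dif_pos ((h1 x).2 hg), omega_apply]
      congr 1
      show (u : ZMod l) * b (x⁻¹ * g * x) = _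
      rw [b_conj e b hb, hg, Units.val_one, map_inv]
      ring
    have h4 : ∀ x : G, (if x⁻¹ * g * x ∈ e.ker then extZ (omega e b hb u) (x⁻¹ * g * x) else 0) =
        ZMod.stdAddChar ((u : ZMod l) * ((e x⁻¹ : (ZMod l)ˣ) : ZMod l) * b g) := by
      intro x
      rw [if_pos ((h1 x).2 hg), h2]
    trans (∑ x : G, (ZMod.stdAddChar ((u : ZMod l) * ((e x⁻¹ : (ZMod l)ˣ) : ZMod l) * b g) : ℂ)) /
      (Nat.card e.ker : ℂ)
    · congr 1
      refine Finset.sum_congr rfl fun x _ => ?_
      rw [← h2 x]
      exact if_pos ((h1 x).2 hg)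
    have h3 : ∑ x : G, ZMod.stdAddChar ((u : ZMod l) * ((e x⁻¹ : (ZMod l)ˣ) : ZMod l) * b g) =
        ∑ x : G, ZMod.stdAddChar ((u : ZMod l) * ((e x : (ZMod l)ˣ) : ZMod l) * b g) :=
      Fintype.sum_equiv (Equiv.inv G) _ _ fun x => rfl
    rw [h3, sum_e e (fun a => ZMod.stdAddChar ((u : ZMod l) * (a : ZMod l) * b g))]
    have hc : (Nat.card e.ker : ℂ) ≠ 0 := by
      exact_mod_cast Nat.card_pos.ne'
    rw [mul_comm, mul_div_assoc, div_self hc, mul_one]
  · rw [Finset.sum_eq_zero, zero_div]
    intro x _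
    rw [if_neg fun h => hg ((h1 x).1 h)]

omit hb in
/-- the sum over all units -/
theorem sum_units (y : ZMod l) : ∑ v : (ZMod l)ˣ, (ZMod.stdAddChar ((v : ZMod l) * y) : ℂ) =
    (if y = 0 then (l : ℂ) else 0) - 1 := by
  have h1 : ∑ x : ZMod l, (ZMod.stdAddChar (x * y) : ℂ) = if y = 0 then (l : ℂ) else 0 := by
    have := AddChar.sum_mulShift (R := ZMod l) (R' := ℂ) y
      (ZMod.isPrimitive_stdAddChar l)
    rw [this]
    simp [ZMod.card]
  rw [← h1]
  have h2 : ∑ x : ZMod l, (ZMod.stdAddChar (x * y) : ℂ) =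
      ∑ x ∈ Finset.univ.filter (fun x : ZMod l => x ≠ 0), (ZMod.stdAddChar (x * y) : ℂ) + 1 := by
    rw [← Finset.sum_filter_add_sum_filter_not Finset.univ (fun x : ZMod l => x ≠ 0)]
    congr 1
    have : (Finset.univ.filter fun x : ZMod l => ¬ x ≠ 0) = {0} := by
      ext x; simp
    rw [this, Finset.sum_singleton, zero_mul, AddChar.map_zero_eq_one]
  rw [h2, add_sub_cancel_right]
  refine Finset.sum_bij (fun (v : (ZMod l)ˣ) _ => (v : ZMod l)) ?_ ?_ ?_ ?_
  · intro v _
    simp
  · intro v _ w _ h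
    exact Units.ext h
  · intro x hx
    have hx' : x ≠ 0 := by simpa using hx
    exact ⟨Units.mk0 x hx', Finset.mem_univ _, rfl⟩
  · intro v _
    rfl

/-- **the relation in the affine group** -/
theorem affine_rel (hs : Function.Surjective b) (g : G) :
    (1 : ℂ) = indFun (stab e b hb) (fun _ => 1) g -
      ∑ q : (ZMod l)ˣ ⧸ e.range, indFun e.ker (extZ (omega e b hb (Quotient.out q))) g := by
  rw [ind_stab e b hb hs]
  simp only [ind_ker e b hb]
  by_cases hg : e g = 1
  · simp only [hg, if_true]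
    have h1 : ∑ q : (ZMod l)ˣ ⧸ e.range, ∑ a : e.range,
        (ZMod.stdAddChar (((Quotient.out q : (ZMod l)ˣ) : ZMod l) * ((a : (ZMod l)ˣ) : ZMod l)
          * b g) : ℂ) = ∑ v : (ZMod l)ˣ, (ZMod.stdAddChar ((v : ZMod l) * b g) : ℂ) := by
      rw [← Fintype.sum_prod_type']
      refine Fintype.sum_bijective (fun p : ((ZMod l)ˣ ⧸ e.range) × e.range =>
        Quotient.out p.1 * (p.2 : (ZMod l)ˣ)) ?_ _ _ ?_
      · constructor
        · rintro ⟨q, a⟩ ⟨q', a'⟩ h
          have h' : Quotient.out q * (a : (ZMod l)ˣ) = Quotient.out q' * (a' : (ZMod l)ˣ) := h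
          have hq : q = q' := by
            have e1 : ((Quotient.out q * (a : (ZMod l)ˣ) : (ZMod l)ˣ) : (ZMod l)ˣ ⧸ e.range) = q := by
              rw [QuotientGroup.mk_mul_of_mem _ a.2]
              exact Quotient.out_eq' q
            have e2 : ((Quotient.out q' * (a' : (ZMod l)ˣ) : (ZMod l)ˣ) : (ZMod l)ˣ ⧸ e.range)
                = q' := by
              rw [QuotientGroup.mk_mul_of_mem _ a'.2]
              exact Quotient.out_eq' q'
            rw [← e1, ← e2, h']
          subst hq
          have ha : a = a' := Subtype.ext (mul_left_cancel h')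
          rw [ha]
        · intro v
          refine ⟨((v : (ZMod l)ˣ ⧸ e.range), ⟨(Quotient.out (v : (ZMod l)ˣ ⧸ e.range))⁻¹ * v,
            ?_⟩), ?_⟩
          · rw [← QuotientGroup.eq]
            exact Quotient.out_eq' _
          · simp
      · rintro ⟨q, a⟩
        simp [mul_assoc]
    rw [h1, sum_units]
    have h2 : ∀ y : ZMod l, b g + (((1 : (ZMod l)ˣ) : ZMod l) - 1) * y = b g := by
      intro y; simp
    simp only [h2]
    by_cases hbg : b g = 0
    · simp [hbg, ZMod.card]
    · simp [hbg]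
  · simp only [hg, if_false, Finset.sum_const_zero, sub_zero]
    have hne : ((e g : (ZMod l)ˣ) : ZMod l) - 1 ≠ 0 := by
      intro h
      apply hg
      apply Units.ext
      rw [Units.val_one]
      linear_combination h
    have h3 : ∀ y : ZMod l, (b g + ((e g : ZMod l) - 1) * y = 0) ↔
        y = -b g / ((e g : ZMod l) - 1) := by
      intro y
      rw [eq_div_iff hne]
      constructor
      · intro h; linear_combination h
      · intro h; linear_combination h
    simp only [h3]
    simp

omit [Fintype G] hb in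
/-- the restriction of a linear character, extended by zero -/
theorem extZ_comp {H : Subgroup G} (ψ : G →* ℂˣ) {g : G} (hg : g ∈ H) :
    extZ (ψ.comp H.subtype) g = ((ψ g : ℂˣ) : ℂ) := by
  unfold extZ
  rw [dif_pos hg]
  rfl

omit [Fintype G] hb in
theorem extZ_mul {H : Subgroup G} (ψ ω : H →* ℂˣ) (g : G) :
    extZ (ψ * ω) g = extZ ψ g * extZ ω g := by
  unfold extZ
  split_ifs with h
  · simp
  · simp

omit hb in
theorem ind_mul {H : Subgroup G} (ψ : G →* ℂˣ) (f : G → ℂ) (f' : G → ℂ)
    (hf : ∀ x ∈ H, f x = ((ψ x : ℂˣ) : ℂ) * f' x) (g : G) :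
    indFun H f g = ((ψ g : ℂˣ) : ℂ) * indFun H f' g := by
  unfold indFun
  rw [← mul_div_assoc, Finset.mul_sum]
  congr 1
  refine Finset.sum_congr rfl fun x _ => ?_
  split_ifs with h
  · rw [hf _ h]
    congr 2
    rw [map_mul, map_mul, map_inv, mul_comm, ← mul_assoc, mul_inv_cancel, one_mul]
  · simp

/-- **the relation for a linear character** -/
theorem affine_psi (hs : Function.Surjective b) (ψ : G →* ℂˣ) (g : G) :
    ((ψ g : ℂˣ) : ℂ) = indFun (stab e b hb) (extZ (ψ.comp (stab e b hb).subtype)) g -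
      ∑ q : (ZMod l)ˣ ⧸ e.range,
        indFun e.ker (extZ (ψ.comp e.ker.subtype * omega e b hb (Quotient.out q))) g := by
  rw [ind_mul ψ (extZ (ψ.comp (stab e b hb).subtype)) (fun _ => 1)
    (fun x hx => by rw [extZ_comp ψ hx, mul_one]) g]
  have h1 : ∀ q : (ZMod l)ˣ ⧸ e.range,
      indFun e.ker (extZ (ψ.comp e.ker.subtype * omega e b hb (Quotient.out q))) g =
        ((ψ g : ℂˣ) : ℂ) * indFun e.ker (extZ (omega e b hb (Quotient.out q))) g := by
    intro q
    refine ind_mul ψ _ _ (fun x hx => ?_) g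
    rw [extZ_mul, extZ_comp ψ hx]
  rw [Finset.sum_congr rfl fun q _ => h1 q, ← Finset.mul_sum, ← mul_sub,
    ← affine_rel e b hb hs g, mul_one]

end Affine

end SPARSE

end StarkC
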