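import Pool.Agent.Stark.Stmts
import Pool.Agent.Stark.DefsE

/-!
# Reduction of Stark's conjecture: base fields with few real places
-/

open NumberField IsDedekindDomain
open scoped TensorProduct Classical

namespace StarkC

/-- `ψ` belongs to one of the two basic cases, with few real places in the second one. -/
def GoodE (ε : ℝ) {K N : Type} [Field K] [NumberField K] [Field N] [NumberField N] [Algebra K N]
    (H : Subgroup (N ≃ₐ[K] N)) (ψ : H →* ℂˣ) : Prop :=
  (∀ c ∈ H, ¬ IsCC c) ∨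
    ((InfinitePlace.nrRealPlaces (IntermediateField.fixedField H) : ℝ) ≤
        ε * (Module.finrank ℚ (IntermediateField.fixedField H) : ℝ) ∧
      (∃ n : ℕ, ψ ^ (2 ^ n) = 1) ∧ ∀ c : H, IsCC (c : N ≃ₐ[K] N) → ((ψ c : ℂˣ) : ℂ) = -1)

/-- The algebraic part of the reduction, with few real places. -/
def Stmt_CMBE : Prop :=
  ∀ (ε : ℝ), 0 < ε →
  ∀ (K L : Type) [Field K] [NumberField K] [Field L] [NumberField L] [Algebra K L] [IsGalois K L]
    (V : Type) [AddCommGroup V] [Module ℂ V] [Module.Finite ℂ V]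
    (ρ : Representation ℂ (L ≃ₐ[K] L) V),
    ∃ (N : Type) (_ : Field N) (_ : NumberField N) (_ : Algebra K N)
      (_ : Algebra L N) (_ : IsScalarTower K L N) (_ : IsGalois K N)
      (m : ℕ) (H : Fin m → Subgroup (N ≃ₐ[K] N)) (ψ : ∀ i, H i →* ℂˣ) (n : Fin m → ℤ),
      (∀ i, GoodE ε (H i) (ψ i)) ∧
      ∀ g : N ≃ₐ[K] N, ρ.character (AlgEquiv.restrictNormalHom L g) =
        ∑ i, (n i : ℂ) * indFun (H i) (extZ (ψ i)) g

/-- The main theorem. -/
def Stmt_MAINE : Prop :=
  ∀ ε : ℝ, 0 < ε → (StarkConjecture ↔ StarkTotallyComplex ∧ StarkTwoPowerOddE ε)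

end StarkC
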