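import Pool.Agent.Stark.Stmts
import Pool.Agent.Stark.DefsN

/-!
# Reduction of Stark's conjecture: refined statements
-/

open NumberField IsDedekindDomain
open scoped TensorProduct Classical

namespace StarkC

/-- `ψ` belongs to one of the two basic cases, with orders bounded in terms of `n`. -/
def GoodN (n : ℕ) {K N : Type} [Field K] [Field N] [Algebra K N] (H : Subgroup (N ≃ₐ[K] N))
    (ψ : H →* ℂˣ) : Prop :=
  ((∀ c ∈ H, ¬ IsCC c) ∧ ∃ m : ℕ, Odd m ∧ ψ ^ (2 ^ n * m) = 1) ∨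
    (ψ ^ (2 ^ n) = 1 ∧ ∀ c : H, IsCC (c : N ≃ₐ[K] N) → ((ψ c : ℂˣ) : ℂ) = -1)

/-- The algebraic part of the reduction, refined. -/
def Stmt_CMBN : Prop :=
  ∀ (n : ℕ), 1 ≤ n →
  ∀ (K L : Type) [Field K] [NumberField K] [Field L] [NumberField L] [Algebra K L] [IsGalois K L]
    (V : Type) [AddCommGroup V] [Module ℂ V] [Module.Finite ℂ V]
    (ρ : Representation ℂ (L ≃ₐ[K] L) V),
    (∀ g : L ≃ₐ[K] L, ∃ m : ℕ, Odd m ∧ ρ (g ^ (2 ^ n * m)) = 1) →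
    ∃ (N : Type) (_ : Field N) (_ : NumberField N) (_ : Algebra K N)
      (_ : Algebra L N) (_ : IsScalarTower K L N) (_ : IsGalois K N)
      (m : ℕ) (H : Fin m → Subgroup (N ≃ₐ[K] N)) (ψ : ∀ i, H i →* ℂˣ) (c : Fin m → ℤ),
      (∀ i, GoodN n (H i) (ψ i)) ∧
      ∀ g : N ≃ₐ[K] N, ρ.character (AlgEquiv.restrictNormalHom L g) =
        ∑ i, (c i : ℂ) * indFun (H i) (extZ (ψ i)) g

/-- Few real places suffice in the second case. -/
def Stmt_EPSN : Prop :=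
  ∀ (n : ℕ) (ε : ℝ), 0 < ε → StarkTotallyComplexN n → StarkTwoPowerOddN n ε →
    ∀ (K L : Type) [Field K] [NumberField K] [Field L] [NumberField L] [Algebra K L] [IsGalois K L]
      (ψ : (L ≃ₐ[K] L) →* ℂˣ), ψ ^ (2 ^ n) = 1 →
      (∀ (Φ : L →+* ℂ) (c : L ≃ₐ[K] L), ComplexEmbedding.IsConj Φ c → (ψ c : ℂ) = -1) →
      StarkLinear K L ψ

/-- The main theorem. -/
def Stmt_MAINN : Prop :=
  ∀ (n : ℕ) (ε : ℝ), 1 ≤ n → 0 < ε →
    (StarkConjectureN n ↔ StarkTotallyComplexN n ∧ StarkTwoPowerOddN n ε)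

end StarkC
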